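import Mathlib
set_option autoImplicit false

namespace Pool.Agent.H240R3.Ch

open Finset Polynomial

/-- matching polynomials of complete graphs (Hermite polynomials with positive signs). -/
noncomputable def Hm : ℕ → ℝ[X]
  | 0 => 1
  | (m + 1) => X * Hm m + derivative (Hm m)

/-- number of fixed points -/
def fx {α : Type*} [Fintype α] [DecidableEq α] (σ : Equiv.Perm α) : ℕ :=
  (univ.filter (fun v => σ v = v)).card

/-- involutions -/
def invs (α : Type*) [Fintype α] [DecidableEq α] : Finset (Equiv.Perm α) :=
  univ.filter (fun σ => ∀ v, σ (σ v) = v)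

noncomputable def Ip (α : Type*) [Fintype α] [DecidableEq α] : ℝ[X] :=
  ∑ σ ∈ invs α, X ^ (fx σ)

theorem fx_congr {α β : Type*} [Fintype α] [DecidableEq α] [Fintype β] [DecidableEq β] (e : α ≃ β)
    (σ : Equiv.Perm α) : fx (e.permCongr σ) = fx σ := by
  unfold fx
  symm
  apply Finset.card_bij (fun v _ => e v)
  · intro v hv
    simp only [mem_filter, mem_univ, true_and] at hv ⊢
    simp [Equiv.permCongr_apply, hv]
  · intro a _ b _ h
    exact e.injective h
  · intro w hw
    have hw2 := (Finset.mem_filter.1 hw).2
    rw [Equiv.permCongr_apply] at hw2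
    refine ⟨e.symm w, ?_, by simp⟩
    simp only [mem_filter, mem_univ, true_and]
    apply e.injective
    rw [hw2]; simp

theorem Ip_congr {α β : Type*} [Fintype α] [DecidableEq α] [Fintype β] [DecidableEq β] (e : α ≃ β) :
    Ip α = Ip β := by
  unfold Ip
  apply Finset.sum_bij (fun σ _ => e.permCongr σ)
  · intro σ hσ
    simp only [invs, mem_filter, mem_univ, true_and] at hσ ⊢
    intro v
    simp [Equiv.permCongr_apply, hσ]
  · intro a _ b _ h
    exact e.permCongr.injective h
  · intro τ hτ
    refine ⟨e.permCongr.symm τ, ?_, Equiv.apply_symm_apply _ _⟩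
    simp only [invs, mem_filter, mem_univ, true_and] at hτ ⊢
    intro v
    simp [Equiv.permCongr_symm, Equiv.permCongr_apply, hτ]
  · intro σ _
    rw [fx_congr]

theorem fx_option {α : Type*} [Fintype α] [DecidableEq α] (σ : Equiv.Perm (Option α)) :
    fx σ = (if σ none = none then 1 else 0) + ∑ b : α, (if σ (some b) = some b then 1 else 0) := by
  unfold fx
  rw [Finset.card_filter, Fintype.sum_option]

theorem fx_sum {α : Type*} [Fintype α] [DecidableEq α] (σ : Equiv.Perm α) :
    fx σ = ∑ b : α, (if σ b = b then 1 else 0) := by
  unfold fx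
  rw [Finset.card_filter]

theorem Ip_option (α : Type*) [Fintype α] [DecidableEq α] :
    Ip (Option α) = X * Ip α + derivative (Ip α) := by
  have h1 : Ip (Option α) = ∑ x : Option α × Equiv.Perm α,
      (if ∀ v, (Equiv.Perm.decomposeOption.symm x) ((Equiv.Perm.decomposeOption.symm x) v) = v then
        (X : ℝ[X]) ^ (fx (Equiv.Perm.decomposeOption.symm x)) else 0) := by
    unfold Ip invs
    rw [Finset.sum_filter]
    symm
    exact Fintype.sum_equiv (Equiv.Perm.decomposeOption.symm) _ _ (fun x => rfl)
  rw [h1, Fintype.sum_prod_type, Fintype.sum_option]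
  have hnone : ∀ τ : Equiv.Perm α, (if ∀ v, (Equiv.Perm.decomposeOption.symm ((none : Option α), τ))
      ((Equiv.Perm.decomposeOption.symm ((none : Option α), τ)) v) = v then
        (X : ℝ[X]) ^ (fx (Equiv.Perm.decomposeOption.symm ((none : Option α), τ))) else 0) =
      (if ∀ v, τ (τ v) = v then X * X ^ (fx τ) else 0) := by
    intro τ
    have e1 : ∀ v, Equiv.Perm.decomposeOption.symm ((none : Option α), τ) v = Option.map τ v := by
      intro v
      simp
    have e2 : (∀ v, (Equiv.Perm.decomposeOption.symm ((none : Option α), τ))
      ((Equiv.Perm.decomposeOption.symm ((none : Option α), τ)) v) = v) ↔ (∀ v, τ (τ v) = v) := by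
      constructor
      · intro h v
        have := h (some v)
        rw [e1, e1] at this
        simpa using this
      · intro h v
        rw [e1, e1]
        cases v with
        | none => rfl
        | some v => simp [h v]
    have e3 : fx (Equiv.Perm.decomposeOption.symm ((none : Option α), τ)) = 1 + fx τ := by
      rw [fx_option, fx_sum]
      simp only [e1]
      simp
    simp only [e2, e3]
    split_ifs
    · rw [pow_add, pow_one]
    · rfl
  have hsome : ∀ (a : α) (τ : Equiv.Perm α), (if ∀ v, (Equiv.Perm.decomposeOption.symm ((some a : Option α), τ))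
      ((Equiv.Perm.decomposeOption.symm ((some a : Option α), τ)) v) = v then
        (X : ℝ[X]) ^ (fx (Equiv.Perm.decomposeOption.symm ((some a : Option α), τ))) else 0) =
      (if ∀ v, τ (τ v) = v then (if τ a = a then X ^ (fx τ - 1) else 0) else 0) := by
    intro a τ
    have e0 : Equiv.Perm.decomposeOption.symm ((some a : Option α), τ) none = some a := by
      simp
    have e1 : ∀ v, Equiv.Perm.decomposeOption.symm ((some a : Option α), τ) (some v) =
        if τ v = a then none else some (τ v) := by
      intro v
      simp only [Equiv.Perm.decomposeOption_symm_apply, Equiv.Perm.coe_mul, Function.comp_apply,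
        Equiv.optionCongr_apply, Option.map_some]
      split_ifs with h
      · rw [h]; simp
      · rw [Equiv.swap_apply_of_ne_of_ne]
        · simp
        · intro hh
          exact h (by simpa using hh)
    have e2 : (∀ v, (Equiv.Perm.decomposeOption.symm ((some a : Option α), τ))
      ((Equiv.Perm.decomposeOption.symm ((some a : Option α), τ)) v) = v) ↔ ((∀ v, τ (τ v) = v) ∧ τ a = a) := by
      constructor
      · intro h
        have ha : τ a = a := by
          have := h none
          rw [e0, e1] at this
          by_contra hc
          rw [if_neg hc] at this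
          simp at this
        refine ⟨?_, ha⟩
        intro v
        by_cases hv : τ v = a
        · have : v = a := τ.injective (by rw [hv, ha])
          subst this
          rw [ha, ha]
        · have := h (some v)
          rw [e1, if_neg hv, e1] at this
          by_cases hv2 : τ (τ v) = a
          · rw [if_pos hv2] at this
            simp at this
          · rw [if_neg hv2] at this
            simpa using this
      · rintro ⟨h, ha⟩ v
        cases v with
        | none => rw [e0, e1, if_pos ha]
        | some v =>
          rw [e1]
          split_ifs with hv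
          · rw [e0]
            have : v = a := τ.injective (by rw [hv, ha])
            rw [this]
          · rw [e1, if_neg]
            · rw [h v]
            · rw [h v]
              intro hva
              rw [hva, ha] at hv
              exact hv rfl
    by_cases hinv : ∀ v, τ (τ v) = v
    · by_cases ha : τ a = a
      · rw [if_pos (e2.2 ⟨hinv, ha⟩), if_pos hinv, if_pos ha]
        congr 1
        rw [fx_option, e0]
        simp only [e1]
        have e4 : ∀ b : α, (if (if τ b = a then (none : Option α) else some (τ b)) = some b then 1 else 0) =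
            (if τ b = b then 1 else 0) - (if b = a then 1 else 0) := by
          intro b
          by_cases hb : b = a
          · subst hb
            simp [ha]
          · have hne : τ b ≠ a := by
              intro hh
              exact hb (τ.injective (by rw [hh, ha]))
            simp [hne, hb]
        have e5 : ∑ b : α, (if (if τ b = a then (none : Option α) else some (τ b)) = some b then 1 else 0) + 1 = fx τ := by
          rw [fx_sum]
          have e6 : ∀ b : α, (if τ b = b then 1 else 0) =
              (if (if τ b = a then (none : Option α) else some (τ b)) = some b then 1 else 0) + (if b = a then 1 else 0) := by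
            intro b
            by_cases hb : b = a
            · subst hb
              simp [ha]
            · have hne : τ b ≠ a := by
                intro hh
                exact hb (τ.injective (by rw [hh, ha]))
              simp [hne, hb]
          rw [Finset.sum_congr rfl (fun b _ => e6 b), Finset.sum_add_distrib]
          simp
        simp only [reduceCtorEq, if_false]
        omega
      · rw [if_neg (fun h => ha (e2.1 h).2), if_pos hinv, if_neg ha]
    · rw [if_neg (fun h => hinv (e2.1 h).1), if_neg hinv]
  simp only [hnone, hsome]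
  have hA : ∑ τ : Equiv.Perm α, (if ∀ v, τ (τ v) = v then (X : ℝ[X]) * X ^ (fx τ) else 0) = X * Ip α := by
    unfold Ip invs
    rw [Finset.sum_filter, Finset.mul_sum]
    apply Finset.sum_congr rfl
    intro τ _
    split_ifs <;> simp
  have hB : ∑ a : α, ∑ τ : Equiv.Perm α, (if ∀ v, τ (τ v) = v then (if τ a = a then (X : ℝ[X]) ^ (fx τ - 1) else 0) else 0)
      = derivative (Ip α) := by
    rw [Finset.sum_comm]
    unfold Ip invs
    rw [derivative_sum, Finset.sum_filter]
    apply Finset.sum_congr rfl
    intro τ _
    split_ifs with h
    · rw [← Finset.sum_filter, Finset.sum_const, derivative_X_pow]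
      simp [fx]
    · simp
  rw [hA, hB]

theorem Ip_fin (m : ℕ) : Ip (Fin m) = Hm m := by
  induction m with
  | zero =>
    unfold Ip invs
    simp [Hm, fx]
  | succ m ih =>
    rw [Ip_congr (finSuccEquiv m), Ip_option, ih]
    rfl

theorem Ip_eq (α : Type*) [Fintype α] [DecidableEq α] : Ip α = Hm (Fintype.card α) := by
  rw [Ip_congr (Fintype.equivFin α), Ip_fin]

theorem Hm_deriv (m : ℕ) : derivative (Hm (m + 1)) = C ((m : ℝ) + 1) * Hm m := by
  induction m with
  | zero =>
    simp [Hm]
  | succ m ih =>
    have h1 : Hm (m + 1 + 1) = X * Hm (m + 1) + derivative (Hm (m + 1)) := rfl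
    rw [h1, derivative_add, derivative_mul, derivative_X, one_mul, ih, derivative_mul, derivative_C, zero_mul,
      zero_add]
    have h2 : X * (C ((m : ℝ) + 1) * Hm m) + C ((m : ℝ) + 1) * derivative (Hm m) =
        C ((m : ℝ) + 1) * Hm (m + 1) := by
      have : Hm (m + 1) = X * Hm m + derivative (Hm m) := rfl
      rw [this]; ring
    rw [add_assoc, h2]
    have h3 : (C (((m + 1 : ℕ) : ℝ) + 1) : ℝ[X]) = C ((m : ℝ) + 1) + 1 := by
      push_cast
      rw [map_add, map_one]
    rw [h3]
    ring

/-- value -/
noncomputable def hv (m : ℕ) (y : ℝ) : ℝ := (Hm m).eval y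

theorem hv_zero (y : ℝ) : hv 0 y = 1 := by simp [hv, Hm]
theorem hv_one (y : ℝ) : hv 1 y = y := by simp [hv, Hm]
theorem hv_rec (m : ℕ) (y : ℝ) : hv (m + 2) y = y * hv (m + 1) y + ((m : ℝ) + 1) * hv m y := by
  unfold hv
  have h1 : Hm (m + 2) = X * Hm (m + 1) + derivative (Hm (m + 1)) := rfl
  rw [h1, Hm_deriv]
  simp

theorem hv_eq (α : Type*) [Fintype α] [DecidableEq α] (y : ℝ) :
    ∑ σ ∈ invs α, y ^ (fx σ) = hv (Fintype.card α) y := by
  unfold hv
  rw [← Ip_eq α]
  unfold Ip
  rw [eval_finsetSum]
  simp

theorem hv_nonneg (m : ℕ) {y : ℝ} (hy : 0 ≤ y) : 0 ≤ hv m y := by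
  have h := hv_eq (Fin m) y
  rw [Fintype.card_fin] at h
  rw [← h]
  exact Finset.sum_nonneg (fun σ _ => pow_nonneg hy _)

theorem hv_two_le (m : ℕ) {y : ℝ} (hy : 0 ≤ y) : ((m : ℝ) + 1) * hv m y ≤ hv (m + 2) y := by
  rw [hv_rec]
  have := mul_nonneg hy (hv_nonneg (m + 1) hy)
  linarith

end Pool.Agent.H240R3.Ch
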