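import Mathlib
set_option autoImplicit false

namespace Pool.Agent.H240R3.Ch

open Finset

/-- explicit permanent -/
def P9 (a1 a2 a3 b1 b2 b3 c1 c2 c3 : ℝ) : ℝ :=
  a1 * (b2 * c3 + b3 * c2) + a2 * (b1 * c3 + b3 * c1) + a3 * (b1 * c2 + b2 * c1)

/-- the deficit of a pair of unit rows. -/
noncomputable def D6 (a1 a2 a3 b1 b2 b3 : ℝ) : ℝ :=
  1 / 3 * ((a2 * b3 - a3 * b2) ^ 2 + (a1 * b3 - a3 * b1) ^ 2 + (a1 * b2 - a2 * b1) ^ 2) +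
  2 / 3 * ((a1 * b1 - a2 * b2) ^ 2 + (a1 * b1 - a3 * b3) ^ 2 + (a2 * b2 - a3 * b3) ^ 2)

theorem perm_le (a1 a2 a3 b1 b2 b3 c1 c2 c3 : ℝ) (ha : a1 ^ 2 + a2 ^ 2 + a3 ^ 2 = 1)
    (hb : b1 ^ 2 + b2 ^ 2 + b3 ^ 2 = 1) (hc : c1 ^ 2 + c2 ^ 2 + c3 ^ 2 = 1) :
    P9 a1 a2 a3 b1 b2 b3 c1 c2 c3 ^ 2 ≤ 4 / 3 - D6 b1 b2 b3 c1 c2 c3 := by
  have h1 : P9 a1 a2 a3 b1 b2 b3 c1 c2 c3 ^ 2 ≤ (a1 ^ 2 + a2 ^ 2 + a3 ^ 2) *
      ((b2 * c3 + b3 * c2) ^ 2 + (b1 * c3 + b3 * c1) ^ 2 + (b1 * c2 + b2 * c1) ^ 2) := by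
    unfold P9
    nlinarith [sq_nonneg (a1 * (b1 * c3 + b3 * c1) - a2 * (b2 * c3 + b3 * c2)),
      sq_nonneg (a1 * (b1 * c2 + b2 * c1) - a3 * (b2 * c3 + b3 * c2)),
      sq_nonneg (a2 * (b1 * c2 + b2 * c1) - a3 * (b1 * c3 + b3 * c1))]
  have h2 : ((b2 * c3 + b3 * c2) ^ 2 + (b1 * c3 + b3 * c1) ^ 2 + (b1 * c2 + b2 * c1) ^ 2) =
      4 / 3 * ((b1 ^ 2 + b2 ^ 2 + b3 ^ 2) * (c1 ^ 2 + c2 ^ 2 + c3 ^ 2)) - D6 b1 b2 b3 c1 c2 c3 := by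
    unfold D6
    ring
  rw [ha, one_mul, h2, hb, hc] at h1
  linarith

theorem two_sq (x y : ℝ) : (x - y) ^ 2 ≤ 2 * x ^ 2 + 2 * y ^ 2 := by nlinarith [sq_nonneg (x + y)]

theorem k_aux (a b c d e f : ℝ) (h1 : b = a + e) (h2 : d = c + f) :
    (a ^ 2 - c ^ 2) ^ 2 ≤ 2 * (a * b - c * d) ^ 2 + 4 * (a ^ 2 * e ^ 2 + c ^ 2 * f ^ 2) := by
  have h3 : a ^ 2 - c ^ 2 = (a * b - c * d) - (a * e - c * f) := by rw [h1, h2]; ring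
  have h4 := two_sq (a * b - c * d) (a * e - c * f)
  have h5 := two_sq (a * e) (c * f)
  rw [h3]
  have h6 : (a * e) ^ 2 = a ^ 2 * e ^ 2 := by ring
  have h7 : (c * f) ^ 2 = c ^ 2 * f ^ 2 := by ring
  rw [h6, h7] at h5
  linarith

theorem row_dev_pos (a1 a2 a3 b1 b2 b3 D : ℝ) (ha : a1 ^ 2 + a2 ^ 2 + a3 ^ 2 = 1)
    (hb : b1 ^ 2 + b2 ^ 2 + b3 ^ 2 = 1) (hD : D6 a1 a2 a3 b1 b2 b3 ≤ D)
    (hc : 0 ≤ a1 * b1 + a2 * b2 + a3 * b3) :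
    (a1 ^ 2 - a2 ^ 2) ^ 2 + (a1 ^ 2 - a3 ^ 2) ^ 2 + (a2 ^ 2 - a3 ^ 2) ^ 2 ≤ 48 * D := by
  set c := a1 * b1 + a2 * b2 + a3 * b3 with hcdef
  have hcross : (a2 * b3 - a3 * b2) ^ 2 + (a1 * b3 - a3 * b1) ^ 2 + (a1 * b2 - a2 * b1) ^ 2 = 1 - c ^ 2 := by
    have : (a2 * b3 - a3 * b2) ^ 2 + (a1 * b3 - a3 * b1) ^ 2 + (a1 * b2 - a2 * b1) ^ 2 =
        (a1 ^ 2 + a2 ^ 2 + a3 ^ 2) * (b1 ^ 2 + b2 ^ 2 + b3 ^ 2) - c ^ 2 := by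
      rw [hcdef]; ring
    rw [this, ha, hb]; ring
  have heta : (b1 - a1) ^ 2 + (b2 - a2) ^ 2 + (b3 - a3) ^ 2 = 2 - 2 * c := by
    have : (b1 - a1) ^ 2 + (b2 - a2) ^ 2 + (b3 - a3) ^ 2 =
        (a1 ^ 2 + a2 ^ 2 + a3 ^ 2) + (b1 ^ 2 + b2 ^ 2 + b3 ^ 2) - 2 * c := by
      rw [hcdef]; ring
    rw [this, ha, hb]; ring
  have hD1 : 1 / 3 * (1 - c ^ 2) + 2 / 3 * ((a1 * b1 - a2 * b2) ^ 2 + (a1 * b1 - a3 * b3) ^ 2 +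
      (a2 * b2 - a3 * b3) ^ 2) ≤ D := by
    unfold D6 at hD
    rw [hcross] at hD
    exact hD
  set e1 := b1 - a1 with he1
  set e2 := b2 - a2 with he2
  set e3 := b3 - a3 with he3
  have hc1 : c ^ 2 ≤ 1 := by
    have := add_nonneg (add_nonneg (sq_nonneg (a2 * b3 - a3 * b2)) (sq_nonneg (a1 * b3 - a3 * b1)))
      (sq_nonneg (a1 * b2 - a2 * b1))
    linarith
  have hc2 : c ≤ 1 := (sq_le_one_iff₀ hc).1 hc1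
  -- |η|² ≤ 2 (1 - c²)
  have hη : e1 ^ 2 + e2 ^ 2 + e3 ^ 2 ≤ 2 * (1 - c ^ 2) := by
    rw [heta]
    have h9 : 0 ≤ c * (1 - c) := mul_nonneg hc (sub_nonneg.2 hc2)
    have h10 : c * (1 - c) = c - c ^ 2 := by ring
    linarith
  have k12 := k_aux a1 b1 a2 b2 e1 e2 (by rw [he1]; ring) (by rw [he2]; ring)
  have k13 := k_aux a1 b1 a3 b3 e1 e3 (by rw [he1]; ring) (by rw [he3]; ring)
  have k23 := k_aux a2 b2 a3 b3 e2 e3 (by rw [he2]; ring) (by rw [he3]; ring)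
  have q1 : a1 ^ 2 * e1 ^ 2 ≤ e1 ^ 2 := by
    have : a1 ^ 2 ≤ 1 := by linarith [sq_nonneg a2, sq_nonneg a3]
    exact mul_le_of_le_one_left (sq_nonneg e1) this
  have q2 : a2 ^ 2 * e2 ^ 2 ≤ e2 ^ 2 := by
    have : a2 ^ 2 ≤ 1 := by linarith [sq_nonneg a1, sq_nonneg a3]
    exact mul_le_of_le_one_left (sq_nonneg e2) this
  have q3 : a3 ^ 2 * e3 ^ 2 ≤ e3 ^ 2 := by
    have : a3 ^ 2 ≤ 1 := by linarith [sq_nonneg a1, sq_nonneg a2]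
    exact mul_le_of_le_one_left (sq_nonneg e3) this
  have p1 := sq_nonneg (a1 * b1 - a2 * b2)
  have p2 := sq_nonneg (a1 * b1 - a3 * b3)
  have p3 := sq_nonneg (a2 * b2 - a3 * b3)
  linarith

theorem row_dev (a1 a2 a3 b1 b2 b3 D : ℝ) (ha : a1 ^ 2 + a2 ^ 2 + a3 ^ 2 = 1)
    (hb : b1 ^ 2 + b2 ^ 2 + b3 ^ 2 = 1) (hD : D6 a1 a2 a3 b1 b2 b3 ≤ D) :
    (a1 ^ 2 - a2 ^ 2) ^ 2 + (a1 ^ 2 - a3 ^ 2) ^ 2 + (a2 ^ 2 - a3 ^ 2) ^ 2 ≤ 48 * D := by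
  rcases le_total 0 (a1 * b1 + a2 * b2 + a3 * b3) with h | h
  · exact row_dev_pos a1 a2 a3 b1 b2 b3 D ha hb hD h
  · apply row_dev_pos a1 a2 a3 (-b1) (-b2) (-b3) D ha (by nlinarith) _ (by nlinarith)
    have : D6 a1 a2 a3 (-b1) (-b2) (-b3) = D6 a1 a2 a3 b1 b2 b3 := by unfold D6; ring
    rw [this]; exact hD

theorem abs_dev (a s : ℝ) (hs : 0 ≤ s) (hs2 : s ^ 2 = 1 / 3) : (|a| - s) ^ 2 ≤ 3 * (a ^ 2 - 1 / 3) ^ 2 := by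
  have h1 : a ^ 2 - 1 / 3 = (|a| - s) * (|a| + s) := by
    rw [← hs2, ← sq_abs a]; ring
  rw [h1, mul_pow]
  have h2 : 1 / 3 ≤ (|a| + s) ^ 2 := by
    rw [← hs2]
    apply pow_le_pow_left₀ hs
    linarith [abs_nonneg a]
  have h3 := sq_nonneg (|a| - s)
  nlinarith

/-- deviation of a unit row from the flat row. -/
theorem row_flat (a1 a2 a3 b1 b2 b3 D s : ℝ) (ha : a1 ^ 2 + a2 ^ 2 + a3 ^ 2 = 1)
    (hb : b1 ^ 2 + b2 ^ 2 + b3 ^ 2 = 1) (hD : D6 a1 a2 a3 b1 b2 b3 ≤ D) (hs : 0 ≤ s) (hs2 : s ^ 2 = 1 / 3) :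
    (|a1| - s) ^ 2 + (|a2| - s) ^ 2 + (|a3| - s) ^ 2 ≤ 48 * D := by
  have h1 := row_dev a1 a2 a3 b1 b2 b3 D ha hb hD
  have k1 := abs_dev a1 s hs hs2
  have k2 := abs_dev a2 s hs hs2
  have k3 := abs_dev a3 s hs hs2
  have h2 : 3 * (a1 ^ 2 - 1 / 3) ^ 2 + 3 * (a2 ^ 2 - 1 / 3) ^ 2 + 3 * (a3 ^ 2 - 1 / 3) ^ 2 =
      (a1 ^ 2 - a2 ^ 2) ^ 2 + (a1 ^ 2 - a3 ^ 2) ^ 2 + (a2 ^ 2 - a3 ^ 2) ^ 2 := by
    have h3 : a3 ^ 2 = 1 - a1 ^ 2 - a2 ^ 2 := by linarith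
    rw [h3]; ring
  linarith

/-- one-dimensional bound -/
theorem pow_row (k : ℕ) (hk : 0 < k) (R : ℝ) (hR : 0 ≤ R) :
    (R ^ 2) ^ k ≤ (2 * k / Real.exp 1) ^ k * Real.exp (R ^ 2 / 2 - 1 / 2 * (R - Real.sqrt (2 * k)) ^ 2) := by
  have hkr : (0 : ℝ) < k := by exact_mod_cast hk
  set q := Real.sqrt (2 * k) with hq
  have hq2 : q ^ 2 = 2 * k := by rw [hq]; exact Real.sq_sqrt (by positivity)
  have hq0 : 0 < q := by rw [hq]; exact Real.sqrt_pos.2 (by positivity)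
  have h1 : R / q ≤ Real.exp (R / q - 1) := by
    have := Real.add_one_le_exp (R / q - 1)
    linarith
  have h2 : (R / q) ^ 2 ≤ Real.exp (2 * (R / q - 1)) := by
    calc (R / q) ^ 2 ≤ (Real.exp (R / q - 1)) ^ 2 := pow_le_pow_left₀ (by positivity) h1 2
      _ = Real.exp (2 * (R / q - 1)) := by rw [← Real.exp_nat_mul]; norm_num
  have h3 : R ^ 2 = (R / q) ^ 2 * (2 * k) := by rw [← hq2]; field_simp
  have h4 : R ^ 2 / 2 - 1 / 2 * (R - q) ^ 2 = k * (2 * (R / q)) - k := by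
    have : R ^ 2 / 2 - 1 / 2 * (R - q) ^ 2 = R * q - q ^ 2 / 2 := by ring
    rw [this]
    have h5 : (k : ℝ) * (2 * (R / q)) = R * q := by
      have h6 : (k : ℝ) = q ^ 2 / 2 := by rw [hq2]; ring
      rw [h6]
      field_simp
    rw [h5, hq2]
    ring
  rw [h4, h3, mul_pow]
  have h6 : (2 * (k : ℝ) / Real.exp 1) ^ k * Real.exp (k * (2 * (R / q)) - k) =
      (2 * k) ^ k * (Real.exp (2 * (R / q - 1))) ^ k := by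
    rw [div_pow, ← Real.exp_nat_mul, ← Real.exp_nat_mul, div_mul_eq_mul_div, mul_div_assoc, ← Real.exp_sub]
    congr 2
    ring
  rw [h6, mul_comm]
  apply mul_le_mul_of_nonneg_left _ (by positivity)
  exact pow_le_pow_left₀ (by positivity) h2 k

theorem entry_bd (R u q s : ℝ) (hR : 0 ≤ R) :
    (|R * u| - q * s) ^ 2 ≤ 2 * (R - q) ^ 2 * u ^ 2 + 2 * q ^ 2 * (|u| - s) ^ 2 := by
  rw [abs_mul, abs_of_nonneg hR]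
  have h1 : R * |u| - q * s = (R - q) * |u| - (-(q * (|u| - s))) := by ring
  rw [h1]
  have h2 := two_sq ((R - q) * |u|) (-(q * (|u| - s)))
  have h3 : ((R - q) * |u|) ^ 2 = (R - q) ^ 2 * u ^ 2 := by rw [mul_pow, sq_abs]
  have h4 : (-(q * (|u| - s))) ^ 2 = q ^ 2 * (|u| - s) ^ 2 := by ring
  rw [h3, h4] at h2
  linarith

theorem row_entries (R u1 u2 u3 q s : ℝ) (hR : 0 ≤ R) (hu : u1 ^ 2 + u2 ^ 2 + u3 ^ 2 = 1) :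
    (|R * u1| - q * s) ^ 2 + (|R * u2| - q * s) ^ 2 + (|R * u3| - q * s) ^ 2 ≤
      2 * (R - q) ^ 2 + 2 * q ^ 2 * ((|u1| - s) ^ 2 + (|u2| - s) ^ 2 + (|u3| - s) ^ 2) := by
  have h1 := entry_bd R u1 q s hR
  have h2 := entry_bd R u2 q s hR
  have h3 := entry_bd R u3 q s hR
  have h4 : 2 * (R - q) ^ 2 * u1 ^ 2 + 2 * (R - q) ^ 2 * u2 ^ 2 + 2 * (R - q) ^ 2 * u3 ^ 2 = 2 * (R - q) ^ 2 := by
    rw [← mul_add, ← mul_add, hu, mul_one]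
  linarith

theorem P9_unit_bound (k : ℕ) (P D : ℝ) (hP : P ^ 2 = 4 / 3 - D) :
    (P ^ 2) ^ k ≤ (4 / 3) ^ k * Real.exp (-(3 / 4 * k * D)) := by
  have h1 : P ^ 2 ≤ 4 / 3 * Real.exp (-(3 / 4 * D)) := by
    have := Real.add_one_le_exp (-(3 / 4 * D))
    rw [hP]
    linarith
  calc (P ^ 2) ^ k ≤ (4 / 3 * Real.exp (-(3 / 4 * D))) ^ k := pow_le_pow_left₀ (sq_nonneg P) h1 k
    _ = (4 / 3) ^ k * Real.exp (-(3 / 4 * k * D)) := by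
        rw [mul_pow, ← Real.exp_nat_mul]
        congr 2
        ring

/-- the main pointwise inequality, in normalised form. -/
theorem perm_point_aux (k : ℕ) (hk : 0 < k) (R1 R2 R3 a1 a2 a3 b1 b2 b3 c1 c2 c3 : ℝ)
    (hR1 : 0 ≤ R1) (hR2 : 0 ≤ R2) (hR3 : 0 ≤ R3)
    (ha : a1 ^ 2 + a2 ^ 2 + a3 ^ 2 = 1)
    (hb : b1 ^ 2 + b2 ^ 2 + b3 ^ 2 = 1) (hc : c1 ^ 2 + c2 ^ 2 + c3 ^ 2 = 1) :
    ((R1 * R2 * R3 * P9 a1 a2 a3 b1 b2 b3 c1 c2 c3) ^ 2) ^ k ≤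
      ((4 / 3) ^ k * ((2 * k / Real.exp 1) ^ k) ^ 3) *
      Real.exp ((R1 ^ 2 + R2 ^ 2 + R3 ^ 2) / 2 - 1 / 1000 * (
        ((|R1 * a1| - Real.sqrt (2 * k) * Real.sqrt (1 / 3)) ^ 2 + (|R1 * a2| - Real.sqrt (2 * k) * Real.sqrt (1 / 3)) ^ 2 + (|R1 * a3| - Real.sqrt (2 * k) * Real.sqrt (1 / 3)) ^ 2) +
        ((|R2 * b1| - Real.sqrt (2 * k) * Real.sqrt (1 / 3)) ^ 2 + (|R2 * b2| - Real.sqrt (2 * k) * Real.sqrt (1 / 3)) ^ 2 + (|R2 * b3| - Real.sqrt (2 * k) * Real.sqrt (1 / 3)) ^ 2) +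
        ((|R3 * c1| - Real.sqrt (2 * k) * Real.sqrt (1 / 3)) ^ 2 + (|R3 * c2| - Real.sqrt (2 * k) * Real.sqrt (1 / 3)) ^ 2 + (|R3 * c3| - Real.sqrt (2 * k) * Real.sqrt (1 / 3)) ^ 2))) := by
  have hkr : (0 : ℝ) < k := by exact_mod_cast hk
  set P := P9 a1 a2 a3 b1 b2 b3 c1 c2 c3 with hP
  obtain ⟨D, hD⟩ : ∃ D, D = 4 / 3 - P ^ 2 := ⟨_, rfl⟩
  set s := Real.sqrt (1 / 3) with hs
  have hs0 : 0 ≤ s := Real.sqrt_nonneg _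
  have hs2 : s ^ 2 = 1 / 3 := Real.sq_sqrt (by norm_num)
  set q := Real.sqrt (2 * k) with hq
  have hq2 : q ^ 2 = 2 * k := Real.sq_sqrt (by positivity)
  have d1 : D6 b1 b2 b3 c1 c2 c3 ≤ D := by
    have := perm_le a1 a2 a3 b1 b2 b3 c1 c2 c3 ha hb hc
    rw [hD]; linarith
  have d2 : D6 a1 a2 a3 b1 b2 b3 ≤ D := by
    have := perm_le c1 c2 c3 a1 a2 a3 b1 b2 b3 hc ha hb
    have e : P9 c1 c2 c3 a1 a2 a3 b1 b2 b3 = P := by rw [hP]; unfold P9; ring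
    rw [e] at this
    rw [hD]; linarith
  have d3 : D6 c1 c2 c3 a1 a2 a3 ≤ D := by
    have := perm_le b1 b2 b3 c1 c2 c3 a1 a2 a3 hb hc ha
    have e : P9 b1 b2 b3 c1 c2 c3 a1 a2 a3 = P := by rw [hP]; unfold P9; ring
    rw [e] at this
    rw [hD]; linarith
  have f1 := row_flat b1 b2 b3 c1 c2 c3 D s hb hc d1 hs0 hs2
  have f2 := row_flat a1 a2 a3 b1 b2 b3 D s ha hb d2 hs0 hs2
  have f3 := row_flat c1 c2 c3 a1 a2 a3 D s hc ha d3 hs0 hs2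
  have g1 := row_entries R1 a1 a2 a3 q s hR1 ha
  have g2 := row_entries R2 b1 b2 b3 q s hR2 hb
  have g3 := row_entries R3 c1 c2 c3 q s hR3 hc
  have p1 := pow_row k hk R1 hR1
  have p2 := pow_row k hk R2 hR2
  have p3 := pow_row k hk R3 hR3
  rw [← hq] at p1 p2 p3
  have p4 := P9_unit_bound k P D (by rw [hD]; ring)
  have e1 : ((R1 * R2 * R3 * P) ^ 2) ^ k = (R1 ^ 2) ^ k * (R2 ^ 2) ^ k * (R3 ^ 2) ^ k * (P ^ 2) ^ k := by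
    rw [← mul_pow, ← mul_pow, ← mul_pow]; congr 1; ring
  rw [e1]
  set B := (2 * (k : ℝ) / Real.exp 1) ^ k with hB
  have hB0 : 0 ≤ B := by positivity
  have hfinal : (R1 ^ 2) ^ k * (R2 ^ 2) ^ k * (R3 ^ 2) ^ k * (P ^ 2) ^ k ≤
      (B * Real.exp (R1 ^ 2 / 2 - 1 / 2 * (R1 - q) ^ 2)) * (B * Real.exp (R2 ^ 2 / 2 - 1 / 2 * (R2 - q) ^ 2)) *
      (B * Real.exp (R3 ^ 2 / 2 - 1 / 2 * (R3 - q) ^ 2)) * ((4 / 3) ^ k * Real.exp (-(3 / 4 * k * D))) := by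
    gcongr
  refine hfinal.trans ?_
  have e2 : (B * Real.exp (R1 ^ 2 / 2 - 1 / 2 * (R1 - q) ^ 2)) * (B * Real.exp (R2 ^ 2 / 2 - 1 / 2 * (R2 - q) ^ 2)) *
      (B * Real.exp (R3 ^ 2 / 2 - 1 / 2 * (R3 - q) ^ 2)) * ((4 / 3) ^ k * Real.exp (-(3 / 4 * k * D))) =
      ((4 / 3) ^ k * B ^ 3) * Real.exp ((R1 ^ 2 / 2 - 1 / 2 * (R1 - q) ^ 2) + (R2 ^ 2 / 2 - 1 / 2 * (R2 - q) ^ 2) +
        (R3 ^ 2 / 2 - 1 / 2 * (R3 - q) ^ 2) + (-(3 / 4 * k * D))) := by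
    rw [Real.exp_add, Real.exp_add, Real.exp_add]; ring
  rw [e2]
  apply mul_le_mul_of_nonneg_left _ (by positivity)
  apply Real.exp_le_exp.2
  have hD0 : 0 ≤ D := by
    have := add_nonneg (add_nonneg (sq_nonneg (|b1| - s)) (sq_nonneg (|b2| - s))) (sq_nonneg (|b3| - s))
    linarith
  have hkD : 0 ≤ (k : ℝ) * D := by positivity
  rw [hq2] at g1 g2 g3
  have t1 : 2 * (2 * (k : ℝ)) * ((|a1| - s) ^ 2 + (|a2| - s) ^ 2 + (|a3| - s) ^ 2) ≤ 2 * (2 * k) * (48 * D) :=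
    mul_le_mul_of_nonneg_left f2 (by positivity)
  have t2 : 2 * (2 * (k : ℝ)) * ((|b1| - s) ^ 2 + (|b2| - s) ^ 2 + (|b3| - s) ^ 2) ≤ 2 * (2 * k) * (48 * D) :=
    mul_le_mul_of_nonneg_left f1 (by positivity)
  have t3 : 2 * (2 * (k : ℝ)) * ((|c1| - s) ^ 2 + (|c2| - s) ^ 2 + (|c3| - s) ^ 2) ≤ 2 * (2 * k) * (48 * D) :=
    mul_le_mul_of_nonneg_left f3 (by positivity)
  have u1 := sq_nonneg (R1 - q)
  have u2 := sq_nonneg (R2 - q)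
  have u3 := sq_nonneg (R3 - q)
  have v1 : 2 * (2 * (k : ℝ)) * (48 * D) = 192 * (k * D) := by ring
  rw [v1] at t1 t2 t3
  have v2 : 3 / 4 * (k : ℝ) * D = 3 / 4 * (k * D) := by ring
  rw [v2]
  linarith

theorem perm_point (k : ℕ) (hk : 0 < k) (x : Fin 3 → Fin 3 → ℝ) :
    (P9 (x 0 0) (x 0 1) (x 0 2) (x 1 0) (x 1 1) (x 1 2) (x 2 0) (x 2 1) (x 2 2)) ^ (2 * k) ≤
      ((4 / 3) ^ k * ((2 * k / Real.exp 1) ^ k) ^ 3) *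
      ∏ i, ∏ j, Real.exp ((x i j) ^ 2 / 2 - 1 / 1000 * (|x i j| - Real.sqrt (2 * k) * Real.sqrt (1 / 3)) ^ 2) := by
  set c := Real.sqrt (2 * k) * Real.sqrt (1 / 3) with hcdef
  have hnorm : ∀ i : Fin 3, (∃ R u1 u2 u3 : ℝ, 0 ≤ R ∧ u1 ^ 2 + u2 ^ 2 + u3 ^ 2 = 1 ∧ x i 0 = R * u1 ∧
      x i 1 = R * u2 ∧ x i 2 = R * u3 ∧ R ^ 2 = (x i 0) ^ 2 + (x i 1) ^ 2 + (x i 2) ^ 2) := by
    intro i
    set S := (x i 0) ^ 2 + (x i 1) ^ 2 + (x i 2) ^ 2 with hS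
    have hS0 : 0 ≤ S := by positivity
    by_cases h : S = 0
    · refine ⟨0, 1, 0, 0, le_rfl, by norm_num, ?_, ?_, ?_, by rw [h]; norm_num⟩
      · have : (x i 0) ^ 2 = 0 := by nlinarith [sq_nonneg (x i 0), sq_nonneg (x i 1), sq_nonneg (x i 2)]
        rw [pow_eq_zero_iff (by norm_num)] at this
        rw [this]; ring
      · have : (x i 1) ^ 2 = 0 := by nlinarith [sq_nonneg (x i 0), sq_nonneg (x i 1), sq_nonneg (x i 2)]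
        rw [pow_eq_zero_iff (by norm_num)] at this
        rw [this]; ring
      · have : (x i 2) ^ 2 = 0 := by nlinarith [sq_nonneg (x i 0), sq_nonneg (x i 1), sq_nonneg (x i 2)]
        rw [pow_eq_zero_iff (by norm_num)] at this
        rw [this]; ring
    · have hSp : 0 < S := lt_of_le_of_ne hS0 (Ne.symm h)
      have hR : 0 < Real.sqrt S := Real.sqrt_pos.2 hSp
      have hR2 : (Real.sqrt S) ^ 2 = S := Real.sq_sqrt hS0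
      refine ⟨Real.sqrt S, x i 0 / Real.sqrt S, x i 1 / Real.sqrt S, x i 2 / Real.sqrt S, hR.le, ?_, ?_, ?_, ?_, ?_⟩
      · rw [div_pow, div_pow, div_pow, hR2, ← add_div, ← add_div, ← hS]
        exact div_self h
      · field_simp
      · field_simp
      · field_simp
      · rw [hR2]
  obtain ⟨R1, a1, a2, a3, hR1, ha, x00, x01, x02, hn1⟩ := hnorm 0
  obtain ⟨R2, b1, b2, b3, hR2, hb, x10, x11, x12, hn2⟩ := hnorm 1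
  obtain ⟨R3, c1, c2, c3, hR3, hc, x20, x21, x22, hn3⟩ := hnorm 2
  have key := perm_point_aux k hk R1 R2 R3 a1 a2 a3 b1 b2 b3 c1 c2 c3 hR1 hR2 hR3 ha hb hc
  rw [← hcdef, ← x00, ← x01, ← x02, ← x10, ← x11, ← x12, ← x20, ← x21, ← x22, hn1, hn2, hn3] at key
  have e1 : P9 (x 0 0) (x 0 1) (x 0 2) (x 1 0) (x 1 1) (x 1 2) (x 2 0) (x 2 1) (x 2 2) =
      R1 * R2 * R3 * P9 a1 a2 a3 b1 b2 b3 c1 c2 c3 := by
    rw [x00, x01, x02, x10, x11, x12, x20, x21, x22]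
    unfold P9; ring
  rw [pow_mul, e1]
  refine key.trans (le_of_eq ?_)
  congr 1
  simp only [Fin.prod_univ_three]
  rw [← Real.exp_add, ← Real.exp_add, ← Real.exp_add, ← Real.exp_add, ← Real.exp_add, ← Real.exp_add,
    ← Real.exp_add, ← Real.exp_add]
  congr 1
  ring

end Pool.Agent.H240R3.Ch
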