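import Mathlib
import Pool.Agent.H240R3.ChA
import Pool.Agent.H240R3.ChB
set_option autoImplicit false

namespace Pool.Agent.H240R3.Ch

open Finset MeasureTheory

theorem perm3 (z : Fin 3 → Fin 3 → ℝ) : ∑ ρ : Equiv.Perm (Fin 3), ∏ i, z i (ρ i) =
    P9 (z 0 0) (z 0 1) (z 0 2) (z 1 0) (z 1 1) (z 1 2) (z 2 0) (z 2 1) (z 2 2) := by
  have h : (Finset.univ : Finset (Equiv.Perm (Fin 3))) = {1, Equiv.swap 0 1, Equiv.swap 0 2,
    Equiv.swap 1 2, Equiv.swap 0 1 * Equiv.swap 1 2, Equiv.swap 1 2 * Equiv.swap 0 1} := by decide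
  rw [h]
  rw [Finset.sum_insert (by decide), Finset.sum_insert (by decide), Finset.sum_insert (by decide),
    Finset.sum_insert (by decide), Finset.sum_insert (by decide), Finset.sum_singleton]
  simp only [Fin.prod_univ_three]
  have e1 : (Equiv.swap (0:Fin 3) 1) 0 = 1 := by decide
  have e2 : (Equiv.swap (0:Fin 3) 1) 1 = 0 := by decide
  have e3 : (Equiv.swap (0:Fin 3) 1) 2 = 2 := by decide
  have e4 : (Equiv.swap (0:Fin 3) 2) 0 = 2 := by decide
  have e5 : (Equiv.swap (0:Fin 3) 2) 1 = 1 := by decide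
  have e6 : (Equiv.swap (0:Fin 3) 2) 2 = 0 := by decide
  have e7 : (Equiv.swap (1:Fin 3) 2) 0 = 0 := by decide
  have e8 : (Equiv.swap (1:Fin 3) 2) 1 = 2 := by decide
  have e9 : (Equiv.swap (1:Fin 3) 2) 2 = 1 := by decide
  simp only [Equiv.Perm.coe_mul, Function.comp_apply, Equiv.Perm.coe_one, id_eq, e1, e2, e3, e4, e5,
    e6, e7, e8, e9]
  unfold P9
  ring

/-- Gaussian weight -/
noncomputable def gw (x : ℝ) : ℝ := Real.exp (-(1 / 2) * x ^ 2)

theorem gw_pos (x : ℝ) : 0 < gw x := Real.exp_pos _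

theorem gw_int : ∫ x, gw x = Real.sqrt (2 * Real.pi) := by
  unfold gw
  rw [integral_gaussian]
  congr 1
  ring

theorem int_pow_gw (m : ℕ) : Integrable (fun x : ℝ => x ^ m * gw x) := by
  have h := integrable_rpow_mul_exp_neg_mul_sq (b := 1 / 2) (by norm_num) (s := (m : ℝ))
    (by have : (0 : ℝ) ≤ m := Nat.cast_nonneg m; linarith)
  refine h.congr ?_
  filter_upwards with x
  rw [Real.rpow_natCast]
  rfl

theorem int_shift_gw (m : ℕ) (y : ℝ) : Integrable (fun x : ℝ => (y + x) ^ m * gw x) := by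
  have h : (fun x : ℝ => (y + x) ^ m * gw x) =
      fun x => ∑ j ∈ Finset.range (m + 1), (y ^ j * (m.choose j : ℝ)) * (x ^ (m - j) * gw x) := by
    funext x
    rw [add_pow, Finset.sum_mul]
    apply Finset.sum_congr rfl
    intro j _
    ring
  rw [h]
  exact integrable_finsetSum _ (fun j _ => (int_pow_gw (m - j)).const_mul _)

noncomputable def GG (m : ℕ) (y : ℝ) : ℝ := ∫ x, (y + x) ^ m * gw x

theorem GG_rec (m : ℕ) (y : ℝ) : GG (m + 2) y = y * GG (m + 1) y + ((m : ℝ) + 1) * GG m y := by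
  unfold GG
  have hparts := integral_mul_deriv_eq_deriv_mul_of_integrable (u := fun x : ℝ => (y + x) ^ (m + 1))
    (v := fun x => -gw x) (u' := fun x => ((m : ℝ) + 1) * (y + x) ^ m) (v' := fun x => x * gw x)
    (by
      intro x _
      have h := ((hasDerivAt_id x).const_add y).fun_pow (m + 1)
      simpa using h)
    (by
      intro x _
      unfold gw
      have h1 : HasDerivAt (fun x : ℝ => -(1 / 2) * x ^ 2) (-x) x := by
        have h2 := (hasDerivAt_pow 2 x).const_mul (-(1 / 2) : ℝ)
        have e : (-(1 / 2) : ℝ) * (((2 : ℕ) : ℝ) * x ^ (2 - 1)) = -x := by norm_num; ring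
        rw [e] at h2
        exact h2
      have h := (h1.exp).fun_neg
      have e : -(Real.exp (-(1 / 2) * x ^ 2) * -x) = x * Real.exp (-(1 / 2) * x ^ 2) := by ring
      rw [e] at h
      exact h)
    (by
      have h1 := (int_shift_gw (m + 2) y).sub ((int_shift_gw (m + 1) y).const_mul y)
      refine h1.congr ?_
      filter_upwards with x
      simp only [Pi.sub_apply, Pi.mul_apply]
      ring)
    (by
      have h1 := ((int_shift_gw m y).const_mul ((m : ℝ) + 1)).neg
      refine h1.congr ?_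
      filter_upwards with x
      simp only [Pi.neg_apply, Pi.mul_apply]
      ring)
    (by
      have h1 := (int_shift_gw (m + 1) y).neg
      refine h1.congr ?_
      filter_upwards with x
      simp only [Pi.neg_apply, Pi.mul_apply]
      ring)
  have e1 : ∫ x, (y + x) ^ (m + 2) * gw x = ∫ x, (y * ((y + x) ^ (m + 1) * gw x) + (y + x) ^ (m + 1) * (x * gw x)) := by
    apply integral_congr_ae
    filter_upwards with x
    ring
  have hi2 : Integrable (fun x : ℝ => (y + x) ^ (m + 1) * (x * gw x)) := by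
    have h1 := (int_shift_gw (m + 2) y).sub ((int_shift_gw (m + 1) y).const_mul y)
    refine h1.congr ?_
    filter_upwards with x
    simp only [Pi.sub_apply]
    ring
  rw [e1, integral_add ((int_shift_gw (m + 1) y).const_mul y) hi2, integral_const_mul, hparts]
  congr 1
  rw [← integral_neg, ← integral_const_mul]
  apply integral_congr_ae
  filter_upwards with x
  ring

theorem GG_eq (m : ℕ) (y : ℝ) : GG m y = Real.sqrt (2 * Real.pi) * hv m y := by
  have h0 : GG 0 y = Real.sqrt (2 * Real.pi) * hv 0 y := by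
    unfold GG
    simp [gw_int, hv_zero]
  have h1 : GG 1 y = Real.sqrt (2 * Real.pi) * hv 1 y := by
    unfold GG
    have hodd : ∫ x : ℝ, x * gw x = 0 := by
      have hneg : ∫ x : ℝ, x * gw x = ∫ x : ℝ, -(x * gw x) := by
        conv_lhs => rw [← integral_neg_eq_self (μ := volume)]
        apply integral_congr_ae
        filter_upwards with x
        unfold gw
        rw [neg_sq]
        ring
      rw [integral_neg] at hneg
      linarith
    have e1 : ∫ x, (y + x) ^ 1 * gw x = ∫ x, (y * gw x + x * gw x) := by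
      apply integral_congr_ae
      filter_upwards with x
      ring
    have i0 : Integrable gw := by
      have := int_pow_gw 0
      simpa using this
    have i1 : Integrable (fun x : ℝ => x * gw x) := by
      have := int_pow_gw 1
      simpa using this
    rw [e1, integral_add (i0.const_mul y) i1, integral_const_mul, gw_int, hodd, hv_one]
    ring
  have hboth : ∀ m, GG m y = Real.sqrt (2 * Real.pi) * hv m y ∧
      GG (m + 1) y = Real.sqrt (2 * Real.pi) * hv (m + 1) y := by
    intro m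
    induction m with
    | zero => exact ⟨h0, h1⟩
    | succ m ih =>
      refine ⟨ih.2, ?_⟩
      rw [GG_rec, hv_rec, ih.1, ih.2]
      ring
  exact (hboth m).1

theorem hv_int (m : ℕ) (y : ℝ) : hv m y = (Real.sqrt (2 * Real.pi))⁻¹ * ∫ x, (y + x) ^ m * gw x := by
  have h := GG_eq m y
  unfold GG at h
  rw [h, ← mul_assoc, inv_mul_cancel₀, one_mul]
  exact (Real.sqrt_pos.2 (by positivity)).ne'

/-- dominating function -/
noncomputable def dom (y κ c w : ℝ) : ℝ :=
  Real.exp (y * c + y ^ 2 / (4 * κ)) * (Real.exp (-κ * (w - (c + y / (2 * κ))) ^ 2) +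
    Real.exp (-κ * (w - (-c + y / (2 * κ))) ^ 2))

theorem le_dom (y κ c w : ℝ) (hy : 0 ≤ y) (hκ : 0 < κ) (hc : 0 ≤ c) :
    Real.exp (y * w - κ * (|w| - c) ^ 2) ≤ dom y κ c w := by
  unfold dom
  rw [mul_add, ← Real.exp_add, ← Real.exp_add]
  rcases le_total 0 w with hw | hw
  · rw [abs_of_nonneg hw]
    have e : y * w - κ * (w - c) ^ 2 = y * c + y ^ 2 / (4 * κ) + -κ * (w - (c + y / (2 * κ))) ^ 2 := by
      field_simp
      ring
    rw [e]
    have := Real.exp_pos (y * c + y ^ 2 / (4 * κ) + -κ * (w - (-c + y / (2 * κ))) ^ 2)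
    linarith
  · rw [abs_of_nonpos hw]
    have e : y * w - κ * (-w - c) ^ 2 = -(y * c) + y ^ 2 / (4 * κ) + -κ * (w - (-c + y / (2 * κ))) ^ 2 := by
      field_simp
      ring
    rw [e]
    have h1 : Real.exp (-(y * c) + y ^ 2 / (4 * κ) + -κ * (w - (-c + y / (2 * κ))) ^ 2) ≤
        Real.exp (y * c + y ^ 2 / (4 * κ) + -κ * (w - (-c + y / (2 * κ))) ^ 2) := by
      apply Real.exp_le_exp.2
      have := mul_nonneg hy hc
      linarith
    have := Real.exp_pos (y * c + y ^ 2 / (4 * κ) + -κ * (w - (c + y / (2 * κ))) ^ 2)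
    linarith

theorem dom_integrable (y κ c : ℝ) (hκ : 0 < κ) : Integrable (fun w => dom y κ c w) := by
  unfold dom
  apply Integrable.const_mul
  apply Integrable.add
  · exact (integrable_exp_neg_mul_sq hκ).comp_sub_right (c + y / (2 * κ))
  · exact (integrable_exp_neg_mul_sq hκ).comp_sub_right (-c + y / (2 * κ))

theorem dom_int (y κ c : ℝ) (hκ : 0 < κ) :
    ∫ w, dom y κ c w = Real.exp (y * c + y ^ 2 / (4 * κ)) * (2 * Real.sqrt (Real.pi / κ)) := by
  unfold dom
  rw [integral_const_mul, integral_add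
    ((integrable_exp_neg_mul_sq hκ).comp_sub_right (c + y / (2 * κ)))
    ((integrable_exp_neg_mul_sq hκ).comp_sub_right (-c + y / (2 * κ)))]
  rw [integral_sub_right_eq_self (fun w => Real.exp (-κ * w ^ 2)) (c + y / (2 * κ)),
    integral_sub_right_eq_self (fun w => Real.exp (-κ * w ^ 2)) (-c + y / (2 * κ)), integral_gaussian]
  ring

/-- the one-dimensional factor -/
theorem factor_le (y κ c x : ℝ) (hy : 0 ≤ y) (hκ : 0 < κ) (hc : 0 ≤ c) :
    Real.exp ((y + x) ^ 2 / 2 - κ * (|y + x| - c) ^ 2) * gw x ≤ dom y κ c (x + y) := by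
  unfold gw
  rw [← Real.exp_add]
  refine le_trans (Real.exp_le_exp.2 ?_) (le_dom y κ c (x + y) hy hκ hc)
  rw [add_comm x y]
  nlinarith [sq_nonneg y]

end Pool.Agent.H240R3.Ch
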