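import Mathlib
import Pool.Agent.H240R3.ChC
set_option autoImplicit false

namespace Pool.Agent.H240R3.Ch

open Finset MeasureTheory

/-- number of vertices where the pair of colours is `(i, j)`. -/
def cnt {n : ℕ} (π : Fin n → Equiv.Perm (Fin 3)) (i j : Fin 3) : ℕ :=
  (univ.filter (fun v => π v i = j)).card

theorem prod_cnt {n : ℕ} (z : Fin 3 → Fin 3 → ℝ) :
    ∑ π : Fin n → Equiv.Perm (Fin 3), ∏ i, ∏ j, z i j ^ (cnt π i j) =
      (P9 (z 0 0) (z 0 1) (z 0 2) (z 1 0) (z 1 1) (z 1 2) (z 2 0) (z 2 1) (z 2 2)) ^ n := by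
  rw [← perm3, Fintype.sum_pow]
  apply Finset.sum_congr rfl
  intro π _
  conv_rhs => rw [Finset.prod_comm]
  apply Finset.prod_congr rfl
  intro i _
  rw [← Finset.prod_fiberwise univ (fun v => π v i) (fun v => z i (π v i))]
  apply Finset.prod_congr rfl
  intro j _
  rw [cnt, ← Finset.prod_const]
  apply Finset.prod_congr rfl
  intro v hv
  rw [(Finset.mem_filter.1 hv).2]

noncomputable def K1 (y κ c : ℝ) : ℝ := Real.exp (y * c + y ^ 2 / (4 * κ)) * (2 * Real.sqrt (Real.pi / κ))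

noncomputable def Ck (k : ℕ) : ℝ := (4 / 3) ^ k * ((2 * k / Real.exp 1) ^ k) ^ 3

theorem second_bound (k : ℕ) (hk : 0 < k) (y : ℝ) (hy : 0 ≤ y) :
    ∑ π : Fin (2 * k) → Equiv.Perm (Fin 3), ∏ i, ∏ j, hv (cnt π i j) y ≤
      ((Real.sqrt (2 * Real.pi))⁻¹) ^ 9 *
        (Ck k * (K1 y (1 / 1000) (Real.sqrt (2 * k) * Real.sqrt (1 / 3))) ^ 9) := by
  set s0 := (Real.sqrt (2 * Real.pi))⁻¹ with hs0
  have hs0pos : 0 ≤ s0 := by positivity
  set c := Real.sqrt (2 * k) * Real.sqrt (1 / 3) with hc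
  have hc0 : 0 ≤ c := by positivity
  have hCk : 0 ≤ Ck k := by unfold Ck; positivity
  -- each term as an integral
  have hterm : ∀ π : Fin (2 * k) → Equiv.Perm (Fin 3), ∏ i, ∏ j, hv (cnt π i j) y =
      s0 ^ 9 * ∫ x : Fin 3 × Fin 3 → ℝ, ∏ p, ((y + x p) ^ (cnt π p.1 p.2) * gw (x p)) := by
    intro π
    rw [integral_fintype_prod_volume_eq_prod (fun (p : Fin 3 × Fin 3) (x : ℝ) => (y + x) ^ (cnt π p.1 p.2) * gw x)]
    have h9 : s0 ^ 9 = ∏ _p : Fin 3 × Fin 3, s0 := by
      rw [Finset.prod_const, Finset.card_univ]; simp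
    rw [h9, ← Finset.prod_mul_distrib]
    rw [← Finset.univ_product_univ, Finset.prod_product]
    apply Finset.prod_congr rfl
    intro i _
    apply Finset.prod_congr rfl
    intro j _
    exact hv_int _ _
  have hint : ∀ π : Fin (2 * k) → Equiv.Perm (Fin 3),
      Integrable (fun x : Fin 3 × Fin 3 → ℝ => ∏ p, ((y + x p) ^ (cnt π p.1 p.2) * gw (x p))) := by
    intro π
    exact Integrable.fintype_prod (f := fun (p : Fin 3 × Fin 3) (x : ℝ) => (y + x) ^ (cnt π p.1 p.2) * gw x)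
      (fun p => int_shift_gw _ _)
  have hdomint : Integrable (fun x : Fin 3 × Fin 3 → ℝ => ∏ p, dom y (1 / 1000) c (x p + y)) := by
    exact Integrable.fintype_prod (f := fun (_ : Fin 3 × Fin 3) (x : ℝ) => dom y (1 / 1000) c (x + y))
      (fun p => (dom_integrable y (1 / 1000) c (by norm_num)).comp_add_right y)
  have hdomval : ∫ x : Fin 3 × Fin 3 → ℝ, ∏ p, dom y (1 / 1000) c (x p + y) = (K1 y (1 / 1000) c) ^ 9 := by
    rw [integral_fintype_prod_volume_eq_prod (fun (_ : Fin 3 × Fin 3) (x : ℝ) => dom y (1 / 1000) c (x + y))]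
    rw [Finset.prod_const, Finset.card_univ]
    rw [integral_add_right_eq_self (fun x => dom y (1 / 1000) c x) y, dom_int _ _ _ (by norm_num)]
    simp [K1]
  have hpt : ∀ x : Fin 3 × Fin 3 → ℝ,
      ∑ π : Fin (2 * k) → Equiv.Perm (Fin 3), ∏ p, ((y + x p) ^ (cnt π p.1 p.2) * gw (x p)) ≤
      Ck k * ∏ p, dom y (1 / 1000) c (x p + y) := by
    intro x
    have e1 : ∀ π : Fin (2 * k) → Equiv.Perm (Fin 3), ∏ p, ((y + x p) ^ (cnt π p.1 p.2) * gw (x p)) =
        (∏ i, ∏ j, (y + x (i, j)) ^ (cnt π i j)) * ∏ p, gw (x p) := by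
      intro π
      rw [Finset.prod_mul_distrib]
      congr 1
      rw [← Finset.univ_product_univ, Finset.prod_product]
    rw [Finset.sum_congr rfl (fun π _ => e1 π), ← Finset.sum_mul, prod_cnt (fun i j => y + x (i, j))]
    have h1 := perm_point k hk (fun i j => y + x (i, j))
    have h2 : 0 ≤ ∏ p, gw (x p) := Finset.prod_nonneg (fun p _ => (gw_pos _).le)
    refine (mul_le_mul_of_nonneg_right h1 h2).trans ?_
    rw [← hc]
    unfold Ck
    rw [mul_assoc]
    apply mul_le_mul_of_nonneg_left _ (by positivity)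
    have e2 : ∏ i, ∏ j, Real.exp ((y + x (i, j)) ^ 2 / 2 - 1 / 1000 * (|y + x (i, j)| - c) ^ 2) =
        ∏ p : Fin 3 × Fin 3, Real.exp ((y + x p) ^ 2 / 2 - 1 / 1000 * (|y + x p| - c) ^ 2) := by
      rw [← Finset.univ_product_univ, Finset.prod_product]
    rw [e2, ← Finset.prod_mul_distrib]
    apply Finset.prod_le_prod
    · intro p _
      exact mul_nonneg (Real.exp_pos _).le (gw_pos _).le
    · intro p _
      exact factor_le y (1 / 1000) c (x p) hy (by norm_num) hc0
  rw [Finset.sum_congr rfl (fun π _ => hterm π), ← Finset.mul_sum]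
  apply mul_le_mul_of_nonneg_left _ (by positivity)
  rw [← integral_finsetSum _ (fun π _ => hint π), ← hdomval, ← integral_const_mul]
  apply integral_mono (integrable_finsetSum _ (fun π _ => hint π)) (hdomint.const_mul _)
  exact hpt

/-- upper bound for one-coordinate moments. -/
theorem hv_upper (k : ℕ) (hk : 0 < k) (y : ℝ) (hy : 0 ≤ y) :
    hv (2 * k) y ≤ (Real.sqrt (2 * Real.pi))⁻¹ * ((2 * k / Real.exp 1) ^ k * K1 y (1 / 2) (Real.sqrt (2 * k))) := by
  rw [hv_int]
  apply mul_le_mul_of_nonneg_left _ (by positivity)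
  have hpt : ∀ x : ℝ, (y + x) ^ (2 * k) * gw x ≤ (2 * k / Real.exp 1) ^ k * dom y (1 / 2) (Real.sqrt (2 * k)) (x + y) := by
    intro x
    have h1 := pow_row k hk (|y + x|) (abs_nonneg _)
    rw [sq_abs] at h1
    rw [pow_mul]
    refine (mul_le_mul_of_nonneg_right h1 (gw_pos x).le).trans ?_
    rw [mul_assoc]
    apply mul_le_mul_of_nonneg_left _ (by positivity)
    exact factor_le y (1 / 2) (Real.sqrt (2 * k)) x hy (by norm_num) (Real.sqrt_nonneg _)
  have hdi := (dom_integrable y (1 / 2) (Real.sqrt (2 * k)) (by norm_num)).comp_add_right y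
  calc ∫ x, (y + x) ^ (2 * k) * gw x ≤ ∫ x, (2 * k / Real.exp 1) ^ k * dom y (1 / 2) (Real.sqrt (2 * k)) (x + y) :=
        integral_mono (int_shift_gw _ _) (hdi.const_mul _) hpt
    _ = _ := by
        rw [integral_const_mul, integral_add_right_eq_self (fun x => dom y (1 / 2) (Real.sqrt (2 * k)) x) y,
          dom_int _ _ _ (by norm_num)]
        rfl

/-- lower bound. -/
theorem hv_lower (k : ℕ) (hk : 0 < k) (y : ℝ) (hy : 0 ≤ y) (hy1 : y ≤ 1) :
    (Real.sqrt (2 * Real.pi))⁻¹ * ((2 * k / Real.exp 1) ^ k * Real.exp (y * Real.sqrt (2 * k)) * Real.exp (-3)) ≤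
      hv (2 * k) y := by
  rw [hv_int]
  apply mul_le_mul_of_nonneg_left _ (by positivity)
  set q := Real.sqrt (2 * k) with hq
  have hkr : (0 : ℝ) < k := by exact_mod_cast hk
  have hq2 : q ^ 2 = 2 * k := Real.sq_sqrt (by positivity)
  have hq0 : 0 < q := Real.sqrt_pos.2 (by positivity)
  have hpt : ∀ x ∈ Set.Icc q (q + 1), (2 * k / Real.exp 1) ^ k * Real.exp (y * q) * Real.exp (-3) ≤
      (y + x) ^ (2 * k) * gw x := by
    intro x hx
    obtain ⟨t, ht⟩ : ∃ t, x = q + t := ⟨x - q, by ring⟩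
    subst ht
    have ht0 : 0 ≤ t := by linarith [hx.1]
    have ht1 : t ≤ 1 := by linarith [hx.2]
    -- (y + q + t) = q (1 + z), z = (t + y) / q
    set z := (t + y) / q with hz
    have hz0 : 0 ≤ z := by positivity
    have h1 : Real.exp (z - z ^ 2 / 2) ≤ 1 + z := by
      have hlog : z - z ^ 2 / 2 ≤ Real.log (1 + z) := by
        have hd : ∀ u ∈ Set.Ici (0 : ℝ), 0 ≤ Real.log (1 + u) - (u - u ^ 2 / 2) := by
          intro u hu
          have hu0 : (0 : ℝ) ≤ u := hu
          -- log (1 + u) ≥ 2u/(u+2) ≥ u - u^2/2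
          have h2 := Real.le_log_one_add_of_nonneg hu0
          have h3 : u - u ^ 2 / 2 ≤ 2 * u / (u + 2) := by
            rw [le_div_iff₀ (by linarith)]
            nlinarith [mul_nonneg hu0 (mul_nonneg hu0 hu0)]
          linarith
        have := hd z hz0
        linarith
      calc Real.exp (z - z ^ 2 / 2) ≤ Real.exp (Real.log (1 + z)) := Real.exp_le_exp.2 hlog
        _ = 1 + z := Real.exp_log (by linarith)
    have h2 : y + (q + t) = q * (1 + z) := by
      rw [hz]; field_simp; ring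
    rw [h2, mul_pow, pow_mul q, hq2]
    have h3 : (Real.exp (z - z ^ 2 / 2)) ^ (2 * k) ≤ (1 + z) ^ (2 * k) :=
      pow_le_pow_left₀ (Real.exp_pos _).le h1 _
    have h4 : (Real.exp (z - z ^ 2 / 2)) ^ (2 * k) = Real.exp (q * (t + y) - (t + y) ^ 2 / 2) := by
      rw [← Real.exp_nat_mul]
      congr 1
      push_cast
      rw [← hq2, hz]
      field_simp
    rw [h4] at h3
    unfold gw
    calc (2 * (k : ℝ) / Real.exp 1) ^ k * Real.exp (y * q) * Real.exp (-3)
        = (2 * k) ^ k * (Real.exp (-(k : ℝ)) * Real.exp (y * q) * Real.exp (-3)) := by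
          have e : Real.exp (-(k : ℝ)) = (Real.exp k)⁻¹ := Real.exp_neg _
          rw [div_pow, ← Real.exp_nat_mul, mul_one, e]
          ring
      _ = (2 * k) ^ k * Real.exp (-(k : ℝ) + y * q + -3) := by rw [Real.exp_add, Real.exp_add]
      _ ≤ (2 * k) ^ k * Real.exp (q * (t + y) - (t + y) ^ 2 / 2 + -(1 / 2) * (q + t) ^ 2) := by
          apply mul_le_mul_of_nonneg_left _ (by positivity)
          apply Real.exp_le_exp.2
          have h5 : (k : ℝ) = q ^ 2 / 2 := by rw [hq2]; ring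
          rw [h5]
          nlinarith [mul_nonneg ht0 hy, mul_le_one₀ ht1 hy hy1]
      _ = (2 * k) ^ k * (Real.exp (q * (t + y) - (t + y) ^ 2 / 2) * Real.exp (-(1 / 2) * (q + t) ^ 2)) := by
          rw [Real.exp_add]
      _ ≤ (2 * k) ^ k * ((1 + z) ^ (2 * k) * Real.exp (-(1 / 2) * (q + t) ^ 2)) := by
          apply mul_le_mul_of_nonneg_left _ (by positivity)
          exact mul_le_mul_of_nonneg_right h3 (Real.exp_pos _).le
      _ = _ := by ring
  calc (2 * (k : ℝ) / Real.exp 1) ^ k * Real.exp (y * q) * Real.exp (-3)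
      = ∫ x in Set.Icc q (q + 1), (2 * (k : ℝ) / Real.exp 1) ^ k * Real.exp (y * q) * Real.exp (-3) := by
        rw [setIntegral_const]
        simp
    _ ≤ ∫ x in Set.Icc q (q + 1), (y + x) ^ (2 * k) * gw x := by
        apply setIntegral_mono_on
        · exact integrableOn_const (by simp)
        · exact (int_shift_gw _ _).integrableOn
        · exact measurableSet_Icc
        · exact hpt
    _ ≤ ∫ x, (y + x) ^ (2 * k) * gw x := by
        apply setIntegral_le_integral (int_shift_gw _ _)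
        filter_upwards with x
        rw [pow_mul]
        exact mul_nonneg (pow_nonneg (sq_nonneg _) _) (gw_pos x).le

end Pool.Agent.H240R3.Ch
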