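import Mathlib
import Pool.Agent.H240R3.ChA
import Pool.Agent.H240R3.ChD
set_option autoImplicit false

namespace Pool.Agent.H240R3.Ch

open Finset

abbrev T3 (n : ℕ) := Fin 3 → Equiv.Perm (Fin n)

/-- three pairwise disjoint matchings given as involutions. -/
def IsCol {n : ℕ} (σ : T3 n) : Prop :=
  (∀ i v, σ i (σ i v) = v) ∧ (∀ i j v, i ≠ j → σ i v = σ j v → σ i v = v)

/-- the union graph. -/
def gr {n : ℕ} (σ : T3 n) : SimpleGraph (Fin n) := SimpleGraph.fromRel (fun v w => ∃ i, σ i v = w)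

def fixc {n : ℕ} (σ : T3 n) : ℕ := ∑ i, fx (σ i)

theorem gr_adj {n : ℕ} {σ : T3 n} (h : IsCol σ) (v w : Fin n) :
    (gr σ).Adj v w ↔ v ≠ w ∧ ∃ i, σ i v = w := by
  unfold gr
  rw [SimpleGraph.fromRel_adj]
  constructor
  · rintro ⟨h1, h2 | ⟨i, hi⟩⟩
    · exact ⟨h1, h2⟩
    · exact ⟨h1, i, by rw [← hi]; exact h.1 i w⟩
  · rintro ⟨h1, h2⟩
    exact ⟨h1, Or.inl h2⟩

theorem exists_perm_of_fibers {ι β : Type*} [Fintype ι] [DecidableEq β] (f g : ι → β)
    (h : ∀ w, (univ.filter (fun i => f i = w)).card = (univ.filter (fun i => g i = w)).card) :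
    ∃ ρ : Equiv.Perm ι, ∀ i, g (ρ i) = f i := by
  have e : ∀ w, Nonempty ({i // f i = w} ≃ {i // g i = w}) := by
    intro w
    refine ⟨Fintype.equivOfCardEq ?_⟩
    rw [Fintype.card_subtype, Fintype.card_subtype]
    exact h w
  let E : ∀ w, {i // f i = w} ≃ {i // g i = w} := fun w => (e w).some
  refine ⟨(Equiv.sigmaFiberEquiv f).symm.trans ((Equiv.sigmaCongrRight E).trans (Equiv.sigmaFiberEquiv g)), ?_⟩
  intro i
  exact (E (f i) ⟨i, rfl⟩).2

theorem fiber_card {n : ℕ} {σ : T3 n} (h : IsCol σ) (v w : Fin n) (hvw : v ≠ w) :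
    (univ.filter (fun i => σ i v = w)).card = if (∃ i, σ i v = w) then 1 else 0 := by
  classical
  split_ifs with hex
  · obtain ⟨i, hi⟩ := hex
    rw [Finset.card_eq_one]
    refine ⟨i, ?_⟩
    ext j
    simp only [mem_filter, mem_univ, true_and, mem_singleton]
    constructor
    · intro hj
      by_contra hne
      have := h.2 j i v hne (by rw [hj, hi])
      rw [hj] at this
      exact hvw this.symm
    · intro hj
      rw [hj]; exact hi
  · rw [Finset.card_eq_zero]
    ext j
    simp only [mem_filter, mem_univ, true_and, notMem_empty, iff_false]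
    intro hj
    exact hex ⟨j, hj⟩

theorem exists_pi {n : ℕ} {σ τ : T3 n} (hσ : IsCol σ) (hτ : IsCol τ) (hg : gr σ = gr τ) :
    ∃ π : Fin n → Equiv.Perm (Fin 3), ∀ v i, τ (π v i) v = σ i v := by
  classical
  have hv : ∀ v, ∃ ρ : Equiv.Perm (Fin 3), ∀ i, τ (ρ i) v = σ i v := by
    intro v
    apply exists_perm_of_fibers (fun i => σ i v) (fun i => τ i v)
    have hne : ∀ w, w ≠ v → (univ.filter (fun i => σ i v = w)).card = (univ.filter (fun i => τ i v = w)).card := by
      intro w hw
      rw [fiber_card hσ v w (Ne.symm hw), fiber_card hτ v w (Ne.symm hw)]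
      have h1 := gr_adj hσ v w
      have h2 := gr_adj hτ v w
      rw [hg] at h1
      have h3 : (∃ i, σ i v = w) ↔ (∃ i, τ i v = w) := by
        constructor
        · intro hh
          exact (h2.1 (h1.2 ⟨Ne.symm hw, hh⟩)).2
        · intro hh
          exact (h1.1 (h2.2 ⟨Ne.symm hw, hh⟩)).2
      simp only [h3]
    intro w
    by_cases hw : w = v
    · subst hw
      have s1 : ∑ u, (univ.filter (fun i => σ i w = u)).card = 3 := by
        rw [← Finset.card_eq_sum_card_fiberwise (fun _ _ => Finset.mem_univ _)]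
        simp
      have s2 : ∑ u, (univ.filter (fun i => τ i w = u)).card = 3 := by
        rw [← Finset.card_eq_sum_card_fiberwise (fun _ _ => Finset.mem_univ _)]
        simp
      rw [← Finset.add_sum_erase _ _ (Finset.mem_univ w)] at s1 s2
      have s3 : ∑ u ∈ univ.erase w, (univ.filter (fun i => σ i w = u)).card =
          ∑ u ∈ univ.erase w, (univ.filter (fun i => τ i w = u)).card := by
        apply Finset.sum_congr rfl
        intro u hu
        exact hne u (Finset.ne_of_mem_erase hu)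
      omega
    · exact hne w hw
  choose π hπ using hv
  exact ⟨π, hπ⟩

theorem fixc_eq {n : ℕ} {σ τ : T3 n} (π : Fin n → Equiv.Perm (Fin 3)) (h : ∀ v i, τ (π v i) v = σ i v) :
    fixc σ = fixc τ := by
  classical
  have e : ∀ σ : T3 n, fixc σ = ∑ v, ∑ i, if σ i v = v then 1 else 0 := by
    intro σ
    unfold fixc
    simp only [fx_sum]
    rw [Finset.sum_comm]
  rw [e, e]
  apply Finset.sum_congr rfl
  intro v _
  rw [← Equiv.sum_comp (π v) (fun j => if τ j v = v then 1 else 0)]
  apply Finset.sum_congr rfl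
  intro i _
  rw [h]

/-- involutions preserving a colouring. -/
def cinv {n : ℕ} (c : Fin n → Fin 3) : Finset (Equiv.Perm (Fin n)) :=
  univ.filter (fun ρ => (∀ v, ρ (ρ v) = v) ∧ ∀ v, c (ρ v) = c v)

theorem cinv_sum {n : ℕ} (c : Fin n → Fin 3) (y : ℝ) (hy : 0 ≤ y) :
    ∑ ρ ∈ cinv c, y ^ (fx ρ) ≤ ∏ j, hv ((univ.filter (fun v => c v = j)).card) y := by
  classical
  have h1 : ∀ j : Fin 3, hv ((univ.filter (fun v => c v = j)).card) y =
      ∑ τ ∈ invs {v // c v = j}, y ^ (fx τ) := by
    intro j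
    rw [hv_eq, Fintype.card_subtype]
  simp only [h1]
  rw [Finset.prod_univ_sum]
  have hpres : ∀ ρ : {ρ // ρ ∈ cinv c}, ∀ j v, c (ρ.1 v) = j ↔ c v = j := by
    rintro ⟨ρ, hρ⟩ j v
    have := (Finset.mem_filter.1 hρ).2.2 v
    simp only [this]
  let Φ : {ρ // ρ ∈ cinv c} → (∀ j : Fin 3, Equiv.Perm {v // c v = j}) := fun ρ j =>
    ρ.1.subtypePerm (fun v => hpres ρ j v)
  have hΦinj : Function.Injective Φ := by
    intro ρ ρ' h
    apply Subtype.ext
    apply Equiv.ext
    intro v
    have h2 := congrFun h (c v)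
    have h3 := Equiv.congr_fun h2 ⟨v, rfl⟩
    have h4 := congrArg Subtype.val h3
    simpa [Φ] using h4
  have hw : ∀ ρ : {ρ // ρ ∈ cinv c}, y ^ (fx ρ.1) = ∏ j, y ^ (fx (Φ ρ j)) := by
    intro ρ
    rw [Finset.prod_pow_eq_pow_sum]
    congr 1
    unfold fx
    rw [Finset.card_eq_sum_card_fiberwise (f := c) (t := univ) (fun _ _ => Finset.mem_univ _)]
    apply Finset.sum_congr rfl
    intro j _
    symm
    apply Finset.card_bij (fun (v : {v // c v = j}) _ => v.1)
    · intro v hv
      simp only [mem_filter, mem_univ, true_and, Φ] at hv ⊢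
      refine ⟨?_, v.2⟩
      have := congrArg Subtype.val hv
      simpa using this
    · intro a _ b _ h
      exact Subtype.ext h
    · intro v hv
      simp only [mem_filter, mem_univ, true_and] at hv
      refine ⟨⟨v, hv.2⟩, ?_, rfl⟩
      simp only [mem_filter, mem_univ, true_and, Φ]
      apply Subtype.ext
      simpa using hv.1
  rw [← Finset.sum_attach]
  rw [Finset.sum_congr rfl (fun ρ _ => hw ρ)]
  rw [← Finset.sum_image (s := (cinv c).attach) (g := Φ) (f := fun q => ∏ j, y ^ (fx (q j)))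
    (fun a _ b _ h => hΦinj h)]
  apply Finset.sum_le_sum_of_subset_of_nonneg
  · intro q hq
    obtain ⟨ρ, _, rfl⟩ := Finset.mem_image.1 hq
    rw [Fintype.mem_piFinset]
    intro j
    simp only [invs, mem_filter, mem_univ, true_and]
    intro v
    apply Subtype.ext
    have := (Finset.mem_filter.1 ρ.2).2.1 v.1
    simpa [Φ] using this
  · intro q _ _
    exact Finset.prod_nonneg (fun j _ => pow_nonneg hy _)

end Pool.Agent.H240R3.Ch
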