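import Mathlib
import Pool.Agent.H240R3.ChE
set_option autoImplicit false

namespace Pool.Agent.H240R3.Ch

open Finset

open Classical in
noncomputable def Col (n : ℕ) : Finset (T3 n) := univ.filter (fun σ => IsCol σ)

theorem mem_Col {n : ℕ} (σ : T3 n) : σ ∈ Col n ↔ IsCol σ := by simp [Col]

/-- for a fixed pairing of colours. -/
def Api {n : ℕ} (π : Fin n → Equiv.Perm (Fin 3)) : Finset (T3 n) :=
  Fintype.piFinset (fun i => cinv (fun v => π v i))

theorem Api_sum {n : ℕ} (π : Fin n → Equiv.Perm (Fin 3)) (y : ℝ) (hy : 0 ≤ y) :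
    ∑ σ ∈ Api π, y ^ (fixc σ) ≤ ∏ i, ∏ j, hv (cnt π i j) y := by
  have h1 : ∑ σ ∈ Api π, y ^ (fixc σ) = ∏ i, ∑ ρ ∈ cinv (fun v => π v i), y ^ (fx ρ) := by
    rw [Finset.prod_univ_sum]
    apply Finset.sum_congr rfl
    intro σ _
    unfold fixc
    rw [Finset.prod_pow_eq_pow_sum]
  rw [h1]
  apply Finset.prod_le_prod
  · intro i _
    exact Finset.sum_nonneg (fun ρ _ => pow_nonneg hy _)
  · intro i _
    exact cinv_sum (fun v => π v i) y hy

open Classical in
noncomputable def Pairs (n : ℕ) : Finset (T3 n × T3 n) :=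
  (Col n ×ˢ Col n).filter (fun p => gr p.1 = gr p.2)

theorem pairs_sum (n : ℕ) (x : ℝ) :
    ∑ p ∈ Pairs n, x ^ (fixc p.1) * x ^ (fixc p.2) ≤
      ∑ π : Fin n → Equiv.Perm (Fin 3), ∏ i, ∏ j, hv (cnt π i j) (x ^ 2) := by
  classical
  have hy : 0 ≤ x ^ 2 := sq_nonneg x
  have hex : ∀ p : {p // p ∈ Pairs n}, ∃ π : Fin n → Equiv.Perm (Fin 3), ∀ v i, p.1.2 (π v i) v = p.1.1 i v := by
    rintro ⟨p, hp⟩
    simp only [Pairs, mem_filter, mem_product, mem_Col] at hp
    exact exists_pi hp.1.1 hp.1.2 hp.2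
  choose Pi0 hPi0 using hex
  let Φ : {p // p ∈ Pairs n} → (Σ _ : (Fin n → Equiv.Perm (Fin 3)), T3 n) := fun p => ⟨Pi0 p, p.1.1⟩
  have hΦ : Function.Injective Φ := by
    intro p q h
    have h1 : Pi0 p = Pi0 q := congrArg Sigma.fst h
    have h2 : p.1.1 = q.1.1 := by
      have := (Sigma.mk.inj_iff.1 h).2
      exact eq_of_heq this
    apply Subtype.ext
    apply Prod.ext h2
    funext j
    apply Equiv.ext
    intro v
    have e1 := hPi0 p v ((Pi0 p v).symm j)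
    have e2 := hPi0 q v ((Pi0 q v).symm j)
    rw [Equiv.apply_symm_apply] at e1 e2
    rw [e1, e2, h1, h2]
  have hw : ∀ p : {p // p ∈ Pairs n}, x ^ (fixc p.1.1) * x ^ (fixc p.1.2) = (x ^ 2) ^ (fixc (Φ p).2) := by
    intro p
    rw [← fixc_eq (Pi0 p) (hPi0 p)]
    simp only [Φ]
    rw [← pow_add, ← pow_mul]
    congr 1
    ring
  have hmem : ∀ p : {p // p ∈ Pairs n}, Φ p ∈ (univ : Finset (Fin n → Equiv.Perm (Fin 3))).sigma (fun π => Api π) := by
    rintro ⟨p, hp⟩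
    rw [Finset.mem_sigma]
    refine ⟨Finset.mem_univ _, ?_⟩
    simp only [Φ]
    rw [Api, Fintype.mem_piFinset]
    intro i
    have hp' := hp
    simp only [Pairs, mem_filter, mem_product, mem_Col] at hp'
    obtain ⟨⟨hσ, hτ⟩, -⟩ := hp'
    simp only [cinv, mem_filter, mem_univ, true_and]
    refine ⟨hσ.1 i, ?_⟩
    intro v
    have hpi := hPi0 ⟨p, hp⟩
    simp only at hpi
    by_cases hvw : p.1 i v = v
    · rw [hvw]
    · by_contra hne
      have e1 := hpi v i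
      have e2 := hpi (p.1 i v) i
      rw [hσ.1 i v] at e2
      have e3 : p.2 (Pi0 ⟨p, hp⟩ v i) (p.1 i v) = v := by
        rw [← e1]; exact hτ.1 _ v
      have := hτ.2 _ _ (p.1 i v) hne (by rw [e2, e3])
      rw [e2] at this
      exact hvw this.symm
  calc ∑ p ∈ Pairs n, x ^ (fixc p.1) * x ^ (fixc p.2)
      = ∑ p ∈ (Pairs n).attach, x ^ (fixc p.1.1) * x ^ (fixc p.1.2) := by rw [← Finset.sum_attach]
    _ = ∑ p ∈ (Pairs n).attach, (x ^ 2) ^ (fixc (Φ p).2) := Finset.sum_congr rfl (fun p _ => hw p)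
    _ = ∑ q ∈ (Pairs n).attach.image Φ, (x ^ 2) ^ (fixc q.2) := by
        rw [Finset.sum_image (fun a _ b _ h => hΦ h)]
    _ ≤ ∑ q ∈ (univ : Finset (Fin n → Equiv.Perm (Fin 3))).sigma (fun π => Api π), (x ^ 2) ^ (fixc q.2) := by
        apply Finset.sum_le_sum_of_subset_of_nonneg
        · intro q hq
          obtain ⟨p, _, rfl⟩ := Finset.mem_image.1 hq
          exact hmem p
        · intro q _ _
          exact pow_nonneg hy _
    _ = ∑ π : Fin n → Equiv.Perm (Fin 3), ∑ σ ∈ Api π, (x ^ 2) ^ (fixc σ) := by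
        rw [Finset.sum_sigma]
    _ ≤ _ := Finset.sum_le_sum (fun π _ => Api_sum π (x ^ 2) hy)

open Classical in
/-- graphs that are unions of three disjoint matchings. -/
noncomputable def Im (n : ℕ) : Finset (SimpleGraph (Fin n)) := (Col n).image gr

theorem cs_bound (n : ℕ) (x : ℝ) :
    (∑ σ ∈ Col n, x ^ (fixc σ)) ^ 2 ≤ ((Im n).card : ℝ) *
      ∑ π : Fin n → Equiv.Perm (Fin 3), ∏ i, ∏ j, hv (cnt π i j) (x ^ 2) := by
  classical
  have h1 : ∑ σ ∈ Col n, x ^ (fixc σ) = ∑ G ∈ Im n, ∑ σ ∈ (Col n).filter (fun σ => gr σ = G), x ^ (fixc σ) := by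
    symm
    apply Finset.sum_fiberwise_of_maps_to
    intro σ hσ
    exact Finset.mem_image_of_mem _ hσ
  have h2 : ∑ G ∈ Im n, (∑ σ ∈ (Col n).filter (fun σ => gr σ = G), x ^ (fixc σ)) ^ 2 =
      ∑ p ∈ Pairs n, x ^ (fixc p.1) * x ^ (fixc p.2) := by
    have h3 : ∑ p ∈ Pairs n, x ^ (fixc p.1) * x ^ (fixc p.2) =
        ∑ σ ∈ Col n, x ^ (fixc σ) * ∑ τ ∈ (Col n).filter (fun τ => gr τ = gr σ), x ^ (fixc τ) := by
      unfold Pairs
      rw [Finset.sum_filter, Finset.sum_product]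
      apply Finset.sum_congr rfl
      intro σ _
      rw [Finset.sum_filter, Finset.mul_sum]
      apply Finset.sum_congr rfl
      intro τ _
      by_cases h : gr σ = gr τ
      · rw [if_pos h, if_pos h.symm]
      · rw [if_neg h, if_neg (fun hh => h hh.symm), mul_zero]
    rw [h3]
    rw [← Finset.sum_fiberwise_of_maps_to (s := Col n) (t := Im n) (g := gr)
      (fun σ hσ => Finset.mem_image_of_mem _ hσ)]
    apply Finset.sum_congr rfl
    intro G _
    rw [sq, Finset.sum_mul]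
    apply Finset.sum_congr rfl
    intro σ hσ
    rw [(Finset.mem_filter.1 hσ).2]
  rw [h1]
  refine (sq_sum_le_card_mul_sum_sq).trans ?_
  apply mul_le_mul_of_nonneg_left _ (Nat.cast_nonneg _)
  rw [h2]
  exact pairs_sum n x

end Pool.Agent.H240R3.Ch
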