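import Mathlib
import Pool.Agent.H240R3.ChF
set_option autoImplicit false

namespace Pool.Agent.H240R3.Ch

open Finset

/-- a sparse symmetric irreflexive relation. -/
structure Sparse {n : ℕ} (F : Fin n → Finset (Fin n)) : Prop where
  irr : ∀ v, v ∉ F v
  sym : ∀ v w, w ∈ F v → v ∈ F w
  two : ∀ v, (F v).card ≤ 2

def conf {n : ℕ} (F : Fin n → Finset (Fin n)) (M : Equiv.Perm (Fin n)) : Finset (Fin n) :=
  univ.filter (fun v => M v ∈ F v)

def cj {n : ℕ} (M : Equiv.Perm (Fin n)) (b c : Fin n) : Equiv.Perm (Fin n) :=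
  (Equiv.swap b c).permCongr M

theorem cj_apply {n : ℕ} (M : Equiv.Perm (Fin n)) (b c v : Fin n) :
    cj M b c v = Equiv.swap b c (M (Equiv.swap b c v)) := by
  unfold cj
  rw [Equiv.permCongr_apply]
  simp

theorem cj_cj {n : ℕ} (M : Equiv.Perm (Fin n)) (b c : Fin n) : cj (cj M b c) b c = M := by
  apply Equiv.ext
  intro v
  rw [cj_apply, cj_apply]
  simp

theorem cj_inv {n : ℕ} {M : Equiv.Perm (Fin n)} (h : M ∈ invs (Fin n)) (b c : Fin n) :
    cj M b c ∈ invs (Fin n) := by
  simp only [invs, mem_filter, mem_univ, true_and] at h ⊢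
  intro v
  rw [cj_apply, cj_apply]
  simp [h]

theorem fx_cj {n : ℕ} (M : Equiv.Perm (Fin n)) (b c : Fin n) : fx (cj M b c) = fx M := fx_congr _ _

theorem conf_mem {n : ℕ} {F : Fin n → Finset (Fin n)} {M : Equiv.Perm (Fin n)} {v : Fin n} :
    v ∈ conf F M ↔ M v ∈ F v := by simp [conf]

/-- effect of a good switching. -/
theorem conf_cj {n : ℕ} {F : Fin n → Finset (Fin n)} (hF : Sparse F) {M : Equiv.Perm (Fin n)}
    (hM : ∀ v, M (M v) = v) (a c : Fin n) (ha : a ∈ conf F M) (hca : c ≠ a) (hcb : c ≠ M a)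
    (h1 : c ∉ F a) (h2 : c ∉ conf F M) (h3 : M c ∉ F (M a)) :
    conf F (cj M (M a) c) = (conf F M) \ {a, M a} := by
  rw [conf_mem] at ha
  rw [conf_mem] at h2
  have hba : M a ≠ a := by
    intro h
    rw [h] at ha
    exact hF.irr a ha
  ext v
  rw [conf_mem, cj_apply, mem_sdiff, conf_mem, mem_insert, mem_singleton]
  by_cases hva : v = a
  · subst hva
    rw [Equiv.swap_apply_of_ne_of_ne (Ne.symm hba) (Ne.symm hca), Equiv.swap_apply_left]
    simp [h1]
  by_cases hvb : v = M a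
  · subst hvb
    rw [Equiv.swap_apply_left]
    have : Equiv.swap (M a) c (M c) ∉ F (M a) := by
      by_cases hd : M c = c
      · rw [hd, Equiv.swap_apply_right]
        exact hF.irr _
      · rw [Equiv.swap_apply_of_ne_of_ne _ hd]
        · exact h3
        · intro h
          exact hca (M.injective h)
    simp [this]
  by_cases hvc : v = c
  · subst hvc
    rw [Equiv.swap_apply_right, hM a, Equiv.swap_apply_of_ne_of_ne (Ne.symm hba) (Ne.symm hca)]
    have : a ∉ F v := fun h => h1 (hF.sym _ _ h)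
    simp [this, h2]
  rw [Equiv.swap_apply_of_ne_of_ne hvb hvc]
  by_cases hvd : M v = c
  · rw [hvd, Equiv.swap_apply_right]
    have hv : v = M c := by rw [← hvd, hM]
    have e1 : M a ∉ F v := by
      intro h
      apply h3
      rw [← hv]
      exact hF.sym _ _ h
    have e2 : c ∉ F v := by
      intro h
      apply h2
      rw [← hv]
      exact hF.sym _ _ h
    simp [e1, e2]
  · rw [Equiv.swap_apply_of_ne_of_ne _ hvd]
    · simp [hva, hvb]
    · intro h
      exact hva (M.injective h)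

noncomputable def At {n : ℕ} (F : Fin n → Finset (Fin n)) (t : ℕ) : Finset (Equiv.Perm (Fin n)) :=
  (invs (Fin n)).filter (fun M => (conf F M).card = t)

theorem switch_ineq {n : ℕ} (F : Fin n → Finset (Fin n)) (hF : Sparse F) (x : ℝ) (hx : 0 ≤ x)
    (t : ℕ) (ht : t ≤ 4) (hn : 10 ≤ n) :
    (∑ M ∈ At F t, x ^ (fx M)) * (t * (n - 10 : ℕ)) ≤ 2 * n * ∑ M ∈ At F (t - 2), x ^ (fx M) := by
  classical
  have hW : ∀ M : Equiv.Perm (Fin n), 0 ≤ x ^ (fx M) := fun M => pow_nonneg hx _
  set good : Equiv.Perm (Fin n) → Fin n → Finset (Fin n) := fun M a =>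
    univ.filter (fun c => c ≠ a ∧ c ≠ M a ∧ c ∉ F a ∧ c ∉ conf F M ∧ M c ∉ F (M a)) with hgood
  have hgc : ∀ M ∈ At F t, ∀ a, n - 10 ≤ (good M a).card := by
    intro M hM a
    have hMt : (conf F M).card = t := (Finset.mem_filter.1 hM).2
    have hMinv : ∀ v, M (M v) = v := by
      have := (Finset.mem_filter.1 hM).1
      simpa [invs] using this
    have hsub : (univ : Finset (Fin n)) ⊆ good M a ∪ (({a, M a} ∪ F a) ∪ (conf F M ∪ (F (M a)).image M)) := by
      intro c _
      simp only [hgood, mem_union, mem_filter, mem_univ, true_and, mem_insert, mem_singleton, mem_image]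
      by_cases k1 : c = a
      · tauto
      by_cases k2 : c = M a
      · tauto
      by_cases k3 : c ∈ F a
      · tauto
      by_cases k4 : c ∈ conf F M
      · tauto
      by_cases k5 : M c ∈ F (M a)
      · right; right; right
        exact ⟨M c, k5, hMinv c⟩
      · left
        exact ⟨k1, k2, k3, k4, k5⟩
    have h1 := Finset.card_le_card hsub
    rw [Finset.card_univ, Fintype.card_fin] at h1
    have h2 := Finset.card_union_le (good M a) (({a, M a} ∪ F a) ∪ (conf F M ∪ (F (M a)).image M))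
    have h3 := Finset.card_union_le ({a, M a} ∪ F a) (conf F M ∪ (F (M a)).image M)
    have h4 := Finset.card_union_le ({a, M a} : Finset (Fin n)) (F a)
    have h5 := Finset.card_union_le (conf F M) ((F (M a)).image M)
    have h6 := hF.two a
    have h7 := (Finset.card_image_le (s := F (M a)) (f := M)).trans (hF.two (M a))
    have h8 : ({a, M a} : Finset (Fin n)).card ≤ 2 := Finset.card_le_two
    omega
  set P := (At F t).sigma (fun M => (conf F M).sigma (fun a => good M a)) with hP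
  set Q := (At F (t - 2)).sigma (fun _ => (univ : Finset (Fin n)).sigma (fun a => F a)) with hQ
  let Φ : (Σ _ : Equiv.Perm (Fin n), Σ _ : Fin n, Fin n) → (Σ _ : Equiv.Perm (Fin n), Σ _ : Fin n, Fin n) :=
    fun p => ⟨cj p.1 (p.1 p.2.1) p.2.2, ⟨p.2.1, p.1 p.2.1⟩⟩
  have hPsum : ∑ p ∈ P, x ^ (fx p.1) ≥ (∑ M ∈ At F t, x ^ (fx M)) * (t * (n - 10 : ℕ)) := by
    rw [hP, Finset.sum_sigma, Finset.sum_mul]
    apply Finset.sum_le_sum
    intro M hM
    have hMt : (conf F M).card = t := (Finset.mem_filter.1 hM).2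
    dsimp only
    rw [Finset.sum_const, nsmul_eq_mul, mul_comm]
    apply mul_le_mul_of_nonneg_right _ (hW M)
    rw [Finset.card_sigma]
    have : t * (n - 10) ≤ ∑ a ∈ conf F M, (good M a).card := by
      rw [← hMt, ← smul_eq_mul]
      exact Finset.card_nsmul_le_sum _ _ _ (fun a _ => hgc M hM a)
    exact_mod_cast this
  have hmap : ∀ p ∈ P, Φ p ∈ Q := by
    rintro ⟨M, a, c⟩ hp
    rw [hP, Finset.mem_sigma, Finset.mem_sigma] at hp
    obtain ⟨hM, ha, hc⟩ := hp
    simp only at hM ha hc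
    have hMinv : ∀ v, M (M v) = v := by
      have := (Finset.mem_filter.1 hM).1
      simpa [invs] using this
    simp only [hgood, mem_filter, mem_univ, true_and] at hc
    obtain ⟨k1, k2, k3, k4, k5⟩ := hc
    rw [hQ, Finset.mem_sigma, Finset.mem_sigma]
    refine ⟨?_, Finset.mem_univ _, conf_mem.1 ha⟩
    simp only [Φ]
    rw [At, Finset.mem_filter]
    refine ⟨cj_inv (Finset.mem_filter.1 hM).1 _ _, ?_⟩
    rw [conf_cj hF hMinv a c ha k1 k2 k3 k4 k5]
    have hba : a ≠ M a := by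
      intro h
      have h5 := conf_mem.1 ha
      rw [← h] at h5
      exact hF.irr a h5
    have hsub : ({a, M a} : Finset (Fin n)) ⊆ conf F M := by
      intro v hv
      rw [Finset.mem_insert, Finset.mem_singleton] at hv
      rcases hv with h | h
      · rw [h]; exact ha
      · rw [h, conf_mem, hMinv]
        exact hF.sym _ _ (conf_mem.1 ha)
    rw [Finset.card_sdiff_of_subset hsub, Finset.card_pair hba, (Finset.mem_filter.1 hM).2]
  have hinj : Set.InjOn Φ P := by
    rintro ⟨M, a, c⟩ hp ⟨M', a', c'⟩ hp' h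
    rw [Finset.mem_coe, hP, Finset.mem_sigma, Finset.mem_sigma] at hp hp'
    simp only [hgood, mem_filter, mem_univ, true_and] at hp hp'
    obtain ⟨hM, ha, k1, k2, -⟩ := hp
    obtain ⟨hM', ha', k1', k2', -⟩ := hp'
    simp only [Φ, Sigma.mk.injEq, heq_eq_eq] at h
    obtain ⟨h1, h2, h3⟩ := h
    subst h2
    have e1 : cj M (M a) c a = c := by
      have hba : a ≠ M a := by
        intro hh
        have h5 := conf_mem.1 ha
        rw [← hh] at h5
        exact hF.irr a h5
      rw [cj_apply, Equiv.swap_apply_of_ne_of_ne hba (Ne.symm k1), Equiv.swap_apply_left]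
    have e2 : cj M' (M' a) c' a = c' := by
      have hba : a ≠ M' a := by
        intro hh
        have h5 := conf_mem.1 ha'
        rw [← hh] at h5
        exact hF.irr a h5
      rw [cj_apply, Equiv.swap_apply_of_ne_of_ne hba (Ne.symm k1'), Equiv.swap_apply_left]
    have hcc : c = c' := by rw [← e1, ← e2, h1]
    subst hcc
    have : M = M' := by
      rw [← cj_cj M (M a) c, h1, ← h3, cj_cj]
    subst this
    rfl
  have hQsum : ∑ q ∈ Q, x ^ (fx q.1) ≤ 2 * n * ∑ M ∈ At F (t - 2), x ^ (fx M) := by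
    rw [hQ, Finset.sum_sigma, Finset.mul_sum]
    apply Finset.sum_le_sum
    intro M _
    dsimp only
    rw [Finset.sum_const, nsmul_eq_mul]
    apply mul_le_mul_of_nonneg_right _ (hW M)
    rw [Finset.card_sigma]
    have : ∑ a : Fin n, (F a).card ≤ 2 * n := by
      calc ∑ a : Fin n, (F a).card ≤ ∑ _a : Fin n, 2 := Finset.sum_le_sum (fun a _ => hF.two a)
        _ = 2 * n := by simp; ring
    exact_mod_cast this
  calc (∑ M ∈ At F t, x ^ (fx M)) * (t * (n - 10 : ℕ)) ≤ ∑ p ∈ P, x ^ (fx p.1) := hPsum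
    _ = ∑ p ∈ P, x ^ (fx (Φ p).1) := by
        apply Finset.sum_congr rfl
        intro p _
        simp only [Φ]
        rw [fx_cj]
    _ = ∑ q ∈ P.image Φ, x ^ (fx q.1) := by rw [Finset.sum_image hinj]
    _ ≤ ∑ q ∈ Q, x ^ (fx q.1) := by
        apply Finset.sum_le_sum_of_subset_of_nonneg
        · intro q hq
          obtain ⟨p, hp, rfl⟩ := Finset.mem_image.1 hq
          exact hmap p hp
        · intro q _ _
          exact hW q.1
    _ ≤ _ := hQsum

/-- symmetry: the weight of involutions matching `v` with `w`. -/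
theorem edge_weight {n : ℕ} (hn : 2 ≤ n) (x : ℝ) (hx : 0 ≤ x) (v w : Fin n) (hvw : w ≠ v) :
    ((n : ℝ) - 1) * ∑ M ∈ (invs (Fin n)).filter (fun M => M v = w), x ^ (fx M) ≤
      ∑ M ∈ invs (Fin n), x ^ (fx M) := by
  classical
  have hW : ∀ M : Equiv.Perm (Fin n), 0 ≤ x ^ (fx M) := fun M => pow_nonneg hx _
  have hsym : ∀ w', w' ≠ v → ∑ M ∈ (invs (Fin n)).filter (fun M => M v = w'), x ^ (fx M) =
      ∑ M ∈ (invs (Fin n)).filter (fun M => M v = w), x ^ (fx M) := by
    intro w' hw'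
    apply Finset.sum_bij (fun M _ => cj M w w')
    · intro M hM
      simp only [mem_filter] at hM ⊢
      refine ⟨cj_inv hM.1 _ _, ?_⟩
      rw [cj_apply, Equiv.swap_apply_of_ne_of_ne (Ne.symm hvw) (Ne.symm hw'), hM.2, Equiv.swap_apply_right]
    · intro M _ M' _ h
      rw [← cj_cj M w w', h, cj_cj]
    · intro M hM
      simp only [mem_filter] at hM
      refine ⟨cj M w w', ?_, cj_cj _ _ _⟩
      simp only [mem_filter]
      refine ⟨cj_inv hM.1 _ _, ?_⟩
      rw [cj_apply, Equiv.swap_apply_of_ne_of_ne (Ne.symm hvw) (Ne.symm hw'), hM.2, Equiv.swap_apply_left]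
    · intro M _
      rw [fx_cj]
  have h1 : ∑ w' ∈ univ.erase v, ∑ M ∈ (invs (Fin n)).filter (fun M => M v = w'), x ^ (fx M) =
      ((n : ℝ) - 1) * ∑ M ∈ (invs (Fin n)).filter (fun M => M v = w), x ^ (fx M) := by
    rw [Finset.sum_congr rfl (fun w' hw' => hsym w' (Finset.ne_of_mem_erase hw')), Finset.sum_const,
      nsmul_eq_mul, Finset.card_erase_of_mem (Finset.mem_univ _), Finset.card_univ, Fintype.card_fin,
      Nat.cast_sub (by omega)]
    simp
  rw [← h1]
  have h2 : ∑ w', ∑ M ∈ (invs (Fin n)).filter (fun M => M v = w'), x ^ (fx M) =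
      ∑ M ∈ invs (Fin n), x ^ (fx M) := Finset.sum_fiberwise _ _ _
  rw [← h2]
  apply Finset.sum_le_sum_of_subset_of_nonneg (Finset.erase_subset _ _)
  intro w' _ _
  exact Finset.sum_nonneg (fun M _ => hW M)

theorem first_moment {n : ℕ} (hn : 2 ≤ n) (F : Fin n → Finset (Fin n)) (hF : Sparse F) (x : ℝ) (hx : 0 ≤ x) :
    ((n : ℝ) - 1) * ∑ M ∈ invs (Fin n), ((conf F M).card : ℝ) * x ^ (fx M) ≤
      2 * n * ∑ M ∈ invs (Fin n), x ^ (fx M) := by
  classical
  have h1 : ∑ M ∈ invs (Fin n), ((conf F M).card : ℝ) * x ^ (fx M) =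
      ∑ v, ∑ w ∈ F v, ∑ M ∈ (invs (Fin n)).filter (fun M => M v = w), x ^ (fx M) := by
    have e1 : ∀ M ∈ invs (Fin n), ((conf F M).card : ℝ) * x ^ (fx M) =
        ∑ v, ∑ w ∈ F v, if M v = w then x ^ (fx M) else 0 := by
      intro M _
      have e2 : ∀ v, (∑ w ∈ F v, if M v = w then x ^ (fx M) else 0) = if v ∈ conf F M then x ^ (fx M) else 0 := by
        intro v
        rw [Finset.sum_ite_eq]
        simp only [conf_mem]
      rw [Finset.sum_congr rfl (fun v _ => e2 v), ← Finset.sum_filter, Finset.sum_const, nsmul_eq_mul]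
      congr 2
      congr 1
      ext v
      simp
    rw [Finset.sum_congr rfl e1, Finset.sum_comm]
    apply Finset.sum_congr rfl
    intro v _
    rw [Finset.sum_comm]
    apply Finset.sum_congr rfl
    intro w _
    rw [Finset.sum_filter]
  rw [h1, Finset.mul_sum]
  have hH : 0 ≤ ∑ M ∈ invs (Fin n), x ^ (fx M) := Finset.sum_nonneg (fun M _ => pow_nonneg hx _)
  calc ∑ v, ((n : ℝ) - 1) * ∑ w ∈ F v, ∑ M ∈ (invs (Fin n)).filter (fun M => M v = w), x ^ (fx M)
      ≤ ∑ _v : Fin n, 2 * ∑ M ∈ invs (Fin n), x ^ (fx M) := by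
        apply Finset.sum_le_sum
        intro v _
        rw [Finset.mul_sum]
        calc ∑ w ∈ F v, ((n : ℝ) - 1) * ∑ M ∈ (invs (Fin n)).filter (fun M => M v = w), x ^ (fx M)
            ≤ ∑ _w ∈ F v, ∑ M ∈ invs (Fin n), x ^ (fx M) := by
              apply Finset.sum_le_sum
              intro w hw
              apply edge_weight hn x hx v w
              intro h
              rw [h] at hw
              exact hF.irr v hw
          _ = ((F v).card : ℝ) * ∑ M ∈ invs (Fin n), x ^ (fx M) := by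
              rw [Finset.sum_const, nsmul_eq_mul]
          _ ≤ _ := by
              apply mul_le_mul_of_nonneg_right _ hH
              exact_mod_cast hF.two v
    _ = _ := by
        rw [Finset.sum_const, nsmul_eq_mul, Finset.card_univ, Fintype.card_fin]
        ring

/-- a positive proportion of the involutions avoids a sparse relation. -/
theorem avoid {n : ℕ} (hn : 20 ≤ n) (F : Fin n → Finset (Fin n)) (hF : Sparse F) (x : ℝ) (hx : 0 ≤ x) :
    ∑ M ∈ invs (Fin n), x ^ (fx M) ≤ 10 * ∑ M ∈ At F 0, x ^ (fx M) := by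
  classical
  have hW : ∀ M : Equiv.Perm (Fin n), 0 ≤ x ^ (fx M) := fun M => pow_nonneg hx _
  obtain ⟨H, hH⟩ : ∃ H, H = ∑ M ∈ invs (Fin n), x ^ (fx M) := ⟨_, rfl⟩
  have s1 := switch_ineq F hF x hx 1 (by norm_num) (by omega)
  have s2 := switch_ineq F hF x hx 2 (by norm_num) (by omega)
  have s3 := switch_ineq F hF x hx 3 (by norm_num) (by omega)
  have s4 := switch_ineq F hF x hx 4 (by norm_num) (by omega)
  have hA1 : At F 1 = ∅ := by
    ext M
    simp only [notMem_empty, iff_false]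
    intro hM
    have hMinv : ∀ v, M (M v) = v := by
      have := (Finset.mem_filter.1 hM).1
      simpa [invs] using this
    have hc := (Finset.mem_filter.1 hM).2
    obtain ⟨a, ha⟩ := Finset.card_eq_one.1 hc
    have h1 : a ∈ conf F M := by rw [ha]; exact Finset.mem_singleton_self a
    have h2 : M a ∈ conf F M := by
      rw [conf_mem, hMinv]
      exact hF.sym _ _ (conf_mem.1 h1)
    rw [ha, Finset.mem_singleton] at h2
    have h3 := conf_mem.1 h1
    rw [h2] at h3
    exact hF.irr a h3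
  have hfm := first_moment (by omega) F hF x hx
  rw [← hH] at hfm ⊢
  -- Markov
  have hmarkov : 5 * ∑ M ∈ (invs (Fin n)).filter (fun M => 5 ≤ (conf F M).card), x ^ (fx M) ≤
      ∑ M ∈ invs (Fin n), ((conf F M).card : ℝ) * x ^ (fx M) := by
    rw [Finset.mul_sum]
    calc ∑ M ∈ (invs (Fin n)).filter (fun M => 5 ≤ (conf F M).card), 5 * x ^ (fx M)
        ≤ ∑ M ∈ (invs (Fin n)).filter (fun M => 5 ≤ (conf F M).card), ((conf F M).card : ℝ) * x ^ (fx M) := by
          apply Finset.sum_le_sum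
          intro M hM
          apply mul_le_mul_of_nonneg_right _ (hW M)
          exact_mod_cast (Finset.mem_filter.1 hM).2
      _ ≤ _ := by
          apply Finset.sum_le_sum_of_subset_of_nonneg (Finset.filter_subset _ _)
          intro M _ _
          exact mul_nonneg (Nat.cast_nonneg _) (hW M)
  have hsplit : H ≤ (∑ M ∈ At F 0, x ^ (fx M)) + (∑ M ∈ At F 1, x ^ (fx M)) + (∑ M ∈ At F 2, x ^ (fx M)) +
      (∑ M ∈ At F 3, x ^ (fx M)) + (∑ M ∈ At F 4, x ^ (fx M)) +
      ∑ M ∈ (invs (Fin n)).filter (fun M => 5 ≤ (conf F M).card), x ^ (fx M) := by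
    rw [hH]
    have hd : ∀ M ∈ invs (Fin n), x ^ (fx M) =
        (if (conf F M).card = 0 then x ^ (fx M) else 0) + (if (conf F M).card = 1 then x ^ (fx M) else 0) +
        (if (conf F M).card = 2 then x ^ (fx M) else 0) + (if (conf F M).card = 3 then x ^ (fx M) else 0) +
        (if (conf F M).card = 4 then x ^ (fx M) else 0) + (if 5 ≤ (conf F M).card then x ^ (fx M) else 0) := by
      intro M _
      obtain h | h | h | h | h | h : (conf F M).card = 0 ∨ (conf F M).card = 1 ∨ (conf F M).card = 2 ∨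
        (conf F M).card = 3 ∨ (conf F M).card = 4 ∨ 5 ≤ (conf F M).card := by omega
      · simp [h]
      · simp [h]
      · simp [h]
      · simp [h]
      · simp [h]
      · have a0 : (conf F M).card ≠ 0 := by omega
        have a1 : (conf F M).card ≠ 1 := by omega
        have a2 : (conf F M).card ≠ 2 := by omega
        have a3 : (conf F M).card ≠ 3 := by omega
        have a4 : (conf F M).card ≠ 4 := by omega
        rw [if_neg a0, if_neg a1, if_neg a2, if_neg a3, if_neg a4, if_pos h]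
        ring
    rw [Finset.sum_congr rfl hd]
    simp only [Finset.sum_add_distrib]
    unfold At
    simp only [Finset.sum_filter]
    exact le_rfl
  rw [hA1, Finset.sum_empty] at hsplit s3
  obtain ⟨N0, hN0⟩ : ∃ N0, N0 = ∑ M ∈ At F 0, x ^ (fx M) := ⟨_, rfl⟩
  obtain ⟨N2, hN2⟩ : ∃ N2, N2 = ∑ M ∈ At F 2, x ^ (fx M) := ⟨_, rfl⟩
  obtain ⟨N3, hN3⟩ : ∃ N3, N3 = ∑ M ∈ At F 3, x ^ (fx M) := ⟨_, rfl⟩
  obtain ⟨N4, hN4⟩ : ∃ N4, N4 = ∑ M ∈ At F 4, x ^ (fx M) := ⟨_, rfl⟩
  obtain ⟨N5, hN5⟩ : ∃ N5, N5 = ∑ M ∈ (invs (Fin n)).filter (fun M => 5 ≤ (conf F M).card), x ^ (fx M) := ⟨_, rfl⟩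
  obtain ⟨E, hE⟩ : ∃ E, E = ∑ M ∈ invs (Fin n), ((conf F M).card : ℝ) * x ^ (fx M) := ⟨_, rfl⟩
  have p0 : 0 ≤ N0 := by rw [hN0]; exact Finset.sum_nonneg (fun M _ => hW M)
  have p2 : 0 ≤ N2 := by rw [hN2]; exact Finset.sum_nonneg (fun M _ => hW M)
  have p3 : 0 ≤ N3 := by rw [hN3]; exact Finset.sum_nonneg (fun M _ => hW M)
  have p4 : 0 ≤ N4 := by rw [hN4]; exact Finset.sum_nonneg (fun M _ => hW M)
  have pH : 0 ≤ H := by rw [hH]; exact Finset.sum_nonneg (fun M _ => hW M)
  norm_num at s2 s3 s4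
  rw [← hN0, ← hN2] at s2
  rw [← hN3] at s3
  rw [← hN2, ← hN4] at s4
  rw [← hN0, ← hN2, ← hN3, ← hN4, ← hN5] at hsplit
  rw [← hN5, ← hE] at hmarkov
  rw [← hE] at hfm
  rw [← hN0]
  have hnr : (20 : ℝ) ≤ n := by exact_mod_cast hn
  have hcast : ((n - 10 : ℕ) : ℝ) = (n : ℝ) - 10 := by
    rw [Nat.cast_sub (by omega)]; norm_num
  rw [hcast] at s2 s3 s4
  have q2 : N2 ≤ 2 * N0 := by
    have h1 : N2 * (n - 10) ≤ n * N0 := by linarith
    have h2 : (n : ℝ) * N0 ≤ (2 * (n - 10)) * N0 := mul_le_mul_of_nonneg_right (by linarith) p0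
    have h3 : N2 * (n - 10) ≤ (2 * N0) * (n - 10) := by linarith
    exact le_of_mul_le_mul_right h3 (by linarith)
  have q3 : N3 ≤ 0 := by
    by_contra hc
    push Not at hc
    have : 0 < N3 * (3 * ((n : ℝ) - 10)) := by
      apply mul_pos hc
      linarith
    linarith
  have q4 : N4 ≤ N2 := by
    have h1 : N4 * (4 * (n - 10)) ≤ 2 * n * N2 := by linarith
    have h2 : 2 * (n : ℝ) * N2 ≤ (4 * (n - 10)) * N2 := mul_le_mul_of_nonneg_right (by linarith) p2
    have h3 : N4 * (4 * (n - 10)) ≤ N2 * (4 * (n - 10)) := by linarith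
    exact le_of_mul_le_mul_right h3 (by linarith)
  have q5 : N5 ≤ 9 / 20 * H := by
    have h1 : ((n : ℝ) - 1) * (5 * N5) ≤ 2 * n * H := by
      have := mul_le_mul_of_nonneg_left hmarkov (by linarith : (0 : ℝ) ≤ n - 1)
      linarith
    have h2 : 2 * (n : ℝ) * H ≤ ((n : ℝ) - 1) * (9 / 4 * H) := by
      have h3 : 2 * (n : ℝ) ≤ (n - 1) * (9 / 4) := by linarith
      have := mul_le_mul_of_nonneg_right h3 pH
      linarith
    have h4 : ((n : ℝ) - 1) * (5 * N5) ≤ ((n : ℝ) - 1) * (9 / 4 * H) := by linarith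
    have h5 := le_of_mul_le_mul_left h4 (by linarith)
    linarith
  linarith

end Pool.Agent.H240R3.Ch
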