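import Mathlib
import Pool.Agent.H240R3.ChG
set_option autoImplicit false

namespace Pool.Agent.H240R3.Ch

open Finset

def F01 {n : ℕ} (σ τ : Equiv.Perm (Fin n)) (v : Fin n) : Finset (Fin n) :=
  univ.filter (fun w => w ≠ v ∧ (σ v = w ∨ τ v = w))

theorem F01_sparse {n : ℕ} {σ τ : Equiv.Perm (Fin n)} (hσ : σ ∈ invs (Fin n)) (hτ : τ ∈ invs (Fin n)) :
    Sparse (F01 σ τ) := by
  simp only [invs, mem_filter, mem_univ, true_and] at hσ hτ
  refine ⟨?_, ?_, ?_⟩
  · intro v
    simp [F01]
  · intro v w h
    simp only [F01, mem_filter, mem_univ, true_and] at h ⊢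
    obtain ⟨h1, h2⟩ := h
    refine ⟨Ne.symm h1, ?_⟩
    rcases h2 with h2 | h2
    · left; rw [← h2, hσ]
    · right; rw [← h2, hτ]
  · intro v
    have hsub : F01 σ τ v ⊆ {σ v, τ v} := by
      intro w hw
      simp only [F01, mem_filter, mem_univ, true_and] at hw
      rw [Finset.mem_insert, Finset.mem_singleton]
      rcases hw.2 with h | h
      · exact Or.inl h.symm
      · exact Or.inr h.symm
    exact (Finset.card_le_card hsub).trans Finset.card_le_two

theorem At_zero {n : ℕ} {F : Fin n → Finset (Fin n)} {M : Equiv.Perm (Fin n)} (h : M ∈ At F 0) :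
    M ∈ invs (Fin n) ∧ ∀ v, M v ∉ F v := by
  have h1 := Finset.mem_filter.1 h
  refine ⟨h1.1, ?_⟩
  intro v hv
  have h2 := Finset.card_eq_zero.1 h1.2
  have h3 : v ∈ conf F M := conf_mem.2 hv
  rw [h2] at h3
  exact absurd h3 (Finset.notMem_empty v)

theorem T_lower {n : ℕ} (hn : 20 ≤ n) (x : ℝ) (hx : 0 ≤ x) :
    (hv n x) ^ 3 / 100 ≤ ∑ σ ∈ Col n, x ^ (fixc σ) := by
  classical
  have hH : ∑ M ∈ invs (Fin n), x ^ (fx M) = hv n x := by
    rw [hv_eq, Fintype.card_fin]
  set B := (invs (Fin n)).sigma (fun σ0 => (At (F01 σ0 σ0) 0).sigma (fun σ1 => At (F01 σ0 σ1) 0)) with hB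
  let Ψ : (Σ _ : Equiv.Perm (Fin n), Σ _ : Equiv.Perm (Fin n), Equiv.Perm (Fin n)) → T3 n :=
    fun p => ![p.1, p.2.1, p.2.2]
  have hfix : ∀ p, fixc (Ψ p) = fx p.1 + fx p.2.1 + fx p.2.2 := by
    intro p
    unfold fixc
    rw [Fin.sum_univ_three]
    rfl
  have hinj : Function.Injective Ψ := by
    rintro ⟨a, b, c⟩ ⟨a', b', c'⟩ h
    have h0 := congrFun h 0
    have h1 := congrFun h 1
    have h2 := congrFun h 2
    simp only [Ψ, Matrix.cons_val_zero, Matrix.cons_val_one, Matrix.cons_val] at h0 h1 h2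
    subst h0; subst h1; subst h2
    rfl
  have hmem : ∀ p ∈ B, Ψ p ∈ Col n := by
    rintro ⟨a, b, c⟩ hp
    rw [hB, Finset.mem_sigma, Finset.mem_sigma] at hp
    obtain ⟨ha, hb, hc⟩ := hp
    simp only at ha hb hc
    obtain ⟨hb1, hb2⟩ := At_zero hb
    obtain ⟨hc1, hc2⟩ := At_zero hc
    rw [mem_Col]
    have ia : ∀ v, a (a v) = v := by simpa [invs] using ha
    have ib : ∀ v, b (b v) = v := by simpa [invs] using hb1
    have ic : ∀ v, c (c v) = v := by simpa [invs] using hc1
    have ab : ∀ v, a v = b v → b v = v := by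
      intro v h
      by_contra hne
      apply hb2 v
      simp only [F01, mem_filter, mem_univ, true_and]
      exact ⟨hne, Or.inl h⟩
    have ac : ∀ v, a v = c v → c v = v := by
      intro v h
      by_contra hne
      apply hc2 v
      simp only [F01, mem_filter, mem_univ, true_and]
      exact ⟨hne, Or.inl h⟩
    have bc : ∀ v, b v = c v → c v = v := by
      intro v h
      by_contra hne
      apply hc2 v
      simp only [F01, mem_filter, mem_univ, true_and]
      exact ⟨hne, Or.inr h⟩
    refine ⟨?_, ?_⟩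
    · intro i v
      fin_cases i
      · exact ia v
      · exact ib v
      · exact ic v
    · intro i j v hij h
      fin_cases i <;> fin_cases j
      · exact absurd rfl hij
      · change a v = b v at h
        change a v = v
        rw [h]; exact ab v h
      · change a v = c v at h
        change a v = v
        rw [h]; exact ac v h
      · change b v = a v at h
        change b v = v
        exact ab v h.symm
      · exact absurd rfl hij
      · change b v = c v at h
        change b v = v
        rw [h]; exact bc v h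
      · change c v = a v at h
        change c v = v
        exact ac v h.symm
      · change c v = b v at h
        change c v = v
        exact bc v h.symm
      · exact absurd rfl hij
  have hlow : ∑ σ ∈ Col n, x ^ (fixc σ) ≥ ∑ p ∈ B, x ^ (fx p.1 + fx p.2.1 + fx p.2.2) := by
    calc ∑ p ∈ B, x ^ (fx p.1 + fx p.2.1 + fx p.2.2) = ∑ p ∈ B, x ^ (fixc (Ψ p)) := by
          apply Finset.sum_congr rfl
          intro p _
          rw [hfix]
      _ = ∑ σ ∈ B.image Ψ, x ^ (fixc σ) := by rw [Finset.sum_image (fun a _ b _ h => hinj h)]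
      _ ≤ ∑ σ ∈ Col n, x ^ (fixc σ) := by
          apply Finset.sum_le_sum_of_subset_of_nonneg
          · intro σ hσ
            obtain ⟨p, hp, rfl⟩ := Finset.mem_image.1 hσ
            exact hmem p hp
          · intro σ _ _
            exact pow_nonneg hx _
  refine le_trans ?_ hlow
  rw [hB, Finset.sum_sigma]
  have hin : ∀ a ∈ invs (Fin n), (hv n x) ^ 2 / 100 * x ^ (fx a) ≤
      ∑ q ∈ (At (F01 a a) 0).sigma (fun σ1 => At (F01 a σ1) 0), x ^ (fx a + fx q.1 + fx q.2) := by
    intro a ha
    rw [Finset.sum_sigma]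
    have hin2 : ∀ b ∈ At (F01 a a) 0, hv n x / 10 * (x ^ (fx a) * x ^ (fx b)) ≤
        ∑ c ∈ At (F01 a b) 0, x ^ (fx a + fx b + fx c) := by
      intro b hb
      have h1 := avoid hn (F01 a b) (F01_sparse ha (At_zero hb).1) x hx
      rw [hH] at h1
      have h2 : ∑ c ∈ At (F01 a b) 0, x ^ (fx a + fx b + fx c) =
          (x ^ (fx a) * x ^ (fx b)) * ∑ c ∈ At (F01 a b) 0, x ^ (fx c) := by
        rw [Finset.mul_sum]
        apply Finset.sum_congr rfl
        intro c _
        rw [pow_add, pow_add]
      rw [h2, mul_comm]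
      apply mul_le_mul_of_nonneg_left _ (by positivity)
      linarith
    refine le_trans ?_ (Finset.sum_le_sum hin2)
    have h1 := avoid hn (F01 a a) (F01_sparse ha ha) x hx
    rw [hH] at h1
    have h3 : ∑ b ∈ At (F01 a a) 0, hv n x / 10 * (x ^ (fx a) * x ^ (fx b)) =
        hv n x / 10 * x ^ (fx a) * ∑ b ∈ At (F01 a a) 0, x ^ (fx b) := by
      rw [Finset.mul_sum]
      apply Finset.sum_congr rfl
      intro b _
      ring
    rw [h3]
    have h4 : 0 ≤ hv n x := hv_nonneg n hx
    have h5 : 0 ≤ hv n x / 10 * x ^ (fx a) := by positivity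
    have h6 := mul_le_mul_of_nonneg_left h1 h5
    nlinarith
  refine le_trans ?_ (Finset.sum_le_sum hin)
  rw [← Finset.mul_sum, hH]
  apply le_of_eq
  ring

end Pool.Agent.H240R3.Ch
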