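import Mathlib
import Pool.Agent.H240R3.ChA
set_option autoImplicit false

namespace Pool.Agent.H240R3.Ch

open Finset

/-- involutions of the port set which fix the two upper ports over `B`. -/
def JB {n : ℕ} (B : Finset (Fin n)) : Finset (Equiv.Perm (Fin n × Fin 3)) :=
  univ.filter (fun ρ => (∀ p, ρ (ρ p) = p) ∧ ∀ p : Fin n × Fin 3, p.1 ∈ B → p.2 ≠ 0 → ρ p = p)

theorem card_JB {n : ℕ} (B : Finset (Fin n)) : ((JB B).card : ℝ) ≤ hv (3 * n - 2 * B.card) 1 := by
  classical
  have hcard : Fintype.card {p : Fin n × Fin 3 // p.1 ∈ B → p.2 = 0} = 3 * n - 2 * B.card := by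
    rw [Fintype.card_subtype]
    have h1 : (univ.filter (fun p : Fin n × Fin 3 => p.1 ∈ B → p.2 = 0)) =
        univ \ (B ×ˢ ({1, 2} : Finset (Fin 3))) := by
      ext ⟨v, i⟩
      simp only [mem_filter, mem_univ, true_and, mem_sdiff, mem_product, mem_insert, mem_singleton, not_and,
        not_or]
      constructor
      · intro h hv
        rw [h hv]
        decide
      · intro h hv
        have := h hv
        fin_cases i
        · rfl
        · exact absurd rfl this.1
        · exact absurd rfl this.2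
    rw [h1, Finset.card_sdiff_of_subset (Finset.subset_univ _), Finset.card_univ, Finset.card_product]
    simp
    omega
  have hpres : ∀ ρ : {ρ // ρ ∈ JB B}, ∀ p : Fin n × Fin 3, ((ρ.1 p).1 ∈ B → (ρ.1 p).2 = 0) ↔ (p.1 ∈ B → p.2 = 0) := by
    rintro ⟨ρ, hρ⟩ p
    obtain ⟨h1, h2⟩ := (Finset.mem_filter.1 hρ).2
    simp only
    constructor
    · intro h hp
      by_contra hne
      have h3 := h2 p hp hne
      rw [h3] at h
      exact hne (h hp)
    · intro h hp
      by_contra hne
      have h3 := h2 (ρ p) hp hne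
      rw [h1] at h3
      rw [← h3] at hp hne
      exact hne (h hp)
  let Φ : {ρ // ρ ∈ JB B} → Equiv.Perm {p : Fin n × Fin 3 // p.1 ∈ B → p.2 = 0} := fun ρ =>
    ρ.1.subtypePerm (fun p => hpres ρ p)
  have hinj : Function.Injective Φ := by
    intro ρ ρ' h
    apply Subtype.ext
    apply Equiv.ext
    intro p
    by_cases hp : p.1 ∈ B → p.2 = 0
    · have h3 := congrArg Subtype.val (Equiv.congr_fun h ⟨p, hp⟩)
      simpa [Φ] using h3
    · push Not at hp
      have h1 := (Finset.mem_filter.1 ρ.2).2.2 p hp.1 hp.2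
      have h2 := (Finset.mem_filter.1 ρ'.2).2.2 p hp.1 hp.2
      rw [h1, h2]
  have h4 : (JB B).card ≤ (invs {p : Fin n × Fin 3 // p.1 ∈ B → p.2 = 0}).card := by
    rw [← Finset.card_attach]
    apply Finset.card_le_card_of_injOn Φ
    · intro ρ _
      simp only [invs, coe_filter, mem_univ, true_and, Set.mem_ofPred_eq]
      intro p
      apply Subtype.ext
      have := (Finset.mem_filter.1 ρ.2).2.1 p.1
      simpa [Φ] using this
    · exact fun a _ b _ h => hinj h
  have h5 := hv_eq {p : Fin n × Fin 3 // p.1 ∈ B → p.2 = 0} 1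
  rw [hcard] at h5
  simp only [one_pow, Finset.sum_const, nsmul_eq_mul, mul_one] at h5
  rw [← h5]
  exact_mod_cast h4

/-- port functions at a vertex with neighbourhood `N`. -/
def PF {n : ℕ} (N : Finset (Fin n)) : Finset (Fin n → Fin 3) :=
  univ.filter (fun f => (∀ a ∈ N, ∀ b ∈ N, f a = f b → a = b) ∧ ∀ w, w ∉ N → f w = 0)

theorem card_PF {n : ℕ} (N : Finset (Fin n)) (h : N.card = 2 ∨ N.card = 3) : (PF N).card = 6 := by
  classical
  have h1 : (PF N).card = Fintype.card ({w // w ∈ N} ↪ Fin 3) := by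
    rw [← Finset.card_univ]
    symm
    apply Finset.card_bij (fun (e : {w // w ∈ N} ↪ Fin 3) _ => fun w => if hw : w ∈ N then e ⟨w, hw⟩ else 0)
    · intro e _
      simp only [PF, mem_filter, mem_univ, true_and]
      refine ⟨?_, ?_⟩
      · intro a ha b hb hab
        simp only [ha, hb, dif_pos] at hab
        have := e.injective hab
        simpa using this
      · intro w hw
        simp [hw]
    · intro e _ e' _ hee
      ext ⟨w, hw⟩
      have := congrFun hee w
      simp only [hw, dif_pos] at this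
      rw [this]
    · intro f hf
      simp only [PF, mem_filter, mem_univ, true_and] at hf
      refine ⟨⟨fun w => f w.1, ?_⟩, Finset.mem_univ _, ?_⟩
      · intro a b hab
        exact Subtype.ext (hf.1 a.1 a.2 b.1 b.2 hab)
      · funext w
        by_cases hw : w ∈ N
        · simp only [hw, dif_pos]; rfl
        · simp [hw, hf.2 w hw]
  rw [h1, Fintype.card_embedding_eq]
  simp only [Fintype.card_fin, Fintype.card_coe]
  rcases h with h | h <;> rw [h] <;> rfl

open Classical in
noncomputable def nb {n : ℕ} (G : SimpleGraph (Fin n)) (v : Fin n) : Finset (Fin n) :=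
  univ.filter (fun w => G.Adj v w)

open Classical in
noncomputable def low {n : ℕ} (G : SimpleGraph (Fin n)) : Finset (Fin n) :=
  univ.filter (fun v => (nb G v).card ≤ 1)

open Classical in
/-- graphs of maximum degree at most three -/
noncomputable def Gn (n : ℕ) : Finset (SimpleGraph (Fin n)) :=
  univ.filter (fun G => ∀ v, (nb G v).card ≤ 3)

theorem mem_nb {n : ℕ} (G : SimpleGraph (Fin n)) (v w : Fin n) : w ∈ nb G v ↔ G.Adj v w := by
  simp [nb]

/-- admissible port assignments -/
def GoodQ {n : ℕ} (G : SimpleGraph (Fin n)) (q : Fin n → Fin n → Fin 3) : Prop :=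
  (∀ v a b, G.Adj v a → G.Adj v b → q v a = q v b → a = b) ∧ (∀ v w, ¬ G.Adj v w → q v w = 0)

open Classical in
noncomputable def rf {n : ℕ} (G : SimpleGraph (Fin n)) (q : Fin n → Fin n → Fin 3) (p : Fin n × Fin 3) : Fin n × Fin 3 :=
  if h : ∃ w, G.Adj p.1 w ∧ q p.1 w = p.2 then (h.choose, q h.choose p.1) else p

theorem rf_adj {n : ℕ} {G : SimpleGraph (Fin n)} {q : Fin n → Fin n → Fin 3} (hq : GoodQ G q) (v w : Fin n)
    (h : G.Adj v w) : rf G q (v, q v w) = (w, q w v) := by
  classical
  unfold rf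
  have hex : ∃ w', G.Adj v w' ∧ q v w' = q v w := ⟨w, h, rfl⟩
  rw [dif_pos hex]
  have h1 := hex.choose_spec
  have h2 : hex.choose = w := hq.1 v _ _ h1.1 h h1.2
  simp only
  rw [h2]

theorem rf_not {n : ℕ} {G : SimpleGraph (Fin n)} {q : Fin n → Fin n → Fin 3} (p : Fin n × Fin 3)
    (h : ¬ ∃ w, G.Adj p.1 w ∧ q p.1 w = p.2) : rf G q p = p := by
  classical
  unfold rf
  rw [dif_neg h]

theorem rf_inv {n : ℕ} {G : SimpleGraph (Fin n)} {q : Fin n → Fin n → Fin 3} (hq : GoodQ G q) :
    Function.Involutive (rf G q) := by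
  rintro ⟨v, i⟩
  by_cases h : ∃ w, G.Adj v w ∧ q v w = i
  · obtain ⟨w, hw, rfl⟩ := h
    rw [rf_adj hq v w hw, rf_adj hq w v hw.symm]
  · rw [rf_not (v, i) h, rf_not (v, i) h]

theorem rf_recover {n : ℕ} {G : SimpleGraph (Fin n)} {q : Fin n → Fin n → Fin 3} (hq : GoodQ G q)
    (v w : Fin n) (i : Fin 3) (hvw : w ≠ v) : (rf G q (v, i)).1 = w ↔ G.Adj v w ∧ q v w = i := by
  constructor
  · intro h
    by_cases hex : ∃ w, G.Adj v w ∧ q v w = i
    · obtain ⟨w', hw', rfl⟩ := hex
      rw [rf_adj hq v w' hw'] at h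
      simp only at h
      rw [← h]
      exact ⟨hw', rfl⟩
    · rw [rf_not (v, i) hex] at h
      exact absurd h.symm hvw
  · rintro ⟨h, rfl⟩
    rw [rf_adj hq v w h]

theorem rf_injective {n : ℕ} {G G' : SimpleGraph (Fin n)} {q q' : Fin n → Fin n → Fin 3} (hq : GoodQ G q)
    (hq' : GoodQ G' q') (h : ∀ p, rf G q p = rf G' q' p) : G = G' ∧ q = q' := by
  have key : ∀ v w i, w ≠ v → ((G.Adj v w ∧ q v w = i) ↔ (G'.Adj v w ∧ q' v w = i)) := by
    intro v w i hvw
    rw [← rf_recover hq v w i hvw, ← rf_recover hq' v w i hvw, h]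
  have hG : ∀ v w, G.Adj v w ↔ G'.Adj v w := by
    intro v w
    by_cases hvw : w = v
    · subst hvw
      simp
    · constructor
      · intro hh
        exact ((key v w (q v w) hvw).1 ⟨hh, rfl⟩).1
      · intro hh
        exact ((key v w (q' v w) hvw).2 ⟨hh, rfl⟩).1
  refine ⟨SimpleGraph.ext (by funext v w; exact propext (hG v w)), ?_⟩
  funext v w
  by_cases hadj : G.Adj v w
  · exact (((key v w (q v w) hadj.ne').1 ⟨hadj, rfl⟩).2).symm
  · rw [hq.2 v w hadj, hq'.2 v w (fun hh => hadj ((hG v w).2 hh))]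

theorem ports {n : ℕ} (B : Finset (Fin n)) :
    ((Gn n).filter (fun G => low G = B)).card * 6 ^ (n - B.card) ≤ (JB B).card := by
  classical
  set Q : SimpleGraph (Fin n) → Finset (Fin n → Fin n → Fin 3) := fun G =>
    Fintype.piFinset (fun v => if v ∈ B then {fun _ => 0} else PF (nb G v)) with hQ
  have hgood : ∀ G ∈ (Gn n).filter (fun G => low G = B), ∀ q ∈ Q G, GoodQ G q := by
    intro G hG q hq
    simp only [mem_filter, Gn, mem_univ, true_and] at hG
    rw [hQ, Fintype.mem_piFinset] at hq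
    constructor
    · intro v a b ha hb hab
      have h1 := hq v
      by_cases hv : v ∈ B
      · rw [← hG.2] at hv
        simp only [low, mem_filter, mem_univ, true_and] at hv
        exact Finset.card_le_one.1 hv a ((mem_nb G v a).2 ha) b ((mem_nb G v b).2 hb)
      · rw [if_neg hv] at h1
        simp only [PF, mem_filter, mem_univ, true_and] at h1
        exact h1.1 a ((mem_nb G v a).2 ha) b ((mem_nb G v b).2 hb) hab
    · intro v w hw
      have h1 := hq v
      by_cases hv : v ∈ B
      · rw [if_pos hv, Finset.mem_singleton] at h1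
        rw [h1]
      · rw [if_neg hv] at h1
        simp only [PF, mem_filter, mem_univ, true_and] at h1
        exact h1.2 w (fun hh => hw ((mem_nb G v w).1 hh))
  have hcardQ : ∀ G ∈ (Gn n).filter (fun G => low G = B), (Q G).card = 6 ^ (n - B.card) := by
    intro G hG
    simp only [mem_filter, Gn, mem_univ, true_and] at hG
    rw [hQ, Fintype.card_piFinset]
    have h1 : ∀ v, (if v ∈ B then ({fun _ => 0} : Finset (Fin n → Fin 3)) else PF (nb G v)).card =
        if v ∈ B then 1 else 6 := by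
      intro v
      split_ifs with hv
      · simp
      · apply card_PF
        have h2 : ¬ (nb G v).card ≤ 1 := by
          intro hh
          apply hv
          rw [← hG.2]
          simp only [low, mem_filter, mem_univ, true_and]
          exact hh
        have h3 := hG.1 v
        omega
    rw [Finset.prod_congr rfl (fun v _ => h1 v), Finset.prod_ite]
    simp only [Finset.prod_const, one_pow, one_mul]
    congr 1
    have : (univ.filter (fun v => v ∉ B)) = Bᶜ := by ext v; simp
    rw [this, Finset.card_compl, Fintype.card_fin]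
  have hsig : (((Gn n).filter (fun G => low G = B)).sigma (fun G => Q G)).card =
      ((Gn n).filter (fun G => low G = B)).card * 6 ^ (n - B.card) := by
    rw [Finset.card_sigma, Finset.sum_congr rfl hcardQ, Finset.sum_const, smul_eq_mul]
  rw [← hsig, ← Finset.card_attach]
  have hmem : ∀ s : {s // s ∈ ((Gn n).filter (fun G => low G = B)).sigma (fun G => Q G)}, GoodQ s.1.1 s.1.2 := by
    rintro ⟨s, hs⟩
    rw [Finset.mem_sigma] at hs
    exact hgood s.1 hs.1 s.2 hs.2
  apply Finset.card_le_card_of_injOn (fun s => (rf_inv (hmem s)).toPerm)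
  · rintro ⟨⟨G, q⟩, hs⟩ _
    have hg := hmem ⟨⟨G, q⟩, hs⟩
    simp only at hg
    rw [Finset.mem_sigma] at hs
    obtain ⟨hG, hq⟩ := hs
    simp only at hG hq
    simp only [JB, coe_filter, mem_univ, true_and, Set.mem_ofPred_eq]
    refine ⟨?_, ?_⟩
    · intro p
      exact rf_inv hg p
    · rintro ⟨v, i⟩ hv hi
      apply rf_not
      rintro ⟨w, _, hw⟩
      simp only at hw hv hi
      rw [hQ, Fintype.mem_piFinset] at hq
      have h1 := hq v
      rw [if_pos hv, Finset.mem_singleton] at h1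
      rw [h1] at hw
      exact hi hw.symm
  · rintro ⟨⟨G, q⟩, hs⟩ _ ⟨⟨G', q'⟩, hs'⟩ _ h
    have hg := hmem ⟨⟨G, q⟩, hs⟩
    have hg' := hmem ⟨⟨G', q'⟩, hs'⟩
    simp only at hg hg' h
    have h2 : ∀ p, rf G q p = rf G' q' p := fun p => Equiv.congr_fun h p
    obtain ⟨h3, h4⟩ := rf_injective hg hg' h2
    subst h3; subst h4
    rfl

theorem hv_pow (n : ℕ) (b : ℕ) (hb : b ≤ n) : (n : ℝ) ^ b * hv (3 * n - 2 * b) 1 ≤ hv (3 * n) 1 := by
  induction b with
  | zero => simp
  | succ b ih =>
    have h1 := ih (by omega)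
    have h2 := hv_two_le (3 * n - 2 * (b + 1)) (y := 1) zero_le_one
    have e : 3 * n - 2 * (b + 1) + 2 = 3 * n - 2 * b := by omega
    rw [e] at h2
    have h3 : (n : ℝ) ≤ ((3 * n - 2 * (b + 1) : ℕ) : ℝ) + 1 := by
      have : n ≤ 3 * n - 2 * (b + 1) + 1 := by omega
      exact_mod_cast this
    have h4 := hv_nonneg (3 * n - 2 * (b + 1)) (y := 1) zero_le_one
    have h5 : (n : ℝ) * hv (3 * n - 2 * (b + 1)) 1 ≤ hv (3 * n - 2 * b) 1 :=
      (mul_le_mul_of_nonneg_right h3 h4).trans h2
    calc (n : ℝ) ^ (b + 1) * hv (3 * n - 2 * (b + 1)) 1 = (n : ℝ) ^ b * ((n : ℝ) * hv (3 * n - 2 * (b + 1)) 1) := by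
          rw [pow_succ]; ring
      _ ≤ (n : ℝ) ^ b * hv (3 * n - 2 * b) 1 := mul_le_mul_of_nonneg_left h5 (by positivity)
      _ ≤ _ := h1

theorem Gn_upper (n : ℕ) (hn : 0 < n) : (6 : ℝ) ^ n * ((Gn n).card : ℝ) ≤ Real.exp 6 * hv (3 * n) 1 := by
  classical
  have hnr : (0 : ℝ) < n := by exact_mod_cast hn
  have h1 : (Gn n).card = ∑ B : Finset (Fin n), ((Gn n).filter (fun G => low G = B)).card :=
    Finset.card_eq_sum_card_fiberwise (fun _ _ => Finset.mem_univ _)
  have hH : 0 ≤ hv (3 * n) 1 := hv_nonneg _ zero_le_one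
  have h2 : ∀ B : Finset (Fin n), (6 : ℝ) ^ n * (((Gn n).filter (fun G => low G = B)).card : ℝ) ≤
      hv (3 * n) 1 * ((6 / n) ^ B.card * 1 ^ (Fintype.card (Fin n) - B.card)) := by
    intro B
    have hB : B.card ≤ n := by
      have := Finset.card_le_univ B
      simpa using this
    have h3 := ports B
    have h4 := card_JB B
    have h5 : (((Gn n).filter (fun G => low G = B)).card : ℝ) * 6 ^ (n - B.card) ≤ hv (3 * n - 2 * B.card) 1 := by
      refine le_trans ?_ h4
      exact_mod_cast h3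
    have h6 := hv_pow n B.card hB
    have h7 : hv (3 * n - 2 * B.card) 1 ≤ hv (3 * n) 1 / (n : ℝ) ^ B.card := by
      rw [le_div_iff₀ (by positivity), mul_comm]
      exact h6
    have h8 : (6 : ℝ) ^ n = 6 ^ (n - B.card) * 6 ^ B.card := by
      rw [← pow_add]; congr 1; omega
    rw [h8, one_pow, mul_one, div_pow]
    calc (6 : ℝ) ^ (n - B.card) * 6 ^ B.card * (((Gn n).filter (fun G => low G = B)).card : ℝ)
        = 6 ^ B.card * ((((Gn n).filter (fun G => low G = B)).card : ℝ) * 6 ^ (n - B.card)) := by ring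
      _ ≤ 6 ^ B.card * (hv (3 * n) 1 / (n : ℝ) ^ B.card) :=
          mul_le_mul_of_nonneg_left (h5.trans h7) (by positivity)
      _ = _ := by ring
  calc (6 : ℝ) ^ n * ((Gn n).card : ℝ) = ∑ B : Finset (Fin n), (6 : ℝ) ^ n * (((Gn n).filter (fun G => low G = B)).card : ℝ) := by
        rw [h1, ← Finset.mul_sum]
        push_cast
        rfl
    _ ≤ ∑ B : Finset (Fin n), hv (3 * n) 1 * ((6 / n) ^ B.card * 1 ^ (Fintype.card (Fin n) - B.card)) :=
        Finset.sum_le_sum (fun B _ => h2 B)
    _ = hv (3 * n) 1 * (6 / n + 1) ^ n := by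
        rw [← Finset.mul_sum, Fintype.sum_pow_mul_eq_add_pow, Fintype.card_fin]
    _ ≤ hv (3 * n) 1 * Real.exp 6 := by
        apply mul_le_mul_of_nonneg_left _ hH
        have h9 : 6 / (n : ℝ) + 1 ≤ Real.exp (6 / n) := Real.add_one_le_exp _
        calc (6 / (n : ℝ) + 1) ^ n ≤ (Real.exp (6 / n)) ^ n := pow_le_pow_left₀ (by positivity) h9 n
          _ = Real.exp 6 := by
              rw [← Real.exp_nat_mul]
              congr 1
              field_simp
    _ = _ := by ring

end Pool.Agent.H240R3.Ch
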