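import Mathlib
import Pool.Agent.H240R3.ChA
import Pool.Agent.H240R3.ChD
import Pool.Agent.H240R3.ChF
import Pool.Agent.H240R3.ChH
import Pool.Agent.H240R3.ChI
set_option autoImplicit false

namespace Pool.Agent.H240R3.Ch

open Finset

/-- `(√(2π))⁻¹` -/
noncomputable def cs0 : ℝ := (Real.sqrt (2 * Real.pi))⁻¹

noncomputable def cC1 : ℝ := Real.exp 250 * (2 * Real.sqrt (Real.pi / (1 / 1000))) ^ 9

noncomputable def cC2 : ℝ := Real.exp (1 / 2) * (2 * Real.sqrt (Real.pi / (1 / 2)))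

noncomputable def cconst : ℝ := (Real.exp (-18) / 10000) * cs0 ^ 6 / (Real.exp 6 * cs0 ^ 10 * cC1 * cC2)

theorem cs0_pos : 0 < cs0 := by
  unfold cs0
  have := Real.pi_pos
  positivity

theorem cC1_pos : 0 < cC1 := by
  unfold cC1
  have := Real.pi_pos
  positivity

theorem cC2_pos : 0 < cC2 := by
  unfold cC2
  have := Real.pi_pos
  positivity

theorem cconst_pos : 0 < cconst := by
  unfold cconst
  have h0 := cs0_pos
  have h1 := cC1_pos
  have h2 := cC2_pos
  positivity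

theorem main_ineq (k : ℕ) (hk : 10 ≤ k) :
    cconst * ((Gn (2 * k)).card : ℝ) ≤ ((Im (2 * k)).card : ℝ) := by
  have hk0 : 0 < k := by omega
  have hkr : (0 : ℝ) < k := by exact_mod_cast hk0
  set x : ℝ := Real.sqrt (1 / 3) with hx
  have hxx : x ^ 2 = 1 / 3 := Real.sq_sqrt (by norm_num)
  have hx0 : 0 < x := Real.sqrt_pos.2 (by norm_num)
  have hx1 : x ≤ 1 := by nlinarith
  set r : ℝ := Real.sqrt (2 * k) with hr
  have hr0 : 0 ≤ r := Real.sqrt_nonneg _
  set E : ℝ := (2 * k / Real.exp 1) ^ k with hE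
  have hE0 : 0 < E := by positivity
  have hs := cs0_pos
  have h1 := cC1_pos
  have h2 := cC2_pos
  set T : ℝ := ∑ σ ∈ Col (2 * k), x ^ (fixc σ) with hT
  set S : ℝ := ∑ π : Fin (2 * k) → Equiv.Perm (Fin 3), ∏ i, ∏ j, hv (cnt π i j) (x ^ 2) with hS
  have hcs : T ^ 2 ≤ ((Im (2 * k)).card : ℝ) * S := cs_bound (2 * k) x
  -- lower bound for T
  have hTl : cs0 ^ 3 * E ^ 3 * Real.exp (3 * x * r) * Real.exp (-9) / 100 ≤ T := by
    refine le_trans ?_ (T_lower (n := 2 * k) (by omega) x hx0.le)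
    have h3 := hv_lower k hk0 x hx0.le hx1
    have h4 : 0 ≤ (Real.sqrt (2 * Real.pi))⁻¹ * ((2 * k / Real.exp 1) ^ k * Real.exp (x * Real.sqrt (2 * k)) * Real.exp (-3)) := by
      positivity
    have h5 := pow_le_pow_left₀ h4 h3 3
    apply div_le_div_of_nonneg_right _ (by norm_num)
    refine le_trans (le_of_eq ?_) h5
    have e1 : Real.exp (3 * x * r) = Real.exp (x * r) ^ 3 := by
      rw [← Real.exp_nat_mul]; congr 1; push_cast; ring
    have e2 : Real.exp (-9) = Real.exp (-3) ^ 3 := by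
      rw [← Real.exp_nat_mul]; congr 1; push_cast; ring
    rw [e1, e2]
    show cs0 ^ 3 * E ^ 3 * Real.exp (x * r) ^ 3 * Real.exp (-3) ^ 3 = (cs0 * (E * Real.exp (x * r) * Real.exp (-3))) ^ 3
    ring
  have hTsq : cs0 ^ 6 * E ^ 6 * Real.exp (6 * x * r) * (Real.exp (-18) / 10000) ≤ T ^ 2 := by
    have h5 : 0 ≤ cs0 ^ 3 * E ^ 3 * Real.exp (3 * x * r) * Real.exp (-9) / 100 := by positivity
    refine le_trans (le_of_eq ?_) (pow_le_pow_left₀ h5 hTl 2)
    have e1 : Real.exp (6 * x * r) = Real.exp (3 * x * r) ^ 2 := by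
      rw [← Real.exp_nat_mul]; congr 1; push_cast; ring
    have e2 : Real.exp (-18) = Real.exp (-9) ^ 2 := by
      rw [← Real.exp_nat_mul]; congr 1; push_cast; ring
    rw [e1, e2]
    ring
  -- upper bound for S
  have hSu : S ≤ cs0 ^ 9 * ((4 / 3) ^ k * E ^ 3 * (Real.exp (3 * x * r) * cC1)) := by
    have h3 := second_bound k hk0 (x ^ 2) (by positivity)
    refine h3.trans (le_of_eq ?_)
    have e1 : (K1 (x ^ 2) (1 / 1000) (Real.sqrt (2 * k) * Real.sqrt (1 / 3))) ^ 9 = Real.exp (3 * x * r) * cC1 := by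
      unfold K1 cC1
      rw [mul_pow, ← Real.exp_nat_mul]
      have e2 : Real.exp (3 * x * r) * (Real.exp 250 * (2 * Real.sqrt (Real.pi / (1 / 1000))) ^ 9) =
          Real.exp (3 * x * r + 250) * (2 * Real.sqrt (Real.pi / (1 / 1000))) ^ 9 := by
        rw [Real.exp_add]; ring
      rw [e2]
      congr 2
      rw [hxx, ← hx, ← hr]
      push_cast
      ring
    rw [e1]
    unfold Ck
    rfl
  -- upper bound for the number of graphs
  have hGu : (36 : ℝ) ^ k * ((Gn (2 * k)).card : ℝ) ≤ Real.exp 6 * (cs0 * (27 ^ k * E ^ 3 * (Real.exp (3 * x * r) * cC2))) := by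
    have h3 := Gn_upper (2 * k) (by omega)
    have e0 : (6 : ℝ) ^ (2 * k) = 36 ^ k := by rw [pow_mul]; norm_num
    rw [e0] at h3
    refine h3.trans ?_
    apply mul_le_mul_of_nonneg_left _ (Real.exp_pos _).le
    have e3 : 3 * (2 * k) = 2 * (3 * k) := by ring
    rw [e3]
    have h4 := hv_upper (3 * k) (by omega) 1 zero_le_one
    refine h4.trans (le_of_eq ?_)
    have e4 : Real.sqrt (2 * ((3 * k : ℕ) : ℝ)) = 3 * x * r := by
      have e5 : (2 * ((3 * k : ℕ) : ℝ)) = (3 * x * r) ^ 2 := by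
        have hrr : r ^ 2 = 2 * k := Real.sq_sqrt (by positivity)
        rw [mul_pow, mul_pow, hxx, hrr]
        push_cast
        ring
      rw [e5, Real.sqrt_sq (by positivity)]
    have e6 : (2 * ((3 * k : ℕ) : ℝ) / Real.exp 1) ^ (3 * k) = 27 ^ k * E ^ 3 := by
      rw [hE, ← pow_mul, mul_comm k 3]
      have : (27 : ℝ) ^ k = 3 ^ (3 * k) := by rw [pow_mul]; norm_num
      rw [this, ← mul_pow]
      congr 1
      push_cast
      ring
    have e7 : K1 1 (1 / 2) (Real.sqrt (2 * ((3 * k : ℕ) : ℝ))) = Real.exp (3 * x * r) * cC2 := by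
      rw [e4]
      unfold K1 cC2
      have e2 : Real.exp (3 * x * r) * (Real.exp (1 / 2) * (2 * Real.sqrt (Real.pi / (1 / 2)))) =
          Real.exp (3 * x * r + 1 / 2) * (2 * Real.sqrt (Real.pi / (1 / 2))) := by
        rw [Real.exp_add]; ring
      rw [e2]
      congr 2
      ring
    rw [e6, e7]
    rfl
  have hTpos : 0 < T ^ 2 := lt_of_lt_of_le (by positivity) hTsq
  have hSpos : 0 < S := by
    by_contra hneg
    push Not at hneg
    have : ((Im (2 * k)).card : ℝ) * S ≤ 0 := mul_nonpos_of_nonneg_of_nonpos (Nat.cast_nonneg _) hneg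
    linarith
  have hGS : ((Gn (2 * k)).card : ℝ) * S ≤ Real.exp 6 * cs0 ^ 10 * cC1 * cC2 * (E ^ 6 * Real.exp (6 * x * r)) := by
    have h3 := mul_le_mul hGu hSu hSpos.le (by positivity)
    have e8 : Real.exp 6 * (cs0 * (27 ^ k * E ^ 3 * (Real.exp (3 * x * r) * cC2))) *
        (cs0 ^ 9 * ((4 / 3) ^ k * E ^ 3 * (Real.exp (3 * x * r) * cC1))) =
        36 ^ k * (Real.exp 6 * cs0 ^ 10 * cC1 * cC2 * (E ^ 6 * Real.exp (6 * x * r))) := by
      have e1 : Real.exp (6 * x * r) = Real.exp (3 * x * r) ^ 2 := by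
        rw [← Real.exp_nat_mul]; congr 1; push_cast; ring
      have e9 : (36 : ℝ) ^ k = 27 ^ k * (4 / 3) ^ k := by
        rw [← mul_pow]; norm_num
      rw [e1, e9]
      ring
    rw [e8, mul_assoc] at h3
    exact le_of_mul_le_mul_left h3 (by positivity)
  have hD : 0 < Real.exp 6 * cs0 ^ 10 * cC1 * cC2 := by positivity
  have hfin : cconst * ((Gn (2 * k)).card : ℝ) * S ≤ ((Im (2 * k)).card : ℝ) * S := by
    refine le_trans ?_ (hTsq.trans hcs)
    calc cconst * ((Gn (2 * k)).card : ℝ) * S = cconst * (((Gn (2 * k)).card : ℝ) * S) := by ring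
      _ ≤ cconst * (Real.exp 6 * cs0 ^ 10 * cC1 * cC2 * (E ^ 6 * Real.exp (6 * x * r))) :=
          mul_le_mul_of_nonneg_left hGS cconst_pos.le
      _ = _ := by
          unfold cconst
          field_simp
  exact le_of_mul_le_mul_right hfin hSpos

end Pool.Agent.H240R3.Ch
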