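import Mathlib
import Pool.Agent.H240R3.ChE
import Pool.Agent.H240R3.ChF
import Pool.Agent.H240R3.ChI
import Pool.Agent.H240R3.ChJ
set_option autoImplicit false

namespace Pool.Agent.H240R3.Ch

open Finset

theorem edge_colour {n : ℕ} {σ : T3 n} (h : IsCol σ) (e : Sym2 (Fin n)) (he : e ∈ (gr σ).edgeSet) :
    ∃ i, ∀ u ∈ e, e = s(u, σ i u) := by
  induction e with
  | _ v w =>
    rw [SimpleGraph.mem_edgeSet, gr_adj h] at he
    obtain ⟨_, i, hi⟩ := he
    refine ⟨i, ?_⟩
    intro u hu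
    rw [Sym2.mem_iff] at hu
    rcases hu with rfl | rfl
    · rw [hi]
    · rw [← hi, h.1 i v, Sym2.eq_swap]

theorem colorable_gr {n : ℕ} {σ : T3 n} (h : IsCol σ) : (gr σ).lineGraph.Colorable 3 := by
  classical
  choose c hc using fun (e : (gr σ).edgeSet) => edge_colour h e.1 e.2
  refine ⟨SimpleGraph.Coloring.mk c ?_⟩
  intro e f hef heq
  rw [SimpleGraph.lineGraph_adj_iff_exists] at hef
  obtain ⟨hne, u, hu1, hu2⟩ := hef
  apply hne
  apply Subtype.ext
  rw [hc e u hu1, hc f u hu2, heq]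

theorem gr_mem_Gn {n : ℕ} {σ : T3 n} (h : IsCol σ) : gr σ ∈ Gn n := by
  classical
  simp only [Gn, mem_filter, mem_univ, true_and]
  intro v
  have hsub : nb (gr σ) v ⊆ (univ : Finset (Fin 3)).image (fun i => σ i v) := by
    intro w hw
    rw [mem_nb, gr_adj h] at hw
    obtain ⟨_, i, hi⟩ := hw
    exact Finset.mem_image.2 ⟨i, Finset.mem_univ _, hi⟩
  calc (nb (gr σ) v).card ≤ ((univ : Finset (Fin 3)).image (fun i => σ i v)).card := Finset.card_le_card hsub
    _ ≤ (univ : Finset (Fin 3)).card := Finset.card_image_le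
    _ = 3 := by simp

open Classical in
theorem Im_sub (n : ℕ) : Im n ⊆ (Gn n).filter (fun G => G.lineGraph.Colorable 3) := by
  classical
  intro G hG
  unfold Im at hG
  obtain ⟨σ, hσ, rfl⟩ := Finset.mem_image.1 hG
  rw [mem_Col] at hσ
  rw [Finset.mem_filter]
  exact ⟨gr_mem_Gn hσ, colorable_gr hσ⟩

end Pool.Agent.H240R3.Ch
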