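import Mathlib

set_option autoImplicit false

namespace Pool.Agent.H240R3

open Finset

section EE
variable {α : Type*} [DecidableEq α]

/-- average of `f` over all subsets of `E` -/
noncomputable def EE (E : Finset α) (f : Finset α → ℝ) : ℝ :=
  (∑ H ∈ E.powerset, f H) / 2 ^ E.card

lemma EE_congr {E : Finset α} {f g : Finset α → ℝ} (h : ∀ H ⊆ E, f H = g H) :
    EE E f = EE E g := by
  unfold EE
  congr 1
  exact Finset.sum_congr rfl (fun H hH => h H (Finset.mem_powerset.1 hH))

lemma EE_mono {E : Finset α} {f g : Finset α → ℝ} (h : ∀ H ⊆ E, f H ≤ g H) :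
    EE E f ≤ EE E g := by
  unfold EE
  gcongr with H hH
  exact h H (Finset.mem_powerset.1 hH)

lemma EE_const (E : Finset α) (c : ℝ) : EE E (fun _ => c) = c := by
  unfold EE
  rw [Finset.sum_const, Finset.card_powerset, nsmul_eq_mul]
  push_cast
  field_simp

lemma EE_add (E : Finset α) (f g : Finset α → ℝ) :
    EE E (fun H => f H + g H) = EE E f + EE E g := by
  unfold EE
  rw [Finset.sum_add_distrib, add_div]

lemma EE_sub (E : Finset α) (f g : Finset α → ℝ) :
    EE E (fun H => f H - g H) = EE E f - EE E g := by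
  unfold EE
  rw [Finset.sum_sub_distrib, sub_div]

lemma EE_mul_left (E : Finset α) (c : ℝ) (f : Finset α → ℝ) :
    EE E (fun H => c * f H) = c * EE E f := by
  unfold EE
  rw [← Finset.mul_sum, mul_div_assoc]

lemma EE_mul_right (E : Finset α) (c : ℝ) (f : Finset α → ℝ) :
    EE E (fun H => f H * c) = EE E f * c := by
  unfold EE
  rw [← Finset.sum_mul, div_mul_eq_mul_div]

lemma EE_sum {ι : Type*} (E : Finset α) (s : Finset ι) (f : ι → Finset α → ℝ) :
    EE E (fun H => ∑ i ∈ s, f i H) = ∑ i ∈ s, EE E (f i) := by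
  unfold EE
  rw [Finset.sum_comm, Finset.sum_div]

lemma EE_nonneg {E : Finset α} {f : Finset α → ℝ} (h : ∀ H ⊆ E, 0 ≤ f H) : 0 ≤ EE E f := by
  have := EE_mono (E := E) (f := fun _ => 0) (g := f) h
  rwa [EE_const] at this

lemma EE_split (E B : Finset α) (hB : B ⊆ E) (f : Finset α → ℝ) :
    EE E f = EE (E \ B) (fun H0 => EE B (fun X => f (H0 ∪ X))) := by
  unfold EE
  rw [← Finset.sum_div, div_div, ← pow_add]
  have hc : B.card + (E \ B).card = E.card := by
    rw [Finset.card_sdiff_of_subset hB]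
    have := Finset.card_le_card hB
    omega
  rw [hc]
  congr 1
  rw [← Finset.sum_product']
  refine Finset.sum_nbij' (fun H => (H \ B, H ∩ B)) (fun p => p.1 ∪ p.2) ?_ ?_ ?_ ?_ ?_
  · intro H hH
    rw [Finset.mem_powerset] at hH
    simp only [Finset.mem_product, Finset.mem_powerset]
    exact ⟨Finset.sdiff_subset_sdiff hH (le_refl B), Finset.inter_subset_right⟩
  · rintro ⟨H0, X⟩ hp
    simp only [Finset.mem_product, Finset.mem_powerset] at hp ⊢
    exact Finset.union_subset (hp.1.trans Finset.sdiff_subset) (hp.2.trans hB)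
  · intro H hH
    simp only
    exact Finset.sdiff_union_inter H B
  · rintro ⟨H0, X⟩ hp
    simp only [Finset.mem_product, Finset.mem_powerset] at hp ⊢
    ext1
    · ext e
      simp only [Finset.mem_sdiff, Finset.mem_union]
      constructor
      · rintro ⟨h1 | h1, h2⟩
        · exact h1
        · exact absurd (hp.2 h1) h2
      · intro h1
        exact ⟨Or.inl h1, (Finset.mem_sdiff.1 (hp.1 h1)).2⟩
    · ext e
      simp only [Finset.mem_inter, Finset.mem_union]
      constructor
      · rintro ⟨h1 | h1, h2⟩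
        · exact absurd h2 (Finset.mem_sdiff.1 (hp.1 h1)).2
        · exact h1
      · intro h1
        exact ⟨Or.inr h1, hp.2 h1⟩
  · intro H hH
    simp only
    rw [Finset.sdiff_union_inter H B]

/-- binomial mass function with an integer argument -/
noncomputable def pz (N : ℕ) (k : ℤ) : ℝ := if 0 ≤ k then (N.choose k.toNat : ℝ) / 2 ^ N else 0

/-- maximal binomial mass -/
noncomputable def qq (N : ℕ) : ℝ := (N.choose (N / 2) : ℝ) / 2 ^ N

lemma pz_nonneg (N : ℕ) (k : ℤ) : 0 ≤ pz N k := by
  unfold pz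
  split_ifs <;> positivity

lemma qq_nonneg (N : ℕ) : 0 ≤ qq N := by
  unfold qq
  positivity

lemma pz_le_qq (N : ℕ) (k : ℤ) : pz N k ≤ qq N := by
  unfold pz qq
  split_ifs
  · gcongr
    exact_mod_cast Nat.choose_le_middle _ _
  · positivity

lemma EE_block (B F : Finset α) (hF : F ⊆ B) (k : ℤ) :
    EE B (fun X => if ((symmDiff X F).card : ℤ) = k then 1 else 0) = pz B.card k := by
  unfold EE pz
  split_ifs with hk
  · obtain ⟨m, rfl⟩ := Int.eq_ofNat_of_zero_le hk
    congr 1
    have h1 : ∑ X ∈ B.powerset, (if ((symmDiff X F).card : ℤ) = (m : ℤ) then (1 : ℝ) else 0)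
        = ∑ X ∈ B.powerset, (if X.card = m then (1 : ℝ) else 0) := by
      refine Finset.sum_nbij' (fun X => symmDiff X F) (fun X => symmDiff X F) ?_ ?_ ?_ ?_ ?_
      · intro X hX
        rw [Finset.mem_powerset] at hX ⊢
        intro e he
        rw [Finset.mem_symmDiff] at he
        rcases he with h | h
        · exact hX h.1
        · exact hF h.1
      · intro X hX
        rw [Finset.mem_powerset] at hX ⊢
        intro e he
        rw [Finset.mem_symmDiff] at he
        rcases he with h | h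
        · exact hX h.1
        · exact hF h.1
      · intro X hX
        simp
      · intro X hX
        simp
      · intro X hX
        simp only [Nat.cast_inj]
    rw [h1, ← Finset.sum_filter, Finset.sum_const, nsmul_eq_mul, mul_one]
    have h2 : B.powerset.filter (fun X => X.card = m) = B.powersetCard m := by
      ext X
      simp [Finset.mem_powersetCard]
    rw [h2, Finset.card_powersetCard]
    simp
  · have : ∀ X ∈ B.powerset, (if ((symmDiff X F).card : ℤ) = k then (1 : ℝ) else 0) = 0 := by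
      intro X _
      rw [if_neg]
      intro h
      apply hk
      rw [← h]
      positivity
    rw [Finset.sum_congr rfl this]
    simp

end EE

section deg
variable {n : ℕ}

/-- degree of `v` -/
def deg (H : Finset (Finset (Fin n))) (v : Fin n) : ℕ := (H.filter (fun e => v ∈ e)).card

/-- indicator of equal degrees -/
noncomputable def ind (u v : Fin n) (H : Finset (Finset (Fin n))) : ℝ :=
  if deg H u = deg H v then 1 else 0

lemma ind_nonneg (u v : Fin n) (H : Finset (Finset (Fin n))) : 0 ≤ ind u v H := by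
  unfold ind; split_ifs <;> norm_num

lemma ind_le_one (u v : Fin n) (H : Finset (Finset (Fin n))) : ind u v H ≤ 1 := by
  unfold ind; split_ifs <;> norm_num

lemma ind_comm (u v : Fin n) (H : Finset (Finset (Fin n))) : ind u v H = ind v u H := by
  unfold ind; congr 1; exact propext eq_comm

lemma deg_union_inv (H0 X : Finset (Finset (Fin n))) (w : Fin n) (h : ∀ e ∈ X, w ∉ e) :
    deg (H0 ∪ X) w = deg H0 w := by
  unfold deg
  rw [Finset.filter_union]
  have : X.filter (fun e => w ∈ e) = ∅ := Finset.filter_eq_empty_iff.2 (fun e he => h e he)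
  rw [this, Finset.union_empty]

lemma ind_union_inv (H0 X : Finset (Finset (Fin n))) (w x : Fin n) (h : ∀ e ∈ X, w ∉ e)
    (h' : ∀ e ∈ X, x ∉ e) :
    ind w x (H0 ∪ X) = ind w x H0 := by
  unfold ind
  rw [deg_union_inv H0 X w h, deg_union_inv H0 X x h']

lemma deg_union_disj (H0 X : Finset (Finset (Fin n))) (w : Fin n) (h : Disjoint H0 X) :
    deg (H0 ∪ X) w = deg H0 w + deg X w := by
  unfold deg
  rw [Finset.filter_union, Finset.card_union_of_disjoint]
  exact Finset.disjoint_filter_filter h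

lemma pair_exact (E Bu Bv : Finset (Finset (Fin n))) (u v : Fin n) (hBu : Bu ⊆ E) (hBv : Bv ⊆ E)
    (h1 : ∀ e ∈ Bu, u ∈ e ∧ v ∉ e) (h2 : ∀ e ∈ Bv, v ∈ e ∧ u ∉ e)
    (g : Finset (Finset (Fin n)) → ℝ)
    (hg : ∀ H0 ⊆ E \ (Bu ∪ Bv), ∀ X ⊆ Bu ∪ Bv, g (H0 ∪ X) = g H0) :
    EE E (fun H => ind u v H * g H)
      = EE (E \ (Bu ∪ Bv)) (fun H0 =>
          pz (Bu.card + Bv.card) ((Bu.card : ℤ) + deg H0 u - deg H0 v) * g H0) := by
  have hdisj : Disjoint Bu Bv := by
    rw [Finset.disjoint_left]
    intro e he he'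
    exact (h1 e he).2 (h2 e he').1
  have hcard : (Bu ∪ Bv).card = Bu.card + Bv.card := Finset.card_union_of_disjoint hdisj
  rw [EE_split E (Bu ∪ Bv) (Finset.union_subset hBu hBv)]
  apply EE_congr
  intro H0 hH0
  rw [← hcard, ← EE_block (Bu ∪ Bv) Bu Finset.subset_union_left, ← EE_mul_right]
  apply EE_congr
  intro X hX
  rw [hg H0 hH0 X hX]
  congr 1
  unfold ind
  have hd : Disjoint H0 X := by
    rw [Finset.disjoint_left]
    intro e he he'
    exact (Finset.mem_sdiff.1 (hH0 he)).2 (hX he')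
  rw [deg_union_disj _ _ _ hd, deg_union_disj _ _ _ hd]
  have e1 : deg X u = (X ∩ Bu).card := by
    unfold deg
    congr 1
    ext e
    simp only [Finset.mem_filter, Finset.mem_inter]
    constructor
    · rintro ⟨h, h'⟩
      refine ⟨h, ?_⟩
      rcases Finset.mem_union.1 (hX h) with h3 | h3
      · exact h3
      · exact absurd h' (h2 e h3).2
    · rintro ⟨h, h'⟩
      exact ⟨h, (h1 e h').1⟩
  have e2 : deg X v = (X \ Bu).card := by
    unfold deg
    congr 1
    ext e
    simp only [Finset.mem_filter, Finset.mem_sdiff]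
    constructor
    · rintro ⟨h, h'⟩
      refine ⟨h, ?_⟩
      intro h3
      exact (h1 e h3).2 h'
    · rintro ⟨h, h'⟩
      rcases Finset.mem_union.1 (hX h) with h3 | h3
      · exact absurd h3 h'
      · exact ⟨h, (h2 e h3).1⟩
  have e3 : (symmDiff X Bu).card = (X \ Bu).card + (Bu \ X).card := by
    rw [symmDiff_def, Finset.sup_eq_union, Finset.card_union_of_disjoint]
    exact disjoint_sdiff_sdiff
  have e4 : (Bu \ X).card + (X ∩ Bu).card = Bu.card := by
    rw [Finset.inter_comm]
    exact Finset.card_sdiff_add_card_inter Bu X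
  have : (deg H0 u + deg X u = deg H0 v + deg X v) ↔
      (((symmDiff X Bu).card : ℤ) = (Bu.card : ℤ) + deg H0 u - deg H0 v) := by
    rw [e1, e2, e3]
    omega
  simp only [this]

lemma pair_upper (E Bu Bv : Finset (Finset (Fin n))) (u v : Fin n) (hBu : Bu ⊆ E) (hBv : Bv ⊆ E)
    (h1 : ∀ e ∈ Bu, u ∈ e ∧ v ∉ e) (h2 : ∀ e ∈ Bv, v ∈ e ∧ u ∉ e)
    (g : Finset (Finset (Fin n)) → ℝ) (hg0 : ∀ H, 0 ≤ g H)
    (hg : ∀ H0 ⊆ E \ (Bu ∪ Bv), ∀ X ⊆ Bu ∪ Bv, g (H0 ∪ X) = g H0) :
    EE E (fun H => ind u v H * g H)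
      ≤ qq (Bu.card + Bv.card) * EE (E \ (Bu ∪ Bv)) g := by
  rw [pair_exact E Bu Bv u v hBu hBv h1 h2 g hg, ← EE_mul_left]
  apply EE_mono
  intro H0 _
  exact mul_le_mul_of_nonneg_right (pz_le_qq _ _) (hg0 H0)

end deg

end Pool.Agent.H240R3
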