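import Pool.Agent.H240R3.HypA

set_option autoImplicit false

namespace Pool.Agent.H240R3

open Finset

/-- complete `r`-uniform hypergraph -/
def EK (n r : ℕ) : Finset (Finset (Fin n)) := (Finset.univ : Finset (Fin n)).powersetCard r

/-- edges meeting `S` exactly in `x` -/
def Bs (n r : ℕ) (S : Finset (Fin n)) (x : Fin n) : Finset (Finset (Fin n)) :=
  (EK n r).filter (fun e => e ∩ S = {x})

section
variable {n r : ℕ}

lemma Bs_subset (S : Finset (Fin n)) (x : Fin n) : Bs n r S x ⊆ EK n r := Finset.filter_subset _ _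

lemma mem_of_Bs {S : Finset (Fin n)} {x : Fin n} {e : Finset (Fin n)} (h : e ∈ Bs n r S x) :
    x ∈ e := by
  have h2 := (Finset.mem_filter.1 h).2
  have : x ∈ e ∩ S := by rw [h2]; simp
  exact (Finset.mem_inter.1 this).1

lemma not_mem_of_Bs {S : Finset (Fin n)} {x y : Fin n} {e : Finset (Fin n)}
    (h : e ∈ Bs n r S x) (hy : y ∈ S) (hxy : x ≠ y) : y ∉ e := by
  intro hye
  have h2 := (Finset.mem_filter.1 h).2
  have : y ∈ e ∩ S := Finset.mem_inter.2 ⟨hye, hy⟩
  rw [h2] at this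
  exact hxy (Finset.mem_singleton.1 this).symm

lemma Bs_disjoint {S : Finset (Fin n)} {x y : Fin n} (hy : y ∈ S) (hxy : x ≠ y) :
    Disjoint (Bs n r S x) (Bs n r S y) := by
  rw [Finset.disjoint_left]
  intro e he he'
  exact not_mem_of_Bs he hy hxy (mem_of_Bs he')

lemma card_Bs (S : Finset (Fin n)) (x : Fin n) (hx : x ∈ S) (hr : 1 ≤ r) :
    (Bs n r S x).card = (n - S.card).choose (r - 1) := by
  have h : (Bs n r S x).card = ((Finset.univ \ S).powersetCard (r - 1)).card := by
    refine Finset.card_nbij' (fun e => e.erase x) (fun f => insert x f) ?_ ?_ ?_ ?_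
    · intro e he
      have he1 := mem_of_Bs he
      have he2 := (Finset.mem_filter.1 he)
      have he3 : e.card = r := (Finset.mem_powersetCard.1 he2.1).2
      simp only [Finset.mem_powersetCard, Finset.mem_coe]
      constructor
      · intro y hy
        rw [Finset.mem_erase] at hy
        simp only [Finset.mem_sdiff, Finset.mem_univ, true_and]
        intro hyS
        exact not_mem_of_Bs he hyS (Ne.symm hy.1) hy.2
      · rw [Finset.card_erase_of_mem he1, he3]
    · intro f hf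
      simp only [Finset.mem_powersetCard, Finset.mem_coe] at hf
      have hxf : x ∉ f := by
        intro h
        exact (Finset.mem_sdiff.1 (hf.1 h)).2 hx
      simp only [Finset.mem_coe, Bs, Finset.mem_filter, EK, Finset.mem_powersetCard]
      refine ⟨⟨Finset.subset_univ _, ?_⟩, ?_⟩
      · rw [Finset.card_insert_of_notMem hxf, hf.2]
        omega
      · ext y
        simp only [Finset.mem_inter, Finset.mem_insert, Finset.mem_singleton]
        constructor
        · rintro ⟨h | h, h'⟩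
          · exact h
          · exact absurd h' (Finset.mem_sdiff.1 (hf.1 h)).2
        · rintro rfl
          exact ⟨Or.inl rfl, hx⟩
    · intro e he
      exact Finset.insert_erase (mem_of_Bs he)
    · intro f hf
      simp only [Finset.mem_powersetCard, Finset.mem_coe] at hf
      have hxf : x ∉ f := by
        intro h
        exact (Finset.mem_sdiff.1 (hf.1 h)).2 hx
      exact Finset.erase_insert hxf
  rw [h, Finset.card_powersetCard, Finset.card_sdiff_of_subset (Finset.subset_univ _),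
    Finset.card_univ, Fintype.card_fin]

lemma step2 (E : Finset (Finset (Fin n))) (S : Finset (Fin n)) (u v : Fin n) (hr : 1 ≤ r)
    (hu : u ∈ S) (hv : v ∈ S) (huv : u ≠ v)
    (hBu : Bs n r S u ⊆ E) (hBv : Bs n r S v ⊆ E)
    (g : Finset (Finset (Fin n)) → ℝ) (hg0 : ∀ H, 0 ≤ g H)
    (hg : ∀ H0 X, X ⊆ Bs n r S u ∪ Bs n r S v → g (H0 ∪ X) = g H0) :
    EE E (fun H => ind u v H * g H)
      ≤ qq (2 * (n - S.card).choose (r - 1)) * EE (E \ (Bs n r S u ∪ Bs n r S v)) g := by
  have h := pair_upper E (Bs n r S u) (Bs n r S v) u v hBu hBv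
    (fun e he => ⟨mem_of_Bs he, not_mem_of_Bs he hv huv⟩)
    (fun e he => ⟨mem_of_Bs he, not_mem_of_Bs he hu (Ne.symm huv)⟩) g hg0
    (fun H0 _ X hX => hg H0 X hX)
  rwa [card_Bs S u hu hr, card_Bs S v hv hr, ← two_mul] at h

lemma step1 (E : Finset (Finset (Fin n))) (S : Finset (Fin n)) (u v : Fin n) (hr : 1 ≤ r)
    (hu : u ∈ S) (hv : v ∈ S) (huv : u ≠ v)
    (hBv : Bs n r S v ⊆ E)
    (g : Finset (Finset (Fin n)) → ℝ) (hg0 : ∀ H, 0 ≤ g H)
    (hg : ∀ H0 X, X ⊆ Bs n r S v → g (H0 ∪ X) = g H0) :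
    EE E (fun H => ind u v H * g H)
      ≤ qq ((n - S.card).choose (r - 1)) * EE (E \ (Bs n r S v)) g := by
  have h := pair_upper E ∅ (Bs n r S v) u v (Finset.empty_subset _) hBv
    (fun e he => absurd he (Finset.notMem_empty e))
    (fun e he => ⟨mem_of_Bs he, not_mem_of_Bs he hu (Ne.symm huv)⟩) g hg0
    (fun H0 _ X hX => hg H0 X (by simpa using hX))
  rwa [card_Bs S v hv hr, Finset.card_empty, zero_add, Finset.empty_union] at h

/-- invariance of an indicator when adding edges meeting `S` only in other points -/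
lemma ind_inv1 {S : Finset (Fin n)} {v w x : Fin n} (hw : w ∈ S) (hx : x ∈ S)
    (h1 : v ≠ w) (h2 : v ≠ x)
    (H0 X : Finset (Finset (Fin n))) (hX : X ⊆ Bs n r S v) : ind w x (H0 ∪ X) = ind w x H0 := by
  apply ind_union_inv
  · intro e he; exact not_mem_of_Bs (hX he) hw h1
  · intro e he; exact not_mem_of_Bs (hX he) hx h2

lemma ind_inv2 {S : Finset (Fin n)} {u v w x : Fin n} (hw : w ∈ S) (hx : x ∈ S)
    (h1 : v ≠ w) (h2 : v ≠ x) (h3 : u ≠ w) (h4 : u ≠ x)
    (H0 X : Finset (Finset (Fin n))) (hX : X ⊆ Bs n r S u ∪ Bs n r S v) :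
    ind w x (H0 ∪ X) = ind w x H0 := by
  apply ind_union_inv
  · intro e he
    rcases Finset.mem_union.1 (hX he) with h | h
    · exact not_mem_of_Bs h hw h3
    · exact not_mem_of_Bs h hw h1
  · intro e he
    rcases Finset.mem_union.1 (hX he) with h | h
    · exact not_mem_of_Bs h hx h4
    · exact not_mem_of_Bs h hx h2

/-- three equal degrees -/
lemma tri_upper (hr : 1 ≤ r) (u v w : Fin n) (huv : u ≠ v) (huw : u ≠ w) (hvw : v ≠ w) :
    EE (EK n r) (fun H => ind u v H * ind u w H) ≤ qq ((n - 3).choose (r - 1)) ^ 2 := by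
  set S : Finset (Fin n) := {u, v, w} with hS
  have hc : S.card = 3 := by
    rw [hS, Finset.card_insert_of_notMem, Finset.card_insert_of_notMem, Finset.card_singleton]
    · simp [hvw]
    · simp [huv, huw]
  have hu : u ∈ S := by simp [hS]
  have hv : v ∈ S := by simp [hS]
  have hw : w ∈ S := by simp [hS]
  have s1 := step1 (r := r) (EK n r) S u v hr hu hv huv (Bs_subset _ _) (fun H => ind u w H)
    (fun H => ind_nonneg _ _ _) (fun H0 X hX => ind_inv1 hu hw (Ne.symm huv) hvw H0 X hX)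
  have s2 := step1 (r := r) (EK n r \ Bs n r S v) S u w hr hu hw huw
    (fun e he => Finset.mem_sdiff.2 ⟨Bs_subset _ _ he,
      Finset.disjoint_left.1 (Bs_disjoint hv (Ne.symm hvw)) he⟩) (fun _ => 1)
    (fun H => zero_le_one) (fun H0 X hX => rfl)
  rw [EE_const, mul_one] at s2
  simp only [mul_one] at s2
  rw [hc] at s1 s2
  calc _ ≤ _ := s1
    _ ≤ qq ((n - 3).choose (r - 1)) * qq ((n - 3).choose (r - 1)) :=
        mul_le_mul_of_nonneg_left s2 (qq_nonneg _)
    _ = _ := by ring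

/-- two disjoint pairs, upper bound -/
lemma disj2_upper (hr : 1 ≤ r) (u v w x : Fin n) (huv : u ≠ v) (huw : u ≠ w) (hux : u ≠ x)
    (hvw : v ≠ w) (hvx : v ≠ x) (hwx : w ≠ x) :
    EE (EK n r) (fun H => ind u v H * ind w x H) ≤ qq (2 * (n - 4).choose (r - 1)) ^ 2 := by
  set S : Finset (Fin n) := {u, v, w, x} with hS
  have hc : S.card = 4 := by
    rw [hS, Finset.card_insert_of_notMem, Finset.card_insert_of_notMem,
      Finset.card_insert_of_notMem, Finset.card_singleton]
    · simp [hwx]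
    · simp [hvw, hvx]
    · simp [huv, huw, hux]
  have hu : u ∈ S := by simp [hS]
  have hv : v ∈ S := by simp [hS]
  have hw : w ∈ S := by simp [hS]
  have hx : x ∈ S := by simp [hS]
  have s1 := step2 (r := r) (EK n r) S u v hr hu hv huv (Bs_subset _ _) (Bs_subset _ _)
    (fun H => ind w x H)
    (fun H => ind_nonneg _ _ _) (fun H0 X hX => ind_inv2 hw hx hvw hvx huw hux H0 X hX)
  have s2 := step2 (r := r) (EK n r \ (Bs n r S u ∪ Bs n r S v)) S w x hr hw hx hwx
    (fun e he => Finset.mem_sdiff.2 ⟨Bs_subset _ _ he, by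
      rw [Finset.mem_union, not_or]
      exact ⟨Finset.disjoint_left.1 (Bs_disjoint hu (Ne.symm huw)) he,
        Finset.disjoint_left.1 (Bs_disjoint hv (Ne.symm hvw)) he⟩⟩)
    (fun e he => Finset.mem_sdiff.2 ⟨Bs_subset _ _ he, by
      rw [Finset.mem_union, not_or]
      exact ⟨Finset.disjoint_left.1 (Bs_disjoint hu (Ne.symm hux)) he,
        Finset.disjoint_left.1 (Bs_disjoint hv (Ne.symm hvx)) he⟩⟩)
    (fun _ => 1) (fun H => zero_le_one) (fun H0 X hX => rfl)
  rw [EE_const, mul_one] at s2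
  simp only [mul_one] at s2
  rw [hc] at s1 s2
  calc _ ≤ _ := s1
    _ ≤ qq (2 * (n - 4).choose (r - 1)) * qq (2 * (n - 4).choose (r - 1)) :=
        mul_le_mul_of_nonneg_left s2 (qq_nonneg _)
    _ = _ := by ring

/-- three disjoint pairs, upper bound -/
lemma disj3_upper (hr : 1 ≤ r) (u v w x y z : Fin n) (huv : u ≠ v) (huw : u ≠ w) (hux : u ≠ x)
    (huy : u ≠ y) (huz : u ≠ z) (hvw : v ≠ w) (hvx : v ≠ x) (hvy : v ≠ y) (hvz : v ≠ z)
    (hwx : w ≠ x) (hwy : w ≠ y) (hwz : w ≠ z) (hxy : x ≠ y) (hxz : x ≠ z) (hyz : y ≠ z) :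
    EE (EK n r) (fun H => ind u v H * (ind w x H * ind y z H))
      ≤ qq (2 * (n - 6).choose (r - 1)) ^ 3 := by
  set S : Finset (Fin n) := {u, v, w, x, y, z} with hS
  have hc : S.card = 6 := by
    rw [hS, Finset.card_insert_of_notMem, Finset.card_insert_of_notMem,
      Finset.card_insert_of_notMem, Finset.card_insert_of_notMem,
      Finset.card_insert_of_notMem, Finset.card_singleton]
    · simp [hyz]
    · simp [hxy, hxz]
    · simp [hwx, hwy, hwz]
    · simp [hvw, hvx, hvy, hvz]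
    · simp [huv, huw, hux, huy, huz]
  have hu : u ∈ S := by simp [hS]
  have hv : v ∈ S := by simp [hS]
  have hw : w ∈ S := by simp [hS]
  have hx : x ∈ S := by simp [hS]
  have hy : y ∈ S := by simp [hS]
  have hz : z ∈ S := by simp [hS]
  have s1 := step2 (r := r) (EK n r) S u v hr hu hv huv (Bs_subset _ _) (Bs_subset _ _)
    (fun H => ind w x H * ind y z H)
    (fun H => mul_nonneg (ind_nonneg _ _ _) (ind_nonneg _ _ _)) (fun H0 X hX => by
      rw [ind_inv2 hw hx hvw hvx huw hux H0 X hX, ind_inv2 hy hz hvy hvz huy huz H0 X hX])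
  have s2 := step2 (r := r) (EK n r \ (Bs n r S u ∪ Bs n r S v)) S w x hr hw hx hwx
    (fun e he => Finset.mem_sdiff.2 ⟨Bs_subset _ _ he, by
      rw [Finset.mem_union, not_or]
      exact ⟨Finset.disjoint_left.1 (Bs_disjoint hu (Ne.symm huw)) he,
        Finset.disjoint_left.1 (Bs_disjoint hv (Ne.symm hvw)) he⟩⟩)
    (fun e he => Finset.mem_sdiff.2 ⟨Bs_subset _ _ he, by
      rw [Finset.mem_union, not_or]
      exact ⟨Finset.disjoint_left.1 (Bs_disjoint hu (Ne.symm hux)) he,
        Finset.disjoint_left.1 (Bs_disjoint hv (Ne.symm hvx)) he⟩⟩)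
    (fun H => ind y z H) (fun H => ind_nonneg _ _ _)
    (fun H0 X hX => ind_inv2 hy hz hxy hxz hwy hwz H0 X hX)
  have s3 := step2 (r := r) ((EK n r \ (Bs n r S u ∪ Bs n r S v)) \ (Bs n r S w ∪ Bs n r S x))
    S y z hr hy hz hyz
    (fun e he => Finset.mem_sdiff.2 ⟨Finset.mem_sdiff.2 ⟨Bs_subset _ _ he, by
      rw [Finset.mem_union, not_or]
      exact ⟨Finset.disjoint_left.1 (Bs_disjoint hu (Ne.symm huy)) he,
        Finset.disjoint_left.1 (Bs_disjoint hv (Ne.symm hvy)) he⟩⟩, by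
      rw [Finset.mem_union, not_or]
      exact ⟨Finset.disjoint_left.1 (Bs_disjoint hw (Ne.symm hwy)) he,
        Finset.disjoint_left.1 (Bs_disjoint hx (Ne.symm hxy)) he⟩⟩)
    (fun e he => Finset.mem_sdiff.2 ⟨Finset.mem_sdiff.2 ⟨Bs_subset _ _ he, by
      rw [Finset.mem_union, not_or]
      exact ⟨Finset.disjoint_left.1 (Bs_disjoint hu (Ne.symm huz)) he,
        Finset.disjoint_left.1 (Bs_disjoint hv (Ne.symm hvz)) he⟩⟩, by
      rw [Finset.mem_union, not_or]
      exact ⟨Finset.disjoint_left.1 (Bs_disjoint hw (Ne.symm hwz)) he,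
        Finset.disjoint_left.1 (Bs_disjoint hx (Ne.symm hxz)) he⟩⟩)
    (fun _ => 1) (fun H => zero_le_one) (fun H0 X hX => rfl)
  rw [EE_const, mul_one] at s3
  simp only [mul_one] at s3
  rw [hc] at s1 s2 s3
  have q0 := qq_nonneg (2 * (n - 6).choose (r - 1))
  calc _ ≤ _ := s1
    _ ≤ qq (2 * (n - 6).choose (r - 1)) * (qq (2 * (n - 6).choose (r - 1)) *
          qq (2 * (n - 6).choose (r - 1))) :=
        mul_le_mul_of_nonneg_left (s2.trans (mul_le_mul_of_nonneg_left s3 q0)) q0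
    _ = _ := by ring

/-- path-like configuration: three pairs forming a forest -/
lemma peel3_upper (hr : 1 ≤ r) (s v w y z : Fin n) (hsv : s ≠ v) (hsw : s ≠ w) (hvw : v ≠ w)
    (hzs : z ≠ s) (hzv : z ≠ v) (hzw : z ≠ w) (hzy : z ≠ y) :
    ∃ m : ℕ, m ≤ 5 ∧ EE (EK n r) (fun H => ind y z H * (ind s w H * ind s v H))
      ≤ qq ((n - m).choose (r - 1)) ^ 3 := by
  set S : Finset (Fin n) := {s, v, w, y, z} with hS
  refine ⟨S.card, ?_, ?_⟩
  · exact Finset.card_le_five
  have hs : s ∈ S := by simp [hS]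
  have hv : v ∈ S := by simp [hS]
  have hw : w ∈ S := by simp [hS]
  have hy : y ∈ S := by simp [hS]
  have hz : z ∈ S := by simp [hS]
  have s1 := step1 (r := r) (EK n r) S y z hr hy hz (Ne.symm hzy) (Bs_subset _ _)
    (fun H => ind s w H * ind s v H)
    (fun H => mul_nonneg (ind_nonneg _ _ _) (ind_nonneg _ _ _)) (fun H0 X hX => by
      rw [ind_inv1 hs hw hzs hzw H0 X hX, ind_inv1 hs hv hzs hzv H0 X hX])
  have s2 := step1 (r := r) (EK n r \ Bs n r S z) S s w hr hs hw hsw
    (fun e he => Finset.mem_sdiff.2 ⟨Bs_subset _ _ he,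
      Finset.disjoint_left.1 (Bs_disjoint hz (Ne.symm hzw)) he⟩) (fun H => ind s v H)
    (fun H => ind_nonneg _ _ _) (fun H0 X hX => ind_inv1 hs hv (Ne.symm hsw) (Ne.symm hvw) H0 X hX)
  have s3 := step1 (r := r) ((EK n r \ Bs n r S z) \ Bs n r S w) S s v hr hs hv hsv
    (fun e he => Finset.mem_sdiff.2 ⟨Finset.mem_sdiff.2 ⟨Bs_subset _ _ he,
      Finset.disjoint_left.1 (Bs_disjoint hz (Ne.symm hzv)) he⟩,
      Finset.disjoint_left.1 (Bs_disjoint hw hvw) he⟩) (fun _ => 1)
    (fun H => zero_le_one) (fun H0 X hX => rfl)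
  rw [EE_const, mul_one] at s3
  simp only [mul_one] at s3
  have q0 := qq_nonneg ((n - S.card).choose (r - 1))
  calc _ ≤ _ := s1
    _ ≤ qq ((n - S.card).choose (r - 1)) * (qq ((n - S.card).choose (r - 1)) *
          qq ((n - S.card).choose (r - 1))) :=
        mul_le_mul_of_nonneg_left (s2.trans (mul_le_mul_of_nonneg_left s3 q0)) q0
    _ = _ := by ring

end

end Pool.Agent.H240R3
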