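import Pool.Agent.H240R3.HypB

set_option autoImplicit false

namespace Pool.Agent.H240R3

open Finset

/-- central mass -/
noncomputable def pc (M : ℕ) : ℝ := (Nat.centralBinom M : ℝ) / 4 ^ M

lemma pc_nonneg (M : ℕ) : 0 ≤ pc M := by unfold pc; positivity

lemma pc_pos (M : ℕ) : 0 < pc M := by
  unfold pc
  have := Nat.centralBinom_pos M
  positivity

lemma qq_two_mul (M : ℕ) : qq (2 * M) = pc M := by
  unfold qq pc
  rw [Nat.mul_div_cancel_left _ (by norm_num : 0 < 2), Nat.centralBinom, pow_mul]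
  norm_num

lemma pz_central (M : ℕ) : pz (2 * M) (M : ℤ) = pc M := by
  unfold pz pc
  rw [if_pos (by positivity), Int.toNat_natCast, Nat.centralBinom, pow_mul]
  norm_num

/-- lower bound for off-central masses, nonnegative deviation -/
lemma pz_lower_nat (M : ℕ) (hM : 1 ≤ M) (t : ℕ) :
    pc M * (1 - (t : ℝ) ^ 2 / M) ≤ pz (2 * M) ((M : ℤ) + t) := by
  have hMr : (1 : ℝ) ≤ M := by exact_mod_cast hM
  induction t with
  | zero =>
    rw [Nat.cast_zero, Nat.cast_zero, add_zero, pz_central]
    simp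
  | succ t ih =>
    by_cases hneg : (1 : ℝ) - ((t : ℝ) + 1) ^ 2 / M ≤ 0
    · have h1 : pc M * (1 - ((t + 1 : ℕ) : ℝ) ^ 2 / M) ≤ 0 := by
        push_cast
        exact mul_nonpos_of_nonneg_of_nonpos (pc_nonneg M) hneg
      exact h1.trans (pz_nonneg _ _)
    · push Not at hneg
      have hlt : ((t : ℝ) + 1) ^ 2 < M := by
        have : ((t : ℝ) + 1) ^ 2 / M < 1 := by linarith
        rwa [div_lt_one (by linarith)] at this
      have htM : (t : ℝ) + 1 < M := by nlinarith [(by positivity : (0 : ℝ) ≤ t)]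
      have htM' : t + 1 < M := by exact_mod_cast htM
      have e1 : pz (2 * M) ((M : ℤ) + t) = ((2 * M).choose (M + t) : ℝ) / 2 ^ (2 * M) := by
        unfold pz
        rw [if_pos (by positivity)]
        congr 3
      have e2 : pz (2 * M) ((M : ℤ) + (t + 1 : ℕ)) = ((2 * M).choose (M + t + 1) : ℝ) / 2 ^ (2 * M) := by
        unfold pz
        rw [if_pos (by positivity)]
        congr 3
      have e3 : (2 * M).choose (M + t + 1) * (M + t + 1) = (2 * M).choose (M + t) * (M - t) := by
        have := Nat.choose_succ_right_eq (2 * M) (M + t)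
        rw [this]
        congr 1
        omega
      have e4 : ((2 * M).choose (M + t + 1) : ℝ) * ((M : ℝ) + t + 1)
          = ((2 * M).choose (M + t) : ℝ) * ((M : ℝ) - t) := by
        have h := congrArg (Nat.cast : ℕ → ℝ) e3
        rw [Nat.cast_mul, Nat.cast_mul, Nat.cast_sub (by omega)] at h
        push_cast at h
        exact h
      have e5 : pz (2 * M) ((M : ℤ) + (t + 1 : ℕ)) =
          pz (2 * M) ((M : ℤ) + t) * (((M : ℝ) - t) / ((M : ℝ) + t + 1)) := by
        rw [e1, e2]
        have : (M : ℝ) + t + 1 ≠ 0 := by positivity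
        field_simp
        linarith
      rw [e5]
      have hf : (0 : ℝ) ≤ ((M : ℝ) - t) / ((M : ℝ) + t + 1) := by
        apply div_nonneg
        · linarith
        · positivity
      have hf2 : 1 - (2 * (t : ℝ) + 1) / M ≤ ((M : ℝ) - t) / ((M : ℝ) + t + 1) := by
        have hpos : (0 : ℝ) < (M : ℝ) + t + 1 := by positivity
        rw [le_div_iff₀ hpos]
        have : (1 - (2 * (t : ℝ) + 1) / M) * ((M : ℝ) + t + 1) =
            (M : ℝ) - t - (2 * (t : ℝ) + 1) * ((t : ℝ) + 1) / M := by
          field_simp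
          ring
        rw [this]
        have : 0 ≤ (2 * (t : ℝ) + 1) * ((t : ℝ) + 1) / M := by positivity
        linarith
      have hgpos : 0 ≤ 1 - (t : ℝ) ^ 2 / M := by
        rw [sub_nonneg, div_le_one (by linarith)]
        nlinarith [(by positivity : (0 : ℝ) ≤ t)]
      calc pc M * (1 - ((t + 1 : ℕ) : ℝ) ^ 2 / M)
          ≤ pc M * ((1 - (t : ℝ) ^ 2 / M) * (1 - (2 * (t : ℝ) + 1) / M)) := by
            apply mul_le_mul_of_nonneg_left _ (pc_nonneg M)
            push_cast
            have : (1 - (t : ℝ) ^ 2 / M) * (1 - (2 * (t : ℝ) + 1) / M) =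
              (1 - ((t : ℝ) + 1) ^ 2 / M) + ((t : ℝ) ^ 2 / M) * ((2 * (t : ℝ) + 1) / M) := by
              field_simp
              ring
            rw [this]
            have : 0 ≤ ((t : ℝ) ^ 2 / M) * ((2 * (t : ℝ) + 1) / M) := by positivity
            linarith
        _ ≤ pc M * ((1 - (t : ℝ) ^ 2 / M) * (((M : ℝ) - t) / ((M : ℝ) + t + 1))) := by
            apply mul_le_mul_of_nonneg_left _ (pc_nonneg M)
            exact mul_le_mul_of_nonneg_left hf2 hgpos
        _ = (pc M * (1 - (t : ℝ) ^ 2 / M)) * (((M : ℝ) - t) / ((M : ℝ) + t + 1)) := by ring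
        _ ≤ _ := mul_le_mul_of_nonneg_right ih hf

lemma pz_symm (M : ℕ) (t : ℕ) (ht : t ≤ M) :
    pz (2 * M) ((M : ℤ) - t) = pz (2 * M) ((M : ℤ) + t) := by
  unfold pz
  rw [if_pos (by omega), if_pos (by omega)]
  congr 2
  have h1 : ((M : ℤ) - t).toNat = M - t := by omega
  have h2 : ((M : ℤ) + t).toNat = M + t := by omega
  rw [h1, h2]
  apply Nat.choose_symm_of_eq_add
  omega

lemma pz_lower (M : ℕ) (hM : 1 ≤ M) (t : ℤ) :
    pc M * (1 - (t : ℝ) ^ 2 / M) ≤ pz (2 * M) ((M : ℤ) + t) := by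
  rcases le_total 0 t with ht | ht
  · obtain ⟨m, rfl⟩ := Int.eq_ofNat_of_zero_le ht
    have := pz_lower_nat M hM m
    simp only [Int.ofNat_eq_natCast, Int.cast_natCast]
    exact this
  · obtain ⟨m, hm⟩ := Int.eq_ofNat_of_zero_le (neg_nonneg.2 ht)
    have hm' : t = -(m : ℤ) := by omega
    subst hm'
    by_cases hmM : m ≤ M
    · have := pz_lower_nat M hM m
      rw [← pz_symm M m hmM] at this
      push_cast
      rw [neg_sq]
      exact this
    · push Not at hmM
      have hMr : (1 : ℝ) ≤ M := by exact_mod_cast hM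
      have hmr : (M : ℝ) < m := by exact_mod_cast hmM
      have : pc M * (1 - ((-(m : ℤ) : ℤ) : ℝ) ^ 2 / M) ≤ 0 := by
        apply mul_nonpos_of_nonneg_of_nonpos (pc_nonneg M)
        push_cast
        rw [neg_sq, sub_nonpos, le_div_iff₀ (by linarith)]
        nlinarith
      exact this.trans (pz_nonneg _ _)

/-- product lower bound -/
lemma pz_prod_lower (M : ℕ) (hM : 1 ≤ M) (s t : ℤ) :
    pc M ^ 2 * (1 - (s : ℝ) ^ 2 / M - (t : ℝ) ^ 2 / M) ≤
      pz (2 * M) ((M : ℤ) + s) * pz (2 * M) ((M : ℤ) + t) := by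
  have hMr : (1 : ℝ) ≤ M := by exact_mod_cast hM
  set a : ℝ := (s : ℝ) ^ 2 / M with ha
  set b : ℝ := (t : ℝ) ^ 2 / M with hb
  have ha0 : 0 ≤ a := by positivity
  have hb0 : 0 ≤ b := by positivity
  have h1 := pz_lower M hM s
  have h2 := pz_lower M hM t
  rw [← ha] at h1
  rw [← hb] at h2
  by_cases h : 1 - a - b ≤ 0
  · have : pc M ^ 2 * (1 - a - b) ≤ 0 := mul_nonpos_of_nonneg_of_nonpos (sq_nonneg _) h
    exact this.trans (mul_nonneg (pz_nonneg _ _) (pz_nonneg _ _))
  · push Not at h
    have hp := pc_nonneg M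
    calc pc M ^ 2 * (1 - a - b) ≤ pc M ^ 2 * ((1 - a) * (1 - b)) := by
          apply mul_le_mul_of_nonneg_left _ (sq_nonneg _)
          nlinarith
      _ = (pc M * (1 - a)) * (pc M * (1 - b)) := by ring
      _ ≤ _ := mul_le_mul h1 h2 (mul_nonneg hp (by linarith)) (pz_nonneg _ _)

section var
variable {α : Type*} [DecidableEq α]

lemma EE_insert (R : Finset α) (a : α) (ha : a ∉ R) (f : Finset α → ℝ) :
    EE (insert a R) f = (EE R f + EE R (fun H => f (insert a H))) / 2 := by
  unfold EE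
  rw [Finset.sum_powerset_insert ha, Finset.card_insert_of_notMem ha, pow_succ]
  field_simp

lemma EE_sq (R : Finset α) (ε : α → ℝ) : ∀ c : ℝ,
    EE R (fun H => (c + ∑ e ∈ H, ε e) ^ 2)
      = (c + (∑ e ∈ R, ε e) / 2) ^ 2 + (∑ e ∈ R, (ε e) ^ 2) / 4 := by
  induction R using Finset.induction_on with
  | empty =>
    intro c
    simp [EE]
  | insert a R ha ih =>
    intro c
    rw [EE_insert R a ha, ih c]
    have : EE R (fun H => (c + ∑ e ∈ insert a H, ε e) ^ 2)
        = EE R (fun H => ((c + ε a) + ∑ e ∈ H, ε e) ^ 2) := by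
      apply EE_congr
      intro H hH
      rw [Finset.sum_insert (fun h => ha (hH h))]
      ring
    rw [this, ih (c + ε a), Finset.sum_insert ha, Finset.sum_insert ha]
    ring

end var

section
variable {n r : ℕ}

/-- exact probability for one pair -/
lemma pair_prob (hr : 1 ≤ r) (u v : Fin n) (huv : u ≠ v) :
    EE (EK n r) (fun H => ind u v H) = pc ((n - 2).choose (r - 1)) := by
  set S : Finset (Fin n) := {u, v} with hS
  have hc : S.card = 2 := Finset.card_pair huv
  have hu : u ∈ S := by simp [hS]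
  have hv : v ∈ S := by simp [hS]
  have h := pair_exact (EK n r) (Bs n r S u) (Bs n r S v) u v (Bs_subset _ _) (Bs_subset _ _)
    (fun e he => ⟨mem_of_Bs he, not_mem_of_Bs he hv huv⟩)
    (fun e he => ⟨mem_of_Bs he, not_mem_of_Bs he hu (Ne.symm huv)⟩) (fun _ => 1)
    (fun H0 _ X hX => rfl)
  simp only [mul_one] at h
  rw [h, card_Bs S u hu hr, card_Bs S v hv hr, ← two_mul, hc]
  have : ∀ H0 ⊆ EK n r \ (Bs n r S u ∪ Bs n r S v),
      pz (2 * (n - 2).choose (r - 1)) ((((n - 2).choose (r - 1) : ℕ) : ℤ) + deg H0 u - deg H0 v)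
        = pc ((n - 2).choose (r - 1)) := by
    intro H0 hH0
    have hd : deg H0 u = deg H0 v := by
      unfold deg
      congr 1
      apply Finset.filter_congr
      intro e he
      have he' := Finset.mem_sdiff.1 (hH0 he)
      rw [Finset.mem_union, not_or] at he'
      constructor
      · intro hue
        by_contra hve
        apply he'.2.1
        unfold Bs
        rw [Finset.mem_filter]
        refine ⟨he'.1, ?_⟩
        ext y
        simp only [hS, Finset.mem_inter, Finset.mem_insert, Finset.mem_singleton]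
        constructor
        · rintro ⟨h1, h2 | h2⟩
          · exact h2
          · rw [h2] at h1; exact absurd h1 hve
        · rintro rfl
          exact ⟨hue, Or.inl rfl⟩
      · intro hve
        by_contra hue
        apply he'.2.2
        unfold Bs
        rw [Finset.mem_filter]
        refine ⟨he'.1, ?_⟩
        ext y
        simp only [hS, Finset.mem_inter, Finset.mem_insert, Finset.mem_singleton]
        constructor
        · rintro ⟨h1, h2 | h2⟩
          · rw [h2] at h1; exact absurd h1 hue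
          · exact h2
        · rintro rfl
          exact ⟨hve, Or.inr rfl⟩
    rw [hd]
    have : (((n - 2).choose (r - 1) : ℕ) : ℤ) + deg H0 v - deg H0 v = ((n - 2).choose (r - 1) : ℕ) := by
      ring
    rw [this, pz_central]
  rw [EE_congr this, EE_const]

lemma deg_eq_sum (H : Finset (Finset (Fin n))) (u : Fin n) :
    (deg H u : ℝ) = ∑ e ∈ H, (if u ∈ e then (1 : ℝ) else 0) := by
  unfold deg
  rw [Finset.card_filter]
  push_cast
  rfl

lemma deg_sdiff (E B : Finset (Finset (Fin n))) (u : Fin n) (hB : B ⊆ E) :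
    deg (E \ B) u + deg B u = deg E u := by
  have h := deg_union_disj (E \ B) B u Finset.sdiff_disjoint
  rw [Finset.sdiff_union_of_subset hB] at h
  omega

lemma deg_EK (hr : 1 ≤ r) (u : Fin n) : deg (EK n r) u = (n - 1).choose (r - 1) := by
  have h := card_Bs (n := n) (r := r) {u} u (by simp) hr
  rw [Finset.card_singleton] at h
  rw [← h]
  unfold deg Bs
  congr 1
  apply Finset.filter_congr
  intro e _
  constructor
  · intro hu
    ext y
    simp only [Finset.mem_inter, Finset.mem_singleton]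
    constructor
    · exact fun h => h.2
    · rintro rfl; exact ⟨hu, rfl⟩
  · intro h
    have : u ∈ e ∩ {u} := by rw [h]; simp
    exact (Finset.mem_inter.1 this).1

lemma deg_Bs_self (S : Finset (Fin n)) (u : Fin n) : deg (Bs n r S u) u = (Bs n r S u).card := by
  unfold deg
  congr 1
  exact Finset.filter_true_of_mem (fun e he => mem_of_Bs he)

lemma deg_Bs_other (S : Finset (Fin n)) (u v : Fin n) (hv : v ∈ S) (huv : u ≠ v) :
    deg (Bs n r S u) v = 0 := by
  unfold deg
  rw [Finset.card_eq_zero, Finset.filter_eq_empty_iff]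
  exact fun e he => not_mem_of_Bs he hv huv

/-- number of edges of `EK` containing `u` but not `v` -/
lemma card_only (hr : 1 ≤ r) (u v : Fin n) (huv : u ≠ v) :
    ((EK n r).filter (fun e => u ∈ e ∧ v ∉ e)).card = (n - 2).choose (r - 1) := by
  have h := card_Bs (n := n) (r := r) {u, v} u (by simp) hr
  rw [Finset.card_pair huv] at h
  rw [← h]
  unfold Bs
  congr 1
  apply Finset.filter_congr
  intro e _
  constructor
  · rintro ⟨hu, hv⟩
    ext y
    simp only [Finset.mem_inter, Finset.mem_singleton, Finset.mem_insert]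
    constructor
    · rintro ⟨h1, h2 | h2⟩
      · exact h2
      · rw [h2] at h1; exact absurd h1 hv
    · rintro rfl; exact ⟨hu, Or.inl rfl⟩
  · intro h
    have h1 : u ∈ e ∩ {u, v} := by rw [h]; simp
    refine ⟨(Finset.mem_inter.1 h1).1, ?_⟩
    intro hv
    have : v ∈ e ∩ {u, v} := by simp [hv]
    rw [h] at this
    exact huv (Finset.mem_singleton.1 this).symm

/-- variance bound -/
lemma var_bound (hr : 1 ≤ r) (u v w x : Fin n) (huv : u ≠ v) (huw : u ≠ w) (hux : u ≠ x)
    (hvw : v ≠ w) (hvx : v ≠ x) (hwx : w ≠ x) (R : Finset (Finset (Fin n)))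
    (hR : R = (EK n r \ (Bs n r {u, v, w, x} u ∪ Bs n r {u, v, w, x} v)) \
      (Bs n r {u, v, w, x} w ∪ Bs n r {u, v, w, x} x)) :
    EE R (fun H0 => ((deg H0 u : ℝ) - deg H0 v) ^ 2)
      ≤ (((n - 2).choose (r - 1) : ℝ) - (n - 4).choose (r - 1)) / 2 := by
  set S : Finset (Fin n) := {u, v, w, x} with hS
  have hc : S.card = 4 := by
    rw [hS, Finset.card_insert_of_notMem, Finset.card_insert_of_notMem,
      Finset.card_insert_of_notMem, Finset.card_singleton]
    · simp [hwx]
    · simp [hvw, hvx]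
    · simp [huv, huw, hux]
  have hu : u ∈ S := by simp [hS]
  have hv : v ∈ S := by simp [hS]
  have hw : w ∈ S := by simp [hS]
  have hx : x ∈ S := by simp [hS]
  have cu := card_Bs (n := n) (r := r) S u hu hr
  have cv := card_Bs (n := n) (r := r) S v hv hr
  rw [hc] at cu cv
  -- rewrite as sum
  have h1 : EE R (fun H0 => ((deg H0 u : ℝ) - deg H0 v) ^ 2)
      = EE R (fun H0 => (0 + ∑ e ∈ H0, ((if u ∈ e then (1 : ℝ) else 0) - (if v ∈ e then 1 else 0))) ^ 2) := by
    apply EE_congr
    intro H0 _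
    rw [deg_eq_sum, deg_eq_sum, zero_add, Finset.sum_sub_distrib]
  rw [h1, EE_sq]
  have hsum : ∑ e ∈ R, ((if u ∈ e then (1 : ℝ) else 0) - (if v ∈ e then 1 else 0)) = 0 := by
    rw [Finset.sum_sub_distrib, ← deg_eq_sum, ← deg_eq_sum, sub_eq_zero]
    have hB1 : Bs n r S u ∪ Bs n r S v ⊆ EK n r :=
      Finset.union_subset (Bs_subset _ _) (Bs_subset _ _)
    have hB2 : Bs n r S w ∪ Bs n r S x ⊆ EK n r \ (Bs n r S u ∪ Bs n r S v) := by
      apply Finset.union_subset
      · exact (fun e he => Finset.mem_sdiff.2 ⟨Bs_subset _ _ he, by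
          rw [Finset.mem_union, not_or]
          exact ⟨Finset.disjoint_left.1 (Bs_disjoint hu (Ne.symm huw)) he,
            Finset.disjoint_left.1 (Bs_disjoint hv (Ne.symm hvw)) he⟩⟩)
      · exact (fun e he => Finset.mem_sdiff.2 ⟨Bs_subset _ _ he, by
          rw [Finset.mem_union, not_or]
          exact ⟨Finset.disjoint_left.1 (Bs_disjoint hu (Ne.symm hux)) he,
            Finset.disjoint_left.1 (Bs_disjoint hv (Ne.symm hvx)) he⟩⟩)
    have a1 := deg_sdiff (EK n r) _ u hB1
    have a2 := deg_sdiff (EK n r) _ v hB1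
    have a3 := deg_sdiff _ _ u hB2
    have a4 := deg_sdiff _ _ v hB2
    have d1 := deg_union_disj (Bs n r S u) (Bs n r S v) u (Bs_disjoint hv huv)
    have d2 := deg_union_disj (Bs n r S u) (Bs n r S v) v (Bs_disjoint hv huv)
    have d3 := deg_union_disj (Bs n r S w) (Bs n r S x) u (Bs_disjoint hx hwx)
    have d4 := deg_union_disj (Bs n r S w) (Bs n r S x) v (Bs_disjoint hx hwx)
    rw [deg_Bs_self, deg_Bs_other S v u hu (Ne.symm huv)] at d1
    rw [deg_Bs_self, deg_Bs_other S u v hv huv] at d2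
    rw [deg_Bs_other S w u hu (Ne.symm huw), deg_Bs_other S x u hu (Ne.symm hux)] at d3
    rw [deg_Bs_other S w v hv (Ne.symm hvw), deg_Bs_other S x v hv (Ne.symm hvx)] at d4
    rw [deg_EK hr] at a1 a2
    rw [← hR] at a3 a4
    have : deg R u = deg R v := by omega
    rw [this]
  rw [hsum]
  have hsq : ∑ e ∈ R, ((if u ∈ e then (1 : ℝ) else 0) - (if v ∈ e then 1 else 0)) ^ 2
      ≤ 2 * (((n - 2).choose (r - 1) : ℝ) - (n - 4).choose (r - 1)) := by
    have e1 : ∀ e ∈ R, ((if u ∈ e then (1 : ℝ) else 0) - (if v ∈ e then 1 else 0)) ^ 2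
        = (if u ∈ e ∧ v ∉ e then (1 : ℝ) else 0) + (if v ∈ e ∧ u ∉ e then (1 : ℝ) else 0) := by
      intro e _
      by_cases h1 : u ∈ e <;> by_cases h2 : v ∈ e <;> simp [h1, h2]
    rw [Finset.sum_congr rfl e1, Finset.sum_add_distrib]
    have key : ∀ a b : Fin n, a ∈ S → b ∈ S → a ≠ b → (Bs n r S a) ∩ R = ∅ →
        ∑ e ∈ R, (if a ∈ e ∧ b ∉ e then (1 : ℝ) else 0)
          ≤ ((n - 2).choose (r - 1) : ℝ) - (n - 4).choose (r - 1) := by
      intro a b ha hb hab hdis
      have hcd := card_only (n := n) (r := r) hr a b hab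
      have ca := card_Bs (n := n) (r := r) S a ha hr
      rw [hc] at ca
      have hsub : R.filter (fun e => a ∈ e ∧ b ∉ e) ∪ Bs n r S a ⊆
          (EK n r).filter (fun e => a ∈ e ∧ b ∉ e) := by
        intro e he
        rcases Finset.mem_union.1 he with h | h
        · rw [Finset.mem_filter] at h ⊢
          refine ⟨?_, h.2⟩
          have := h.1
          rw [hR] at this
          exact (Finset.mem_sdiff.1 (Finset.mem_sdiff.1 this).1).1
        · rw [Finset.mem_filter]
          exact ⟨Bs_subset _ _ h, mem_of_Bs h, not_mem_of_Bs h hb hab⟩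
      have hdj : Disjoint (R.filter (fun e => a ∈ e ∧ b ∉ e)) (Bs n r S a) := by
        rw [Finset.disjoint_left]
        intro e he he'
        have : e ∈ Bs n r S a ∩ R := Finset.mem_inter.2 ⟨he', (Finset.mem_filter.1 he).1⟩
        rw [hdis] at this
        exact absurd this (Finset.notMem_empty e)
      have hle := Finset.card_le_card hsub
      rw [Finset.card_union_of_disjoint hdj, hcd, ca] at hle
      rw [← Finset.sum_filter, Finset.sum_const, nsmul_eq_mul, mul_one]
      have : ((R.filter (fun e => a ∈ e ∧ b ∉ e)).card : ℝ) + ((n - 4).choose (r - 1) : ℝ)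
          ≤ ((n - 2).choose (r - 1) : ℝ) := by exact_mod_cast hle
      linarith
    have k1 := key u v hu hv huv (by
      rw [Finset.eq_empty_iff_forall_notMem]
      intro e he
      rw [Finset.mem_inter, hR] at he
      have := (Finset.mem_sdiff.1 (Finset.mem_sdiff.1 he.2).1).2
      exact this (Finset.mem_union_left _ he.1))
    have k2 := key v u hv hu (Ne.symm huv) (by
      rw [Finset.eq_empty_iff_forall_notMem]
      intro e he
      rw [Finset.mem_inter, hR] at he
      have := (Finset.mem_sdiff.1 (Finset.mem_sdiff.1 he.2).1).2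
      exact this (Finset.mem_union_right _ he.1))
    linarith
  linarith

/-- two disjoint pairs, lower bound -/
lemma disj2_lower (hr : 1 ≤ r) (u v w x : Fin n) (huv : u ≠ v) (huw : u ≠ w) (hux : u ≠ x)
    (hvw : v ≠ w) (hvx : v ≠ x) (hwx : w ≠ x) (hM : 1 ≤ (n - 4).choose (r - 1)) :
    pc ((n - 4).choose (r - 1)) ^ 2 * (1 - (((n - 2).choose (r - 1) : ℝ) - (n - 4).choose (r - 1))
        / ((n - 4).choose (r - 1) : ℝ))
      ≤ EE (EK n r) (fun H => ind u v H * ind w x H) := by
  set S : Finset (Fin n) := {u, v, w, x} with hS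
  set M := (n - 4).choose (r - 1) with hMdef
  have hc : S.card = 4 := by
    rw [hS, Finset.card_insert_of_notMem, Finset.card_insert_of_notMem,
      Finset.card_insert_of_notMem, Finset.card_singleton]
    · simp [hwx]
    · simp [hvw, hvx]
    · simp [huv, huw, hux]
  have hu : u ∈ S := by simp [hS]
  have hv : v ∈ S := by simp [hS]
  have hw : w ∈ S := by simp [hS]
  have hx : x ∈ S := by simp [hS]
  have cu := card_Bs (n := n) (r := r) S u hu hr
  have cv := card_Bs (n := n) (r := r) S v hv hr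
  have cw := card_Bs (n := n) (r := r) S w hw hr
  have cx := card_Bs (n := n) (r := r) S x hx hr
  rw [hc] at cu cv cw cx
  have p1 := pair_exact (EK n r) (Bs n r S u) (Bs n r S v) u v (Bs_subset _ _) (Bs_subset _ _)
    (fun e he => ⟨mem_of_Bs he, not_mem_of_Bs he hv huv⟩)
    (fun e he => ⟨mem_of_Bs he, not_mem_of_Bs he hu (Ne.symm huv)⟩) (fun H => ind w x H)
    (fun H0 _ X hX => ind_inv2 hw hx hvw hvx huw hux H0 X hX)
  rw [p1]
  have hcomm : EE (EK n r \ (Bs n r S u ∪ Bs n r S v)) (fun H0 =>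
          pz ((Bs n r S u).card + (Bs n r S v).card) (((Bs n r S u).card : ℤ) + deg H0 u - deg H0 v) * ind w x H0)
      = EE (EK n r \ (Bs n r S u ∪ Bs n r S v)) (fun H0 => ind w x H0 *
          pz (2 * M) ((M : ℤ) + ((deg H0 u : ℤ) - deg H0 v))) := by
    apply EE_congr
    intro H0 _
    rw [cu, cv, ← hMdef, ← two_mul, mul_comm, add_sub_assoc]
  rw [hcomm]
  have p2 := pair_exact (EK n r \ (Bs n r S u ∪ Bs n r S v)) (Bs n r S w) (Bs n r S x) w x
    (fun e he => Finset.mem_sdiff.2 ⟨Bs_subset _ _ he, by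
      rw [Finset.mem_union, not_or]
      exact ⟨Finset.disjoint_left.1 (Bs_disjoint hu (Ne.symm huw)) he,
        Finset.disjoint_left.1 (Bs_disjoint hv (Ne.symm hvw)) he⟩⟩)
    (fun e he => Finset.mem_sdiff.2 ⟨Bs_subset _ _ he, by
      rw [Finset.mem_union, not_or]
      exact ⟨Finset.disjoint_left.1 (Bs_disjoint hu (Ne.symm hux)) he,
        Finset.disjoint_left.1 (Bs_disjoint hv (Ne.symm hvx)) he⟩⟩)
    (fun e he => ⟨mem_of_Bs he, not_mem_of_Bs he hx hwx⟩)
    (fun e he => ⟨mem_of_Bs he, not_mem_of_Bs he hw (Ne.symm hwx)⟩)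
    (fun H0 => pz (2 * M) ((M : ℤ) + ((deg H0 u : ℤ) - deg H0 v)))
    (fun H0 _ X hX => by
      rw [deg_union_inv H0 X u, deg_union_inv H0 X v]
      · intro e he
        rcases Finset.mem_union.1 (hX he) with h | h
        · exact not_mem_of_Bs h hv (Ne.symm hvw)
        · exact not_mem_of_Bs h hv (Ne.symm hvx)
      · intro e he
        rcases Finset.mem_union.1 (hX he) with h | h
        · exact not_mem_of_Bs h hu (Ne.symm huw)
        · exact not_mem_of_Bs h hu (Ne.symm hux))
  rw [p2, cw, cx, ← hMdef, ← two_mul]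
  set R := (EK n r \ (Bs n r S u ∪ Bs n r S v)) \ (Bs n r S w ∪ Bs n r S x) with hR
  have v1 := var_bound hr u v w x huv huw hux hvw hvx hwx R hR
  have hR' : R = (EK n r \ (Bs n r {w, x, u, v} w ∪ Bs n r {w, x, u, v} x)) \
      (Bs n r {w, x, u, v} u ∪ Bs n r {w, x, u, v} v) := by
    have hSS : ({w, x, u, v} : Finset (Fin n)) = S := by
      rw [hS]; ext y; simp only [Finset.mem_insert, Finset.mem_singleton]; tauto
    rw [hSS, hR, sdiff_right_comm]
  have v2 := var_bound hr w x u v hwx (Ne.symm huw) (Ne.symm hvw) (Ne.symm hux) (Ne.symm hvx) huv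
    R hR'
  have hMr : (1 : ℝ) ≤ M := by exact_mod_cast hM
  have lower : EE R (fun H0 => pc M ^ 2 * (1 - ((deg H0 w : ℝ) - deg H0 x) ^ 2 / M
        - ((deg H0 u : ℝ) - deg H0 v) ^ 2 / M)) ≤
      EE R (fun H0 => pz (2 * M) ((M : ℤ) + deg H0 w - deg H0 x) *
        pz (2 * M) ((M : ℤ) + ((deg H0 u : ℤ) - deg H0 v))) := by
    apply EE_mono
    intro H0 _
    have := pz_prod_lower M hM ((deg H0 w : ℤ) - deg H0 x) ((deg H0 u : ℤ) - deg H0 v)
    rw [← add_sub_assoc] at this
    push_cast at this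
    exact this
  refine le_trans ?_ lower
  have expand : EE R (fun H0 => pc M ^ 2 * (1 - ((deg H0 w : ℝ) - deg H0 x) ^ 2 / M
        - ((deg H0 u : ℝ) - deg H0 v) ^ 2 / M))
      = pc M ^ 2 * (1 - (EE R (fun H0 => ((deg H0 w : ℝ) - deg H0 x) ^ 2)) / M
        - (EE R (fun H0 => ((deg H0 u : ℝ) - deg H0 v) ^ 2)) / M) := by
    rw [EE_mul_left, EE_sub, EE_sub, EE_const]
    simp only [div_eq_mul_inv]
    rw [EE_mul_right, EE_mul_right]
  rw [expand]
  apply mul_le_mul_of_nonneg_left _ (sq_nonneg _)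
  rw [← hMdef] at v1 v2
  have hb1 : (EE R (fun H0 => ((deg H0 w : ℝ) - deg H0 x) ^ 2)) / M
      ≤ ((((n - 2).choose (r - 1) : ℝ) - M) / 2) / M := by
    gcongr
  have hb2 : (EE R (fun H0 => ((deg H0 u : ℝ) - deg H0 v) ^ 2)) / M
      ≤ ((((n - 2).choose (r - 1) : ℝ) - M) / 2) / M := by
    gcongr
  have : (((n - 2).choose (r - 1) : ℝ) - M) / M = ((((n - 2).choose (r - 1) : ℝ) - M) / 2) / M
      + ((((n - 2).choose (r - 1) : ℝ) - M) / 2) / M := by ring
  linarith

end

end Pool.Agent.H240R3
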