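import Pool.Agent.H240R3.HypC

set_option autoImplicit false

namespace Pool.Agent.H240R3

open Finset Filter Topology

/-- `√M * pc M → 1/√π` -/
lemma tendsto_pc : Tendsto (fun M : ℕ => √(M : ℝ) * pc M) atTop (𝓝 (1 / √Real.pi)) := by
  have hs := Stirling.tendsto_stirlingSeq_sqrt_pi
  have h2 : Tendsto (fun M : ℕ => Stirling.stirlingSeq (2 * M)) atTop (𝓝 (√Real.pi)) :=
    hs.comp (tendsto_id.const_mul_atTop' (by norm_num : 0 < 2))
  have hpi : √Real.pi ≠ 0 := by positivity
  have h3 : Tendsto (fun M : ℕ => Stirling.stirlingSeq (2 * M) / (Stirling.stirlingSeq M) ^ 2)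
      atTop (𝓝 (√Real.pi / (√Real.pi) ^ 2)) := h2.div (hs.pow 2) (by positivity)
  have h4 : √Real.pi / (√Real.pi) ^ 2 = 1 / √Real.pi := by
    field_simp
  rw [h4] at h3
  refine h3.congr' ?_
  filter_upwards [eventually_gt_atTop 0] with M hM
  have hMr : (0 : ℝ) < M := by exact_mod_cast hM
  unfold pc Stirling.stirlingSeq
  have hc : (Nat.centralBinom M : ℝ) = ((2 * M).factorial : ℝ) / ((M.factorial : ℝ) ^ 2) := by
    rw [Nat.centralBinom, Nat.cast_choose ℝ (by omega : M ≤ 2 * M)]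
    have : 2 * M - M = M := by omega
    rw [this, sq]
  rw [hc]
  have hf : (M.factorial : ℝ) ≠ 0 := by positivity
  have e1 : √(2 * ((2 * M : ℕ) : ℝ)) = 2 * √(M : ℝ) := by
    push_cast
    rw [show (2 : ℝ) * (2 * M) = 2 ^ 2 * M by ring, Real.sqrt_mul (by positivity),
      Real.sqrt_sq (by norm_num)]
  have e2 : (√(2 * (M : ℝ))) ^ 2 = 2 * M := Real.sq_sqrt (by positivity)
  have e3 : √(M : ℝ) * √(M : ℝ) = M := Real.mul_self_sqrt (by positivity)
  have e4 : (((2 * M : ℕ) : ℝ) / Real.exp 1) ^ (2 * M) = 4 ^ M * (((M : ℝ) / Real.exp 1) ^ M) ^ 2 := by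
    push_cast
    rw [mul_div_assoc, mul_pow, pow_mul 2 2 M, ← pow_mul ((M : ℝ) / Real.exp 1) M 2, mul_comm M 2]
    norm_num
  rw [e1, e4]
  have hE : ((M : ℝ) / Real.exp 1) ^ M ≠ 0 := by positivity
  have hsq : √(M : ℝ) ≠ 0 := by positivity
  generalize ((M : ℝ) / Real.exp 1) ^ M = X at hE ⊢
  rw [div_pow, mul_pow, e2]
  generalize √(M : ℝ) = y at hsq e3 ⊢
  rw [← e3]
  field_simp

lemma tendsto_pc_comp {f : ℕ → ℕ} {k : ℕ} (hk : 1 ≤ k) {c : ℝ} (hc : 0 < c)
    (hf : Tendsto (fun n : ℕ => (f n : ℝ) / (n : ℝ) ^ k) atTop (𝓝 c)) :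
    Tendsto (fun n : ℕ => √((n : ℝ) ^ k) * pc (f n)) atTop (𝓝 (1 / √(Real.pi * c))) := by
  have hfr : Tendsto (fun n : ℕ => (f n : ℝ)) atTop atTop := by
    have hn : Tendsto (fun n : ℕ => (n : ℝ) ^ k) atTop atTop :=
      (tendsto_pow_atTop (by omega)).comp tendsto_natCast_atTop_atTop
    have := hf.pos_mul_atTop hc hn
    refine this.congr' ?_
    filter_upwards [eventually_gt_atTop 0] with n hn
    have : (n : ℝ) ^ k ≠ 0 := by positivity
    field_simp
  have hf2 : Tendsto f atTop atTop := tendsto_natCast_atTop_iff.1 hfr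
  have h1 := tendsto_pc.comp hf2
  have h2 : Tendsto (fun n : ℕ => 1 / √((f n : ℝ) / (n : ℝ) ^ k)) atTop (𝓝 (1 / √c)) := by
    have := (Real.continuous_sqrt.tendsto c).comp hf
    exact tendsto_const_nhds.div this (by positivity)
  have h3 := h1.mul h2
  have h4 : 1 / √Real.pi * (1 / √c) = 1 / √(Real.pi * c) := by
    rw [Real.sqrt_mul (by positivity)]
    field_simp
  rw [h4] at h3
  refine h3.congr' ?_
  filter_upwards [eventually_gt_atTop 0, hfr.eventually_gt_atTop 0] with n hn hfn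
  simp only [Function.comp]
  rw [Real.sqrt_div (by positivity)]
  have : √(f n : ℝ) ≠ 0 := by positivity
  have hh : √((n : ℝ) ^ k) ≠ 0 := by positivity
  field_simp

lemma tendsto_choose_shift (k s : ℕ) :
    Tendsto (fun n : ℕ => (((n - s).choose k : ℕ) : ℝ) / (n : ℝ) ^ k) atTop
      (𝓝 (1 / (k.factorial : ℝ))) := by
  have h1 := isEquivalent_choose k
  have h2 : Tendsto (fun n : ℕ => ((n.choose k : ℕ) : ℝ) / (n : ℝ) ^ k) atTop
      (𝓝 (1 / (k.factorial : ℝ))) := by
    have h3 := (Asymptotics.isEquivalent_iff_tendsto_one (by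
      filter_upwards [eventually_gt_atTop 0] with n hn
      positivity)).1 h1
    have h4 := h3.mul_const (1 / (k.factorial : ℝ))
    rw [one_mul] at h4
    refine h4.congr' ?_
    filter_upwards [eventually_gt_atTop 0] with n hn
    simp only [Pi.div_apply]
    have : (n : ℝ) ^ k ≠ 0 := by positivity
    field_simp
  have h5 : Tendsto (fun n : ℕ => n - s) atTop atTop := tendsto_sub_atTop_nat s
  have h6 := h2.comp h5
  have h7 : Tendsto (fun n : ℕ => (((n - s : ℕ) : ℝ) / (n : ℝ)) ^ k) atTop (𝓝 1) := by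
    have : Tendsto (fun n : ℕ => ((n - s : ℕ) : ℝ) / (n : ℝ)) atTop (𝓝 1) := by
      have h8 : Tendsto (fun n : ℕ => 1 - (s : ℝ) / (n : ℝ)) atTop (𝓝 (1 - 0)) :=
        tendsto_const_nhds.sub (tendsto_const_div_atTop_nhds_zero_nat (s : ℝ))
      rw [sub_zero] at h8
      refine h8.congr' ?_
      filter_upwards [eventually_gt_atTop 0, eventually_ge_atTop s] with n hn hns
      rw [Nat.cast_sub hns]
      have : (n : ℝ) ≠ 0 := by positivity
      field_simp
    simpa using this.pow k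
  have h8 := h6.mul h7
  rw [mul_one] at h8
  refine h8.congr' ?_
  filter_upwards [eventually_gt_atTop 0, eventually_gt_atTop s] with n hn hns
  simp only [Function.comp]
  have : (n : ℝ) ^ k ≠ 0 := by positivity
  have hne : ((n - s : ℕ) : ℝ) ≠ 0 := by
    have : 0 < n - s := by omega
    positivity
  rw [div_pow]
  field_simp

lemma tendsto_pc_choose (k s : ℕ) (hk : 1 ≤ k) :
    Tendsto (fun n : ℕ => √((n : ℝ) ^ k) * pc ((n - s).choose k)) atTop
      (𝓝 (√((k.factorial : ℝ) / Real.pi))) := by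
  have h := tendsto_pc_comp hk (by positivity) (tendsto_choose_shift k s)
  have : 1 / √(Real.pi * (1 / (k.factorial : ℝ))) = √((k.factorial : ℝ) / Real.pi) := by
    rw [one_div, ← Real.sqrt_inv]
    congr 1
    field_simp
  rwa [this] at h

lemma qq_eq (N : ℕ) : qq N = pc ((N + 1) / 2) := by
  rcases Nat.even_or_odd' N with ⟨m, rfl | rfl⟩
  · rw [qq_two_mul]
    congr 1
    omega
  · have h1 : (2 * m + 1 + 1) / 2 = m + 1 := by omega
    have h2 : (2 * m + 1) / 2 = m := by omega
    rw [h1]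
    unfold qq pc
    rw [h2]
    have h3 : Nat.centralBinom (m + 1) = 2 * (2 * m + 1).choose m := by
      rw [Nat.centralBinom, show 2 * (m + 1) = (2 * m + 1) + 1 by ring, Nat.choose_succ_succ,
        show (2 * m + 1).choose (m + 1) = (2 * m + 1).choose m from
          Nat.choose_symm_of_eq_add (by omega)]
      ring
    rw [h3]
    push_cast
    rw [show (4 : ℝ) ^ (m + 1) = 2 * 2 ^ (2 * m + 1) by
      rw [show (4 : ℝ) = 2 ^ 2 by norm_num, ← pow_mul]; ring]
    field_simp

lemma tendsto_qq_choose (k s : ℕ) (hk : 1 ≤ k) :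
    Tendsto (fun n : ℕ => √((n : ℝ) ^ k) * qq ((n - s).choose k)) atTop
      (𝓝 (1 / √(Real.pi * (1 / (k.factorial : ℝ) / 2)))) := by
  have h1 : Tendsto (fun n : ℕ => ((((n - s).choose k + 1) / 2 : ℕ) : ℝ) / (n : ℝ) ^ k) atTop
      (𝓝 (1 / (k.factorial : ℝ) / 2)) := by
    have ha := (tendsto_choose_shift k s).div_const 2
    have hb : Tendsto (fun n : ℕ => (((n - s).choose k : ℕ) : ℝ) / (n : ℝ) ^ k / 2 + 1 / (n : ℝ) ^ k)
        atTop (𝓝 (1 / (k.factorial : ℝ) / 2 + 0)) := by
      apply ha.add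
      have hn : Tendsto (fun n : ℕ => (n : ℝ) ^ k) atTop atTop :=
        (tendsto_pow_atTop (by omega)).comp tendsto_natCast_atTop_atTop
      have h9 := hn.inv_tendsto_atTop
      refine h9.congr ?_
      intro n
      simp
    rw [add_zero] at hb
    refine tendsto_of_tendsto_of_tendsto_of_le_of_le' ha hb ?_ ?_
    · filter_upwards [eventually_gt_atTop 0] with n hn
      rw [div_div, mul_comm, ← div_div]
      gcongr
      have : (n - s).choose k ≤ 2 * (((n - s).choose k + 1) / 2) := by omega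
      have : (((n - s).choose k : ℕ) : ℝ) ≤ 2 * ((((n - s).choose k + 1) / 2 : ℕ) : ℝ) := by
        exact_mod_cast this
      linarith
    · filter_upwards [eventually_gt_atTop 0] with n hn
      have hpos : (0 : ℝ) < (n : ℝ) ^ k := by positivity
      have : 2 * (((n - s).choose k + 1) / 2) ≤ (n - s).choose k + 2 := by omega
      have h2 : 2 * ((((n - s).choose k + 1) / 2 : ℕ) : ℝ) ≤ (((n - s).choose k : ℕ) : ℝ) + 2 := by
        exact_mod_cast this
      rw [div_div, mul_comm ((n : ℝ) ^ k) 2, ← div_div, ← add_div]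
      gcongr
      linarith
  have h := tendsto_pc_comp hk (by positivity) h1
  refine h.congr ?_
  intro n
  rw [qq_eq]

end Pool.Agent.H240R3
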