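import Pool.Agent.H240R3.HypD

set_option autoImplicit false

namespace Pool.Agent.H240R3

open Finset Filter Topology

/-- functions with few values -/
lemma card_few (m j n : ℕ) (hm : 0 < m) :
    ((Finset.univ : Finset (Fin m → Fin n)).filter
      (fun f => (Finset.univ.image f).card ≤ j)).card ≤ j ^ m * n ^ j := by
  classical
  have hsub : (Finset.univ : Finset (Fin m → Fin n)).filter
      (fun f => (Finset.univ.image f).card ≤ j) ⊆
      (Finset.univ : Finset ((Fin m → Fin j) × (Fin j → Fin n))).image (fun p => p.2 ∘ p.1) := by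
    intro f hf
    have hf' := (Finset.mem_filter.1 hf).2
    have hne : Nonempty ({x // x ∈ Finset.univ.image f} ↪ Fin j) := by
      have e0 := (Finset.univ.image f).equivFin
      exact ⟨e0.toEmbedding.trans (Fin.castLEEmb hf')⟩
    obtain ⟨e⟩ := hne
    have : Nonempty {x // x ∈ Finset.univ.image f} :=
      ⟨⟨f ⟨0, hm⟩, Finset.mem_image_of_mem f (Finset.mem_univ _)⟩⟩
    rw [Finset.mem_image]
    refine ⟨(fun i => e ⟨f i, Finset.mem_image_of_mem f (Finset.mem_univ _)⟩,
      fun i => (Function.invFun e i).1), Finset.mem_univ _, ?_⟩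
    funext i
    simp only [Function.comp]
    rw [Function.leftInverse_invFun e.injective]
  refine (Finset.card_le_card hsub).trans (Finset.card_image_le.trans ?_)
  rw [Finset.card_univ, Fintype.card_prod, Fintype.card_fun, Fintype.card_fun]
  simp

/-- ordered representation of unordered pairs -/
def Pr (n : ℕ) : Finset (Fin n × Fin n) := Finset.univ.filter (fun p => p.1 < p.2)

lemma card_Pr (n : ℕ) : (Pr n).card = n.choose 2 := by
  have h : (Pr n).card = ((Finset.univ : Finset (Fin n)).powersetCard 2).card := by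
    refine Finset.card_bij (fun p _ => {p.1, p.2}) ?_ ?_ ?_
    · intro p hp
      have := (Finset.mem_filter.1 hp).2
      rw [Finset.mem_powersetCard]
      exact ⟨Finset.subset_univ _, Finset.card_pair (ne_of_lt this)⟩
    · intro p hp q hq hpq
      have h1 := (Finset.mem_filter.1 hp).2
      have h2 := (Finset.mem_filter.1 hq).2
      have e1 : p.1 ∈ ({q.1, q.2} : Finset (Fin n)) := by rw [← hpq]; simp
      have e2 : p.2 ∈ ({q.1, q.2} : Finset (Fin n)) := by rw [← hpq]; simp
      have e3 : q.1 ∈ ({p.1, p.2} : Finset (Fin n)) := by rw [hpq]; simp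
      simp only [Finset.mem_insert, Finset.mem_singleton] at e1 e2 e3
      ext1
      · rcases e1 with h | h
        · exact h
        · rcases e3 with h' | h'
          · exact h'.symm
          · exfalso
            have h4 : p.2 < p.1 := by rw [← h', h]; exact h2
            exact absurd h1 (not_lt.2 (le_of_lt h4))
      · rcases e2 with h | h
        · exfalso
          rcases e1 with h' | h'
          · rw [h', h] at h1; exact lt_irrefl _ h1
          · rw [h', h] at h1; exact absurd h1 (not_lt.2 (le_of_lt h2))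
        · exact h
    · intro s hs
      obtain ⟨a, b, hab, rfl⟩ := Finset.card_eq_two.1 (Finset.mem_powersetCard.1 hs).2
      rcases lt_or_gt_of_ne hab with h | h
      · exact ⟨(a, b), Finset.mem_filter.2 ⟨Finset.mem_univ _, h⟩, rfl⟩
      · exact ⟨(b, a), Finset.mem_filter.2 ⟨Finset.mem_univ _, h⟩, Finset.pair_comm _ _⟩
  rw [h, Finset.card_powersetCard, Finset.card_univ, Fintype.card_fin]

lemma Pr_lt {n : ℕ} {p : Fin n × Fin n} (hp : p ∈ Pr n) : p.1 < p.2 := (Finset.mem_filter.1 hp).2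

/-- sharing a vertex -/
def share {n : ℕ} (p q : Fin n × Fin n) : Prop :=
  p.1 = q.1 ∨ p.1 = q.2 ∨ p.2 = q.1 ∨ p.2 = q.2

instance {n : ℕ} (p q : Fin n × Fin n) : Decidable (share p q) := by
  unfold share; infer_instance

/-- tuples of four and six -/
def tup4 {n : ℕ} (p q : Fin n × Fin n) : Fin 4 → Fin n := ![p.1, p.2, q.1, q.2]
def tup6 {n : ℕ} (p q r : Fin n × Fin n) : Fin 6 → Fin n := ![p.1, p.2, q.1, q.2, r.1, r.2]

lemma few_of_eq {m n : ℕ} (f : Fin (m + 1) → Fin n) (i j : Fin (m + 1)) (hij : i ≠ j)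
    (h : f i = f j) : (Finset.univ.image f).card ≤ m := by
  have h1 : Finset.univ.image f = (Finset.univ.erase j).image f := by
    ext x
    simp only [Finset.mem_image, Finset.mem_univ, true_and, Finset.mem_erase]
    constructor
    · rintro ⟨a, rfl⟩
      by_cases ha : a = j
      · exact ⟨i, ⟨hij, trivial⟩, by rw [ha, h]⟩
      · exact ⟨a, ⟨ha, trivial⟩, rfl⟩
    · rintro ⟨a, _, rfl⟩
      exact ⟨a, rfl⟩
  rw [h1]
  refine Finset.card_image_le.trans ?_
  rw [Finset.card_erase_of_mem (Finset.mem_univ _), Finset.card_univ, Fintype.card_fin]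
  omega

lemma few4 {n : ℕ} (p q : Fin n × Fin n) (h : share p q) :
    (Finset.univ.image (tup4 p q)).card ≤ 3 := by
  rcases h with h | h | h | h
  · exact few_of_eq (tup4 p q) 0 2 (by decide) h
  · exact few_of_eq (tup4 p q) 0 3 (by decide) h
  · exact few_of_eq (tup4 p q) 1 2 (by decide) h
  · exact few_of_eq (tup4 p q) 1 3 (by decide) h

lemma few6 {n : ℕ} (p q r : Fin n × Fin n) (h : share p q ∨ share p r ∨ share q r) :
    (Finset.univ.image (tup6 p q r)).card ≤ 5 := by
  rcases h with (h | h | h | h) | (h | h | h | h) | (h | h | h | h)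
  · exact few_of_eq (tup6 p q r) 0 2 (by decide) h
  · exact few_of_eq (tup6 p q r) 0 3 (by decide) h
  · exact few_of_eq (tup6 p q r) 1 2 (by decide) h
  · exact few_of_eq (tup6 p q r) 1 3 (by decide) h
  · exact few_of_eq (tup6 p q r) 0 4 (by decide) h
  · exact few_of_eq (tup6 p q r) 0 5 (by decide) h
  · exact few_of_eq (tup6 p q r) 1 4 (by decide) h
  · exact few_of_eq (tup6 p q r) 1 5 (by decide) h
  · exact few_of_eq (tup6 p q r) 2 4 (by decide) h
  · exact few_of_eq (tup6 p q r) 2 5 (by decide) h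
  · exact few_of_eq (tup6 p q r) 3 4 (by decide) h
  · exact few_of_eq (tup6 p q r) 3 5 (by decide) h

lemma sum_few4 (n : ℕ) (s : Finset ((Fin n × Fin n) × (Fin n × Fin n))) :
    ∑ t ∈ s, (if (Finset.univ.image (tup4 t.1 t.2)).card ≤ 3 then (1 : ℝ) else 0)
      ≤ 81 * (n : ℝ) ^ 3 := by
  rw [← Finset.sum_filter, Finset.sum_const, nsmul_eq_mul, mul_one]
  have h1 : (s.filter (fun t => (Finset.univ.image (tup4 t.1 t.2)).card ≤ 3)).card
      ≤ ((Finset.univ : Finset (Fin 4 → Fin n)).filter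
      (fun f => (Finset.univ.image f).card ≤ 3)).card := by
    apply Finset.card_le_card_of_injOn (fun t => tup4 t.1 t.2)
    · intro t ht
      have := (Finset.mem_filter.1 ht).2
      simp only [Finset.coe_filter, Finset.mem_univ, true_and]
      exact this
    · rintro ⟨⟨a, b⟩, ⟨c, d⟩⟩ _ ⟨⟨a', b'⟩, ⟨c', d'⟩⟩ _ h
      have h0 := congrFun h 0
      have h1 := congrFun h 1
      have h2 := congrFun h 2
      have h3 := congrFun h 3
      simp only [tup4] at h0 h1 h2 h3
      have e0 : a = a' := h0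
      have e1 : b = b' := h1
      have e2 : c = c' := h2
      have e3 : d = d' := h3
      rw [e0, e1, e2, e3]
  have h2 := h1.trans (card_few 4 3 n (by norm_num))
  calc _ ≤ ((3 ^ 4 * n ^ 3 : ℕ) : ℝ) := by exact_mod_cast h2
    _ = _ := by push_cast; norm_num

lemma sum_few6 (n j : ℕ) (s : Finset ((Fin n × Fin n) × (Fin n × Fin n) × (Fin n × Fin n))) :
    ∑ t ∈ s, (if (Finset.univ.image (tup6 t.1 t.2.1 t.2.2)).card ≤ j then (1 : ℝ) else 0)
      ≤ (j : ℝ) ^ 6 * (n : ℝ) ^ j := by
  rw [← Finset.sum_filter, Finset.sum_const, nsmul_eq_mul, mul_one]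
  have h1 : (s.filter (fun t => (Finset.univ.image (tup6 t.1 t.2.1 t.2.2)).card ≤ j)).card
      ≤ ((Finset.univ : Finset (Fin 6 → Fin n)).filter
      (fun f => (Finset.univ.image f).card ≤ j)).card := by
    apply Finset.card_le_card_of_injOn (fun t => tup6 t.1 t.2.1 t.2.2)
    · intro t ht
      have := (Finset.mem_filter.1 ht).2
      simp only [Finset.coe_filter, Finset.mem_univ, true_and]
      exact this
    · rintro ⟨⟨a, b⟩, ⟨c, d⟩, ⟨e, f⟩⟩ _ ⟨⟨a', b'⟩, ⟨c', d'⟩, ⟨e', f'⟩⟩ _ h
      have h0 : a = a' := congrFun h 0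
      have h1 : b = b' := congrFun h 1
      have h2 : c = c' := congrFun h 2
      have h3 : d = d' := congrFun h 3
      have h4 : e = e' := congrFun h 4
      have h5 : f = f' := congrFun h 5
      rw [h0, h1, h2, h3, h4, h5]
  have h2 := h1.trans (card_few 6 j n (by norm_num))
  calc _ ≤ ((j ^ 6 * n ^ j : ℕ) : ℝ) := by exact_mod_cast h2
    _ = _ := by push_cast; norm_num

lemma pc_succ_le (M : ℕ) : pc (M + 1) ≤ pc M := by
  unfold pc
  rw [div_le_div_iff₀ (by positivity) (by positivity), pow_succ]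
  have h := Nat.succ_mul_centralBinom_succ M
  have h2 : ((M : ℝ) + 1) * (Nat.centralBinom (M + 1) : ℝ) = 2 * (2 * M + 1) * Nat.centralBinom M := by
    exact_mod_cast h
  have h3 : (Nat.centralBinom (M + 1) : ℝ) ≤ 4 * Nat.centralBinom M := by
    have hpos : (0 : ℝ) < (M : ℝ) + 1 := by positivity
    have hc : (0 : ℝ) ≤ Nat.centralBinom M := by positivity
    by_contra hcon
    push Not at hcon
    nlinarith
  have h4 : (0 : ℝ) < 4 ^ M := by positivity
  nlinarith

lemma pc_antitone : Antitone pc := antitone_nat_of_succ_le pc_succ_le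

lemma qq_antitone {a b : ℕ} (h : a ≤ b) : qq b ≤ qq a := by
  rw [qq_eq, qq_eq]
  apply pc_antitone
  omega

section
variable {n r : ℕ}

/-- indicator for a pair -/
noncomputable def ip (p : Fin n × Fin n) (H : Finset (Finset (Fin n))) : ℝ := ind p.1 p.2 H

lemma ip_nonneg (p : Fin n × Fin n) (H : Finset (Finset (Fin n))) : 0 ≤ ip p H := ind_nonneg _ _ _

lemma ip_sq (p : Fin n × Fin n) (H : Finset (Finset (Fin n))) : ip p H * ip p H = ip p H := by
  unfold ip ind; split_ifs <;> norm_num

lemma share_norm (p q : Fin n × Fin n) (hp : p ∈ Pr n) (hq : q ∈ Pr n) (hpq : p ≠ q)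
    (h : share p q) : ∃ s v w : Fin n, s ≠ v ∧ s ≠ w ∧ v ≠ w ∧
      (∀ H, ip p H = ind s v H) ∧ (∀ H, ip q H = ind s w H) ∧
      (∀ y z : Fin n, y ∈ ({s, v, w} : Finset (Fin n)) → z ∈ ({s, v, w} : Finset (Fin n)) →
        p.1 ∈ ({s, v, w} : Finset (Fin n)) ∧ p.2 ∈ ({s, v, w} : Finset (Fin n)) ∧
        q.1 ∈ ({s, v, w} : Finset (Fin n)) ∧ q.2 ∈ ({s, v, w} : Finset (Fin n))) := by
  obtain ⟨a, b⟩ := p
  obtain ⟨c, d⟩ := q
  have h1 : a < b := Pr_lt hp
  have h2 : c < d := Pr_lt hq
  rcases h with h | h | h | h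
  · simp only at h
    subst h
    refine ⟨a, b, d, ne_of_lt h1, ne_of_lt h2, ?_, fun H => rfl, fun H => rfl, ?_⟩
    · rintro rfl; exact hpq rfl
    · intro y z _ _; simp
  · simp only at h
    subst h
    refine ⟨a, b, c, ne_of_lt h1, (ne_of_lt h2).symm, ?_, fun H => rfl, fun H => ind_comm _ _ _, ?_⟩
    · rintro rfl; exact absurd h1 (not_lt.2 (le_of_lt h2))
    · intro y z _ _; simp
  · simp only at h
    subst h
    refine ⟨b, a, d, (ne_of_lt h1).symm, ne_of_lt h2, ?_, fun H => ind_comm _ _ _, fun H => rfl, ?_⟩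
    · rintro rfl; exact absurd h1 (not_lt.2 (le_of_lt h2))
    · intro y z _ _; simp
  · simp only at h
    subst h
    refine ⟨b, a, c, (ne_of_lt h1).symm, (ne_of_lt h2).symm, ?_, fun H => ind_comm _ _ _,
      fun H => ind_comm _ _ _, ?_⟩
    · rintro rfl; exact hpq rfl
    · intro y z _ _; simp

lemma pair2_upper (hr : 1 ≤ r) (p q : Fin n × Fin n) (hp : p ∈ Pr n) (hq : q ∈ Pr n) (hpq : p ≠ q) :
    EE (EK n r) (fun H => ip p H * ip q H) ≤ pc ((n - 4).choose (r - 1)) ^ 2 +
      (if (Finset.univ.image (tup4 p q)).card ≤ 3 then (1 : ℝ) else 0) *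
        qq ((n - 3).choose (r - 1)) ^ 2 := by
  by_cases h : share p q
  · rw [if_pos (few4 p q h), one_mul]
    obtain ⟨s, v, w, hsv, hsw, hvw, e1, e2, -⟩ := share_norm p q hp hq hpq h
    have h1 := tri_upper (n := n) (r := r) hr s v w hsv hsw hvw
    have h2 : EE (EK n r) (fun H => ip p H * ip q H) = EE (EK n r) (fun H => ind s v H * ind s w H) :=
      EE_congr (fun H _ => by rw [e1, e2])
    rw [h2]
    have := sq_nonneg (pc ((n - 4).choose (r - 1)))
    linarith
  · unfold share at h
    push Not at h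
    have h1 := disj2_upper (n := n) (r := r) hr p.1 p.2 q.1 q.2 (ne_of_lt (Pr_lt hp)) h.1 h.2.1
      h.2.2.1 h.2.2.2 (ne_of_lt (Pr_lt hq))
    rw [qq_two_mul] at h1
    have h2 : 0 ≤ (if (Finset.univ.image (tup4 p q)).card ≤ 3 then (1 : ℝ) else 0) *
        qq ((n - 3).choose (r - 1)) ^ 2 := by
      apply mul_nonneg
      · split_ifs <;> norm_num
      · exact sq_nonneg _
    have h3 : EE (EK n r) (fun H => ip p H * ip q H)
        = EE (EK n r) (fun H => ind p.1 p.2 H * ind q.1 q.2 H) := rfl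
    rw [h3]
    linarith

/-- the key bound for a sharing pair plus a third pair -/
lemma three_share (hr : 1 ≤ r) (s v w y z : Fin n) (hsv : s ≠ v) (hsw : s ≠ w) (hvw : v ≠ w)
    (hyz : y ≠ z) :
    EE (EK n r) (fun H => ind s v H * ind s w H * ind y z H) ≤ qq ((n - 5).choose (r - 1)) ^ 3 +
      (if y ∈ ({s, v, w} : Finset (Fin n)) ∧ z ∈ ({s, v, w} : Finset (Fin n)) then (1 : ℝ) else 0) *
        qq ((n - 3).choose (r - 1)) ^ 2 := by
  have hm : ∀ m ≤ 5, qq ((n - m).choose (r - 1)) ^ 3 ≤ qq ((n - 5).choose (r - 1)) ^ 3 := by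
    intro m hm
    apply pow_le_pow_left₀ (qq_nonneg _)
    apply qq_antitone
    apply Nat.choose_le_choose
    omega
  by_cases hz : z ∈ ({s, v, w} : Finset (Fin n))
  · by_cases hy : y ∈ ({s, v, w} : Finset (Fin n))
    · rw [if_pos ⟨hy, hz⟩, one_mul]
      have h1 := tri_upper (n := n) (r := r) hr s v w hsv hsw hvw
      have h2 : EE (EK n r) (fun H => ind s v H * ind s w H * ind y z H) ≤
          EE (EK n r) (fun H => ind s v H * ind s w H) := by
        apply EE_mono
        intro H _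
        have := mul_nonneg (ind_nonneg s v H) (ind_nonneg s w H)
        calc _ ≤ ind s v H * ind s w H * 1 := mul_le_mul_of_nonneg_left (ind_le_one _ _ _) this
          _ = _ := mul_one _
      have := pow_nonneg (qq_nonneg ((n - 5).choose (r - 1))) 3
      linarith
    · rw [if_neg (fun h => hy h.1), zero_mul, add_zero]
      simp only [Finset.mem_insert, Finset.mem_singleton, not_or] at hy
      obtain ⟨m, hm5, h1⟩ := peel3_upper (n := n) (r := r) hr s v w z y hsv hsw hvw hy.1 hy.2.1
        hy.2.2 hyz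
      refine le_trans (le_of_eq ?_) (h1.trans (hm m hm5))
      apply EE_congr
      intro H _
      rw [ind_comm y z]
      ring
  · rw [if_neg (fun h => hz h.2), zero_mul, add_zero]
    simp only [Finset.mem_insert, Finset.mem_singleton, not_or] at hz
    obtain ⟨m, hm5, h1⟩ := peel3_upper (n := n) (r := r) hr s v w y z hsv hsw hvw hz.1 hz.2.1
      hz.2.2 hyz.symm
    refine le_trans (le_of_eq ?_) (h1.trans (hm m hm5))
    apply EE_congr
    intro H _
    ring

lemma pair3_share (hr : 1 ≤ r) (p q t : Fin n × Fin n) (hp : p ∈ Pr n) (hq : q ∈ Pr n)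
    (ht : t ∈ Pr n) (hpq : p ≠ q) (h : share p q) :
    EE (EK n r) (fun H => ip p H * ip q H * ip t H) ≤ qq ((n - 5).choose (r - 1)) ^ 3 +
      (if ({p.1, p.2, q.1, q.2, t.1, t.2} : Finset (Fin n)).card ≤ 3 then (1 : ℝ) else 0) *
        qq ((n - 3).choose (r - 1)) ^ 2 := by
  obtain ⟨s, v, w, hsv, hsw, hvw, e1, e2, e3⟩ := share_norm p q hp hq hpq h
  have h1 := three_share (n := n) (r := r) hr s v w t.1 t.2 hsv hsw hvw (ne_of_lt (Pr_lt ht))
  have h2 : EE (EK n r) (fun H => ip p H * ip q H * ip t H)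
      = EE (EK n r) (fun H => ind s v H * ind s w H * ind t.1 t.2 H) :=
    EE_congr (fun H _ => by rw [e1, e2]; rfl)
  rw [h2]
  refine h1.trans ?_
  gcongr
  split_ifs with ha hb hb
  · exact le_refl _
  · exfalso
    apply hb
    have e4 := e3 t.1 t.2 ha.1 ha.2
    have hsub : ({p.1, p.2, q.1, q.2, t.1, t.2} : Finset (Fin n)) ⊆ {s, v, w} := by
      intro x hx
      simp only [Finset.mem_insert, Finset.mem_singleton] at hx
      rcases hx with rfl | rfl | rfl | rfl | rfl | rfl
      · exact e4.1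
      · exact e4.2.1
      · exact e4.2.2.1
      · exact e4.2.2.2
      · exact ha.1
      · exact ha.2
    exact (Finset.card_le_card hsub).trans Finset.card_le_three
  · norm_num
  · exact le_refl _

lemma tup6_image (p q t : Fin n × Fin n) :
    Finset.univ.image (tup6 p q t) = {p.1, p.2, q.1, q.2, t.1, t.2} := by
  ext x
  simp only [Finset.mem_image, Finset.mem_univ, true_and, Finset.mem_insert, Finset.mem_singleton]
  constructor
  · rintro ⟨i, rfl⟩
    fin_cases i <;> simp [tup6]
  · rintro (rfl | rfl | rfl | rfl | rfl | rfl)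
    · exact ⟨0, rfl⟩
    · exact ⟨1, rfl⟩
    · exact ⟨2, rfl⟩
    · exact ⟨3, rfl⟩
    · exact ⟨4, rfl⟩
    · exact ⟨5, rfl⟩

lemma pair3_upper (hr : 1 ≤ r) (p q t : Fin n × Fin n) (hp : p ∈ Pr n) (hq : q ∈ Pr n)
    (ht : t ∈ Pr n) (hpq : p ≠ q) (hpt : p ≠ t) (hqt : q ≠ t) :
    EE (EK n r) (fun H => ip p H * ip q H * ip t H) ≤ pc ((n - 6).choose (r - 1)) ^ 3 +
      (if (Finset.univ.image (tup6 p q t)).card ≤ 5 then (1 : ℝ) else 0) *
        qq ((n - 5).choose (r - 1)) ^ 3 +
      (if (Finset.univ.image (tup6 p q t)).card ≤ 3 then (1 : ℝ) else 0) *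
        qq ((n - 3).choose (r - 1)) ^ 2 := by
  have hA := pow_nonneg (pc_nonneg ((n - 6).choose (r - 1))) 3
  by_cases h : share p q ∨ share p t ∨ share q t
  · rw [if_pos (few6 p q t h), one_mul, tup6_image]
    rcases h with h | h | h
    · have := pair3_share hr p q t hp hq ht hpq h
      linarith
    · have h1 := pair3_share (r := r) hr p t q hp ht hq hpt h
      have h2 : ({p.1, p.2, t.1, t.2, q.1, q.2} : Finset (Fin n)) =
          {p.1, p.2, q.1, q.2, t.1, t.2} := by
        ext x; simp only [Finset.mem_insert, Finset.mem_singleton]; tauto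
      rw [h2] at h1
      have h3 : EE (EK n r) (fun H => ip p H * ip q H * ip t H)
          = EE (EK n r) (fun H => ip p H * ip t H * ip q H) := EE_congr (fun H _ => by ring)
      rw [h3]
      linarith
    · have h1 := pair3_share (r := r) hr q t p hq ht hp hqt h
      have h2 : ({q.1, q.2, t.1, t.2, p.1, p.2} : Finset (Fin n)) =
          {p.1, p.2, q.1, q.2, t.1, t.2} := by
        ext x; simp only [Finset.mem_insert, Finset.mem_singleton]; tauto
      rw [h2] at h1
      have h3 : EE (EK n r) (fun H => ip p H * ip q H * ip t H)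
          = EE (EK n r) (fun H => ip q H * ip t H * ip p H) := EE_congr (fun H _ => by ring)
      rw [h3]
      linarith
  · have h' := h
    unfold share at h'
    push Not at h'
    obtain ⟨⟨a1, a2, a3, a4⟩, ⟨b1, b2, b3, b4⟩, ⟨c1, c2, c3, c4⟩⟩ := h'
    have h1 := disj3_upper (n := n) (r := r) hr p.1 p.2 q.1 q.2 t.1 t.2 (ne_of_lt (Pr_lt hp))
      a1 a2 b1 b2 a3 a4 b3 b4 (ne_of_lt (Pr_lt hq)) c1 c2 c3 c4 (ne_of_lt (Pr_lt ht))
    rw [qq_two_mul] at h1
    have h3 : EE (EK n r) (fun H => ip p H * ip q H * ip t H)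
        = EE (EK n r) (fun H => ind p.1 p.2 H * (ind q.1 q.2 H * ind t.1 t.2 H)) :=
      EE_congr (fun H _ => by unfold ip; ring)
    rw [h3]
    have n1 : 0 ≤ (if (Finset.univ.image (tup6 p q t)).card ≤ 5 then (1 : ℝ) else 0) *
        qq ((n - 5).choose (r - 1)) ^ 3 := by
      apply mul_nonneg
      · split_ifs <;> norm_num
      · exact pow_nonneg (qq_nonneg _) _
    have n2 : 0 ≤ (if (Finset.univ.image (tup6 p q t)).card ≤ 3 then (1 : ℝ) else 0) *
        qq ((n - 3).choose (r - 1)) ^ 2 := by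
      apply mul_nonneg
      · split_ifs <;> norm_num
      · exact pow_nonneg (qq_nonneg _) _
    linarith

end

end Pool.Agent.H240R3
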