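import Pool.Agent.H240R3.HypE

set_option autoImplicit false

namespace Pool.Agent.H240R3

open Finset Filter Topology

section
variable {n r : ℕ}

/-- number of equal pairs -/
noncomputable def XX (H : Finset (Finset (Fin n))) : ℝ := ∑ p ∈ Pr n, ip p H

noncomputable def SS2 (H : Finset (Finset (Fin n))) : ℝ :=
  ∑ p ∈ Pr n, ∑ q ∈ (Pr n).erase p, ip p H * ip q H

noncomputable def SS3 (H : Finset (Finset (Fin n))) : ℝ :=
  ∑ p ∈ Pr n, ∑ q ∈ (Pr n).erase p, ∑ t ∈ ((Pr n).erase p).erase q, ip p H * ip q H * ip t H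

lemma SS2_eq (H : Finset (Finset (Fin n))) : SS2 H = XX H ^ 2 - XX H := by
  unfold SS2 XX
  have h : ∀ p ∈ Pr n, ∑ q ∈ (Pr n).erase p, ip p H * ip q H
      = ip p H * (∑ q ∈ Pr n, ip q H) - ip p H := by
    intro p hp
    rw [← Finset.mul_sum, Finset.sum_erase_eq_sub hp, mul_sub, ip_sq]
  rw [Finset.sum_congr rfl h, Finset.sum_sub_distrib, ← Finset.sum_mul]
  ring

lemma SS3_eq (H : Finset (Finset (Fin n))) : SS3 H = XX H * (XX H - 1) * (XX H - 2) := by
  unfold SS3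
  have h : ∀ p ∈ Pr n, ∑ q ∈ (Pr n).erase p, ∑ t ∈ ((Pr n).erase p).erase q,
        ip p H * ip q H * ip t H
      = (XX H - 2) * (ip p H * XX H - ip p H) := by
    intro p hp
    have h2 : ∀ q ∈ (Pr n).erase p, ∑ t ∈ ((Pr n).erase p).erase q, ip p H * ip q H * ip t H
        = (ip p H * ip q H) * (XX H - 2) := by
      intro q hq
      rw [← Finset.mul_sum, Finset.sum_erase_eq_sub hq, Finset.sum_erase_eq_sub hp]
      have e : (∑ x ∈ Pr n, ip x H) = XX H := rfl
      rw [e]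
      have e1 := ip_sq p H
      have e2 := ip_sq q H
      have e3 : ip p H * ip q H * ip p H = ip p H * ip q H := by
        calc _ = (ip p H * ip p H) * ip q H := by ring
          _ = _ := by rw [e1]
      have e4 : ip p H * ip q H * ip q H = ip p H * ip q H := by
        calc _ = ip p H * (ip q H * ip q H) := by ring
          _ = _ := by rw [e2]
      calc ip p H * ip q H * (XX H - ip p H - ip q H)
          = ip p H * ip q H * XX H - ip p H * ip q H * ip p H - ip p H * ip q H * ip q H := by ring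
        _ = _ := by rw [e3, e4]; ring
    rw [Finset.sum_congr rfl h2, ← Finset.sum_mul, ← Finset.mul_sum, Finset.sum_erase_eq_sub hp]
    have e : (∑ x ∈ Pr n, ip x H) = XX H := rfl
    rw [e]
    have e1 := ip_sq p H
    calc ip p H * (XX H - ip p H) * (XX H - 2)
        = (XX H - 2) * (ip p H * XX H - ip p H * ip p H) := by ring
      _ = _ := by rw [e1]
  rw [Finset.sum_congr rfl h, ← Finset.mul_sum, Finset.sum_sub_distrib, ← Finset.sum_mul]
  have e : (∑ x ∈ Pr n, ip x H) = XX H := rfl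
  rw [e]
  ring

lemma EE_XX (hr : 1 ≤ r) :
    EE (EK n r) (fun H => XX H) = (n.choose 2 : ℝ) * pc ((n - 2).choose (r - 1)) := by
  unfold XX
  rw [EE_sum]
  have h : ∀ p ∈ Pr n, EE (EK n r) (ip p) = pc ((n - 2).choose (r - 1)) := by
    intro p hp
    exact pair_prob hr p.1 p.2 (ne_of_lt (Pr_lt hp))
  rw [Finset.sum_congr rfl h, Finset.sum_const, card_Pr, nsmul_eq_mul]

lemma EE_SS2 : EE (EK n r) (fun H => SS2 H)
    = ∑ p ∈ Pr n, ∑ q ∈ (Pr n).erase p, EE (EK n r) (fun H => ip p H * ip q H) := by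
  unfold SS2
  rw [EE_sum]
  refine Finset.sum_congr rfl (fun p _ => ?_)
  rw [EE_sum]

lemma EE_SS3 : EE (EK n r) (fun H => SS3 H)
    = ∑ p ∈ Pr n, ∑ q ∈ (Pr n).erase p, ∑ t ∈ ((Pr n).erase p).erase q,
      EE (EK n r) (fun H => ip p H * ip q H * ip t H) := by
  unfold SS3
  rw [EE_sum]
  refine Finset.sum_congr rfl (fun p _ => ?_)
  rw [EE_sum]
  refine Finset.sum_congr rfl (fun q _ => ?_)
  rw [EE_sum]

lemma SS2_upper (hr : 1 ≤ r) : EE (EK n r) (fun H => SS2 H)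
    ≤ (n.choose 2 : ℝ) ^ 2 * pc ((n - 4).choose (r - 1)) ^ 2 +
      81 * (n : ℝ) ^ 3 * qq ((n - 3).choose (r - 1)) ^ 2 := by
  rw [EE_SS2]
  have h1 : ∀ p ∈ Pr n, ∑ q ∈ (Pr n).erase p, EE (EK n r) (fun H => ip p H * ip q H)
      ≤ ∑ q ∈ Pr n, (pc ((n - 4).choose (r - 1)) ^ 2 +
      (if (Finset.univ.image (tup4 p q)).card ≤ 3 then (1 : ℝ) else 0) *
        qq ((n - 3).choose (r - 1)) ^ 2) := by
    intro p hp
    have hnn : ∀ q, 0 ≤ (pc ((n - 4).choose (r - 1)) ^ 2 +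
      (if (Finset.univ.image (tup4 p q)).card ≤ 3 then (1 : ℝ) else 0) *
        qq ((n - 3).choose (r - 1)) ^ 2) := by
      intro q
      apply add_nonneg (sq_nonneg _)
      apply mul_nonneg _ (sq_nonneg _)
      split_ifs <;> norm_num
    refine le_trans (Finset.sum_le_sum (fun q hq => ?_))
      (Finset.sum_le_sum_of_subset_of_nonneg (Finset.erase_subset p (Pr n)) (fun q _ _ => hnn q))
    rw [Finset.mem_erase] at hq
    exact pair2_upper hr p q hp hq.2 (Ne.symm hq.1)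
  refine (Finset.sum_le_sum h1).trans ?_
  rw [← Finset.sum_product']
  rw [Finset.sum_add_distrib, ← Finset.sum_mul, Finset.sum_const, Finset.card_product, card_Pr]
  have h2 := sum_few4 n (Pr n ×ˢ Pr n)
  have h3 : 0 ≤ qq ((n - 3).choose (r - 1)) ^ 2 := sq_nonneg _
  rw [nsmul_eq_mul]
  push_cast
  rw [← sq]
  gcongr

lemma SS2_lower (hr : 1 ≤ r) (hM : 1 ≤ (n - 4).choose (r - 1)) (hn : 4 ≤ n) :
    (n.choose 2 : ℝ) ^ 2 * (pc ((n - 4).choose (r - 1)) ^ 2 *
        (1 - (((n - 2).choose (r - 1) : ℝ) - (n - 4).choose (r - 1)) / ((n - 4).choose (r - 1) : ℝ)))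
      - 81 * (n : ℝ) ^ 3 * pc ((n - 4).choose (r - 1)) ^ 2 ≤ EE (EK n r) (fun H => SS2 H) := by
  rw [EE_SS2]
  set P := pc ((n - 4).choose (r - 1)) ^ 2 with hP
  set L := P * (1 - (((n - 2).choose (r - 1) : ℝ) - (n - 4).choose (r - 1)) /
    ((n - 4).choose (r - 1) : ℝ)) with hL
  have hP0 : 0 ≤ P := sq_nonneg _
  have hLP : L ≤ P := by
    rw [hL]
    have h1 : (0 : ℝ) ≤ (((n - 2).choose (r - 1) : ℝ) - (n - 4).choose (r - 1)) /
        ((n - 4).choose (r - 1) : ℝ) := by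
      apply div_nonneg
      · rw [sub_nonneg]
        exact_mod_cast Nat.choose_le_choose (r - 1) (by omega : n - 4 ≤ n - 2)
      · positivity
    nlinarith
  have h1 : ∀ p ∈ Pr n, ∑ q ∈ Pr n,
      (L - P * (if (Finset.univ.image (tup4 p q)).card ≤ 3 then (1 : ℝ) else 0))
      ≤ ∑ q ∈ (Pr n).erase p, EE (EK n r) (fun H => ip p H * ip q H) := by
    intro p hp
    rw [← Finset.add_sum_erase (Pr n) _ hp]
    have hself : (Finset.univ.image (tup4 p p)).card ≤ 3 := few4 p p (Or.inl rfl)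
    rw [if_pos hself]
    have hrest : ∑ q ∈ (Pr n).erase p,
        (L - P * (if (Finset.univ.image (tup4 p q)).card ≤ 3 then (1 : ℝ) else 0))
        ≤ ∑ q ∈ (Pr n).erase p, EE (EK n r) (fun H => ip p H * ip q H) := by
      refine Finset.sum_le_sum (fun q hq => ?_)
      rw [Finset.mem_erase] at hq
      by_cases hf : (Finset.univ.image (tup4 p q)).card ≤ 3
      · rw [if_pos hf]
        have : 0 ≤ EE (EK n r) (fun H => ip p H * ip q H) :=
          EE_nonneg (fun H _ => mul_nonneg (ip_nonneg _ _) (ip_nonneg _ _))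
        linarith
      · rw [if_neg hf, mul_zero, sub_zero]
        have hs : ¬ share p q := fun h => hf (few4 p q h)
        unfold share at hs
        push Not at hs
        have := disj2_lower (n := n) (r := r) hr p.1 p.2 q.1 q.2 (ne_of_lt (Pr_lt hp)) hs.1 hs.2.1
          hs.2.2.1 hs.2.2.2 (ne_of_lt (Pr_lt hq.2)) hM
        exact this
    linarith
  refine le_trans ?_ (Finset.sum_le_sum h1)
  rw [← Finset.sum_product']
  rw [Finset.sum_sub_distrib, Finset.sum_const, Finset.card_product, card_Pr, ← Finset.mul_sum]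
  have h2 := sum_few4 n (Pr n ×ˢ Pr n)
  rw [nsmul_eq_mul]
  push_cast
  rw [← sq]
  have := mul_le_mul_of_nonneg_left h2 hP0
  linarith

lemma SS3_upper (hr : 1 ≤ r) : EE (EK n r) (fun H => SS3 H)
    ≤ (n.choose 2 : ℝ) ^ 3 * pc ((n - 6).choose (r - 1)) ^ 3 +
      5 ^ 6 * (n : ℝ) ^ 5 * qq ((n - 5).choose (r - 1)) ^ 3 +
      3 ^ 6 * (n : ℝ) ^ 3 * qq ((n - 3).choose (r - 1)) ^ 2 := by
  rw [EE_SS3]
  set A := pc ((n - 6).choose (r - 1)) ^ 3 with hA
  set B := qq ((n - 5).choose (r - 1)) ^ 3 with hB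
  set C := qq ((n - 3).choose (r - 1)) ^ 2 with hC
  have hA0 : 0 ≤ A := pow_nonneg (pc_nonneg _) _
  have hB0 : 0 ≤ B := pow_nonneg (qq_nonneg _) _
  have hC0 : 0 ≤ C := sq_nonneg _
  let F : (Fin n × Fin n) → (Fin n × Fin n) → (Fin n × Fin n) → ℝ := fun p q t =>
    A + (if (Finset.univ.image (tup6 p q t)).card ≤ 5 then (1 : ℝ) else 0) * B +
      (if (Finset.univ.image (tup6 p q t)).card ≤ 3 then (1 : ℝ) else 0) * C
  have hnn : ∀ p q t, 0 ≤ F p q t := by
    intro p q t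
    have i1 : (0 : ℝ) ≤ (if (Finset.univ.image (tup6 p q t)).card ≤ 5 then (1 : ℝ) else 0) := by
      split_ifs <;> norm_num
    have i2 : (0 : ℝ) ≤ (if (Finset.univ.image (tup6 p q t)).card ≤ 3 then (1 : ℝ) else 0) := by
      split_ifs <;> norm_num
    exact add_nonneg (add_nonneg hA0 (mul_nonneg i1 hB0)) (mul_nonneg i2 hC0)
  have h1 : ∀ p ∈ Pr n, ∑ q ∈ (Pr n).erase p, ∑ t ∈ ((Pr n).erase p).erase q,
      EE (EK n r) (fun H => ip p H * ip q H * ip t H) ≤ ∑ q ∈ Pr n, ∑ t ∈ Pr n, F p q t := by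
    intro p hp
    refine le_trans (Finset.sum_le_sum (fun q hq => ?_))
      (Finset.sum_le_sum_of_subset_of_nonneg (Finset.erase_subset p (Pr n))
        (fun q _ _ => Finset.sum_nonneg (fun t _ => hnn p q t)))
    refine le_trans (Finset.sum_le_sum (fun t ht => ?_))
      (Finset.sum_le_sum_of_subset_of_nonneg
        ((Finset.erase_subset q _).trans (Finset.erase_subset p (Pr n)))
        (fun t _ _ => hnn p q t))
    rw [Finset.mem_erase] at hq
    rw [Finset.mem_erase, Finset.mem_erase] at ht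
    exact pair3_upper hr p q t hp hq.2 ht.2.2 (Ne.symm hq.1) (Ne.symm ht.2.1) (Ne.symm ht.1)
  refine (Finset.sum_le_sum h1).trans ?_
  have h2 : ∑ p ∈ Pr n, ∑ q ∈ Pr n, ∑ t ∈ Pr n, F p q t
      = ∑ x ∈ Pr n ×ˢ (Pr n ×ˢ Pr n), F x.1 x.2.1 x.2.2 := by
    rw [Finset.sum_product]
    refine Finset.sum_congr rfl (fun p _ => ?_)
    rw [Finset.sum_product]
  rw [h2]
  simp only [F]
  rw [Finset.sum_add_distrib, Finset.sum_add_distrib, ← Finset.sum_mul, ← Finset.sum_mul,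
    Finset.sum_const, Finset.card_product, Finset.card_product, card_Pr, nsmul_eq_mul]
  have h5 := sum_few6 n 5 (Pr n ×ˢ (Pr n ×ˢ Pr n))
  have h3 := sum_few6 n 3 (Pr n ×ˢ (Pr n ×ˢ Pr n))
  have h5' := mul_le_mul_of_nonneg_right h5 hB0
  have h3' := mul_le_mul_of_nonneg_right h3 hC0
  push_cast at h5' h3' ⊢
  have e : (n.choose 2 : ℝ) * ((n.choose 2 : ℝ) * (n.choose 2 : ℝ)) * A = (n.choose 2 : ℝ) ^ 3 * A := by
    ring
  rw [e]
  linarith

/-- `XX` is a natural number -/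
lemma XX_nat (H : Finset (Finset (Fin n))) : ∃ m : ℕ, XX H = m ∧
    (m = 0 ↔ Function.Injective (fun v : Fin n => deg H v)) := by
  refine ⟨((Pr n).filter (fun p => deg H p.1 = deg H p.2)).card, ?_, ?_⟩
  · unfold XX ip ind
    rw [Finset.card_filter]
    push_cast
    rfl
  · rw [Finset.card_eq_zero, Finset.filter_eq_empty_iff]
    constructor
    · intro h u v huv
      by_contra hne
      rcases lt_or_gt_of_ne hne with hl | hl
      · exact h (x := (u, v)) (Finset.mem_filter.2 ⟨Finset.mem_univ _, hl⟩) huv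
      · exact h (x := (v, u)) (Finset.mem_filter.2 ⟨Finset.mem_univ _, hl⟩) huv.symm
    · intro h p hp heq
      exact absurd (h heq) (ne_of_lt (Pr_lt hp))

open Classical in
lemma bonferroni (H : Finset (Finset (Fin n))) :
    1 - XX H + SS2 H / 2 - SS3 H / 6 ≤
      (if Function.Injective (fun v : Fin n => deg H v) then (1 : ℝ) else 0) := by
  obtain ⟨m, hm, hi⟩ := XX_nat H
  rw [SS2_eq, SS3_eq, hm]
  by_cases h0 : m = 0
  · rw [if_pos (hi.1 h0), h0]
    norm_num
  · rw [if_neg (fun h => h0 (hi.2 h))]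
    have key : (0 : ℝ) ≤ ((m : ℝ) - 1) * ((m : ℝ) - 2) * ((m : ℝ) - 3) := by
      rcases Nat.lt_or_ge m 4 with h | h
      · have : m = 1 ∨ m = 2 ∨ m = 3 := by omega
        rcases this with rfl | rfl | rfl <;> norm_num
      · have : (4 : ℝ) ≤ m := by exact_mod_cast h
        apply mul_nonneg (mul_nonneg _ _) _ <;> linarith
    nlinarith

open Classical in
lemma irr_lower (hr : 1 ≤ r) (hM : 1 ≤ (n - 4).choose (r - 1)) (hn : 4 ≤ n) :
    1 - (n.choose 2 : ℝ) * pc ((n - 2).choose (r - 1)) +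
      ((n.choose 2 : ℝ) ^ 2 * (pc ((n - 4).choose (r - 1)) ^ 2 *
        (1 - (((n - 2).choose (r - 1) : ℝ) - (n - 4).choose (r - 1)) / ((n - 4).choose (r - 1) : ℝ)))
      - 81 * (n : ℝ) ^ 3 * pc ((n - 4).choose (r - 1)) ^ 2) / 2 -
      ((n.choose 2 : ℝ) ^ 3 * pc ((n - 6).choose (r - 1)) ^ 3 +
      5 ^ 6 * (n : ℝ) ^ 5 * qq ((n - 5).choose (r - 1)) ^ 3 +
      3 ^ 6 * (n : ℝ) ^ 3 * qq ((n - 3).choose (r - 1)) ^ 2) / 6 ≤
    EE (EK n r) (fun H => if Function.Injective (fun v : Fin n => deg H v) then (1 : ℝ) else 0) := by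
  have h1 : EE (EK n r) (fun H => 1 - XX H + SS2 H / 2 - SS3 H / 6) ≤
      EE (EK n r) (fun H => if Function.Injective (fun v : Fin n => deg H v) then (1 : ℝ) else 0) :=
    EE_mono (fun H _ => bonferroni H)
  refine le_trans ?_ h1
  have h2 : EE (EK n r) (fun H => 1 - XX H + SS2 H / 2 - SS3 H / 6)
      = 1 - EE (EK n r) (fun H => XX H) + EE (EK n r) (fun H => SS2 H) / 2
        - EE (EK n r) (fun H => SS3 H) / 6 := by
    rw [EE_sub, EE_add, EE_sub, EE_const]
    simp only [div_eq_mul_inv]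
    rw [EE_mul_right, EE_mul_right]
  rw [h2, EE_XX hr]
  have h3 := SS2_lower (n := n) (r := r) hr hM hn
  have h4 := SS3_upper (n := n) (r := r) hr
  linarith

open Classical in
lemma irr_upper (hr : 1 ≤ r) (hn : 2 ≤ n) :
    EE (EK n r) (fun H => if Function.Injective (fun v : Fin n => deg H v) then (1 : ℝ) else 0) ≤
    ((n.choose 2 : ℝ) * pc ((n - 2).choose (r - 1)) + (n.choose 2 : ℝ) ^ 2 * pc ((n - 4).choose (r - 1)) ^ 2 +
      81 * (n : ℝ) ^ 3 * qq ((n - 3).choose (r - 1)) ^ 2) /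
      ((n.choose 2 : ℝ) * pc ((n - 2).choose (r - 1))) ^ 2 - 1 := by
  set μ := (n.choose 2 : ℝ) * pc ((n - 2).choose (r - 1)) with hμ
  have hμ0 : 0 < μ := by
    apply mul_pos _ (pc_pos _)
    exact_mod_cast Nat.choose_pos hn
  have h1 : EE (EK n r) (fun H => if Function.Injective (fun v : Fin n => deg H v) then (1 : ℝ) else 0)
      ≤ EE (EK n r) (fun H => (XX H - μ) ^ 2 * (μ ^ 2)⁻¹) := by
    apply EE_mono
    intro H _
    obtain ⟨m, hm, hi⟩ := XX_nat H
    by_cases hinj : Function.Injective (fun v : Fin n => deg H v)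
    · rw [if_pos hinj, hm, hi.2 hinj]
      rw [Nat.cast_zero, zero_sub, neg_sq, mul_inv_cancel₀ (by positivity)]
    · rw [if_neg hinj]
      positivity
  refine h1.trans ?_
  rw [EE_mul_right]
  have h2 : EE (EK n r) (fun H => (XX H - μ) ^ 2) = EE (EK n r) (fun H => SS2 H) + μ - μ ^ 2 := by
    have e1 : ∀ H ⊆ EK n r, (XX H - μ) ^ 2 = SS2 H + (1 - 2 * μ) * XX H + μ ^ 2 := by
      intro H _
      rw [SS2_eq]; ring
    rw [EE_congr e1, EE_add, EE_add, EE_const, EE_mul_left, EE_XX hr, ← hμ]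
    ring
  rw [h2]
  have h3 := SS2_upper (n := n) (r := r) hr
  rw [← div_eq_mul_inv]
  have h4 : (EE (EK n r) (fun H => SS2 H) + μ - μ ^ 2) / μ ^ 2
      = (EE (EK n r) (fun H => SS2 H) + μ) / μ ^ 2 - 1 := by
    rw [sub_div, div_self (by positivity)]
  rw [h4]
  apply sub_le_sub_right
  apply div_le_div_of_nonneg_right _ (by positivity)
  linarith

end

end Pool.Agent.H240R3
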