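import Pool.Agent.H240R3.HypF

set_option autoImplicit false

namespace Pool.Agent.H240R3

open Finset Filter Topology

lemma tendsto_choose_two : Tendsto (fun n : ℕ => (n.choose 2 : ℝ) / (n : ℝ) ^ 2) atTop (𝓝 (1 / 2)) := by
  have h := tendsto_choose_shift 2 0
  simpa using h

lemma small_scale (κ : ℕ) (hκ : κ ≤ 3) :
    Tendsto (fun n : ℕ => √((n : ℝ) ^ κ) / (n : ℝ) ^ 2) atTop (𝓝 0) := by
  have h1 : Tendsto (fun n : ℕ => √(1 / (n : ℝ))) atTop (𝓝 0) := by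
    have := (Real.continuous_sqrt.tendsto 0).comp (tendsto_one_div_atTop_nhds_zero_nat (𝕜 := ℝ))
    rw [Real.sqrt_zero] at this
    exact this
  refine squeeze_zero' ?_ ?_ h1
  · filter_upwards with n
    positivity
  · filter_upwards [eventually_gt_atTop 0] with n hn
    have hn1 : (1 : ℝ) ≤ n := by exact_mod_cast hn
    have h2 : (n : ℝ) ^ 2 = √((n : ℝ) ^ 4) := by
      rw [show (n : ℝ) ^ 4 = ((n : ℝ) ^ 2) ^ 2 by ring, Real.sqrt_sq (by positivity)]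
    rw [h2, ← Real.sqrt_div (by positivity)]
    apply Real.sqrt_le_sqrt
    rw [div_le_div_iff₀ (by positivity) (by positivity)]
    have : (n : ℝ) ^ κ ≤ (n : ℝ) ^ 3 := pow_le_pow_right₀ hn1 hκ
    nlinarith [this, hn1]

open Classical in
lemma irr_tendsto_zero (r : ℕ) (hr : r = 3 ∨ r = 4) :
    Tendsto (fun n : ℕ => EE (EK n r) (fun H =>
      if Function.Injective (fun v : Fin n => deg H v) then (1 : ℝ) else 0)) atTop (𝓝 0) := by
  set κ := r - 1 with hκ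
  have hκ1 : 1 ≤ κ := by omega
  have hκ3 : κ ≤ 3 := by omega
  have hr1 : 1 ≤ r := by omega
  have a2 := tendsto_pc_choose κ 2 hκ1
  have a4 := tendsto_pc_choose κ 4 hκ1
  have b3 := tendsto_qq_choose κ 3 hκ1
  set ℓ := √((κ.factorial : ℝ) / Real.pi) with hℓ
  set ℓ' := 1 / √(Real.pi * (1 / (κ.factorial : ℝ) / 2)) with hℓ'
  have hℓ0 : 0 < ℓ := by rw [hℓ]; positivity
  have hc := tendsto_choose_two
  have hs := small_scale κ hκ3
  have h1n : Tendsto (fun n : ℕ => 1 / (n : ℝ)) atTop (𝓝 0) := tendsto_one_div_atTop_nhds_zero_nat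
  have t1 : Tendsto (fun n : ℕ => (√((n : ℝ) ^ κ) / (n : ℝ) ^ 2) /
      (((n.choose 2 : ℝ) / (n : ℝ) ^ 2) * (√((n : ℝ) ^ κ) * pc ((n - 2).choose κ)))) atTop
      (𝓝 (0 / (1 / 2 * ℓ))) := hs.div (hc.mul a2) (by positivity)
  have t2 : Tendsto (fun n : ℕ => ((√((n : ℝ) ^ κ) * pc ((n - 4).choose κ)) /
      (√((n : ℝ) ^ κ) * pc ((n - 2).choose κ))) ^ 2) atTop (𝓝 ((ℓ / ℓ) ^ 2)) :=
    (a4.div a2 (by positivity)).pow 2
  have t3 : Tendsto (fun n : ℕ => 81 * (1 / (n : ℝ)) * ((√((n : ℝ) ^ κ) * qq ((n - 3).choose κ)) ^ 2 /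
      (((n.choose 2 : ℝ) / (n : ℝ) ^ 2) ^ 2 * (√((n : ℝ) ^ κ) * pc ((n - 2).choose κ)) ^ 2))) atTop
      (𝓝 (81 * 0 * (ℓ' ^ 2 / ((1 / 2) ^ 2 * ℓ ^ 2)))) :=
    (h1n.const_mul 81).mul ((b3.pow 2).div ((hc.pow 2).mul (a2.pow 2)) (by positivity))
  have t4 := ((t1.add t2).add t3).sub_const 1
  have e0 : 0 / (1 / 2 * ℓ) + (ℓ / ℓ) ^ 2 + 81 * 0 * (ℓ' ^ 2 / ((1 / 2) ^ 2 * ℓ ^ 2)) - 1 = 0 := by
    rw [div_self hℓ0.ne']
    ring
  rw [e0] at t4
  refine tendsto_of_tendsto_of_tendsto_of_le_of_le' tendsto_const_nhds t4 ?_ ?_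
  · filter_upwards with n
    apply EE_nonneg
    intro H _
    split_ifs <;> norm_num
  · filter_upwards [eventually_ge_atTop 2] with n hn
    refine (irr_upper (n := n) (r := r) hr1 hn).trans (le_of_eq ?_)
    rw [← hκ]
    have hn0 : (n : ℝ) ≠ 0 := by positivity
    have hp2 : pc ((n - 2).choose κ) ≠ 0 := (pc_pos _).ne'
    have hch : (n.choose 2 : ℝ) ≠ 0 := by
      have := Nat.choose_pos hn
      positivity
    have hsq : √((n : ℝ) ^ κ) ≠ 0 := by positivity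
    generalize √((n : ℝ) ^ κ) = s at hsq ⊢
    generalize pc ((n - 2).choose κ) = x at hp2 ⊢
    generalize pc ((n - 4).choose κ) = y
    generalize qq ((n - 3).choose κ) = z
    generalize (n.choose 2 : ℝ) = c at hch ⊢
    field_simp

end Pool.Agent.H240R3
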