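import Pool.Agent.H240R3.HypG

set_option autoImplicit false

namespace Pool.Agent.H240R3

open Finset Filter Topology

/-- the lower bound function for `r = 5` -/
noncomputable def lowf (n : ℕ) : ℝ :=
  1 - (n.choose 2 : ℝ) * pc ((n - 2).choose 4) +
      ((n.choose 2 : ℝ) ^ 2 * (pc ((n - 4).choose 4) ^ 2 *
        (1 - (((n - 2).choose 4 : ℝ) - (n - 4).choose 4) / ((n - 4).choose 4 : ℝ)))
      - 81 * (n : ℝ) ^ 3 * pc ((n - 4).choose 4) ^ 2) / 2 -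
      ((n.choose 2 : ℝ) ^ 3 * pc ((n - 6).choose 4) ^ 3 +
      5 ^ 6 * (n : ℝ) ^ 5 * qq ((n - 5).choose 4) ^ 3 +
      3 ^ 6 * (n : ℝ) ^ 3 * qq ((n - 3).choose 4) ^ 2) / 6

lemma tendsto_lowf : Tendsto lowf atTop
    (𝓝 (1 - √((Nat.factorial 4 : ℝ) / Real.pi) / 2 + (√((Nat.factorial 4 : ℝ) / Real.pi) / 2) ^ 2 / 2
      - (√((Nat.factorial 4 : ℝ) / Real.pi) / 2) ^ 3 / 6)) := by
  have a2 := tendsto_pc_choose 4 2 (by norm_num)
  have a4 := tendsto_pc_choose 4 4 (by norm_num)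
  have a6 := tendsto_pc_choose 4 6 (by norm_num)
  have b5 := tendsto_qq_choose 4 5 (by norm_num)
  have b3 := tendsto_qq_choose 4 3 (by norm_num)
  set ℓ := √((Nat.factorial 4 : ℝ) / Real.pi) with hℓ
  set ℓ' := 1 / √(Real.pi * (1 / (Nat.factorial 4 : ℝ) / 2)) with hℓ'
  have hc := tendsto_choose_two
  have h1n : Tendsto (fun n : ℕ => 1 / (n : ℝ)) atTop (𝓝 0) := tendsto_one_div_atTop_nhds_zero_nat
  have d2 := tendsto_choose_shift 4 2
  have d4 := tendsto_choose_shift 4 4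
  have dd : Tendsto (fun n : ℕ => 1 - ((((n - 2).choose 4 : ℕ) : ℝ) / (n : ℝ) ^ 4 -
      (((n - 4).choose 4 : ℕ) : ℝ) / (n : ℝ) ^ 4) / ((((n - 4).choose 4 : ℕ) : ℝ) / (n : ℝ) ^ 4))
      atTop (𝓝 (1 - (1 / (Nat.factorial 4 : ℝ) - 1 / (Nat.factorial 4 : ℝ)) / (1 / (Nat.factorial 4 : ℝ)))) :=
    ((d2.sub d4).div d4 (by positivity)).const_sub 1
  have t1 := hc.mul a2
  have t2 := (hc.pow 2).mul ((a4.pow 2).mul dd)
  have t3 := (h1n.const_mul 81).mul (a4.pow 2)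
  have t4 := (hc.pow 3).mul (a6.pow 3)
  have t5 := (h1n.const_mul (5 ^ 6)).mul (b5.pow 3)
  have t6 := (h1n.const_mul (3 ^ 6)).mul (b3.pow 2)
  have t := (((t1.const_sub 1).add ((t2.sub t3).div_const 2))).sub (((t4.add t5).add t6).div_const 6)
  have e0 : 1 - 1 / 2 * ℓ + ((1 / 2) ^ 2 * (ℓ ^ 2 * (1 - (1 / (Nat.factorial 4 : ℝ) - 1 / (Nat.factorial 4 : ℝ)) / (1 / (Nat.factorial 4 : ℝ))))
      - 81 * 0 * ℓ ^ 2) / 2 - ((1 / 2) ^ 3 * ℓ ^ 3 + 5 ^ 6 * 0 * ℓ' ^ 3 + 3 ^ 6 * 0 * ℓ' ^ 2) / 6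
      = 1 - ℓ / 2 + (ℓ / 2) ^ 2 / 2 - (ℓ / 2) ^ 3 / 6 := by
    rw [sub_self, zero_div]
    ring
  rw [e0] at t
  refine t.congr' ?_
  filter_upwards [eventually_ge_atTop 8] with n hn
  unfold lowf
  have hn0 : (n : ℝ) ≠ 0 := by positivity
  have hsq : √((n : ℝ) ^ 4) = (n : ℝ) ^ 2 := by
    rw [show (n : ℝ) ^ 4 = ((n : ℝ) ^ 2) ^ 2 by ring, Real.sqrt_sq (by positivity)]
  rw [hsq]
  have hM : (((n - 4).choose 4 : ℕ) : ℝ) ≠ 0 := by
    have := Nat.choose_pos (by omega : 4 ≤ n - 4)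
    positivity
  generalize (((n - 4).choose 4 : ℕ) : ℝ) = M at hM ⊢
  generalize (((n - 2).choose 4 : ℕ) : ℝ) = M2
  generalize pc ((n - 2).choose 4) = x
  generalize pc ((n - 4).choose 4) = y
  generalize pc ((n - 6).choose 4) = z
  generalize qq ((n - 5).choose 4) = u
  generalize qq ((n - 3).choose 4) = v
  generalize (n.choose 2 : ℝ) = c
  field_simp

lemma const_pos : (0 : ℝ) < 1 - √((Nat.factorial 4 : ℝ) / Real.pi) / 2 +
      (√((Nat.factorial 4 : ℝ) / Real.pi) / 2) ^ 2 / 2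
      - (√((Nat.factorial 4 : ℝ) / Real.pi) / 2) ^ 3 / 6 := by
  set x := √((Nat.factorial 4 : ℝ) / Real.pi) / 2 with hx
  have hpi := Real.pi_gt_d2
  have hx0 : 0 ≤ x := by rw [hx]; positivity
  have hx2 : x ^ 2 = 6 / Real.pi := by
    rw [hx, div_pow, Real.sq_sqrt (by positivity)]
    norm_num [Nat.factorial]
    ring
  have hx2' : x ^ 2 ≤ 1.911 := by
    rw [hx2, div_le_iff₀ Real.pi_pos]
    nlinarith
  have hx1 : x ≤ 1.3825 := by
    by_contra hcon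
    push Not at hcon
    nlinarith
  nlinarith [sq_nonneg (x - 1), mul_nonneg hx0 (sub_nonneg.2 hx1), sq_nonneg x]

open Classical in
lemma irr_bounded_below : ∃ c : ℝ, 0 < c ∧ ∃ N : ℕ, ∀ n : ℕ, N ≤ n →
    c ≤ EE (EK n 5) (fun H =>
      if Function.Injective (fun v : Fin n => deg H v) then (1 : ℝ) else 0) := by
  set L := 1 - √((Nat.factorial 4 : ℝ) / Real.pi) / 2 + (√((Nat.factorial 4 : ℝ) / Real.pi) / 2) ^ 2 / 2
      - (√((Nat.factorial 4 : ℝ) / Real.pi) / 2) ^ 3 / 6 with hL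
  have hL0 : 0 < L := const_pos
  refine ⟨L / 2, by linarith, ?_⟩
  have h1 := tendsto_lowf.eventually_const_lt (show L / 2 < L by linarith)
  obtain ⟨N, hN⟩ := Filter.eventually_atTop.1 h1
  refine ⟨max N 8, fun n hn => ?_⟩
  have h2 := hN n ((le_max_left _ _).trans hn)
  have hn8 : 8 ≤ n := (le_max_right _ _).trans hn
  refine h2.le.trans ?_
  exact irr_lower (n := n) (r := 5) (by norm_num) (Nat.choose_pos (by omega)) (by omega)

end Pool.Agent.H240R3
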