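import Mathlib

set_option autoImplicit false

namespace Pool.Agent.H240R3.Shadow

open Set

section hull
variable {E : Type*} [AddCommGroup E] [Module ℝ E]

lemma mem_hull {ι : Type*} [Fintype ι] [DecidableEq ι] (g : ι → E) (x : E) :
    x ∈ convexHull ℝ (range g) ↔
      ∃ w : ι → ℝ, (∀ i, 0 ≤ w i) ∧ ∑ i, w i = 1 ∧ ∑ i, w i • g i = x := by
  constructor
  · intro hx
    have hsub : convexHull ℝ (range g) ⊆
        {x | ∃ w : ι → ℝ, (∀ i, 0 ≤ w i) ∧ ∑ i, w i = 1 ∧ ∑ i, w i • g i = x} := by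
      apply convexHull_min
      · rintro _ ⟨i, rfl⟩
        refine ⟨Pi.single i 1, ?_, ?_, ?_⟩
        · intro j
          by_cases h : j = i
          · subst h; simp
          · simp [Pi.single_eq_of_ne h]
        · simp
        · rw [Finset.sum_eq_single i]
          · simp
          · intro j _ hj; simp [Pi.single_eq_of_ne hj]
          · simp
      · rintro x ⟨w, hw0, hw1, hwx⟩ y ⟨v, hv0, hv1, hvy⟩ a b ha hb hab
        refine ⟨fun i => a * w i + b * v i, ?_, ?_, ?_⟩
        · intro i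
          exact add_nonneg (mul_nonneg ha (hw0 i)) (mul_nonneg hb (hv0 i))
        · rw [Finset.sum_add_distrib, ← Finset.mul_sum, ← Finset.mul_sum, hw1, hv1, mul_one, mul_one,
            hab]
        · rw [← hwx, ← hvy, Finset.smul_sum, Finset.smul_sum, ← Finset.sum_add_distrib]
          refine Finset.sum_congr rfl (fun i _ => ?_)
          rw [add_smul, mul_smul, mul_smul]
    exact hsub hx
  · rintro ⟨w, hw0, hw1, rfl⟩
    exact (convex_convexHull ℝ (range g)).sum_mem (fun i _ => hw0 i) hw1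
      (fun i _ => subset_convexHull ℝ _ (mem_range_self i))

lemma face_weights {ι : Type*} [Fintype ι] [DecidableEq ι] (g : ι → E) (l : E →ₗ[ℝ] ℝ) (M : ℝ)
    (hle : ∀ i, l (g i) ≤ M) (w : ι → ℝ) (hw0 : ∀ i, 0 ≤ w i) (hw1 : ∑ i, w i = 1)
    (hx : l (∑ i, w i • g i) = M) (i : ι) (hi : l (g i) < M) : w i = 0 := by
  rw [map_sum] at hx
  have h1 : ∑ i, w i * (M - l (g i)) = 0 := by
    have : ∑ i, w i * (M - l (g i)) = M * ∑ i, w i - ∑ i, l (w i • g i) := by
      rw [Finset.mul_sum, ← Finset.sum_sub_distrib]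
      refine Finset.sum_congr rfl (fun i _ => ?_)
      rw [map_smul, smul_eq_mul]; ring
    rw [this, hx, hw1]; ring
  have h2 := (Finset.sum_eq_zero_iff_of_nonneg (fun i _ =>
    mul_nonneg (hw0 i) (sub_nonneg.2 (hle i)))).1 h1 i (Finset.mem_univ i)
  rcases mul_eq_zero.1 h2 with h | h
  · exact h
  · linarith

lemma hull_le {ι : Type*} [Fintype ι] [DecidableEq ι] (g : ι → E) (l : E →ₗ[ℝ] ℝ) (M : ℝ)
    (hle : ∀ i, l (g i) ≤ M) (x : E) (hx : x ∈ convexHull ℝ (range g)) : l x ≤ M := by
  have h1 : convexHull ℝ (range g) ⊆ {x | l x ≤ M} := by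
    apply convexHull_min
    · rintro _ ⟨i, rfl⟩; exact hle i
    · exact convex_halfSpace_le l.isLinear M
  exact h1 hx

lemma edge_extreme {ι : Type*} [Fintype ι] [DecidableEq ι] (g : ι → E) (l : E →ₗ[ℝ] ℝ) (M : ℝ)
    (u v : ι) (huv : u ≠ v) (hu : l (g u) = M) (hv : l (g v) = M)
    (hlt : ∀ i, i ≠ u → i ≠ v → l (g i) < M) :
    IsExtreme ℝ (convexHull ℝ (range g)) (segment ℝ (g u) (g v)) := by
  have hle : ∀ i, l (g i) ≤ M := by
    intro i
    by_cases h1 : i = u
    · rw [h1, hu]
    · by_cases h2 : i = v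
      · rw [h2, hv]
      · exact (hlt i h1 h2).le
  constructor
  · exact segment_subset_convexHull (mem_range_self u) (mem_range_self v)
  · intro x hx y hy z hz hzxy
    have lx := hull_le g l M hle x hx
    have ly := hull_le g l M hle y hy
    obtain ⟨a, b, ha, hb, hab, rfl⟩ := hzxy
    obtain ⟨c, d, hc, hd, hcd, hz⟩ := hz
    have hlz : l (a • x + b • y) = M := by
      rw [← hz, map_add, map_smul, map_smul, hu, hv, smul_eq_mul, smul_eq_mul, ← add_mul, hcd,
        one_mul]
    rw [map_add, map_smul, map_smul, smul_eq_mul, smul_eq_mul] at hlz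
    have hlx : l x = M := by
      by_contra hne
      have hlt' : l x < M := lt_of_le_of_ne lx hne
      have h3 := mul_lt_mul_of_pos_left hlt' ha
      have h4 := mul_le_mul_of_nonneg_left ly hb.le
      have h5 : a * M + b * M = M := by rw [← add_mul, hab, one_mul]
      linarith
    obtain ⟨w, hw0, hw1, hwx⟩ := (mem_hull g x).1 hx
    have hzero : ∀ i, i ≠ u → i ≠ v → w i = 0 := by
      intro i h1 h2
      apply face_weights g l M hle w hw0 hw1 _ i (hlt i h1 h2)
      rw [hwx]; exact hlx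
    have s1 : w u + w v = 1 := by
      rw [← hw1]
      symm
      apply Finset.sum_eq_add u v huv
      · rintro i _ ⟨h1, h2⟩; exact hzero i h1 h2
      · intro h; exact absurd (Finset.mem_univ u) h
      · intro h; exact absurd (Finset.mem_univ v) h
    have s2 : w u • g u + w v • g v = x := by
      rw [← hwx]
      symm
      apply Finset.sum_eq_add u v huv
      · rintro i _ ⟨h1, h2⟩; rw [hzero i h1 h2, zero_smul]
      · intro h; exact absurd (Finset.mem_univ u) h
      · intro h; exact absurd (Finset.mem_univ v) h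
    exact ⟨w u, w v, hw0 u, hw0 v, s1, s2⟩

lemma vertex_extreme {ι : Type*} [Fintype ι] [DecidableEq ι] (g : ι → E) (l : E →ₗ[ℝ] ℝ)
    (u : ι) (hlt : ∀ i, i ≠ u → l (g i) < l (g u)) :
    g u ∈ Set.extremePoints ℝ (convexHull ℝ (range g)) := by
  have hle : ∀ i, l (g i) ≤ l (g u) := by
    intro i
    by_cases h1 : i = u
    · rw [h1]
    · exact (hlt i h1).le
  have key : ∀ x ∈ convexHull ℝ (range g), l x = l (g u) → x = g u := by
    intro x hx hlx
    obtain ⟨w, hw0, hw1, hwx⟩ := (mem_hull g x).1 hx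
    have hzero : ∀ i, i ≠ u → w i = 0 := by
      intro i h1
      apply face_weights g l (l (g u)) hle w hw0 hw1 _ i (hlt i h1)
      rw [hwx]; exact hlx
    have s1 : w u = 1 := by
      rw [← hw1]
      symm
      apply Finset.sum_eq_single u
      · intro i _ h1; exact hzero i h1
      · intro h; exact absurd (Finset.mem_univ u) h
    rw [← hwx, Finset.sum_eq_single u]
    · rw [s1, one_smul]
    · intro i _ h1; rw [hzero i h1, zero_smul]
    · intro h; exact absurd (Finset.mem_univ u) h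
  refine ⟨subset_convexHull ℝ _ (mem_range_self u), ?_⟩
  intro x hx y hy hzxy
  have lx := hull_le g l _ hle x hx
  have ly := hull_le g l _ hle y hy
  obtain ⟨a, b, ha, hb, hab, hz⟩ := hzxy
  apply key x hx
  have h1 : l (a • x + b • y) = l (g u) := by rw [hz]
  rw [map_add, map_smul, map_smul, smul_eq_mul, smul_eq_mul] at h1
  by_contra hne
  have hlt' : l x < l (g u) := lt_of_le_of_ne lx hne
  have h3 := mul_lt_mul_of_pos_left hlt' ha
  have h4 := mul_le_mul_of_nonneg_left ly hb.le
  have h5 : a * l (g u) + b * l (g u) = l (g u) := by rw [← add_mul, hab, one_mul]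
  linarith

end hull

/-- sign consistency along an extreme segment -/
lemma sign_consistent (P : Set (Fin 3 → ℝ)) (hP : Convex ℝ P) (a b c d c' d' : Fin 3 → ℝ)
    (hext : IsExtreme ℝ P (segment ℝ a b)) (hc : c ∈ P) (hd : d ∈ P) (hc' : c' ∈ P) (hd' : d' ∈ P)
    (hca : c ∉ segment ℝ a b) (hca' : c' ∉ segment ℝ a b)
    (s t s' t' : ℝ) (hs0 : 0 < s) (hs1 : s < 1) (ht0 : 0 < t) (ht1 : t < 1)
    (hs0' : 0 < s') (hs1' : s' < 1) (ht0' : 0 < t') (ht1' : t' < 1)
    (h0 : (1 - s) * a 0 + s * b 0 = (1 - t) * c 0 + t * d 0)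
    (h1 : (1 - s) * a 1 + s * b 1 = (1 - t) * c 1 + t * d 1)
    (h0' : (1 - s') * a 0 + s' * b 0 = (1 - t') * c' 0 + t' * d' 0)
    (h1' : (1 - s') * a 1 + s' * b 1 = (1 - t') * c' 1 + t' * d' 1) :
    0 < (((1 - s) * a 2 + s * b 2) - ((1 - t) * c 2 + t * d 2)) *
      (((1 - s') * a 2 + s' * b 2) - ((1 - t') * c' 2 + t' * d' 2)) := by
  set D := ((1 - s) * a 2 + s * b 2) - ((1 - t) * c 2 + t * d 2) with hD
  set D' := ((1 - s') * a 2 + s' * b 2) - ((1 - t') * c' 2 + t' * d' 2) with hD'
  have hY : (1 - t) • c + t • d ∈ P := hP hc hd (by linarith) ht0.le (by ring)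
  have hY' : (1 - t') • c' + t' • d' ∈ P := hP hc' hd' (by linarith) ht0'.le (by ring)
  -- not in the segment
  have notin : (1 - t) • c + t • d ∉ segment ℝ a b := by
    intro h
    exact hca (hext.left_mem_of_mem_openSegment hc hd h ⟨1 - t, t, by linarith, ht0, by ring, rfl⟩)
  have notin' : (1 - t') • c' + t' • d' ∉ segment ℝ a b := by
    intro h
    exact hca' (hext.left_mem_of_mem_openSegment hc' hd' h
      ⟨1 - t', t', by linarith, ht0', by ring, rfl⟩)
  have hDne : D ≠ 0 := by
    intro h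
    apply notin
    refine ⟨1 - s, s, by linarith, hs0.le, by ring, ?_⟩
    funext i
    fin_cases i
    · simpa using h0
    · simpa using h1
    · simp only [Fin.reduceFinMk, Pi.add_apply, Pi.smul_apply, smul_eq_mul]
      linarith
  have hDne' : D' ≠ 0 := by
    intro h
    apply notin'
    refine ⟨1 - s', s', by linarith, hs0'.le, by ring, ?_⟩
    funext i
    fin_cases i
    · simpa using h0'
    · simpa using h1'
    · simp only [Fin.reduceFinMk, Pi.add_apply, Pi.smul_apply, smul_eq_mul]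
      linarith
  by_contra hcon
  push Not at hcon
  have hlt : D * D' < 0 := lt_of_le_of_ne hcon (mul_ne_zero hDne hDne')
  -- opposite signs
  have hr : ∃ r : ℝ, 0 < r ∧ r < 1 ∧ (1 - r) * D + r * D' = 0 := by
    have hdne : D - D' ≠ 0 := by
      intro h
      have : D = D' := by linarith
      rw [this] at hlt
      nlinarith [mul_self_nonneg D']
    refine ⟨D / (D - D'), ?_, ?_, ?_⟩
    · rcases mul_neg_iff.1 hlt with ⟨p1, p2⟩ | ⟨p1, p2⟩
      · exact div_pos p1 (by linarith)
      · exact div_pos_of_neg_of_neg p1 (by linarith)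
    · rcases mul_neg_iff.1 hlt with ⟨p1, p2⟩ | ⟨p1, p2⟩
      · rw [div_lt_one (by linarith)]; linarith
      · rw [div_lt_one_of_neg (by linarith)]; linarith
    · field_simp
      ring
  obtain ⟨r, hr0, hr1, hr2⟩ := hr
  apply notin
  set σ := (1 - r) * s + r * s' with hσ
  have hσ0 : 0 < σ := by
    have := mul_pos (sub_pos.2 hr1) hs0
    have := mul_pos hr0 hs0'
    rw [hσ]; linarith
  have hσ1 : σ < 1 := by
    have := mul_lt_mul_of_pos_left hs1 (sub_pos.2 hr1)
    have := mul_lt_mul_of_pos_left hs1' hr0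
    rw [hσ]; linarith
  have hz : (1 - σ) • a + σ • b ∈ segment ℝ a b := ⟨1 - σ, σ, by linarith, hσ0.le, by ring, rfl⟩
  refine hext.left_mem_of_mem_openSegment hY hY' hz ⟨1 - r, r, by linarith, hr0, by ring, ?_⟩
  funext i
  fin_cases i
  · simp only [Fin.zero_eta, Pi.add_apply, Pi.smul_apply, smul_eq_mul]
    rw [← h0, ← h0', hσ]; ring
  · simp only [Fin.mk_one, Pi.add_apply, Pi.smul_apply, smul_eq_mul]
    rw [← h1, ← h1', hσ]; ring
  · simp only [Fin.reduceFinMk, Pi.add_apply, Pi.smul_apply, smul_eq_mul]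
    have e1 : (1 - t) * c 2 + t * d 2 = ((1 - s) * a 2 + s * b 2) - D := by rw [hD]; ring
    have e2 : (1 - t') * c' 2 + t' * d' 2 = ((1 - s') * a 2 + s' * b 2) - D' := by rw [hD']; ring
    rw [e1, e2, hσ]
    linear_combination -hr2

end Pool.Agent.H240R3.Shadow
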