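import Pool.Agent.H240R3.ShadowA

set_option autoImplicit false

namespace Pool.Agent.H240R3.Shadow

open Set

/-- adjacency table -/
def adjB (u v : Fin 6) : Bool :=
  (u, v) ∈ [((0 : Fin 6), (1 : Fin 6)), (1, 2), (2, 3), (3, 4), (4, 5), (5, 0), (1, 5), (2, 4), (2, 5),
    (0, 2), (0, 3), (3, 5), (1, 0), (2, 1), (3, 2), (4, 3), (5, 4), (0, 5), (5, 1), (4, 2), (5, 2),
    (2, 0), (3, 0), (5, 3)]

def gZ : Fin 6 → Fin 3 → ℤ :=
  ![![2, 2, 2], ![1, -1, 1], ![2, -2, -2], ![-2, 2, -2], ![-1, -1, -1], ![-2, -2, 2]]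

/-- supporting functionals of the edges -/
def LZ0 (u v : Fin 6) : Fin 3 → ℤ :=
  if (u, v) = (0, 1) then ![3, -2, 3] else
  if (u, v) = (1, 2) then ![3, -3, 2] else
  if (u, v) = (2, 3) then ![0, 0, -1] else
  if (u, v) = (3, 4) then ![-3, -2, -3] else
  if (u, v) = (4, 5) then ![-3, -3, -2] else
  if (u, v) = (0, 5) then ![0, 0, 1] else
  if (u, v) = (1, 5) then ![2, -3, 3] else
  if (u, v) = (2, 4) then ![-2, -3, -3] else
  if (u, v) = (2, 5) then ![0, -1, 0] else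
  if (u, v) = (0, 2) then ![1, 0, 0] else
  if (u, v) = (0, 3) then ![0, 1, 0] else
  if (u, v) = (3, 5) then ![-1, 0, 0] else ![0, 0, 0]

def LZ (u v : Fin 6) : Fin 3 → ℤ := if u < v then LZ0 u v else LZ0 v u

/-- supporting functionals of the vertices -/
def VZ : Fin 6 → Fin 3 → ℤ :=
  ![![0, 1, 1], ![1, -1, 1], ![0, -1, -1], ![-1, 0, -1], ![-1, -1, -1], ![-1, -1, 0]]

def dotZ (a b : Fin 3 → ℤ) : ℤ := a 0 * b 0 + a 1 * b 1 + a 2 * b 2

lemma edge_data : ∀ u v : Fin 6, adjB u v = true → u ≠ v ∧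
    dotZ (LZ u v) (gZ v) = dotZ (LZ u v) (gZ u) ∧
    ∀ i, i ≠ u → i ≠ v → dotZ (LZ u v) (gZ i) < dotZ (LZ u v) (gZ u) := by
  decide

lemma vertex_data : ∀ u i : Fin 6, i ≠ u → dotZ (VZ u) (gZ i) < dotZ (VZ u) (gZ u) := by
  decide

noncomputable def gR (i : Fin 6) : Fin 3 → ℝ := fun j => (gZ i j : ℝ)

noncomputable def lin (L : Fin 3 → ℤ) : (Fin 3 → ℝ) →ₗ[ℝ] ℝ where
  toFun x := (L 0 : ℝ) * x 0 + (L 1 : ℝ) * x 1 + (L 2 : ℝ) * x 2
  map_add' x y := by simp only [Pi.add_apply]; ring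
  map_smul' c x := by simp only [Pi.smul_apply, smul_eq_mul, RingHom.id_apply]; ring

lemma lin_gR (L : Fin 3 → ℤ) (i : Fin 6) : lin L (gR i) = (dotZ L (gZ i) : ℝ) := by
  unfold lin gR dotZ
  push_cast
  rfl

lemma gR_edge (u v : Fin 6) (h : adjB u v = true) :
    IsExtreme ℝ (convexHull ℝ (range gR)) (segment ℝ (gR u) (gR v)) := by
  obtain ⟨huv, h1, h2⟩ := edge_data u v h
  apply edge_extreme gR (lin (LZ u v)) (lin (LZ u v) (gR u)) u v huv rfl
  · rw [lin_gR, lin_gR, h1]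
  · intro i hi hi'
    rw [lin_gR, lin_gR]
    exact_mod_cast h2 i hi hi'

lemma gR_vertex (u : Fin 6) : gR u ∈ Set.extremePoints ℝ (convexHull ℝ (range gR)) := by
  apply vertex_extreme gR (lin (VZ u)) u
  intro i hi
  rw [lin_gR, lin_gR]
  exact_mod_cast vertex_data u i hi

lemma gR_injective : Function.Injective gR := by
  intro i j hij
  by_contra hne
  have h1 := vertex_data j i hne
  have h2 := lin_gR (VZ j) i
  rw [hij, lin_gR] at h2
  have : dotZ (VZ j) (gZ j) = dotZ (VZ j) (gZ i) := by exact_mod_cast h2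
  omega

lemma gR_mem (i : Fin 6) : gR i ∈ convexHull ℝ (range gR) :=
  subset_convexHull ℝ _ (mem_range_self i)

lemma zero_mem : (0 : Fin 3 → ℝ) ∈ convexHull ℝ (range gR) := by
  rw [mem_hull]
  refine ⟨![1/4, 0, 1/4, 1/4, 0, 1/4], ?_, ?_, ?_⟩
  · intro i; fin_cases i <;> norm_num
  · simp [Fin.sum_univ_succ]; norm_num
  · funext j
    fin_cases j <;> simp [Fin.sum_univ_succ, gR, gZ] <;> norm_num

lemma box_mem (x : Fin 3 → ℝ) (h0 : |x 0| < 1 / 2) (h1 : |x 1| < 1 / 2) (h2 : |x 2| < 1 / 2) :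
    x ∈ convexHull ℝ (range gR) := by
  rw [abs_lt] at h0 h1 h2
  rw [mem_hull]
  refine ⟨![1/4 + (x 0 + x 1 + x 2) / 8, 0, 1/4 + (x 0 - x 1 - x 2) / 8,
    1/4 + (-x 0 + x 1 - x 2) / 8, 0, 1/4 + (-x 0 - x 1 + x 2) / 8], ?_, ?_, ?_⟩
  · intro i
    fin_cases i
    · show 0 ≤ 1/4 + (x 0 + x 1 + x 2) / 8; linarith
    · show (0 : ℝ) ≤ 0; exact le_refl _
    · show 0 ≤ 1/4 + (x 0 - x 1 - x 2) / 8; linarith
    · show 0 ≤ 1/4 + (-x 0 + x 1 - x 2) / 8; linarith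
    · show (0 : ℝ) ≤ 0; exact le_refl _
    · show 0 ≤ 1/4 + (-x 0 - x 1 + x 2) / 8; linarith
  · simp [Fin.sum_univ_succ]; ring
  · funext j
    fin_cases j <;> simp [Fin.sum_univ_succ, gR, gZ] <;> ring

lemma gR_interior : (interior (convexHull ℝ (range gR))).Nonempty := by
  refine ⟨0, ?_⟩
  rw [mem_interior]
  refine ⟨Metric.ball 0 (1/2), ?_, Metric.isOpen_ball, Metric.mem_ball_self (by norm_num)⟩
  intro x hx
  rw [Metric.mem_ball, dist_zero_right, pi_norm_lt_iff (by norm_num)] at hx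
  exact box_mem x (by simpa using hx 0) (by simpa using hx 1) (by simpa using hx 2)

/-- non-edges -/
lemma not_extreme_of (S : Set (Fin 3 → ℝ)) (a b x y z : Fin 3 → ℝ) (hx : x ∈ S) (hy : y ∈ S)
    (hz : z ∈ segment ℝ a b) (hzxy : z ∈ openSegment ℝ x y) (hn : x ∉ segment ℝ a b) :
    ¬ IsExtreme ℝ S (segment ℝ a b) := by
  intro h
  exact hn (h.left_mem_of_mem_openSegment hx hy hz hzxy)

lemma nonedge13 : ¬ IsExtreme ℝ (convexHull ℝ (range gR)) (segment ℝ (gR 1) (gR 3)) := by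
  have hy : (![-2/3, -2/3, -2/3] : Fin 3 → ℝ) ∈ convexHull ℝ (range gR) := by
    rw [mem_hull]
    refine ⟨![0, 0, 1/3, 1/3, 0, 1/3], ?_, ?_, ?_⟩
    · intro i; fin_cases i <;> norm_num
    · simp [Fin.sum_univ_succ]; norm_num
    · funext j
      fin_cases j <;> simp [Fin.sum_univ_succ, gR, gZ] <;> norm_num
  apply not_extreme_of _ _ _ (gR 0) _ 0 (gR_mem 0) hy
  · refine ⟨2/3, 1/3, by norm_num, by norm_num, by norm_num, ?_⟩
    funext j
    fin_cases j <;> simp [gR, gZ] <;> norm_num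
  · refine ⟨1/4, 3/4, by norm_num, by norm_num, by norm_num, ?_⟩
    funext j
    fin_cases j <;> simp [gR, gZ] <;> norm_num
  · rintro ⟨a, b, ha, hb, hab, h⟩
    have h0 := congrFun h 0
    have h1 := congrFun h 1
    simp [gR, gZ] at h0 h1
    linarith

lemma nonedge04 : ¬ IsExtreme ℝ (convexHull ℝ (range gR)) (segment ℝ (gR 0) (gR 4)) := by
  have hy : (![2/3, -2/3, 2/3] : Fin 3 → ℝ) ∈ convexHull ℝ (range gR) := by
    rw [mem_hull]
    refine ⟨![1/3, 0, 1/3, 0, 0, 1/3], ?_, ?_, ?_⟩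
    · intro i; fin_cases i <;> norm_num
    · simp [Fin.sum_univ_succ]; norm_num
    · funext j
      fin_cases j <;> simp [Fin.sum_univ_succ, gR, gZ] <;> norm_num
  apply not_extreme_of _ _ _ (gR 3) _ 0 (gR_mem 3) hy
  · refine ⟨1/3, 2/3, by norm_num, by norm_num, by norm_num, ?_⟩
    funext j
    fin_cases j <;> simp [gR, gZ] <;> norm_num
  · refine ⟨1/4, 3/4, by norm_num, by norm_num, by norm_num, ?_⟩
    funext j
    fin_cases j <;> simp [gR, gZ] <;> norm_num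
  · rintro ⟨a, b, ha, hb, hab, h⟩
    have h0 := congrFun h 0
    have h1 := congrFun h 1
    simp [gR, gZ] at h0 h1
    linarith

lemma nonedge14 : ¬ IsExtreme ℝ (convexHull ℝ (range gR)) (segment ℝ (gR 1) (gR 4)) := by
  have hx : (![0, -2, 0] : Fin 3 → ℝ) ∈ convexHull ℝ (range gR) := by
    rw [mem_hull]
    refine ⟨![0, 0, 1/2, 0, 0, 1/2], ?_, ?_, ?_⟩
    · intro i; fin_cases i <;> norm_num
    · simp [Fin.sum_univ_succ]; norm_num
    · funext j
      fin_cases j <;> simp [Fin.sum_univ_succ, gR, gZ] <;> norm_num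
  apply not_extreme_of _ _ _ ![0, -2, 0] 0 ![0, -1, 0] hx zero_mem
  · refine ⟨1/2, 1/2, by norm_num, by norm_num, by norm_num, ?_⟩
    funext j
    fin_cases j <;> simp [gR, gZ] <;> norm_num
  · refine ⟨1/2, 1/2, by norm_num, by norm_num, by norm_num, ?_⟩
    funext j
    fin_cases j <;> simp
  · rintro ⟨a, b, ha, hb, hab, h⟩
    have h1 := congrFun h 1
    simp [gR, gZ] at h1
    linarith

lemma adj_iff (u v : Fin 6) : adjB u v = true ↔
    (u ≠ v ∧ IsExtreme ℝ (convexHull ℝ (range gR)) (segment ℝ (gR u) (gR v))) := by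
  constructor
  · intro h
    exact ⟨(edge_data u v h).1, gR_edge u v h⟩
  · rintro ⟨hne, hext⟩
    by_contra hcon
    have h : (u = 1 ∧ v = 3) ∨ (u = 3 ∧ v = 1) ∨ (u = 0 ∧ v = 4) ∨ (u = 4 ∧ v = 0) ∨
        (u = 1 ∧ v = 4) ∨ (u = 4 ∧ v = 1) := by
      revert hne hcon
      clear hext
      revert u v
      decide
    rcases h with ⟨rfl, rfl⟩ | ⟨rfl, rfl⟩ | ⟨rfl, rfl⟩ | ⟨rfl, rfl⟩ | ⟨rfl, rfl⟩ | ⟨rfl, rfl⟩
    · exact nonedge13 hext
    · rw [segment_symm] at hext; exact nonedge13 hext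
    · exact nonedge04 hext
    · rw [segment_symm] at hext; exact nonedge04 hext
    · exact nonedge14 hext
    · rw [segment_symm] at hext; exact nonedge14 hext

/-- the graph -/
def GG : SimpleGraph (Fin 6) where
  Adj u v := adjB u v = true
  symm := ⟨by decide⟩
  loopless := ⟨by decide⟩

end Pool.Agent.H240R3.Shadow
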