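import Pool.Agent.H240R3.ShadowB

set_option autoImplicit false

namespace Pool.Agent.H240R3.Shadow

open Set

def PZ : Fin 6 → Fin 2 → ℤ := ![![1, 0], ![1, 1], ![0, 1], ![-1, 0], ![-1, -1], ![0, -1]]

noncomputable def PR (i : Fin 6) : Fin 2 → ℝ := fun j => (PZ i j : ℝ)

/-- the hexagon -/
noncomputable def TT : Finset (Fin 2 → ℝ) := by
  classical exact Finset.univ.image PR

lemma PZ_inj : ∀ i j : Fin 6, (∀ k, PZ i k = PZ j k) → i = j := by decide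

lemma PR_injective : Function.Injective PR := by
  intro i j hij
  apply PZ_inj
  intro k
  have := congrFun hij k
  unfold PR at this
  exact_mod_cast this

lemma coe_TT : (TT : Set (Fin 2 → ℝ)) = range PR := by
  classical
  unfold TT
  rw [Finset.coe_image, Finset.coe_univ, image_univ]

lemma card_TT : TT.card = 6 := by
  classical
  unfold TT
  rw [Finset.card_image_of_injective _ PR_injective, Finset.card_univ, Fintype.card_fin]

/-- separating functional for each vertex -/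
def WZ : Fin 6 → Fin 2 → ℤ := ![![2, -1], ![1, 1], ![-1, 2], ![-2, 1], ![-1, -1], ![1, -2]]

lemma W_data : ∀ k i : Fin 6, i ≠ k → WZ k 0 * PZ i 0 + WZ k 1 * PZ i 1 ≤ 1 := by decide

lemma W_self : ∀ k : Fin 6, WZ k 0 * PZ k 0 + WZ k 1 * PZ k 1 = 2 := by decide

lemma halfspace_convex (a b c : ℝ) : Convex ℝ {x : Fin 2 → ℝ | a * x 0 + b * x 1 ≤ c} := by
  intro x hx y hy s t hs ht hst
  simp only [mem_ofPred_eq] at hx hy ⊢
  simp only [Pi.add_apply, Pi.smul_apply, smul_eq_mul]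
  calc a * (s * x 0 + t * y 0) + b * (s * x 1 + t * y 1)
      = s * (a * x 0 + b * x 1) + t * (a * y 0 + b * y 1) := by ring
    _ ≤ s * c + t * c := by gcongr
    _ = c := by rw [← add_mul, hst, one_mul]

lemma TT_convex_position : ∀ t ∈ TT, t ∉ convexHull ℝ ((TT : Set (Fin 2 → ℝ)) \ {t}) := by
  intro t ht hcon
  have ht' : t ∈ (TT : Set (Fin 2 → ℝ)) := ht
  rw [coe_TT] at ht'
  obtain ⟨k, rfl⟩ := ht'
  have hsub : convexHull ℝ ((TT : Set (Fin 2 → ℝ)) \ {PR k}) ⊆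
      {x : Fin 2 → ℝ | (WZ k 0 : ℝ) * x 0 + (WZ k 1 : ℝ) * x 1 ≤ 1} := by
    apply convexHull_min _ (halfspace_convex _ _ _)
    rintro x ⟨hx1, hx2⟩
    rw [coe_TT] at hx1
    obtain ⟨i, rfl⟩ := hx1
    have hik : i ≠ k := by
      rintro rfl; exact hx2 rfl
    simp only [mem_ofPred_eq, PR]
    exact_mod_cast W_data k i hik
  have h1 := hsub hcon
  simp only [mem_ofPred_eq, PR] at h1
  have h2 : WZ k 0 * PZ k 0 + WZ k 1 * PZ k 1 ≤ 1 := by exact_mod_cast h1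
  have h3 := W_self k
  omega

/-- facet inequalities -/
lemma hex_le (p : Fin 2 → ℝ) (hp : p ∈ convexHull ℝ (range PR)) :
    (p 0 ≤ 1 ∧ -1 ≤ p 0) ∧ (p 1 ≤ 1 ∧ -1 ≤ p 1) ∧ (p 0 - p 1 ≤ 1 ∧ -1 ≤ p 0 - p 1) := by
  have key : ∀ a b : ℤ, (∀ i : Fin 6, a * PZ i 0 + b * PZ i 1 ≤ 1) →
      (a : ℝ) * p 0 + (b : ℝ) * p 1 ≤ 1 := by
    intro a b h
    have hsub : convexHull ℝ (range PR) ⊆ {x : Fin 2 → ℝ | (a : ℝ) * x 0 + (b : ℝ) * x 1 ≤ 1} := by
      apply convexHull_min _ (halfspace_convex _ _ _)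
      rintro _ ⟨i, rfl⟩
      simp only [mem_ofPred_eq, PR]
      exact_mod_cast h i
    exact hsub hp
  have k1 := key 1 0 (by decide)
  have k2 := key (-1) 0 (by decide)
  have k3 := key 0 1 (by decide)
  have k4 := key 0 (-1) (by decide)
  have k5 := key 1 (-1) (by decide)
  have k6 := key (-1) 1 (by decide)
  push_cast at k1 k2 k3 k4 k5 k6
  refine ⟨⟨?_, ?_⟩, ⟨?_, ?_⟩, ⟨?_, ?_⟩⟩ <;> linarith

lemma mem_of_weights (p : Fin 2 → ℝ) (w : Fin 6 → ℝ) (h : ∀ i, 0 ≤ w i)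
    (hs : w 0 + w 1 + w 2 + w 3 + w 4 + w 5 = 1)
    (h0 : w 0 + w 1 - w 3 - w 4 = p 0) (h1 : w 1 + w 2 - w 4 - w 5 = p 1) :
    p ∈ convexHull ℝ (range PR) := by
  rw [mem_hull]
  refine ⟨w, h, ?_, ?_⟩
  · rw [Fin.sum_univ_six]; exact hs
  · rw [Fin.sum_univ_six]
    funext j
    fin_cases j
    · simp [PR, PZ]; linarith
    · simp [PR, PZ]; linarith

lemma hex_mem (p : Fin 2 → ℝ) (h1 : p 0 ≤ 1) (h2 : -1 ≤ p 0) (h3 : p 1 ≤ 1) (h4 : -1 ≤ p 1)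
    (h5 : p 0 - p 1 ≤ 1) (h6 : -1 ≤ p 0 - p 1) : p ∈ convexHull ℝ (range PR) := by
  rcases le_total 0 (p 0) with hx | hx <;> rcases le_total 0 (p 1) with hy | hy
  · rcases le_total (p 1) (p 0) with hxy | hxy
    · -- α P0 + β P1, α = x - y, β = y
      refine mem_of_weights p ![p 0 - p 1 + (1 - p 0) / 2, p 1, 0, (1 - p 0) / 2, 0, 0] ?_ ?_ ?_ ?_
      · intro i
        fin_cases i
        · show 0 ≤ p 0 - p 1 + (1 - p 0) / 2; linarith
        · show 0 ≤ p 1; linarith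
        · show (0 : ℝ) ≤ 0; exact le_refl _
        · show 0 ≤ (1 - p 0) / 2; linarith
        · show (0 : ℝ) ≤ 0; exact le_refl _
        · show (0 : ℝ) ≤ 0; exact le_refl _
      · show p 0 - p 1 + (1 - p 0) / 2 + p 1 + 0 + (1 - p 0) / 2 + 0 + 0 = 1; ring
      · show p 0 - p 1 + (1 - p 0) / 2 + p 1 - (1 - p 0) / 2 - 0 = p 0; ring
      · show p 1 + 0 - 0 - 0 = p 1; ring
    · -- α P1 + β P2, α = x, β = y - x
      refine mem_of_weights p ![(1 - p 1) / 2, p 0, p 1 - p 0, (1 - p 1) / 2, 0, 0] ?_ ?_ ?_ ?_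
      · intro i
        fin_cases i
        · show 0 ≤ (1 - p 1) / 2; linarith
        · show 0 ≤ p 0; linarith
        · show 0 ≤ p 1 - p 0; linarith
        · show 0 ≤ (1 - p 1) / 2; linarith
        · show (0 : ℝ) ≤ 0; exact le_refl _
        · show (0 : ℝ) ≤ 0; exact le_refl _
      · show (1 - p 1) / 2 + p 0 + (p 1 - p 0) + (1 - p 1) / 2 + 0 + 0 = 1; ring
      · show (1 - p 1) / 2 + p 0 - (1 - p 1) / 2 - 0 = p 0; ring
      · show p 0 + (p 1 - p 0) - 0 - 0 = p 1; ring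
  · -- x ≥ 0, y ≤ 0 : α P0 + β P5, α = x, β = -y
    refine mem_of_weights p ![p 0 + (1 - p 0 + p 1) / 2, 0, 0, (1 - p 0 + p 1) / 2, 0, - p 1] ?_ ?_ ?_ ?_
    · intro i
      fin_cases i
      · show 0 ≤ p 0 + (1 - p 0 + p 1) / 2; linarith
      · show (0 : ℝ) ≤ 0; exact le_refl _
      · show (0 : ℝ) ≤ 0; exact le_refl _
      · show 0 ≤ (1 - p 0 + p 1) / 2; linarith
      · show (0 : ℝ) ≤ 0; exact le_refl _
      · show 0 ≤ - p 1; linarith
    · show p 0 + (1 - p 0 + p 1) / 2 + 0 + 0 + (1 - p 0 + p 1) / 2 + 0 + - p 1 = 1; ring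
    · show p 0 + (1 - p 0 + p 1) / 2 + 0 - (1 - p 0 + p 1) / 2 - 0 = p 0; ring
    · show (0 : ℝ) + 0 - 0 - (- p 1) = p 1; ring
  · -- x ≤ 0, y ≥ 0 : α P3 + β P2
    refine mem_of_weights p ![(1 + p 0 - p 1) / 2, 0, p 1, - p 0 + (1 + p 0 - p 1) / 2, 0, 0] ?_ ?_ ?_ ?_
    · intro i
      fin_cases i
      · show 0 ≤ (1 + p 0 - p 1) / 2; linarith
      · show (0 : ℝ) ≤ 0; exact le_refl _
      · show 0 ≤ p 1; linarith
      · show 0 ≤ - p 0 + (1 + p 0 - p 1) / 2; linarith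
      · show (0 : ℝ) ≤ 0; exact le_refl _
      · show (0 : ℝ) ≤ 0; exact le_refl _
    · show (1 + p 0 - p 1) / 2 + 0 + p 1 + (- p 0 + (1 + p 0 - p 1) / 2) + 0 + 0 = 1; ring
    · show (1 + p 0 - p 1) / 2 + 0 - (- p 0 + (1 + p 0 - p 1) / 2) - 0 = p 0; ring
    · show (0 : ℝ) + p 1 - 0 - 0 = p 1; ring
  · rcases le_total (p 1) (p 0) with hxy | hxy
    · -- y ≤ x ≤ 0 : α P4 + β P5, α = -x, β = x - y
      refine mem_of_weights p ![(1 + p 1) / 2, 0, 0, (1 + p 1) / 2, - p 0, p 0 - p 1] ?_ ?_ ?_ ?_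
      · intro i
        fin_cases i
        · show 0 ≤ (1 + p 1) / 2; linarith
        · show (0 : ℝ) ≤ 0; exact le_refl _
        · show (0 : ℝ) ≤ 0; exact le_refl _
        · show 0 ≤ (1 + p 1) / 2; linarith
        · show 0 ≤ - p 0; linarith
        · show 0 ≤ p 0 - p 1; linarith
      · show (1 + p 1) / 2 + 0 + 0 + (1 + p 1) / 2 + - p 0 + (p 0 - p 1) = 1; ring
      · show (1 + p 1) / 2 + 0 - (1 + p 1) / 2 - (- p 0) = p 0; ring
      · show (0 : ℝ) + 0 - (- p 0) - (p 0 - p 1) = p 1; ring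
    · -- x ≤ y ≤ 0 : α P3 + β P4, α = y - x, β = -y
      refine mem_of_weights p ![(1 + p 0) / 2, 0, 0, (1 + p 0) / 2 + (p 1 - p 0), - p 1, 0] ?_ ?_ ?_ ?_
      · intro i
        fin_cases i
        · show 0 ≤ (1 + p 0) / 2; linarith
        · show (0 : ℝ) ≤ 0; exact le_refl _
        · show (0 : ℝ) ≤ 0; exact le_refl _
        · show 0 ≤ (1 + p 0) / 2 + (p 1 - p 0); linarith
        · show 0 ≤ - p 1; linarith
        · show (0 : ℝ) ≤ 0; exact le_refl _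
      · show (1 + p 0) / 2 + 0 + 0 + ((1 + p 0) / 2 + (p 1 - p 0)) + - p 1 + 0 = 1; ring
      · show (1 + p 0) / 2 + 0 - ((1 + p 0) / 2 + (p 1 - p 0)) - (- p 1) = p 0; ring
      · show (0 : ℝ) + 0 - (- p 1) - 0 = p 1; ring

lemma frontier_facet (p : Fin 2 → ℝ) (hp : p ∈ frontier (convexHull ℝ (range PR))) :
    ¬ (|p 0| < 1 ∧ |p 1| < 1 ∧ |p 0 - p 1| < 1) := by
  rintro ⟨h0, h1, h2⟩
  have hint : p ∈ interior (convexHull ℝ (range PR)) := by
    rw [mem_interior]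
    refine ⟨{x : Fin 2 → ℝ | |x 0| < 1} ∩ {x | |x 1| < 1} ∩ {x | |x 0 - x 1| < 1}, ?_, ?_, ?_⟩
    · rintro x ⟨⟨hx0, hx1⟩, hx2⟩
      simp only [mem_ofPred_eq, abs_lt] at hx0 hx1 hx2
      exact hex_mem x hx0.2.le hx0.1.le hx1.2.le hx1.1.le hx2.2.le hx2.1.le
    · refine IsOpen.inter (IsOpen.inter ?_ ?_) ?_
      · exact isOpen_lt (by fun_prop) continuous_const
      · exact isOpen_lt (by fun_prop) continuous_const
      · exact isOpen_lt (by fun_prop) continuous_const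
    · exact ⟨⟨h0, h1⟩, h2⟩
  exact hp.2 hint

/-- cyclic neighbours -/
def nb (a b : Fin 6) : Prop := b = a + 1 ∨ a = b + 1

instance (a b : Fin 6) : Decidable (nb a b) := by unfold nb; infer_instance

lemma nb_of_facet : ∀ a b : Fin 6, a ≠ b →
    (|PZ a 0 + PZ b 0| = 2 ∨ |PZ a 1 + PZ b 1| = 2 ∨
      |(PZ a 0 + PZ b 0) - (PZ a 1 + PZ b 1)| = 2) → nb a b := by
  decide

lemma facet_bound : ∀ a b : Fin 6, |PZ a 0 + PZ b 0| ≤ 2 ∧ |PZ a 1 + PZ b 1| ≤ 2 ∧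
      |(PZ a 0 + PZ b 0) - (PZ a 1 + PZ b 1)| ≤ 2 := by
  decide

lemma placement : ∀ a b : Fin 6, nb a b → ∀ c : Fin 6, nb b c → a ≠ c → ∀ d : Fin 6, nb c d →
    b ≠ d → ∀ e : Fin 6, nb d e → c ≠ e → ∀ g : Fin 6, nb e g → d ≠ g →
    ∀ j : Fin 2, PZ d j = - PZ a j ∧ PZ e j = - PZ b j ∧ PZ g j = - PZ c j ∧
      PZ b j = PZ a j + PZ c j := by
  decide

end Pool.Agent.H240R3.Shadow
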