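import Pool.Agent.H240R3.ShadowC

set_option autoImplicit false

namespace Pool.Agent.H240R3.Shadow

open Set

/-- the closed walk 0,1,2,3,4,5,0 -/
def cyc : GG.Walk 0 0 :=
  .cons (v := 1) (by show adjB 0 1 = true; decide)
  (.cons (v := 2) (by show adjB 1 2 = true; decide)
  (.cons (v := 3) (by show adjB 2 3 = true; decide)
  (.cons (v := 4) (by show adjB 3 4 = true; decide)
  (.cons (v := 5) (by show adjB 4 5 = true; decide)
  (.cons (v := 0) (by show adjB 5 0 = true; decide) .nil)))))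

lemma cyc_isCycle : cyc.IsCycle := by
  rw [SimpleGraph.Walk.isCycle_def]
  refine ⟨?_, ?_, ?_⟩
  · rw [SimpleGraph.Walk.isTrail_def]
    decide
  · intro h
    have := congrArg SimpleGraph.Walk.length h
    simp [cyc] at this
  · decide

lemma cyc_length : cyc.length = 6 := rfl

lemma pos_mul_cases {x y : ℝ} (h : 0 < x * y) : (0 < x → 0 < y) ∧ (x < 0 → y < 0) := by
  constructor
  · intro hx
    exact (pos_iff_pos_of_mul_pos h).1 hx
  · intro hx
    by_contra hy
    push Not at hy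
    nlinarith

/-- the arithmetic contradiction -/
lemma arith (h0 h1 h2 h3 h4 h5 : ℝ)
    (e1 : 0 < (((1 - (1/2 : ℝ)) * h2 + (1/2) * h5) - ((1 - (1/2 : ℝ)) * h0 + (1/2) * h3)) *
      (((1 - (1/2 : ℝ)) * h2 + (1/2) * h5) - ((1 - (1/2 : ℝ)) * h1 + (1/2) * h4)))
    (e2 : 0 < (((1 - (1/2 : ℝ)) * h0 + (1/2) * h3) - ((1 - (1/2 : ℝ)) * h2 + (1/2) * h5)) *
      (((1 - (1/4 : ℝ)) * h0 + (1/4) * h3) - ((1 - (1/2 : ℝ)) * h1 + (1/2) * h5)))
    (e2' : 0 < (((1 - (1/2 : ℝ)) * h0 + (1/2) * h3) - ((1 - (1/2 : ℝ)) * h2 + (1/2) * h5)) *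
      (((1 - (3/4 : ℝ)) * h0 + (3/4) * h3) - ((1 - (1/2 : ℝ)) * h2 + (1/2) * h4)))
    (e3 : 0 < (((1 - (1/2 : ℝ)) * h1 + (1/2) * h5) - ((1 - (1/4 : ℝ)) * h0 + (1/4) * h3)) *
      (((1 - (1/3 : ℝ)) * h1 + (1/3) * h5) - ((1 - (1/3 : ℝ)) * h0 + (1/3) * h2)))
    (e4 : 0 < (((1 - (1/3 : ℝ)) * h0 + (1/3) * h2) - ((1 - (1/3 : ℝ)) * h1 + (1/3) * h5)) *
      (((1 - (2/3 : ℝ)) * h0 + (2/3) * h2) - ((1 - (1/3 : ℝ)) * h1 + (1/3) * h3)))
    (e5 : 0 < (((1 - (1/2 : ℝ)) * h2 + (1/2) * h4) - ((1 - (3/4 : ℝ)) * h0 + (3/4) * h3)) *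
      (((1 - (2/3 : ℝ)) * h2 + (2/3) * h4) - ((1 - (1/3 : ℝ)) * h3 + (1/3) * h5)))
    (e6 : 0 < (((1 - (1/3 : ℝ)) * h3 + (1/3) * h5) - ((1 - (2/3 : ℝ)) * h2 + (2/3) * h4)) *
      (((1 - (2/3 : ℝ)) * h3 + (2/3) * h5) - ((1 - (1/3 : ℝ)) * h4 + (1/3) * h0))) : False := by
  obtain ⟨a1, b1⟩ := pos_mul_cases e1
  obtain ⟨a2, b2⟩ := pos_mul_cases e2
  obtain ⟨a2', b2'⟩ := pos_mul_cases e2'
  obtain ⟨a3, b3⟩ := pos_mul_cases e3
  obtain ⟨a4, b4⟩ := pos_mul_cases e4
  obtain ⟨a5, b5⟩ := pos_mul_cases e5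
  obtain ⟨a6, b6⟩ := pos_mul_cases e6
  rcases lt_trichotomy (((1 - (1/2 : ℝ)) * h2 + (1/2) * h5) - ((1 - (1/2 : ℝ)) * h0 + (1/2) * h3)) 0
    with h | h | h
  · have c1 := b1 h
    have c2 := a2 (by linarith)
    have c2' := a2' (by linarith)
    have c3 := b3 (by linarith)
    have c4 := a4 (by linarith)
    have c5 := b5 (by linarith)
    have c6 := a6 (by linarith)
    linarith
  · rw [h, zero_mul] at e1
    exact lt_irrefl _ e1
  · have c1 := a1 h
    have c2 := b2 (by linarith)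
    have c2' := b2' (by linarith)
    have c3 := a3 (by linarith)
    have c4 := b4 (by linarith)
    have c5 := a5 (by linarith)
    have c6 := b6 (by linarith)
    linarith

lemma not_in_seg {f : Fin 6 → (Fin 3 → ℝ)} (hinj : Function.Injective f)
    (hv : ∀ w, f w ∈ Set.extremePoints ℝ (convexHull ℝ (range f))) (a b c : Fin 6)
    (h1 : a ≠ c) (h2 : b ≠ c) : f c ∉ segment ℝ (f a) (f b) := by
  intro h
  have hc := hv c
  have ha : f a ∈ convexHull ℝ (range f) := subset_convexHull ℝ _ (mem_range_self a)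
  have hb : f b ∈ convexHull ℝ (range f) := subset_convexHull ℝ _ (mem_range_self b)
  have h' := mem_openSegment_of_ne_left_right (fun e => h1 (hinj e)) (fun e => h2 (hinj e)) h
  exact h1 (hinj (hc.2 ha hb h'))

lemma no_realization (f : Fin 6 → (Fin 3 → ℝ)) (hinj : Function.Injective f)
    (hv : ∀ w, f w ∈ Set.extremePoints ℝ (convexHull ℝ (range f)))
    (hadj : ∀ u w, GG.Adj u w ↔
            (u ≠ w ∧ IsExtreme ℝ (convexHull ℝ (Set.range f)) (segment ℝ (f u) (f w))))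
    (himg : (fun p : Fin 3 → ℝ => ![p 0, p 1]) '' convexHull ℝ (Set.range f)
            = convexHull ℝ (TT : Set (Fin 2 → ℝ)))
    (hcyc : ((fun p : Fin 3 → ℝ => ![p 0, p 1]) ⁻¹' frontier (convexHull ℝ (TT : Set (Fin 2 → ℝ))))
              ∩ convexHull ℝ (Set.range f)
            = ⋃ d ∈ cyc.darts, segment ℝ (f d.fst) (f d.snd)) : False := by
  rw [coe_TT] at himg hcyc
  have hmem : ∀ i, f i ∈ convexHull ℝ (range f) := fun i => subset_convexHull ℝ _ (mem_range_self i)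
  have hQ : ∀ i, (![f i 0, f i 1] : Fin 2 → ℝ) ∈ convexHull ℝ (range PR) := by
    intro i
    rw [← himg]
    exact ⟨f i, hmem i, rfl⟩
  -- every vertex of the hexagon is hit
  have hsurj : ∀ k : Fin 6, ∃ j : Fin 6, (![f j 0, f j 1] : Fin 2 → ℝ) = PR k := by
    intro k
    have hk : PR k ∈ convexHull ℝ (range PR) := subset_convexHull ℝ _ (mem_range_self k)
    rw [← himg] at hk
    obtain ⟨p, hp, hpk⟩ := hk
    by_contra hcon
    push Not at hcon
    -- functional is < 2 at each f j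
    have hlt : ∀ j, (WZ k 0 : ℝ) * f j 0 + (WZ k 1 : ℝ) * f j 1 < 2 := by
      intro j
      by_contra hge
      push Not at hge
      apply hcon j
      obtain ⟨⟨a1, a2⟩, ⟨a3, a4⟩, ⟨a5, a6⟩⟩ := hex_le _ (hQ j)
      have b0 : (![f j 0, f j 1] : Fin 2 → ℝ) 0 = f j 0 := rfl
      have b1 : (![f j 0, f j 1] : Fin 2 → ℝ) 1 = f j 1 := rfl
      rw [b0] at a1 a2 a5 a6
      rw [b1] at a3 a4 a5 a6
      funext i
      fin_cases k <;> fin_cases i <;> simp [WZ, PR, PZ] at hge ⊢ <;> linarith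
    obtain ⟨w, hw0, hw1, hwp⟩ := (mem_hull f p).1 hp
    have e0 : p 0 = ∑ j, w j * f j 0 := by
      rw [← hwp, Finset.sum_apply]; rfl
    have e1 : p 1 = ∑ j, w j * f j 1 := by
      rw [← hwp, Finset.sum_apply]; rfl
    have hp0 : p 0 = PR k 0 := congrFun hpk 0
    have hp1 : p 1 = PR k 1 := congrFun hpk 1
    have hval : (WZ k 0 : ℝ) * p 0 + (WZ k 1 : ℝ) * p 1 = 2 := by
      rw [hp0, hp1]
      unfold PR
      exact_mod_cast W_self k
    have hsum : (WZ k 0 : ℝ) * p 0 + (WZ k 1 : ℝ) * p 1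
        = ∑ j, w j * ((WZ k 0 : ℝ) * f j 0 + (WZ k 1 : ℝ) * f j 1) := by
      rw [e0, e1, Finset.mul_sum, Finset.mul_sum, ← Finset.sum_add_distrib]
      refine Finset.sum_congr rfl (fun j _ => ?_)
      ring
    have hpos : ∃ j, 0 < w j := by
      by_contra hn
      push Not at hn
      have : ∑ i, w i ≤ 0 := Finset.sum_nonpos (fun i _ => hn i)
      rw [hw1] at this
      linarith
    obtain ⟨j0, hj0⟩ := hpos
    have : ∑ j, w j * ((WZ k 0 : ℝ) * f j 0 + (WZ k 1 : ℝ) * f j 1) < ∑ j, w j * 2 := by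
      apply Finset.sum_lt_sum
      · intro j _
        exact mul_le_mul_of_nonneg_left (hlt j).le (hw0 j)
      · exact ⟨j0, Finset.mem_univ _, mul_lt_mul_of_pos_left (hlt j0) hj0⟩
    rw [← hsum, hval, ← Finset.sum_mul, hw1] at this
    linarith
  choose τ hτ using hsurj
  have hτinj : Function.Injective τ := by
    intro a b hab
    apply PR_injective
    rw [← hτ a, ← hτ b, hab]
  have hτbij : Function.Bijective τ := Finite.injective_iff_bijective.1 hτinj
  obtain ⟨σ, hσ⟩ : ∃ σ : Fin 6 → Fin 6, ∀ i, τ (σ i) = i :=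
    ⟨fun i => Classical.choose (hτbij.2 i), fun i => Classical.choose_spec (hτbij.2 i)⟩
  have hσinj : Function.Injective σ := by
    intro a b hab
    rw [← hσ a, ← hσ b, hab]
  have hpos : ∀ i, (![f i 0, f i 1] : Fin 2 → ℝ) = PR (σ i) := by
    intro i
    have := hτ (σ i)
    rwa [hσ i] at this
  have hp0 : ∀ i, f i 0 = (PZ (σ i) 0 : ℝ) := fun i => congrFun (hpos i) 0
  have hp1 : ∀ i, f i 1 = (PZ (σ i) 1 : ℝ) := fun i => congrFun (hpos i) 1
  -- neighbours on the cycle are neighbours on the hexagon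
  have hnb : ∀ u v : Fin 6, u ≠ v → (∃ d ∈ cyc.darts, d.fst = u ∧ d.snd = v) → nb (σ u) (σ v) := by
    rintro u v huv ⟨d, hd, rfl, rfl⟩
    apply nb_of_facet
    · intro h; exact huv (hσinj h)
    · set m : Fin 3 → ℝ := (1/2 : ℝ) • f d.fst + (1/2 : ℝ) • f d.snd with hm
      have hmseg : m ∈ segment ℝ (f d.fst) (f d.snd) :=
        ⟨1/2, 1/2, by norm_num, by norm_num, by norm_num, rfl⟩
      have hmU : m ∈ ⋃ d ∈ cyc.darts, segment ℝ (f d.fst) (f d.snd) := by
        simp only [mem_iUnion]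
        exact ⟨d, hd, hmseg⟩
      rw [← hcyc] at hmU
      have hfr := frontier_facet _ hmU.1
      have m0 : m 0 = ((PZ (σ d.fst) 0 : ℝ) + PZ (σ d.snd) 0) / 2 := by
        rw [hm, Pi.add_apply, Pi.smul_apply, Pi.smul_apply, smul_eq_mul, smul_eq_mul, hp0, hp0]
        ring
      have m1 : m 1 = ((PZ (σ d.fst) 1 : ℝ) + PZ (σ d.snd) 1) / 2 := by
        rw [hm, Pi.add_apply, Pi.smul_apply, Pi.smul_apply, smul_eq_mul, smul_eq_mul, hp1, hp1]
        ring
      by_contra hcon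
      push Not at hcon
      obtain ⟨n0, n1, n2⟩ := hcon
      obtain ⟨l0, l1, l2⟩ := facet_bound (σ d.fst) (σ d.snd)
      have k0 := lt_of_le_of_ne l0 n0
      have k1 := lt_of_le_of_ne l1 n1
      have k2 := lt_of_le_of_ne l2 n2
      apply hfr
      have c0 : (![m 0, m 1] : Fin 2 → ℝ) 0 = m 0 := rfl
      have c1 : (![m 0, m 1] : Fin 2 → ℝ) 1 = m 1 := rfl
      have k0' : |((PZ (σ d.fst) 0 : ℝ) + PZ (σ d.snd) 0)| < 2 := by exact_mod_cast k0
      have k1' : |((PZ (σ d.fst) 1 : ℝ) + PZ (σ d.snd) 1)| < 2 := by exact_mod_cast k1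
      have k2' : |((PZ (σ d.fst) 0 : ℝ) + PZ (σ d.snd) 0) -
          ((PZ (σ d.fst) 1 : ℝ) + PZ (σ d.snd) 1)| < 2 := by exact_mod_cast k2
      refine ⟨?_, ?_, ?_⟩
      · show |m 0| < 1
        rw [m0, abs_div]
        rw [abs_two]; linarith
      · show |m 1| < 1
        rw [m1, abs_div]
        rw [abs_two]; linarith
      · show |m 0 - m 1| < 1
        rw [m0, m1, ← sub_div, abs_div]
        rw [abs_two]; linarith
  have hn01 := hnb 0 1 (by decide) ⟨⟨(0, 1), by show adjB 0 1 = true; decide⟩, by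
    simp [cyc], rfl, rfl⟩
  have hn12 := hnb 1 2 (by decide) ⟨⟨(1, 2), by show adjB 1 2 = true; decide⟩, by
    simp [cyc], rfl, rfl⟩
  have hn23 := hnb 2 3 (by decide) ⟨⟨(2, 3), by show adjB 2 3 = true; decide⟩, by
    simp [cyc], rfl, rfl⟩
  have hn34 := hnb 3 4 (by decide) ⟨⟨(3, 4), by show adjB 3 4 = true; decide⟩, by
    simp [cyc], rfl, rfl⟩
  have hn45 := hnb 4 5 (by decide) ⟨⟨(4, 5), by show adjB 4 5 = true; decide⟩, by
    simp [cyc], rfl, rfl⟩
  have hne : ∀ a b : Fin 6, a ≠ b → σ a ≠ σ b := fun a b hab h => hab (hσinj h)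
  have hrel := placement (σ 0) (σ 1) hn01 (σ 2) hn12 (hne 0 2 (by decide)) (σ 3) hn23
    (hne 1 3 (by decide)) (σ 4) hn34 (hne 2 4 (by decide)) (σ 5) hn45 (hne 3 5 (by decide))
  have r0 := hrel 0
  have r1 := hrel 1
  have x3 : f 3 0 = - f 0 0 := by rw [hp0, hp0, r0.1]; push_cast; ring
  have x4 : f 4 0 = - f 1 0 := by rw [hp0, hp0, r0.2.1]; push_cast; ring
  have x5 : f 5 0 = - f 2 0 := by rw [hp0, hp0, r0.2.2.1]; push_cast; ring
  have x1 : f 1 0 = f 0 0 + f 2 0 := by rw [hp0, hp0, hp0, r0.2.2.2]; push_cast; ring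
  have y3 : f 3 1 = - f 0 1 := by rw [hp1, hp1, r1.1]; push_cast; ring
  have y4 : f 4 1 = - f 1 1 := by rw [hp1, hp1, r1.2.1]; push_cast; ring
  have y5 : f 5 1 = - f 2 1 := by rw [hp1, hp1, r1.2.2.1]; push_cast; ring
  have y1 : f 1 1 = f 0 1 + f 2 1 := by rw [hp1, hp1, hp1, r1.2.2.2]; push_cast; ring
  have hext : ∀ u v, adjB u v = true →
      IsExtreme ℝ (convexHull ℝ (range f)) (segment ℝ (f u) (f v)) :=
    fun u v h => ((hadj u v).1 h).2
  have hconv := convex_convexHull ℝ (range f)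
  have e1 := sign_consistent _ hconv (f 2) (f 5) (f 0) (f 3) (f 1) (f 4) (hext 2 5 (by decide))
    (hmem _) (hmem _) (hmem _) (hmem _) (not_in_seg hinj hv 2 5 0 (by decide) (by decide))
    (not_in_seg hinj hv 2 5 1 (by decide) (by decide)) (1/2) (1/2) (1/2) (1/2)
    (by norm_num) (by norm_num) (by norm_num) (by norm_num) (by norm_num) (by norm_num)
    (by norm_num) (by norm_num) (by linarith) (by linarith) (by linarith) (by linarith)
  have e2 := sign_consistent _ hconv (f 0) (f 3) (f 2) (f 5) (f 1) (f 5) (hext 0 3 (by decide))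
    (hmem _) (hmem _) (hmem _) (hmem _) (not_in_seg hinj hv 0 3 2 (by decide) (by decide))
    (not_in_seg hinj hv 0 3 1 (by decide) (by decide)) (1/2) (1/2) (1/4) (1/2)
    (by norm_num) (by norm_num) (by norm_num) (by norm_num) (by norm_num) (by norm_num)
    (by norm_num) (by norm_num) (by linarith) (by linarith) (by linarith) (by linarith)
  have e2' := sign_consistent _ hconv (f 0) (f 3) (f 2) (f 5) (f 2) (f 4) (hext 0 3 (by decide))
    (hmem _) (hmem _) (hmem _) (hmem _) (not_in_seg hinj hv 0 3 2 (by decide) (by decide))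
    (not_in_seg hinj hv 0 3 2 (by decide) (by decide)) (1/2) (1/2) (3/4) (1/2)
    (by norm_num) (by norm_num) (by norm_num) (by norm_num) (by norm_num) (by norm_num)
    (by norm_num) (by norm_num) (by linarith) (by linarith) (by linarith) (by linarith)
  have e3 := sign_consistent _ hconv (f 1) (f 5) (f 0) (f 3) (f 0) (f 2) (hext 1 5 (by decide))
    (hmem _) (hmem _) (hmem _) (hmem _) (not_in_seg hinj hv 1 5 0 (by decide) (by decide))
    (not_in_seg hinj hv 1 5 0 (by decide) (by decide)) (1/2) (1/4) (1/3) (1/3)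
    (by norm_num) (by norm_num) (by norm_num) (by norm_num) (by norm_num) (by norm_num)
    (by norm_num) (by norm_num) (by linarith) (by linarith) (by linarith) (by linarith)
  have e4 := sign_consistent _ hconv (f 0) (f 2) (f 1) (f 5) (f 1) (f 3) (hext 0 2 (by decide))
    (hmem _) (hmem _) (hmem _) (hmem _) (not_in_seg hinj hv 0 2 1 (by decide) (by decide))
    (not_in_seg hinj hv 0 2 1 (by decide) (by decide)) (1/3) (1/3) (2/3) (1/3)
    (by norm_num) (by norm_num) (by norm_num) (by norm_num) (by norm_num) (by norm_num)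
    (by norm_num) (by norm_num) (by linarith) (by linarith) (by linarith) (by linarith)
  have e5 := sign_consistent _ hconv (f 2) (f 4) (f 0) (f 3) (f 3) (f 5) (hext 2 4 (by decide))
    (hmem _) (hmem _) (hmem _) (hmem _) (not_in_seg hinj hv 2 4 0 (by decide) (by decide))
    (not_in_seg hinj hv 2 4 3 (by decide) (by decide)) (1/2) (3/4) (2/3) (1/3)
    (by norm_num) (by norm_num) (by norm_num) (by norm_num) (by norm_num) (by norm_num)
    (by norm_num) (by norm_num) (by linarith) (by linarith) (by linarith) (by linarith)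
  have e6 := sign_consistent _ hconv (f 3) (f 5) (f 2) (f 4) (f 4) (f 0) (hext 3 5 (by decide))
    (hmem _) (hmem _) (hmem _) (hmem _) (not_in_seg hinj hv 3 5 2 (by decide) (by decide))
    (not_in_seg hinj hv 3 5 4 (by decide) (by decide)) (1/3) (2/3) (2/3) (1/3)
    (by norm_num) (by norm_num) (by norm_num) (by norm_num) (by norm_num) (by norm_num)
    (by norm_num) (by norm_num) (by linarith) (by linarith) (by linarith) (by linarith)
  exact arith (f 0 2) (f 1 2) (f 2 2) (f 3 2) (f 4 2) (f 5 2) e1 e2 e2' e3 e4 e5 e6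

end Pool.Agent.H240R3.Shadow
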