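import Mathlib
set_option autoImplicit false

namespace Pool.Agent.H240R3

open Finset

/-- `A` (in the word with values `Y`) and `B` (in the word with values `Z`) can be split into `κ`
pairs of order-isomorphic parts. -/
def Sim {n : ℕ} (Y Z : Fin n → ℕ) (κ : ℕ) (A B : Finset (Fin n)) : Prop :=
  ∃ (c : Fin n → ℕ) (g : Fin n → Fin n), (∀ a ∈ A, c a < κ) ∧ Set.BijOn g (A : Set (Fin n)) B ∧
    ∀ a ∈ A, ∀ a' ∈ A, c a = c a' →
      ((a < a' ↔ g a < g a') ∧ (Y a < Y a' ↔ Z (g a) < Z (g a')))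

theorem Sim.card_eq {n : ℕ} {Y Z : Fin n → ℕ} {κ : ℕ} {A B : Finset (Fin n)}
    (h : Sim Y Z κ A B) : A.card = B.card := by
  obtain ⟨c, g, _, hg, _⟩ := h
  have : B = A.image g := by
    ext x
    constructor
    · intro hx
      obtain ⟨a, ha, rfl⟩ := hg.surjOn hx
      exact Finset.mem_image_of_mem _ ha
    · intro hx
      obtain ⟨a, ha, rfl⟩ := Finset.mem_image.1 hx
      exact hg.mapsTo ha
  rw [this, Finset.card_image_of_injOn hg.injOn]

theorem Sim.mono {n : ℕ} {Y Z : Fin n → ℕ} {κ κ' : ℕ} {A B : Finset (Fin n)}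
    (h : Sim Y Z κ A B) (hk : κ ≤ κ') : Sim Y Z κ' A B := by
  obtain ⟨c, g, hc, hg, h2⟩ := h
  exact ⟨c, g, fun a ha => lt_of_lt_of_le (hc a ha) hk, hg, h2⟩

theorem Sim.symm {n : ℕ} {Y Z : Fin n → ℕ} {κ : ℕ} {A B : Finset (Fin n)}
    (h : Sim Y Z κ A B) : Sim Z Y κ B A := by
  obtain ⟨c, g, hc, hg, h2⟩ := h
  rcases isEmpty_or_nonempty (Fin n) with hn | hn
  · refine ⟨c, g, fun a _ => (hn.false a).elim, ?_, fun a _ => (hn.false a).elim⟩
    have : A = B := by ext x; exact (hn.false x).elim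
    subst this
    exact hg
  have hinv := hg.invOn_invFunOn
  have hbij : Set.BijOn (Function.invFunOn g (A : Set (Fin n))) B A := hg.symm hinv.symm
  refine ⟨fun b => c (Function.invFunOn g (A : Set (Fin n)) b), Function.invFunOn g (A : Set (Fin n)), ?_,
    hbij, ?_⟩
  · intro b hb
    exact hc _ (hbij.mapsTo hb)
  · intro b hb b' hb' hcc
    have h3 := h2 _ (hbij.mapsTo hb) _ (hbij.mapsTo hb') hcc
    have e1 : g (Function.invFunOn g (A : Set (Fin n)) b) = b := hinv.2 hb
    have e2 : g (Function.invFunOn g (A : Set (Fin n)) b') = b' := hinv.2 hb'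
    rw [e1, e2] at h3
    exact ⟨h3.1.symm, h3.2.symm⟩

theorem Sim.union {n : ℕ} {Y Z : Fin n → ℕ} {κ κ' : ℕ} {A B A' B' : Finset (Fin n)}
    (h : Sim Y Z κ A B) (h' : Sim Y Z κ' A' B') (hA : Disjoint A A') (hB : Disjoint B B') :
    Sim Y Z (κ + κ') (A ∪ A') (B ∪ B') := by
  classical
  obtain ⟨c, g, hc, hg, h2⟩ := h
  obtain ⟨c', g', hc', hg', h2'⟩ := h'
  have hnot : ∀ a ∈ A', a ∉ A := fun a ha ha' => (Finset.disjoint_left.1 hA ha' ha)
  refine ⟨fun a => if a ∈ A then c a else κ + c' a, fun a => if a ∈ A then g a else g' a, ?_, ?_, ?_⟩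
  · intro a ha
    rcases Finset.mem_union.1 ha with h | h
    · simp only [h, if_true]
      exact lt_of_lt_of_le (hc a h) (Nat.le_add_right _ _)
    · simp only [hnot a h, if_false]
      have := hc' a h
      omega
  · refine ⟨?_, ?_, ?_⟩
    · intro a ha
      rcases Finset.mem_union.1 (Finset.mem_coe.1 ha) with h | h
      · simp only [h, if_true]
        exact Finset.mem_coe.2 (Finset.mem_union_left _ (hg.mapsTo h))
      · simp only [hnot a h, if_false]
        exact Finset.mem_coe.2 (Finset.mem_union_right _ (hg'.mapsTo h))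
    · intro a ha b hb hab
      rcases Finset.mem_union.1 (Finset.mem_coe.1 ha) with h | h <;>
      rcases Finset.mem_union.1 (Finset.mem_coe.1 hb) with h3 | h3
      · simp only [h, h3, if_true] at hab
        exact hg.injOn h h3 hab
      · simp only [h, hnot b h3, if_true, if_false] at hab
        exact (Finset.disjoint_left.1 hB (hg.mapsTo h) (hab ▸ hg'.mapsTo h3)).elim
      · simp only [h3, hnot a h, if_true, if_false] at hab
        exact (Finset.disjoint_left.1 hB (hg.mapsTo h3) (hab ▸ hg'.mapsTo h)).elim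
      · simp only [hnot a h, hnot b h3, if_false] at hab
        exact hg'.injOn h h3 hab
    · intro b hb
      rcases Finset.mem_union.1 (Finset.mem_coe.1 hb) with h | h
      · obtain ⟨a, ha, rfl⟩ := hg.surjOn h
        refine ⟨a, Finset.mem_coe.2 (Finset.mem_union_left _ ha), ?_⟩
        simp only [Finset.mem_coe.1 ha, if_true]
      · obtain ⟨a, ha, rfl⟩ := hg'.surjOn h
        refine ⟨a, Finset.mem_coe.2 (Finset.mem_union_right _ ha), ?_⟩
        simp only [hnot a ha, if_false]
  · intro a ha b hb hab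
    rcases Finset.mem_union.1 ha with h | h <;> rcases Finset.mem_union.1 hb with h3 | h3
    · simp only [h, h3, if_true] at hab ⊢
      exact h2 a h b h3 hab
    · simp only [h, hnot b h3, if_true, if_false] at hab
      have := hc a h
      omega
    · simp only [h3, hnot a h, if_true, if_false] at hab
      have := hc b h3
      omega
    · simp only [hnot a h, hnot b h3, if_false] at hab ⊢
      exact h2' a h b h3 (by omega)

theorem Sim.empty {n : ℕ} (Y Z : Fin n → ℕ) (κ : ℕ) : Sim Y Z κ ∅ ∅ :=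
  ⟨fun _ => 0, id, by simp, by simp, by simp⟩

theorem Sim.single {n : ℕ} (Y Z : Fin n → ℕ) {A B : Finset (Fin n)} (h : A.card = B.card) :
    Sim Y Z A.card A B := by
  classical
  obtain ⟨e⟩ : Nonempty (A ≃ B) := ⟨Finset.equivOfCardEq h⟩
  rcases isEmpty_or_nonempty (Fin n) with hn | hn
  · have h1 : A = ∅ := by ext x; exact (hn.false x).elim
    have h2 : B = ∅ := by ext x; exact (hn.false x).elim
    subst h1; subst h2
    exact Sim.empty Y Z _
  let e2 := A.equivFin
  refine ⟨fun a => if ha : a ∈ A then (e2 ⟨a, ha⟩ : ℕ) else 0,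
    fun a => if ha : a ∈ A then (e ⟨a, ha⟩ : Fin n) else a, ?_, ⟨?_, ?_, ?_⟩, ?_⟩
  · intro a ha
    simp only [ha, dif_pos]
    exact (e2 ⟨a, ha⟩).2
  · intro a ha
    have ha' : a ∈ A := ha
    simp only [ha', dif_pos]
    exact (e ⟨a, ha'⟩).2
  · intro a ha b hb hab
    have ha' : a ∈ A := ha
    have hb' : b ∈ A := hb
    simp only [ha', hb', dif_pos] at hab
    have := e.injective (Subtype.ext hab)
    simpa using this
  · intro b hb
    refine ⟨(e.symm ⟨b, hb⟩ : Fin n), (e.symm ⟨b, hb⟩).2, ?_⟩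
    simp
  · intro a ha b hb hab
    simp only [ha, hb, dif_pos] at hab
    have h3 := e2.injective (Fin.ext hab)
    have h4 : a = b := by simpa using h3
    subst h4
    simp

/-- torus cell of a point. -/
def cell {n : ℕ} (M N : ℕ) (Y : Fin n → ℕ) (i : Fin n) : ZMod N × ZMod N :=
  (((Y i * N / M : ℕ) : ZMod N), ((i.val * N / n : ℕ) : ZMod N))

theorem lt_iff_div_lt {x y N M : ℕ} (h : x * N / M ≠ y * N / M) :
    (x < y ↔ x * N / M < y * N / M) := by
  constructor
  · intro hxy
    exact lt_of_le_of_ne (Nat.div_le_div_right (Nat.mul_le_mul_right _ hxy.le)) h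
  · intro hxy
    by_contra hc
    exact absurd (Nat.div_le_div_right (c := M) (Nat.mul_le_mul_right N (not_lt.1 hc))) (not_le.2 hxy)

theorem div_lt_N {x N M : ℕ} (hx : x < M) : x * N / M < N ∨ N = 0 := by
  rcases Nat.eq_zero_or_pos N with h | h
  · exact Or.inr h
  · left
    rw [Nat.div_lt_iff_lt_mul (by omega)]
    rw [mul_comm N M]
    exact Nat.mul_lt_mul_of_pos_right hx h

theorem shift_lt {N : ℕ} [NeZero N] (s x y x' y' : ZMod N)
    (hx : x' = x + s) (hy : y' = y + s)
    (hc : (N ≤ x.val + s.val) ↔ (N ≤ y.val + s.val)) :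
    (x.val < y.val ↔ x'.val < y'.val) := by
  subst hx; subst hy
  by_cases h : N ≤ x.val + s.val
  · have h' := hc.1 h
    have e1 := ZMod.val_add_val_of_le h
    have e2 := ZMod.val_add_val_of_le h'
    omega
  · have h' : ¬ N ≤ y.val + s.val := fun hh => h (hc.2 hh)
    have e1 := ZMod.val_add_of_lt (not_le.1 h)
    have e2 := ZMod.val_add_of_lt (not_le.1 h')
    omega

theorem Sim.four {n : ℕ} (M N : ℕ) [NeZero N] (Y Z : Fin n → ℕ) (hY : ∀ i, Y i < M)
    (hZ : ∀ i, Z i < M) (A B : Finset (Fin n)) (g : Fin n → Fin n) (hg : Set.BijOn g (A : Set (Fin n)) B)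
    (s : ZMod N × ZMod N) (hs : ∀ a ∈ A, cell M N Z (g a) = cell M N Y a + s)
    (h1 : ∀ a ∈ A, ∀ b ∈ A, a ≠ b → (cell M N Y a).1 ≠ (cell M N Y b).1)
    (h2 : ∀ a ∈ A, ∀ b ∈ A, a ≠ b → (cell M N Y a).2 ≠ (cell M N Y b).2) :
    Sim Y Z 4 A B := by
  classical
  have hN : N ≠ 0 := NeZero.ne N
  refine ⟨fun a => (if N ≤ (cell M N Y a).1.val + s.1.val then 2 else 0) +
    (if N ≤ (cell M N Y a).2.val + s.2.val then 1 else 0), g, ?_, hg, ?_⟩
  · intro a _
    dsimp only
    split_ifs <;> omega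
  · intro a ha b hb hab
    dsimp only at hab
    by_cases hne : a = b
    · subst hne; simp
    have c1 : (N ≤ (cell M N Y a).1.val + s.1.val) ↔ (N ≤ (cell M N Y b).1.val + s.1.val) := by
      split_ifs at hab <;> omega
    have c2 : (N ≤ (cell M N Y a).2.val + s.2.val) ↔ (N ≤ (cell M N Y b).2.val + s.2.val) := by
      split_ifs at hab <;> omega
    have vr : ∀ (W : Fin n → ℕ), (∀ i, W i < M) → ∀ i, (cell M N W i).1.val = W i * N / M := by
      intro W hW i
      simp only [cell]
      rw [ZMod.val_natCast]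
      exact Nat.mod_eq_of_lt ((div_lt_N (hW i)).resolve_right hN)
    have vc : ∀ (W : Fin n → ℕ) (i : Fin n), (cell M N W i).2.val = i.val * N / n := by
      intro W i
      simp only [cell]
      rw [ZMod.val_natCast]
      exact Nat.mod_eq_of_lt ((div_lt_N i.2).resolve_right hN)
    have ea := hs a ha
    have eb := hs b hb
    have ea1 : (cell M N Z (g a)).1 = (cell M N Y a).1 + s.1 := by rw [ea]; rfl
    have eb1 : (cell M N Z (g b)).1 = (cell M N Y b).1 + s.1 := by rw [eb]; rfl
    have ea2 : (cell M N Z (g a)).2 = (cell M N Y a).2 + s.2 := by rw [ea]; rfl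
    have eb2 : (cell M N Z (g b)).2 = (cell M N Y b).2 + s.2 := by rw [eb]; rfl
    have d1 := h1 a ha b hb hne
    have d2 := h2 a ha b hb hne
    have d1' : (cell M N Z (g a)).1 ≠ (cell M N Z (g b)).1 := by
      rw [ea1, eb1]; intro h; exact d1 (add_right_cancel h)
    have d2' : (cell M N Z (g a)).2 ≠ (cell M N Z (g b)).2 := by
      rw [ea2, eb2]; intro h; exact d2 (add_right_cancel h)
    have k1 := shift_lt s.1 _ _ _ _ ea1 eb1 c1
    have k2 := shift_lt s.2 _ _ _ _ ea2 eb2 c2
    rw [vr Y hY a, vr Y hY b, vr Z hZ, vr Z hZ] at k1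
    rw [vc Y a, vc Y b, vc Z, vc Z] at k2
    have v1 : Y a * N / M ≠ Y b * N / M := by
      rw [← vr Y hY a, ← vr Y hY b]
      exact fun h => d1 (ZMod.val_injective N h)
    have v2 : a.val * N / n ≠ b.val * N / n := by
      rw [← vc Y a, ← vc Y b]
      exact fun h => d2 (ZMod.val_injective N h)
    have v1' : Z (g a) * N / M ≠ Z (g b) * N / M := by
      rw [← vr Z hZ, ← vr Z hZ]
      exact fun h => d1' (ZMod.val_injective N h)
    have v2' : (g a).val * N / n ≠ (g b).val * N / n := by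
      rw [← vc Z, ← vc Z]
      exact fun h => d2' (ZMod.val_injective N h)
    constructor
    · rw [Fin.lt_def, Fin.lt_def, lt_iff_div_lt v2, lt_iff_div_lt v2']
      exact k2
    · rw [lt_iff_div_lt v1, lt_iff_div_lt v1']
      exact k1

/-- Passage to the frozen form. -/
theorem Sim.toFin {n κ K : ℕ} {Y Z : Fin n → ℕ} (h : Sim Y Z κ univ univ) (hK : κ ≤ K) :
    ∃ c : Fin n → Fin K, ∃ g : Equiv.Perm (Fin n), ∀ a a' : Fin n, c a = c a' →
      ((a < a' ↔ g a < g a') ∧ (Y a < Y a' ↔ Z (g a) < Z (g a'))) := by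
  obtain ⟨c, g, hc, hg, h2⟩ := h
  have hinj : Function.Injective g := by
    intro a b hab
    exact hg.injOn (by simp) (by simp) hab
  have hbij : Function.Bijective g := Finite.injective_iff_bijective.1 hinj
  refine ⟨fun a => ⟨c a, lt_of_lt_of_le (hc a (Finset.mem_univ a)) hK⟩, Equiv.ofBijective g hbij, ?_⟩
  intro a a' haa
  exact h2 a (Finset.mem_univ a) a' (Finset.mem_univ a') (by simpa using congrArg Fin.val haa)

end Pool.Agent.H240R3
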