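import Mathlib
set_option autoImplicit false

namespace Pool.Agent.H240R3

open Finset

/-- exponential potential step (averaging over shifts). -/
theorem pot_step {α S L : Type*} [DecidableEq α] [Fintype S] [Nonempty S] [Fintype L]
    (A : Finset α) (X : S → Finset α) (on : α → L → Prop) [∀ a l, Decidable (on a l)]
    (hX : ∀ s, X s ⊆ A) (h1 : ∀ s l, ((X s).filter (fun a => on a l)).card ≤ 1)
    (γ : ℝ)
    (hγ : ∀ l, γ * ((A.filter (fun a => on a l)).card : ℝ) ≤
      ∑ s, (((X s).filter (fun a => on a l)).card : ℝ))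
    (t : ℝ) (ht0 : 0 ≤ t) (ht1 : t ≤ 1) :
    ∃ s, ∑ l, Real.exp (t * (((A \ X s).filter (fun a => on a l)).card : ℝ)) ≤
      ∑ l, Real.exp (t * (1 - γ / (2 * Fintype.card S)) * ((A.filter (fun a => on a l)).card : ℝ)) := by
  classical
  have hS : (0 : ℝ) < Fintype.card S := by exact_mod_cast Fintype.card_pos
  by_contra hcon
  push Not at hcon
  set θ := γ / (2 * Fintype.card S) with hθ
  have hlt : (Fintype.card S : ℝ) * ∑ l, Real.exp (t * (1 - θ) * ((A.filter (fun a => on a l)).card : ℝ))
      < ∑ s, ∑ l, Real.exp (t * (((A \ X s).filter (fun a => on a l)).card : ℝ)) := by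
    calc (Fintype.card S : ℝ) * ∑ l, Real.exp (t * (1 - θ) * ((A.filter (fun a => on a l)).card : ℝ))
        = ∑ s : S, ∑ l, Real.exp (t * (1 - θ) * ((A.filter (fun a => on a l)).card : ℝ)) := by
          rw [Finset.sum_const, nsmul_eq_mul, Finset.card_univ]
      _ < _ := Finset.sum_lt_sum_of_nonempty Finset.univ_nonempty (fun s _ => hcon s)
  have key : ∀ s l, Real.exp (t * (((A \ X s).filter (fun a => on a l)).card : ℝ)) ≤
      Real.exp (t * ((A.filter (fun a => on a l)).card : ℝ)) *
        (1 - t / 2 * (((X s).filter (fun a => on a l)).card : ℝ)) := by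
    intro s l
    have hcard : ((A \ X s).filter (fun a => on a l)).card + ((X s).filter (fun a => on a l)).card
        = (A.filter (fun a => on a l)).card := by
      rw [← Finset.card_union_of_disjoint]
      · congr 1
        ext a
        simp only [mem_union, mem_filter, mem_sdiff]
        constructor
        · rintro (⟨⟨h, _⟩, h3⟩ | ⟨h, h3⟩)
          · exact ⟨h, h3⟩
          · exact ⟨hX s h, h3⟩
        · rintro ⟨h, h3⟩
          by_cases hx : a ∈ X s
          · exact Or.inr ⟨hx, h3⟩
          · exact Or.inl ⟨⟨h, hx⟩, h3⟩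
      · rw [Finset.disjoint_left]
        intro a ha hb
        simp only [mem_filter, mem_sdiff] at ha hb
        exact ha.1.2 hb.1
    have hc2 := h1 s l
    have hx : ((X s).filter (fun a => on a l)).card = 0 ∨ ((X s).filter (fun a => on a l)).card = 1 := by
      omega
    rcases hx with hx | hx
    · rw [hx] at hcard ⊢
      rw [← hcard]
      simp
    · rw [hx] at hcard ⊢
      rw [← hcard]
      push_cast
      have e1 : Real.exp (t * ((((A \ X s).filter (fun a => on a l)).card : ℝ) + 1)) =
          Real.exp (t * (((A \ X s).filter (fun a => on a l)).card : ℝ)) * Real.exp t := by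
        rw [← Real.exp_add]; ring_nf
      rw [e1, mul_assoc]
      have e2 : 1 ≤ Real.exp t * (1 - t / 2 * 1) := by
        have h5 : t + 1 ≤ Real.exp t := Real.add_one_le_exp t
        nlinarith [h5, ht0, ht1]
      have e3 : 0 < Real.exp (t * (((A \ X s).filter (fun a => on a l)).card : ℝ)) := Real.exp_pos _
      nlinarith
  have hle : ∑ s, ∑ l, Real.exp (t * (((A \ X s).filter (fun a => on a l)).card : ℝ)) ≤
      (Fintype.card S : ℝ) * ∑ l, Real.exp (t * (1 - θ) * ((A.filter (fun a => on a l)).card : ℝ)) := by
    rw [Finset.sum_comm, Finset.mul_sum]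
    apply Finset.sum_le_sum
    intro l _
    calc ∑ s, Real.exp (t * (((A \ X s).filter (fun a => on a l)).card : ℝ))
        ≤ ∑ s, Real.exp (t * ((A.filter (fun a => on a l)).card : ℝ)) *
        (1 - t / 2 * (((X s).filter (fun a => on a l)).card : ℝ)) := Finset.sum_le_sum (fun s _ => key s l)
      _ = Real.exp (t * ((A.filter (fun a => on a l)).card : ℝ)) *
          ((Fintype.card S : ℝ) - t / 2 * ∑ s, (((X s).filter (fun a => on a l)).card : ℝ)) := by
          rw [← Finset.mul_sum, Finset.sum_sub_distrib, ← Finset.mul_sum]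
          simp
      _ ≤ Real.exp (t * ((A.filter (fun a => on a l)).card : ℝ)) *
          ((Fintype.card S : ℝ) * (1 - t * θ * ((A.filter (fun a => on a l)).card : ℝ))) := by
          apply mul_le_mul_of_nonneg_left _ (Real.exp_pos _).le
          have h6 := hγ l
          have h7 : (Fintype.card S : ℝ) * (t * θ * ((A.filter (fun a => on a l)).card : ℝ)) =
              t / 2 * (γ * ((A.filter (fun a => on a l)).card : ℝ)) := by
            rw [hθ]; field_simp
          have h8 : t / 2 * (γ * ((A.filter (fun a => on a l)).card : ℝ)) ≤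
              t / 2 * ∑ s, (((X s).filter (fun a => on a l)).card : ℝ) :=
            mul_le_mul_of_nonneg_left h6 (by linarith)
          linarith
      _ ≤ Real.exp (t * ((A.filter (fun a => on a l)).card : ℝ)) *
          ((Fintype.card S : ℝ) * Real.exp (-(t * θ * ((A.filter (fun a => on a l)).card : ℝ)))) := by
          apply mul_le_mul_of_nonneg_left _ (Real.exp_pos _).le
          apply mul_le_mul_of_nonneg_left _ hS.le
          have := Real.add_one_le_exp (-(t * θ * ((A.filter (fun a => on a l)).card : ℝ)))
          linarith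
      _ = (Fintype.card S : ℝ) * Real.exp (t * (1 - θ) * ((A.filter (fun a => on a l)).card : ℝ)) := by
          rw [mul_left_comm, ← Real.exp_add]
          ring_nf
  linarith

section Avg

variable {N : ℕ} [NeZero N]

/-- cells of `CA` matched under the shift `s`. -/
def matched (CA CB : Finset (ZMod N × ZMod N)) (s : ZMod N × ZMod N) : Finset (ZMod N × ZMod N) :=
  CA.filter (fun c => c + s ∈ CB)

def goodc (CA CB : Finset (ZMod N × ZMod N)) (s : ZMod N × ZMod N) : Finset (ZMod N × ZMod N) :=
  (matched CA CB s).filter (fun c => ∀ c' ∈ matched CA CB s, c' ≠ c → c'.1 ≠ c.1 ∧ c'.2 ≠ c.2)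

theorem avg (CA CB : Finset (ZMod N × ZMod N)) (P : ℕ)
    (hP : ∀ w : ZMod N × ZMod N, w ≠ 0 → (w.1 = 0 ∨ w.2 = 0) →
      (CB.filter (fun b => b + w ∈ CB)).card ≤ P) (c : ZMod N × ZMod N) (hc : c ∈ CA) :
    CB.card ≤ (univ.filter (fun s => c ∈ goodc CA CB s)).card +
      ((CA.filter (fun c' => c'.1 = c.1)).card + (CA.filter (fun c' => c'.2 = c.2)).card) * P := by
  classical
  have hcard : CB.card = (univ.filter (fun s : ZMod N × ZMod N => c + s ∈ CB)).card := by
    apply Finset.card_bij (fun b _ => b - c)
    · intro b hb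
      simp only [mem_filter, mem_univ, true_and]
      rwa [add_sub_cancel]
    · intro b _ b' _ h
      exact sub_left_injective h
    · intro s hs
      simp only [mem_filter, mem_univ, true_and] at hs
      exact ⟨c + s, hs, by abel⟩
  set bad : Finset (ZMod N × ZMod N) :=
    CA.filter (fun c' => c' ≠ c ∧ (c'.1 = c.1 ∨ c'.2 = c.2)) with hbad
  have hsub : univ.filter (fun s : ZMod N × ZMod N => c + s ∈ CB) ⊆
      (univ.filter (fun s => c ∈ goodc CA CB s)) ∪
        bad.biUnion (fun c' => univ.filter (fun s => c + s ∈ CB ∧ c' + s ∈ CB)) := by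
    intro s hs
    simp only [mem_filter, mem_univ, true_and] at hs
    simp only [mem_union, mem_filter, mem_univ, true_and, mem_biUnion]
    by_cases hg : c ∈ goodc CA CB s
    · exact Or.inl hg
    · right
      have hm : c ∈ matched CA CB s := by
        simp only [matched, mem_filter]; exact ⟨hc, hs⟩
      have : ¬ ∀ c' ∈ matched CA CB s, c' ≠ c → c'.1 ≠ c.1 ∧ c'.2 ≠ c.2 := by
        intro hall
        exact hg (by simp only [goodc, mem_filter]; exact ⟨hm, hall⟩)
      push Not at this
      obtain ⟨c', hc', hne, hh⟩ := this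
      simp only [matched, mem_filter] at hc'
      refine ⟨c', ?_, hs, hc'.2⟩
      simp only [hbad, mem_filter]
      refine ⟨hc'.1, hne, ?_⟩
      by_cases h1 : c'.1 = c.1
      · exact Or.inl h1
      · exact Or.inr (hh h1)
  have hcol : ∀ c' ∈ bad, (univ.filter (fun s : ZMod N × ZMod N => c + s ∈ CB ∧ c' + s ∈ CB)).card ≤ P := by
    intro c' hc'
    simp only [hbad, mem_filter] at hc'
    have hw : c' - c ≠ 0 := sub_ne_zero.2 hc'.2.1
    have hw2 : (c' - c).1 = 0 ∨ (c' - c).2 = 0 := by
      rcases hc'.2.2 with h | h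
      · left; simp [h]
      · right; simp [h]
    refine le_trans ?_ (hP _ hw hw2)
    apply Finset.card_le_card_of_injOn (fun s => c + s)
    · intro s hs
      simp only [coe_filter, mem_univ, true_and, Set.mem_ofPred_eq] at hs ⊢
      refine ⟨hs.1, ?_⟩
      have : c + s + (c' - c) = c' + s := by abel
      rw [this]
      exact hs.2
    · intro s _ s' _ h
      exact add_left_cancel h
  have hbc : bad.card ≤ (CA.filter (fun c' => c'.1 = c.1)).card + (CA.filter (fun c' => c'.2 = c.2)).card := by
    refine le_trans (Finset.card_le_card ?_) (Finset.card_union_le _ _)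
    intro c' hc'
    simp only [hbad, mem_filter] at hc'
    simp only [mem_union, mem_filter]
    rcases hc'.2.2 with h | h
    · exact Or.inl ⟨hc'.1, h⟩
    · exact Or.inr ⟨hc'.1, h⟩
  calc CB.card = _ := hcard
    _ ≤ _ := Finset.card_le_card hsub
    _ ≤ (univ.filter (fun s => c ∈ goodc CA CB s)).card +
        (bad.biUnion (fun c' => univ.filter (fun s => c + s ∈ CB ∧ c' + s ∈ CB))).card :=
        Finset.card_union_le _ _
    _ ≤ (univ.filter (fun s => c ∈ goodc CA CB s)).card + bad.card * P := by
        gcongr
        exact Finset.card_biUnion_le_card_mul _ _ _ hcol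
    _ ≤ _ := by gcongr

end Avg

end Pool.Agent.H240R3
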