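import Mathlib
import Pool.Agent.H240R3.SimA
import Pool.Agent.H240R3.SimB
set_option autoImplicit false

namespace Pool.Agent.H240R3

open Finset

def lin {N : ℕ} (b : Bool) (c : ZMod N × ZMod N) : ZMod N := if b then c.1 else c.2

def load {n N : ℕ} (p : Fin n → ZMod N × ZMod N) (A : Finset (Fin n)) (l : Bool × ZMod N) : ℕ :=
  (A.filter (fun a => lin l.1 (p a) = l.2)).card

theorem load_mono {n N : ℕ} (p : Fin n → ZMod N × ZMod N) {A B : Finset (Fin n)} (h : A ⊆ B)
    (l : Bool × ZMod N) : load p A l ≤ load p B l :=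
  Finset.card_le_card (Finset.filter_subset_filter _ h)

theorem flush_step {n : ℕ} (M N : ℕ) [NeZero N] (Y Z : Fin n → ℕ) (hY : ∀ i, Y i < M)
    (hZ : ∀ i, Z i < M) (A B : Finset (Fin n)) (Δa Δb mx P R : ℕ) (hΔa : 0 < Δa) (hΔb : 0 < Δb)
    (hA : ∀ c, (A.filter (fun a => cell M N Y a = c)).card ≤ Δa)
    (hB : ∀ c, (B.filter (fun b => cell M N Z b = c)).card ≤ Δb)
    (hl : ∀ l, load (cell M N Y) A l ≤ mx)
    (hP : ∀ w : ZMod N × ZMod N, w ≠ 0 → (w.1 = 0 ∨ w.2 = 0) →
      ((B ×ˢ B).filter (fun x => cell M N Z x.2 = cell M N Z x.1 + w)).card ≤ P)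
    (hR : 4 * Δb * mx * P ≤ R) (hcard : R ≤ B.card) (t : ℝ) (ht0 : 0 ≤ t) (ht1 : t ≤ 1) :
    ∃ X X' : Finset (Fin n), X ⊆ A ∧ X' ⊆ B ∧ Sim Y Z 4 X X' ∧
      ∑ l, Real.exp (t * (load (cell M N Y) (A \ X) l : ℝ)) ≤
      ∑ l, Real.exp (t * (1 - (R : ℝ) / (4 * Δa * Δb * N ^ 2)) * (load (cell M N Y) A l : ℝ)) := by
  classical
  rcases isEmpty_or_nonempty (Fin n) with hn | hn
  · refine ⟨∅, ∅, by simp, by simp, Sim.empty _ _ _, ?_⟩
    have hA0 : A = ∅ := by ext x; exact (hn.false x).elim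
    subst hA0
    simp [load]
  set p := cell M N Y with hp
  set q := cell M N Z with hq
  set CA := A.image p with hCA
  set CB := B.image q with hCB
  set ra := Function.invFunOn p (A : Set (Fin n)) with hra
  set rb := Function.invFunOn q (B : Set (Fin n)) with hrb
  have hra1 : ∀ c ∈ CA, ra c ∈ A ∧ p (ra c) = c := by
    intro c hc
    obtain ⟨a, ha, rfl⟩ := Finset.mem_image.1 hc
    have hex : ∃ a' ∈ (A : Set (Fin n)), p a' = p a := ⟨a, ha, rfl⟩
    exact ⟨Finset.mem_coe.1 (Function.invFunOn_mem hex), Function.invFunOn_eq hex⟩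
  have hrb1 : ∀ c ∈ CB, rb c ∈ B ∧ q (rb c) = c := by
    intro c hc
    obtain ⟨a, ha, rfl⟩ := Finset.mem_image.1 hc
    have hex : ∃ a' ∈ (B : Set (Fin n)), q a' = q a := ⟨a, ha, rfl⟩
    exact ⟨Finset.mem_coe.1 (Function.invFunOn_mem hex), Function.invFunOn_eq hex⟩
  have hgood : ∀ s, ∀ c ∈ goodc CA CB s, c ∈ CA ∧ c + s ∈ CB := by
    intro s c hc
    simp only [goodc, matched, mem_filter] at hc
    exact hc.1
  have hgood2 : ∀ s, ∀ c ∈ goodc CA CB s, ∀ c' ∈ goodc CA CB s, c' ≠ c → c'.1 ≠ c.1 ∧ c'.2 ≠ c.2 := by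
    intro s c hc c' hc' hne
    have h1 := (Finset.mem_filter.1 hc).2
    have h2 := (Finset.mem_filter.1 hc').1
    exact h1 c' h2 hne
  set X : ZMod N × ZMod N → Finset (Fin n) := fun s => (goodc CA CB s).image ra with hX
  set X' : ZMod N × ZMod N → Finset (Fin n) := fun s => (goodc CA CB s).image (fun c => rb (c + s)) with hX'
  have hXA : ∀ s, X s ⊆ A := by
    intro s a ha
    obtain ⟨c, hc, rfl⟩ := Finset.mem_image.1 ha
    exact (hra1 c (hgood s c hc).1).1
  have hXB : ∀ s, X' s ⊆ B := by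
    intro s a ha
    obtain ⟨c, hc, rfl⟩ := Finset.mem_image.1 ha
    exact (hrb1 _ (hgood s c hc).2).1
  have hXp : ∀ s, ∀ a ∈ X s, p a ∈ goodc CA CB s ∧ ra (p a) = a := by
    intro s a ha
    obtain ⟨c, hc, rfl⟩ := Finset.mem_image.1 ha
    have := (hra1 c (hgood s c hc).1).2
    rw [this]
    exact ⟨hc, rfl⟩
  have hdist : ∀ s, ∀ a ∈ X s, ∀ b ∈ X s, a ≠ b → (p a).1 ≠ (p b).1 ∧ (p a).2 ≠ (p b).2 := by
    intro s a ha b hb hne
    obtain ⟨h1, h2⟩ := hXp s a ha
    obtain ⟨h3, h4⟩ := hXp s b hb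
    apply hgood2 s _ h3 _ h1
    intro h
    exact hne (by rw [← h2, ← h4, h])
  have hSim : ∀ s, Sim Y Z 4 (X s) (X' s) := by
    intro s
    apply Sim.four M N Y Z hY hZ (X s) (X' s) (fun a => rb (p a + s)) _ s
    · intro a ha
      obtain ⟨h1, _⟩ := hXp s a ha
      exact (hrb1 _ (hgood s _ h1).2).2
    · intro a ha b hb hne
      exact (hdist s a ha b hb hne).1
    · intro a ha b hb hne
      exact (hdist s a ha b hb hne).2
    · refine ⟨?_, ?_, ?_⟩
      · intro a ha
        obtain ⟨h1, _⟩ := hXp s a ha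
        exact Finset.mem_coe.2 (Finset.mem_image.2 ⟨p a, h1, rfl⟩)
      · intro a ha b hb hab
        obtain ⟨h1, h2⟩ := hXp s a ha
        obtain ⟨h3, h4⟩ := hXp s b hb
        have e1 := (hrb1 _ (hgood s _ h1).2).2
        have e2 := (hrb1 _ (hgood s _ h3).2).2
        dsimp only at hab
        rw [hab, e2] at e1
        have := add_right_cancel e1
        rw [← h2, ← h4, this]
      · intro b hb
        obtain ⟨c, hc, rfl⟩ := Finset.mem_image.1 (Finset.mem_coe.1 hb)
        refine ⟨ra c, Finset.mem_coe.2 (Finset.mem_image_of_mem _ hc), ?_⟩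
        dsimp only
        rw [(hra1 c (hgood s c hc).1).2]
  -- counting
  have hcnt : ∀ c ∈ CA, R ≤ 2 * Δb * (univ.filter (fun s => c ∈ goodc CA CB s)).card := by
    intro c hc
    have h1 := avg CA CB P (by
      intro w hw hw2
      refine le_trans ?_ (hP w hw hw2)
      have : CB.filter (fun b => b + w ∈ CB) ⊆
          ((B ×ˢ B).filter (fun x => q x.2 = q x.1 + w)).image (fun x => q x.1) := by
        intro b hb
        simp only [mem_filter] at hb
        obtain ⟨hb1, hb2⟩ := hb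
        obtain ⟨y, hy, rfl⟩ := Finset.mem_image.1 hb1
        obtain ⟨y', hy', he⟩ := Finset.mem_image.1 hb2
        refine Finset.mem_image.2 ⟨(y, y'), ?_, rfl⟩
        simp only [mem_filter, mem_product]
        exact ⟨⟨hy, hy'⟩, he⟩
      exact le_trans (Finset.card_le_card this) Finset.card_image_le) c hc
    have h2 : (CA.filter (fun c' => c'.1 = c.1)).card ≤ mx := by
      refine le_trans ?_ (hl (true, c.1))
      have : CA.filter (fun c' => c'.1 = c.1) ⊆
          (A.filter (fun a => lin true (p a) = c.1)).image p := by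
        intro c' hc'
        simp only [mem_filter] at hc'
        obtain ⟨a, ha, rfl⟩ := Finset.mem_image.1 hc'.1
        refine Finset.mem_image.2 ⟨a, ?_, rfl⟩
        simp only [mem_filter]
        exact ⟨ha, by simpa [lin] using hc'.2⟩
      exact le_trans (Finset.card_le_card this) Finset.card_image_le
    have h3 : (CA.filter (fun c' => c'.2 = c.2)).card ≤ mx := by
      refine le_trans ?_ (hl (false, c.2))
      have : CA.filter (fun c' => c'.2 = c.2) ⊆
          (A.filter (fun a => lin false (p a) = c.2)).image p := by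
        intro c' hc'
        simp only [mem_filter] at hc'
        obtain ⟨a, ha, rfl⟩ := Finset.mem_image.1 hc'.1
        refine Finset.mem_image.2 ⟨a, ?_, rfl⟩
        simp only [mem_filter]
        exact ⟨ha, by simpa [lin] using hc'.2⟩
      exact le_trans (Finset.card_le_card this) Finset.card_image_le
    have h4 : B.card ≤ Δb * CB.card :=
      Finset.card_le_mul_card_image B Δb (fun c _ => hB c)
    have h5 : ((CA.filter (fun c' => c'.1 = c.1)).card + (CA.filter (fun c' => c'.2 = c.2)).card) * P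
        ≤ (mx + mx) * P := Nat.mul_le_mul_right _ (Nat.add_le_add h2 h3)
    set u := (univ.filter (fun s => c ∈ goodc CA CB s)).card
    have h6 : CB.card ≤ u + (mx + mx) * P := le_trans h1 (Nat.add_le_add_left h5 _)
    have h7 : Δb * CB.card ≤ Δb * (u + (mx + mx) * P) := Nat.mul_le_mul_left _ h6
    have h8 : R ≤ Δb * u + 2 * (Δb * mx * P) := by
      calc R ≤ B.card := hcard
        _ ≤ _ := h4
        _ ≤ _ := h7
        _ = _ := by ring
    have h9 : 4 * (Δb * mx * P) ≤ R := by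
      calc 4 * (Δb * mx * P) = 4 * Δb * mx * P := by ring
        _ ≤ R := hR
    have h10 : 2 * Δb * u = 2 * (Δb * u) := by ring
    rw [h10]
    omega
  have hγ : ∀ l : Bool × ZMod N, (R : ℝ) / (2 * Δa * Δb) *
      (((A.filter (fun a => lin l.1 (p a) = l.2)).card : ℕ) : ℝ) ≤
      ∑ s, (((X s).filter (fun a => lin l.1 (p a) = l.2)).card : ℝ) := by
    intro l
    set CL := CA.filter (fun c => lin l.1 c = l.2) with hCL
    have h1 : (A.filter (fun a => lin l.1 (p a) = l.2)).card ≤ Δa * CL.card := by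
      have himg : (A.filter (fun a => lin l.1 (p a) = l.2)).image p ⊆ CL := by
        intro c hc
        obtain ⟨a, ha, rfl⟩ := Finset.mem_image.1 hc
        simp only [mem_filter] at ha
        simp only [hCL, mem_filter]
        exact ⟨Finset.mem_image_of_mem _ ha.1, ha.2⟩
      refine le_trans (Finset.card_le_mul_card_image _ Δa ?_) (Nat.mul_le_mul_left _ (Finset.card_le_card himg))
      intro c _
      refine le_trans (Finset.card_le_card ?_) (hA c)
      intro a ha
      simp only [mem_filter] at ha ⊢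
      exact ⟨ha.1.1, ha.2⟩
    have h2 : ∀ s, ((goodc CA CB s).filter (fun c => lin l.1 c = l.2)).card ≤
        ((X s).filter (fun a => lin l.1 (p a) = l.2)).card := by
      intro s
      apply Finset.card_le_card_of_injOn ra
      · intro c hc
        simp only [coe_filter, Set.mem_ofPred_eq] at hc ⊢
        refine ⟨Finset.mem_image_of_mem _ hc.1, ?_⟩
        rw [(hra1 c (hgood s c hc.1).1).2]
        exact hc.2
      · intro c hc c' hc' h
        simp only [coe_filter, Set.mem_ofPred_eq] at hc hc'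
        rw [← (hra1 c (hgood s c hc.1).1).2, ← (hra1 c' (hgood s c' hc'.1).1).2, h]
    have h3 : ∑ s, ((goodc CA CB s).filter (fun c => lin l.1 c = l.2)).card =
        ∑ c ∈ CL, (univ.filter (fun s => c ∈ goodc CA CB s)).card := by
      have e1 : ∀ s, ((goodc CA CB s).filter (fun c => lin l.1 c = l.2)).card =
          ∑ c ∈ CL, if c ∈ goodc CA CB s then 1 else 0 := by
        intro s
        rw [← Finset.sum_filter, ← Finset.card_eq_sum_ones]
        congr 1
        ext c
        simp only [mem_filter, hCL]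
        constructor
        · rintro ⟨h, h'⟩
          exact ⟨⟨(hgood s c h).1, h'⟩, h⟩
        · rintro ⟨⟨_, h'⟩, h⟩
          exact ⟨h, h'⟩
      rw [Finset.sum_congr rfl (fun s _ => e1 s), Finset.sum_comm]
      apply Finset.sum_congr rfl
      intro c _
      rw [Finset.card_filter]
    have h4 : CL.card * R ≤ 2 * Δb * ∑ c ∈ CL, (univ.filter (fun s => c ∈ goodc CA CB s)).card := by
      rw [Finset.mul_sum, ← smul_eq_mul CL.card R]
      apply Finset.card_nsmul_le_sum
      intro c hc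
      exact hcnt c (Finset.mem_filter.1 hc).1
    have h5 : (A.filter (fun a => lin l.1 (p a) = l.2)).card * R ≤
        2 * Δa * Δb * ∑ s, ((X s).filter (fun a => lin l.1 (p a) = l.2)).card := by
      calc (A.filter (fun a => lin l.1 (p a) = l.2)).card * R ≤ Δa * CL.card * R :=
            Nat.mul_le_mul_right _ h1
        _ = Δa * (CL.card * R) := by ring
        _ ≤ Δa * (2 * Δb * ∑ c ∈ CL, (univ.filter (fun s => c ∈ goodc CA CB s)).card) :=
            Nat.mul_le_mul_left _ h4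
        _ = 2 * Δa * Δb * ∑ s, ((goodc CA CB s).filter (fun c => lin l.1 c = l.2)).card := by
            rw [h3]; ring
        _ ≤ _ := Nat.mul_le_mul_left _ (Finset.sum_le_sum (fun s _ => h2 s))
    have h6 : (((A.filter (fun a => lin l.1 (p a) = l.2)).card : ℕ) : ℝ) * R ≤
        2 * Δa * Δb * ∑ s, (((X s).filter (fun a => lin l.1 (p a) = l.2)).card : ℝ) := by
      exact_mod_cast h5
    have hpos : (0 : ℝ) < 2 * Δa * Δb := by positivity
    rw [div_mul_eq_mul_div, div_le_iff₀ hpos]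
    linarith
  obtain ⟨s, hs⟩ := pot_step (S := ZMod N × ZMod N) (L := Bool × ZMod N) A X
    (fun a l => lin l.1 (p a) = l.2) hXA (by
      intro s l
      rw [Finset.card_le_one]
      intro a ha b hb
      simp only [mem_filter] at ha hb
      by_contra hne
      have h1 := hdist s a ha.1 b hb.1 hne
      have h2 : lin l.1 (p a) = lin l.1 (p b) := by rw [ha.2, hb.2]
      unfold lin at h2
      split_ifs at h2
      · exact h1.1 h2
      · exact h1.2 h2) ((R : ℝ) / (2 * Δa * Δb)) hγ t ht0 ht1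
  refine ⟨X s, X' s, hXA s, hXB s, hSim s, ?_⟩
  have hc : (Fintype.card (ZMod N × ZMod N) : ℝ) = (N : ℝ) ^ 2 := by
    rw [Fintype.card_prod, ZMod.card]; push_cast; ring
  rw [hc] at hs
  have e : (R : ℝ) / (2 * Δa * Δb) / (2 * (N : ℝ) ^ 2) = (R : ℝ) / (4 * Δa * Δb * N ^ 2) := by
    rw [div_div]; congr 1; ring
  rw [e] at hs
  exact hs

theorem flush_iter {n : ℕ} (M N : ℕ) [NeZero N] (Y Z : Fin n → ℕ) (hY : ∀ i, Y i < M)
    (hZ : ∀ i, Z i < M) (Δa Δb mx P R : ℕ) (hΔa : 0 < Δa) (hΔb : 0 < Δb)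
    (hR : 4 * Δb * mx * P ≤ R) (hRN : R ≤ 4 * Δa * Δb * N ^ 2) (K : ℕ) :
    ∀ A B : Finset (Fin n),
    (∀ c, (A.filter (fun a => cell M N Y a = c)).card ≤ Δa) →
    (∀ c, (B.filter (fun b => cell M N Z b = c)).card ≤ Δb) →
    (∀ l, load (cell M N Y) A l ≤ mx) →
    (∀ w : ZMod N × ZMod N, w ≠ 0 → (w.1 = 0 ∨ w.2 = 0) →
      ((B ×ˢ B).filter (fun x => cell M N Z x.2 = cell M N Z x.1 + w)).card ≤ P) →
    A.card + R ≤ B.card → ∀ t : ℝ, 0 ≤ t → t ≤ 1 →
    ∃ X X' : Finset (Fin n), X ⊆ A ∧ X' ⊆ B ∧ Sim Y Z (4 * K) X X' ∧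
      ∑ l, Real.exp (t * (load (cell M N Y) (A \ X) l : ℝ)) ≤
      ∑ l, Real.exp (t * (1 - (R : ℝ) / (4 * Δa * Δb * N ^ 2)) ^ K * (load (cell M N Y) A l : ℝ)) := by
  classical
  set θ : ℝ := (R : ℝ) / (4 * Δa * Δb * N ^ 2) with hθ
  have hN : (0 : ℝ) < N := by exact_mod_cast Nat.pos_of_ne_zero (NeZero.ne N)
  have hden : (0 : ℝ) < 4 * Δa * Δb * N ^ 2 := by
    have : (0 : ℝ) < Δa := by exact_mod_cast hΔa
    have : (0 : ℝ) < Δb := by exact_mod_cast hΔb
    positivity
  have hθ0 : 0 ≤ θ := by positivity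
  have hθ1 : θ ≤ 1 := by
    rw [hθ, div_le_one hden]
    exact_mod_cast hRN
  induction K with
  | zero =>
    intro A B _ _ _ _ _ t _ _
    refine ⟨∅, ∅, by simp, by simp, Sim.empty _ _ _, ?_⟩
    simp
  | succ K ih =>
    intro A B hA hB hl hP hcard t ht0 ht1
    have hpow0 : 0 ≤ (1 - θ) ^ K := pow_nonneg (by linarith) _
    have hpow1 : (1 - θ) ^ K ≤ 1 := pow_le_one₀ (by linarith) (by linarith)
    obtain ⟨X1, X1', hX1, hX1', hS1, hpot1⟩ := flush_step M N Y Z hY hZ A B Δa Δb mx P R hΔa hΔb hA hB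
      hl hP hR (by omega) (t * (1 - θ) ^ K) (mul_nonneg ht0 hpow0)
      (mul_le_one₀ ht1 hpow0 hpow1)
    have hcX := hS1.card_eq
    have hcA := Finset.card_sdiff_add_card_eq_card hX1
    have hcB := Finset.card_sdiff_add_card_eq_card hX1'
    obtain ⟨X2, X2', hX2, hX2', hS2, hpot2⟩ := ih (A \ X1) (B \ X1')
      (fun c => le_trans (Finset.card_le_card (Finset.filter_subset_filter _ sdiff_subset)) (hA c))
      (fun c => le_trans (Finset.card_le_card (Finset.filter_subset_filter _ sdiff_subset)) (hB c))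
      (fun l => le_trans (load_mono _ sdiff_subset l) (hl l))
      (fun w hw hw2 => le_trans (Finset.card_le_card (Finset.filter_subset_filter _
        (Finset.product_subset_product sdiff_subset sdiff_subset))) (hP w hw hw2))
      (by omega) t ht0 ht1
    refine ⟨X1 ∪ X2, X1' ∪ X2', Finset.union_subset hX1 (hX2.trans sdiff_subset),
      Finset.union_subset hX1' (hX2'.trans sdiff_subset), ?_, ?_⟩
    · have := hS1.union hS2 (Finset.disjoint_of_subset_right hX2 Finset.disjoint_sdiff)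
        (Finset.disjoint_of_subset_right hX2' Finset.disjoint_sdiff)
      exact this.mono (by omega)
    · have he : A \ (X1 ∪ X2) = (A \ X1) \ X2 := by
        ext x
        simp only [mem_sdiff, mem_union]
        tauto
      rw [he]
      refine hpot2.trans (hpot1.trans (le_of_eq ?_))
      apply Finset.sum_congr rfl
      intro l _
      change Real.exp (t * (1 - θ) ^ K * (1 - θ) * (load (cell M N Y) A l : ℝ)) = _
      rw [pow_succ]
      congr 1
      ring

theorem flush {n : ℕ} (M N : ℕ) [NeZero N] (Y Z : Fin n → ℕ) (hY : ∀ i, Y i < M)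
    (hZ : ∀ i, Z i < M) (Δa Δb mx P R : ℕ) (hΔa : 0 < Δa) (hΔb : 0 < Δb)
    (hR : 4 * Δb * mx * P ≤ R) (hRN : R ≤ 4 * Δa * Δb * N ^ 2) (K f : ℕ)
    (hf : Real.log (2 * N) + (1 - (R : ℝ) / (4 * Δa * Δb * N ^ 2)) ^ K * mx ≤ f)
    (A B : Finset (Fin n))
    (hA : ∀ c, (A.filter (fun a => cell M N Y a = c)).card ≤ Δa)
    (hB : ∀ c, (B.filter (fun b => cell M N Z b = c)).card ≤ Δb)
    (hl : ∀ l, load (cell M N Y) A l ≤ mx)
    (hP : ∀ w : ZMod N × ZMod N, w ≠ 0 → (w.1 = 0 ∨ w.2 = 0) →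
      ((B ×ˢ B).filter (fun x => cell M N Z x.2 = cell M N Z x.1 + w)).card ≤ P)
    (hcard : A.card + R ≤ B.card) :
    ∃ X X' : Finset (Fin n), X ⊆ A ∧ X' ⊆ B ∧ Sim Y Z (4 * K) X X' ∧
      ∀ l, load (cell M N Y) (A \ X) l ≤ f := by
  classical
  obtain ⟨X, X', hX, hX', hS, hpot⟩ := flush_iter M N Y Z hY hZ Δa Δb mx P R hΔa hΔb hR hRN K A B
    hA hB hl hP hcard 1 zero_le_one le_rfl
  refine ⟨X, X', hX, hX', hS, ?_⟩
  intro l
  set θ : ℝ := (R : ℝ) / (4 * Δa * Δb * N ^ 2) with hθ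
  have hN : (0 : ℝ) < N := by exact_mod_cast Nat.pos_of_ne_zero (NeZero.ne N)
  have hden : (0 : ℝ) < 4 * Δa * Δb * N ^ 2 := by
    have : (0 : ℝ) < Δa := by exact_mod_cast hΔa
    have : (0 : ℝ) < Δb := by exact_mod_cast hΔb
    positivity
  have hθ1 : θ ≤ 1 := by
    rw [hθ, div_le_one hden]
    exact_mod_cast hRN
  have hpow0 : 0 ≤ (1 - θ) ^ K := pow_nonneg (by linarith) _
  have h1 : Real.exp (load (cell M N Y) (A \ X) l : ℝ) ≤
      ∑ l, Real.exp (1 * (load (cell M N Y) (A \ X) l : ℝ)) := by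
    have := Finset.single_le_sum (f := fun l => Real.exp (1 * (load (cell M N Y) (A \ X) l : ℝ)))
      (s := univ) (fun l _ => (Real.exp_pos _).le) (Finset.mem_univ l)
    simpa using this
  have h2 : ∑ l : Bool × ZMod N, Real.exp (1 * (1 - θ) ^ K * (load (cell M N Y) A l : ℝ)) ≤
      (2 * N : ℝ) * Real.exp ((1 - θ) ^ K * mx) := by
    calc ∑ l : Bool × ZMod N, Real.exp (1 * (1 - θ) ^ K * (load (cell M N Y) A l : ℝ))
        ≤ ∑ l : Bool × ZMod N, Real.exp ((1 - θ) ^ K * mx) := by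
          apply Finset.sum_le_sum
          intro l _
          apply Real.exp_le_exp.2
          rw [one_mul]
          apply mul_le_mul_of_nonneg_left _ hpow0
          exact_mod_cast hl l
      _ = _ := by
          rw [Finset.sum_const, Finset.card_univ, Fintype.card_prod, ZMod.card, Fintype.card_bool]
          simp
  have h3 : Real.exp (load (cell M N Y) (A \ X) l : ℝ) ≤ Real.exp (f : ℝ) := by
    calc Real.exp (load (cell M N Y) (A \ X) l : ℝ) ≤ (2 * N : ℝ) * Real.exp ((1 - θ) ^ K * mx) :=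
          h1.trans (hpot.trans h2)
      _ = Real.exp (Real.log (2 * N) + (1 - θ) ^ K * mx) := by
          rw [Real.exp_add, Real.exp_log (by positivity)]
      _ ≤ _ := Real.exp_le_exp.2 hf
  exact_mod_cast Real.exp_le_exp.1 h3

end Pool.Agent.H240R3
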