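import Mathlib
import Pool.Agent.H240R3.SimC
set_option autoImplicit false

namespace Pool.Agent.H240R3

open Finset

theorem card_le_load {n N : ℕ} [NeZero N] (p : Fin n → ZMod N × ZMod N) (A : Finset (Fin n)) (f : ℕ)
    (h : ∀ l, load p A l ≤ f) : A.card ≤ N * f := by
  classical
  have h1 : A.card = ∑ r : ZMod N, (A.filter (fun a => (p a).1 = r)).card :=
    Finset.card_eq_sum_card_fiberwise (fun a _ => Finset.mem_univ _)
  rw [h1]
  calc ∑ r : ZMod N, (A.filter (fun a => (p a).1 = r)).card ≤ ∑ r : ZMod N, f := by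
        apply Finset.sum_le_sum
        intro r _
        have := h (true, r)
        simpa [load, lin] using this
    _ = N * f := by
        rw [Finset.sum_const, Finset.card_univ, ZMod.card, smul_eq_mul]

theorem stage {n : ℕ} (M N : ℕ) [NeZero N] (Y Z : Fin n → ℕ) (hY : ∀ i, Y i < M)
    (hZ : ∀ i, Z i < M) (Δa Δb mx P R : ℕ) (hΔb : 0 < Δb) (hΔ : Δb ≤ Δa)
    (hR : 4 * Δb * mx * P ≤ R) (hRN : R ≤ 4 * Δa * Δb * N ^ 2) (K f : ℕ)
    (hf : Real.log (2 * N) + (1 - (R : ℝ) / (4 * Δa * Δb * N ^ 2)) ^ K * mx ≤ f)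
    (L L' I : Finset (Fin n)) (hLI : Disjoint L I) (hLI' : Disjoint L' I) (hLL : L.card = L'.card)
    (mL : ∀ c, (L.filter (fun a => cell M N Y a = c)).card ≤ Δa)
    (mL' : ∀ c, (L'.filter (fun a => cell M N Z a = c)).card ≤ Δa)
    (mIY : ∀ c, (I.filter (fun a => cell M N Y a = c)).card ≤ Δb)
    (mIZ : ∀ c, (I.filter (fun a => cell M N Z a = c)).card ≤ Δb)
    (lL : ∀ l, load (cell M N Y) L l ≤ mx)
    (lL' : ∀ l, load (cell M N Z) L' l ≤ mx)
    (lI : ∀ l, load (cell M N Y) I l ≤ mx)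
    (PY : ∀ w : ZMod N × ZMod N, w ≠ 0 → (w.1 = 0 ∨ w.2 = 0) →
      ((I ×ˢ I).filter (fun x => cell M N Y x.2 = cell M N Y x.1 + w)).card ≤ P)
    (PZ : ∀ w : ZMod N × ZMod N, w ≠ 0 → (w.1 = 0 ∨ w.2 = 0) →
      ((I ×ˢ I).filter (fun x => cell M N Z x.2 = cell M N Z x.1 + w)).card ≤ P)
    (hcard : L.card + R ≤ I.card) :
    ∃ L1 L1' : Finset (Fin n), L1 ⊆ L ∪ I ∧ L1' ⊆ L' ∪ I ∧ L1.card = L1'.card ∧
      L1.card ≤ R + 3 * (N * f) ∧ Sim Y Z (12 * K) ((L ∪ I) \ L1) ((L' ∪ I) \ L1') ∧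
      (∀ l, load (cell M N Y) (L1 ∩ L) l ≤ f) ∧ (∀ l, load (cell M N Z) (L1' ∩ L') l ≤ f) := by
  classical
  have hΔa : 0 < Δa := lt_of_lt_of_le hΔb hΔ
  obtain ⟨X1, X1', hX1, hX1', hS1, hl1⟩ := flush M N Y Z hY hZ Δa Δb mx P R hΔa hΔb hR hRN K f hf
    L I mL mIZ lL PZ hcard
  obtain ⟨X2, X2', hX2, hX2', hS2, hl2⟩ := flush M N Z Y hZ hY Δa Δb mx P R hΔa hΔb hR hRN K f hf
    L' I mL' mIY lL' PY (by omega)
  have c1 := hS1.card_eq
  have c2 := hS2.card_eq
  have d1 := Finset.card_sdiff_add_card_eq_card hX1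
  have d1' := Finset.card_sdiff_add_card_eq_card hX1'
  have d2 := Finset.card_sdiff_add_card_eq_card hX2
  have d2' := Finset.card_sdiff_add_card_eq_card hX2'
  have s1 := Finset.card_le_card hX1
  have s2 := Finset.card_le_card hX2
  have F1 := card_le_load _ _ f hl1
  have F2 := card_le_load _ _ f hl2
  -- third flush
  have hmin : min (I \ X2').card (I \ X1').card - R ≤ (I \ X2').card :=
    le_trans (Nat.sub_le _ _) (min_le_left _ _)
  obtain ⟨A, hAsub, hAcard⟩ := Finset.exists_subset_card_eq hmin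
  have hAI : A ⊆ I := hAsub.trans sdiff_subset
  have hminl : min (I \ X2').card (I \ X1').card ≤ (I \ X2').card := min_le_left _ _
  have hminr : min (I \ X2').card (I \ X1').card ≤ (I \ X1').card := min_le_right _ _
  have hminR : R ≤ min (I \ X2').card (I \ X1').card := by
    apply le_min <;> omega
  have hmin3 : (I \ X2').card ≤ min (I \ X2').card (I \ X1').card + N * f := by
    rcases le_total (I \ X2').card (I \ X1').card with h | h
    · rw [min_eq_left h]; omega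
    · rw [min_eq_right h]; omega
  obtain ⟨X3, X3', hX3, hX3', hS3, hl3⟩ := flush M N Y Z hY hZ Δa Δb mx P R hΔa hΔb hR hRN K f hf
    A (I \ X1')
    (fun c => le_trans (Finset.card_le_card (Finset.filter_subset_filter _ hAI)) ((mIY c).trans hΔ))
    (fun c => le_trans (Finset.card_le_card (Finset.filter_subset_filter _ sdiff_subset)) (mIZ c))
    (fun l => le_trans (load_mono _ hAI l) (lI l))
    (fun w hw hw2 => le_trans (Finset.card_le_card (Finset.filter_subset_filter _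
      (Finset.product_subset_product sdiff_subset sdiff_subset))) (PZ w hw hw2))
    (by omega)
  have c3 := hS3.card_eq
  have d3 := Finset.card_sdiff_add_card_eq_card hX3
  have F3 := card_le_load _ _ f hl3
  have hX3I : X3 ⊆ I \ X2' := hX3.trans hAsub
  have s3 := Finset.card_le_card hX3I
  -- the matched sets
  have dLX : ∀ x ∈ L, x ∉ I := fun x hx hx' => Finset.disjoint_left.1 hLI hx hx'
  have dLX' : ∀ x ∈ L', x ∉ I := fun x hx hx' => Finset.disjoint_left.1 hLI' hx hx'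
  have disj12 : Disjoint X1 X2' := by
    rw [Finset.disjoint_left]; intro x hx hx'; exact dLX x (hX1 hx) (hX2' hx')
  have disj12' : Disjoint X1' X2 := by
    rw [Finset.disjoint_left]; intro x hx hx'; exact dLX' x (hX2 hx') (hX1' hx)
  have disj3 : Disjoint (X1 ∪ X2') X3 := by
    rw [Finset.disjoint_left]; intro x hx hx'
    have h3 := Finset.mem_sdiff.1 (hX3I hx')
    rcases Finset.mem_union.1 hx with h | h
    · exact dLX x (hX1 h) h3.1
    · exact h3.2 h
  have disj3' : Disjoint (X1' ∪ X2) X3' := by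
    rw [Finset.disjoint_left]; intro x hx hx'
    have h3 := Finset.mem_sdiff.1 (hX3' hx')
    rcases Finset.mem_union.1 hx with h | h
    · exact h3.2 h
    · exact dLX' x (hX2 h) h3.1
  have hSim : Sim Y Z (12 * K) ((X1 ∪ X2') ∪ X3) ((X1' ∪ X2) ∪ X3') :=
    ((hS1.union hS2.symm disj12 disj12').union hS3 disj3 disj3').mono (by omega)
  have hsubT : (X1 ∪ X2') ∪ X3 ⊆ L ∪ I := by
    intro x hx
    simp only [mem_union] at hx ⊢
    rcases hx with (h | h) | h
    · exact Or.inl (hX1 h)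
    · exact Or.inr (hX2' h)
    · exact Or.inr (Finset.mem_sdiff.1 (hX3I h)).1
  have hsubT' : (X1' ∪ X2) ∪ X3' ⊆ L' ∪ I := by
    intro x hx
    simp only [mem_union] at hx ⊢
    rcases hx with (h | h) | h
    · exact Or.inr (hX1' h)
    · exact Or.inl (hX2 h)
    · exact Or.inr (Finset.mem_sdiff.1 (hX3' h)).1
  have e0 : (L ∪ I) \ ((L ∪ I) \ ((X1 ∪ X2') ∪ X3)) = (X1 ∪ X2') ∪ X3 :=
    Finset.sdiff_sdiff_eq_self hsubT
  have e0' : (L' ∪ I) \ ((L' ∪ I) \ ((X1' ∪ X2) ∪ X3')) = (X1' ∪ X2) ∪ X3' :=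
    Finset.sdiff_sdiff_eq_self hsubT'
  have t1 := Finset.card_sdiff_add_card_eq_card hsubT
  have t1' := Finset.card_sdiff_add_card_eq_card hsubT'
  have t2 := Finset.card_union_of_disjoint hLI
  have t2' := Finset.card_union_of_disjoint hLI'
  have t3 := Finset.card_union_of_disjoint disj3
  have t3' := Finset.card_union_of_disjoint disj3'
  have t4 := Finset.card_union_of_disjoint disj12
  have t4' := Finset.card_union_of_disjoint disj12'
  refine ⟨(L ∪ I) \ ((X1 ∪ X2') ∪ X3), (L' ∪ I) \ ((X1' ∪ X2) ∪ X3'), sdiff_subset, sdiff_subset,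
    ?_, ?_, ?_, ?_, ?_⟩
  · omega
  · omega
  · rw [e0, e0']; exact hSim
  · intro l
    have : ((L ∪ I) \ ((X1 ∪ X2') ∪ X3)) ∩ L ⊆ L \ X1 := by
      intro x hx
      simp only [mem_inter, mem_sdiff, mem_union, not_or] at hx ⊢
      exact ⟨hx.2, hx.1.2.1.1⟩
    exact le_trans (load_mono _ this l) (hl1 l)
  · intro l
    have : ((L' ∪ I) \ ((X1' ∪ X2) ∪ X3')) ∩ L' ⊆ L' \ X2 := by
      intro x hx
      simp only [mem_inter, mem_sdiff, mem_union, not_or] at hx ⊢
      exact ⟨hx.2, hx.1.2.1.2⟩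
    exact le_trans (load_mono _ this l) (hl2 l)

end Pool.Agent.H240R3
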