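import Mathlib
set_option autoImplicit false

namespace Pool.Agent.H240R3

open Finset

theorem resample {n : ℕ} {A : Type*} [Fintype A] (i : Fin n) (G : (Fin n → A) → ℝ) :
    ∑ ω : Fin n → A, ∑ a : A, G (Function.update ω i a) = (Fintype.card A : ℝ) * ∑ ω, G ω := by
  classical
  have h1 : ∑ ω : Fin n → A, ∑ a : A, G (Function.update ω i a) =
      ∑ x : (Fin n → A) × A, G (Function.update x.1 i x.2) := by
    rw [Fintype.sum_prod_type]
  have h2 : ∑ x : (Fin n → A) × A, G (Function.update x.1 i x.2) = ∑ x : (Fin n → A) × A, G x.1 := by
    have hinv : Function.Involutive (fun x : (Fin n → A) × A => (Function.update x.1 i x.2, x.1 i)) := by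
      intro x
      simp
    exact Fintype.sum_equiv hinv.toPerm _ _ (fun x => rfl)
  rw [h1, h2, Fintype.sum_prod_type, Finset.mul_sum]
  apply Finset.sum_congr rfl
  intro ω _
  simp

theorem seqtail {n : ℕ} {A : Type*} [Fintype A] [Nonempty A]
    (f : (Fin n → A) → Fin n → ℝ) (μ : Fin n → ℝ) (τ lam : ℝ) (hτ : 0 ≤ τ)
    (h0 : ∀ ω t, 0 ≤ f ω t) (h1 : ∀ ω t, f ω t ≤ 1)
    (adapt : ∀ t ω ω', (∀ s ≤ t, ω s = ω' s) → f ω t = f ω' t)
    (hm : ∀ ω t, ∑ a, f (Function.update ω t a) t ≤ (Fintype.card A : ℝ) * μ t) :
    ((univ.filter (fun ω : Fin n → A => (Real.exp τ - 1) * ∑ t, μ t + lam < τ * ∑ t, f ω t)).card : ℝ)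
      ≤ Real.exp (-lam) * (Fintype.card A : ℝ) ^ n := by
  classical
  set E := Real.exp τ - 1 with hE
  have hE0 : 0 ≤ E := by
    have := Real.one_le_exp hτ
    linarith
  have hApos : (0 : ℝ) < Fintype.card A := by exact_mod_cast Fintype.card_pos
  set W : ℕ → (Fin n → A) → ℝ := fun T ω =>
    Real.exp (∑ t ∈ univ.filter (fun t : Fin n => t.val < T), (τ * f ω t - E * μ t)) with hW
  have hmain : ∀ T, T ≤ n → ∑ ω, W T ω ≤ (Fintype.card A : ℝ) ^ n := by
    intro T
    induction T with
    | zero =>
      intro _
      simp [hW]
    | succ T ih =>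
      intro hT
      have hTn : T < n := hT
      set i : Fin n := ⟨T, hTn⟩ with hi
      have hset : univ.filter (fun t : Fin n => t.val < T + 1) =
          insert i (univ.filter (fun t : Fin n => t.val < T)) := by
        ext t
        simp only [mem_filter, mem_univ, true_and, mem_insert]
        constructor
        · intro h
          rcases Nat.lt_succ_iff_lt_or_eq.1 h with h' | h'
          · exact Or.inr h'
          · exact Or.inl (Fin.ext h')
        · rintro (h | h)
          · rw [h]; simp [hi]
          · omega
      have hni : i ∉ univ.filter (fun t : Fin n => t.val < T) := by simp [hi]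
      have hsplit : ∀ ω, W (T + 1) ω = W T ω * Real.exp (τ * f ω i - E * μ i) := by
        intro ω
        simp only [hW]
        rw [hset, Finset.sum_insert hni, Real.exp_add, mul_comm]
      have hWT : ∀ ω a, W T (Function.update ω i a) = W T ω := by
        intro ω a
        simp only [hW]
        congr 1
        apply Finset.sum_congr rfl
        intro t ht
        simp only [mem_filter, mem_univ, true_and] at ht
        rw [adapt t (Function.update ω i a) ω]
        intro s hs
        rw [Function.update_of_ne]
        intro hsi
        have : s.val ≤ t.val := hs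
        rw [hsi] at this
        simp only [hi] at this
        omega
      have hinner : ∀ ω, ∑ a, Real.exp (τ * f (Function.update ω i a) i - E * μ i) ≤ Fintype.card A := by
        intro ω
        have hpt : ∀ a, Real.exp (τ * f (Function.update ω i a) i - E * μ i) ≤
            (1 + E * f (Function.update ω i a) i) * Real.exp (-(E * μ i)) := by
          intro a
          rw [sub_eq_add_neg, Real.exp_add]
          apply mul_le_mul_of_nonneg_right _ (Real.exp_pos _).le
          set x := f (Function.update ω i a) i with hx
          have hx0 : 0 ≤ x := h0 _ _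
          have hx1 : x ≤ 1 := h1 _ _
          have hc := convexOn_exp.2 (Set.mem_univ (0 : ℝ)) (Set.mem_univ τ)
            (show (0 : ℝ) ≤ 1 - x by linarith) hx0 (by ring)
          simp only [smul_eq_mul, mul_zero, zero_add, Real.exp_zero, mul_one] at hc
          rw [mul_comm x τ] at hc
          refine hc.trans (le_of_eq ?_)
          rw [hE]; ring
        calc ∑ a, Real.exp (τ * f (Function.update ω i a) i - E * μ i)
            ≤ ∑ a, (1 + E * f (Function.update ω i a) i) * Real.exp (-(E * μ i)) :=
              Finset.sum_le_sum (fun a _ => hpt a)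
          _ = ((Fintype.card A : ℝ) + E * ∑ a, f (Function.update ω i a) i) * Real.exp (-(E * μ i)) := by
              rw [← Finset.sum_mul, Finset.sum_add_distrib, ← Finset.mul_sum]
              simp
          _ ≤ ((Fintype.card A : ℝ) + E * ((Fintype.card A : ℝ) * μ i)) * Real.exp (-(E * μ i)) := by
              apply mul_le_mul_of_nonneg_right _ (Real.exp_pos _).le
              have := mul_le_mul_of_nonneg_left (hm ω i) hE0
              linarith
          _ = (Fintype.card A : ℝ) * ((E * μ i + 1) * Real.exp (-(E * μ i))) := by ring
          _ ≤ (Fintype.card A : ℝ) * 1 := by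
              apply mul_le_mul_of_nonneg_left _ hApos.le
              have h5 := Real.add_one_le_exp (E * μ i)
              calc (E * μ i + 1) * Real.exp (-(E * μ i)) ≤ Real.exp (E * μ i) * Real.exp (-(E * μ i)) :=
                    mul_le_mul_of_nonneg_right h5 (Real.exp_pos _).le
                _ = 1 := by rw [← Real.exp_add]; simp
          _ = _ := by ring
      have hres := resample i (fun ω => W (T + 1) ω)
      have h6 : (Fintype.card A : ℝ) * ∑ ω, W (T + 1) ω ≤ (Fintype.card A : ℝ) * ∑ ω, W T ω := by
        rw [← hres]
        calc ∑ ω, ∑ a, W (T + 1) (Function.update ω i a)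
            = ∑ ω, W T ω * ∑ a, Real.exp (τ * f (Function.update ω i a) i - E * μ i) := by
              apply Finset.sum_congr rfl
              intro ω _
              rw [Finset.mul_sum]
              apply Finset.sum_congr rfl
              intro a _
              rw [hsplit, hWT]
          _ ≤ ∑ ω, W T ω * Fintype.card A := by
              apply Finset.sum_le_sum
              intro ω _
              exact mul_le_mul_of_nonneg_left (hinner ω) (Real.exp_pos _).le
          _ = _ := by rw [← Finset.sum_mul, mul_comm]
      exact (le_of_mul_le_mul_left h6 hApos).trans (ih (by omega))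
  have hn := hmain n le_rfl
  have hfull : ∀ ω, W n ω = Real.exp (τ * ∑ t, f ω t - E * ∑ t, μ t) := by
    intro ω
    simp only [hW]
    congr 1
    have : univ.filter (fun t : Fin n => t.val < n) = univ := by
      ext t; simp
    rw [this, Finset.sum_sub_distrib, Finset.mul_sum, Finset.mul_sum]
  set Bad := univ.filter (fun ω : Fin n → A => E * ∑ t, μ t + lam < τ * ∑ t, f ω t) with hBad
  have h7 : (Bad.card : ℝ) * Real.exp lam ≤ ∑ ω, W n ω := by
    calc (Bad.card : ℝ) * Real.exp lam = ∑ ω ∈ Bad, Real.exp lam := by
          rw [Finset.sum_const, nsmul_eq_mul]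
      _ ≤ ∑ ω ∈ Bad, W n ω := by
          apply Finset.sum_le_sum
          intro ω hω
          rw [hfull]
          apply Real.exp_le_exp.2
          have := (Finset.mem_filter.1 hω).2
          linarith
      _ ≤ ∑ ω, W n ω := Finset.sum_le_sum_of_subset_of_nonneg (Finset.subset_univ _)
          (fun ω _ _ => (Real.exp_pos _).le)
  have h8 : (Bad.card : ℝ) * Real.exp lam ≤ (Fintype.card A : ℝ) ^ n := h7.trans hn
  rw [Real.exp_neg]
  rw [inv_mul_eq_div, le_div_iff₀ (Real.exp_pos _)]
  exact h8

end Pool.Agent.H240R3
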