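import Mathlib
import Pool.Agent.H240R3.SimC
import Pool.Agent.H240R3.SimE
set_option autoImplicit false

namespace Pool.Agent.H240R3

open Finset

/-- values of a word. -/
def vals {n M : ℕ} (ω : Fin n → Fin M) : Fin n → ℕ := fun i => (ω i).val

theorem row_fiber (M N : ℕ) [NeZero N] [NeZero M] (hNM : N ∣ M) (r : ZMod N) :
    (univ.filter (fun a : Fin M => ((a.val * N / M : ℕ) : ZMod N) = r)).card ≤ M / N := by
  classical
  have hN : 0 < N := Nat.pos_of_ne_zero (NeZero.ne N)
  have hM : 0 < M := Nat.pos_of_ne_zero (NeZero.ne M)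
  obtain ⟨q, hq⟩ := hNM
  have hq0 : 0 < q := by
    rcases Nat.eq_zero_or_pos q with h | h
    · subst h; omega
    · exact h
  have hdiv : ∀ a : ℕ, a * N / M = a / q := by
    intro a
    rw [hq, mul_comm N q]
    exact Nat.mul_div_mul_right a q hN
  have hMN : M / N = q := by rw [hq]; exact Nat.mul_div_cancel_left q hN
  rw [hMN]
  calc (univ.filter (fun a : Fin M => ((a.val * N / M : ℕ) : ZMod N) = r)).card
      ≤ (Finset.Ico (r.val * q) (r.val * q + q)).card := by
        apply Finset.card_le_card_of_injOn (fun a => a.val)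
        · intro a ha
          simp only [coe_filter, mem_univ, true_and, Set.mem_ofPred_eq] at ha
          rw [hdiv] at ha
          have hlt : a.val / q < N := by
            rw [Nat.div_lt_iff_lt_mul hq0]
            exact lt_of_lt_of_eq a.2 hq
          have h1 : a.val / q = r.val := by
            rw [← ha, ZMod.val_natCast, Nat.mod_eq_of_lt hlt]
          simp only [coe_Ico, Set.mem_Ico]
          rw [← h1]
          constructor
          · exact Nat.div_mul_le_self _ _
          · have := Nat.lt_div_mul_add (a := a.val) hq0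
            exact this
        · intro a _ b _ h
          exact Fin.ext h
    _ = q := by simp

theorem cast_MN (M N : ℕ) [NeZero N] (hNM : N ∣ M) : ((M / N : ℕ) : ℝ) = (M : ℝ) / N := by
  rw [Nat.cast_div hNM]
  exact_mod_cast NeZero.ne N

theorem tail_row {n : ℕ} (M N : ℕ) [NeZero N] [NeZero M] (hNM : N ∣ M) (I : Finset (Fin n))
    (r : ZMod N) (lam : ℝ) (h : ℕ) (hh : (I.card : ℝ) / N + lam ≤ Real.log 2 * h) :
    ((univ.filter (fun ω : Fin n → Fin M => h < load (cell M N (vals ω)) I (true, r))).card : ℝ)
      ≤ Real.exp (-lam) * (M : ℝ) ^ n := by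
  classical
  have key := seqtail (n := n) (A := Fin M)
    (fun ω t => if t ∈ I ∧ (cell M N (vals ω) t).1 = r then (1 : ℝ) else 0)
    (fun t => if t ∈ I then 1 / (N : ℝ) else 0) (Real.log 2) lam (Real.log_nonneg (by norm_num))
    (by intro ω t; split_ifs <;> norm_num)
    (by intro ω t; split_ifs <;> norm_num)
    (by
      intro t ω ω' h1
      have : (cell M N (vals ω) t) = (cell M N (vals ω') t) := by
        simp only [cell, vals]; rw [h1 t le_rfl]
      rw [this])
    (by
      intro ω t
      by_cases ht : t ∈ I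
      · simp only [ht, true_and, if_true]
        have hupd : ∀ a, (cell M N (vals (Function.update ω t a)) t).1 = ((a.val * N / M : ℕ) : ZMod N) := by
          intro a; simp [cell, vals]
        simp only [hupd]
        rw [Finset.sum_boole, Fintype.card_fin]
        calc ((univ.filter (fun a : Fin M => ((a.val * N / M : ℕ) : ZMod N) = r)).card : ℝ)
            ≤ ((M / N : ℕ) : ℝ) := by exact_mod_cast row_fiber M N hNM r
          _ = (M : ℝ) * (1 / N) := by rw [cast_MN M N hNM]; ring
      · simp [ht])
  rw [Real.exp_log (by norm_num : (0:ℝ) < 2), Fintype.card_fin] at key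
  refine le_trans ?_ key
  have hsub : univ.filter (fun ω : Fin n → Fin M => h < load (cell M N (vals ω)) I (true, r)) ⊆
      univ.filter (fun ω : Fin n → Fin M => (2 - 1 : ℝ) * ∑ t, (if t ∈ I then 1 / (N : ℝ) else 0) + lam <
        Real.log 2 * ∑ t, if t ∈ I ∧ (cell M N (vals ω) t).1 = r then (1 : ℝ) else 0) := by
    intro ω hω
    simp only [mem_filter, mem_univ, true_and] at hω ⊢
    have e1 : ∑ t : Fin n, (if t ∈ I then 1 / (N : ℝ) else 0) = (I.card : ℝ) / N := by
      rw [← Finset.sum_filter]
      simp
      ring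
    have e2 : ∑ t : Fin n, (if t ∈ I ∧ (cell M N (vals ω) t).1 = r then (1 : ℝ) else 0) =
        (load (cell M N (vals ω)) I (true, r) : ℝ) := by
      rw [Finset.sum_boole]
      congr 2
      ext t
      simp [lin]
    rw [e1, e2]
    have h3 : (h : ℝ) < (load (cell M N (vals ω)) I (true, r) : ℝ) := by exact_mod_cast hω
    have h4 : (0 : ℝ) < Real.log 2 := Real.log_pos (by norm_num)
    nlinarith
  exact_mod_cast Finset.card_le_card hsub

theorem tail_cell {n : ℕ} (M N : ℕ) [NeZero N] [NeZero M] (hNM : N ∣ M) (I : Finset (Fin n))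
    (c : ZMod N × ZMod N) (τ lam : ℝ) (hτ : 0 < τ) (cc Δ : ℕ)
    (hcc : (I.filter (fun i => ((i.val * N / n : ℕ) : ZMod N) = c.2)).card ≤ cc)
    (hh : (Real.exp τ - 1) * ((cc : ℝ) / N) + lam ≤ τ * Δ) :
    ((univ.filter (fun ω : Fin n → Fin M =>
      Δ < (I.filter (fun i => cell M N (vals ω) i = c)).card)).card : ℝ)
      ≤ Real.exp (-lam) * (M : ℝ) ^ n := by
  classical
  have hN : (0 : ℝ) < N := by exact_mod_cast Nat.pos_of_ne_zero (NeZero.ne N)
  have key := seqtail (n := n) (A := Fin M)
    (fun ω t => if t ∈ I ∧ cell M N (vals ω) t = c then (1 : ℝ) else 0)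
    (fun t => if t ∈ I ∧ ((t.val * N / n : ℕ) : ZMod N) = c.2 then 1 / (N : ℝ) else 0) τ lam hτ.le
    (by intro ω t; split_ifs <;> norm_num)
    (by intro ω t; split_ifs <;> norm_num)
    (by
      intro t ω ω' h1
      have : (cell M N (vals ω) t) = (cell M N (vals ω') t) := by
        simp only [cell, vals]; rw [h1 t le_rfl]
      rw [this])
    (by
      intro ω t
      by_cases ht : t ∈ I ∧ ((t.val * N / n : ℕ) : ZMod N) = c.2
      · simp only [ht.1, ht.2, true_and, and_self, if_true]
        rw [Finset.sum_boole, Fintype.card_fin]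
        calc ((univ.filter (fun a : Fin M => cell M N (vals (Function.update ω t a)) t = c)).card : ℝ)
            ≤ ((univ.filter (fun a : Fin M => ((a.val * N / M : ℕ) : ZMod N) = c.1)).card : ℝ) := by
              have : (univ.filter (fun a : Fin M => cell M N (vals (Function.update ω t a)) t = c)) ⊆
                (univ.filter (fun a : Fin M => ((a.val * N / M : ℕ) : ZMod N) = c.1)) := by
                intro a ha
                simp only [mem_filter, mem_univ, true_and] at ha ⊢
                rw [← ha]
                simp [cell, vals]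
              exact_mod_cast Finset.card_le_card this
          _ ≤ ((M / N : ℕ) : ℝ) := by exact_mod_cast row_fiber M N hNM c.1
          _ = (M : ℝ) * (1 / N) := by rw [cast_MN M N hNM]; ring
      · rw [if_neg ht]
        have hz : ∀ a, ¬ (t ∈ I ∧ cell M N (vals (Function.update ω t a)) t = c) := by
          rintro a ⟨h1, h2⟩
          exact ht ⟨h1, by rw [← h2]; simp [cell]⟩
        simp [hz])
  rw [Fintype.card_fin] at key
  refine le_trans ?_ key
  have hsub : univ.filter (fun ω : Fin n → Fin M =>
      Δ < (I.filter (fun i => cell M N (vals ω) i = c)).card) ⊆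
      univ.filter (fun ω : Fin n → Fin M => (Real.exp τ - 1 : ℝ) *
        ∑ t : Fin n, (if t ∈ I ∧ ((t.val * N / n : ℕ) : ZMod N) = c.2 then 1 / (N : ℝ) else 0) + lam <
        τ * ∑ t, if t ∈ I ∧ cell M N (vals ω) t = c then (1 : ℝ) else 0) := by
    intro ω hω
    simp only [mem_filter, mem_univ, true_and] at hω ⊢
    have e1 : ∑ t : Fin n, (if t ∈ I ∧ ((t.val * N / n : ℕ) : ZMod N) = c.2 then 1 / (N : ℝ) else 0) ≤
        (cc : ℝ) / N := by
      rw [← Finset.sum_filter, Finset.sum_const, nsmul_eq_mul]
      have : (univ.filter (fun t : Fin n => t ∈ I ∧ ((t.val * N / n : ℕ) : ZMod N) = c.2)) =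
          I.filter (fun i => ((i.val * N / n : ℕ) : ZMod N) = c.2) := by
        ext t; simp
      rw [this]
      have h3 : ((I.filter (fun i => ((i.val * N / n : ℕ) : ZMod N) = c.2)).card : ℝ) ≤ cc := by
        exact_mod_cast hcc
      rw [mul_one_div]
      exact div_le_div_of_nonneg_right h3 hN.le
    have e2 : ∑ t : Fin n, (if t ∈ I ∧ cell M N (vals ω) t = c then (1 : ℝ) else 0) =
        ((I.filter (fun i => cell M N (vals ω) i = c)).card : ℝ) := by
      rw [Finset.sum_boole]
      congr 2
      ext t
      simp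
    rw [e2]
    have h5 : 0 ≤ Real.exp τ - 1 := by
      have := Real.one_le_exp hτ.le
      linarith
    have h6 := mul_le_mul_of_nonneg_left e1 h5
    have h3 : (Δ : ℝ) < ((I.filter (fun i => cell M N (vals ω) i = c)).card : ℝ) := by exact_mod_cast hω
    have h7 := mul_lt_mul_of_pos_left h3 hτ
    linarith
  exact_mod_cast Finset.card_le_card hsub

end Pool.Agent.H240R3
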