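import Mathlib
import Pool.Agent.H240R3.SimF
set_option autoImplicit false

namespace Pool.Agent.H240R3

open Finset

/-- number of earlier partners of `t` with difference `w` or `-w`. -/
def partners {n : ℕ} (M N : ℕ) (I : Finset (Fin n)) (w : ZMod N × ZMod N) (ω : Fin n → Fin M)
    (t : Fin n) : ℕ :=
  ((I.filter (fun i => i < t)).filter (fun i => cell M N (vals ω) t = cell M N (vals ω) i + w)).card +
  ((I.filter (fun i => i < t)).filter (fun i => cell M N (vals ω) i = cell M N (vals ω) t + w)).card

theorem pairs_le {n : ℕ} (M N : ℕ) (I : Finset (Fin n)) (w : ZMod N × ZMod N) (hw : w ≠ 0)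
    (ω : Fin n → Fin M) :
    ((I ×ˢ I).filter (fun x => cell M N (vals ω) x.2 = cell M N (vals ω) x.1 + w)).card ≤
      ∑ t ∈ I, partners M N I w ω t := by
  classical
  have hsub : (I ×ˢ I).filter (fun x => cell M N (vals ω) x.2 = cell M N (vals ω) x.1 + w) ⊆
      I.biUnion (fun t => (((I.filter (fun i => i < t)).filter
          (fun i => cell M N (vals ω) t = cell M N (vals ω) i + w)).image (fun i => (i, t))) ∪
        (((I.filter (fun i => i < t)).filter
          (fun i => cell M N (vals ω) i = cell M N (vals ω) t + w)).image (fun i => (t, i)))) := by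
    rintro ⟨x, y⟩ hx
    simp only [mem_filter, mem_product] at hx
    obtain ⟨⟨hx1, hy1⟩, he⟩ := hx
    simp only [mem_biUnion, mem_union, mem_image, mem_filter, Prod.mk.injEq]
    rcases lt_trichotomy x y with h | h | h
    · exact ⟨y, hy1, Or.inl ⟨x, ⟨⟨hx1, h⟩, he⟩, rfl, rfl⟩⟩
    · subst h
      exact absurd (by simpa using he) hw
    · exact ⟨x, hx1, Or.inr ⟨y, ⟨⟨hy1, h⟩, he⟩, rfl, rfl⟩⟩
  refine le_trans (Finset.card_le_card hsub) (le_trans Finset.card_biUnion_le ?_)
  apply Finset.sum_le_sum
  intro t _
  refine le_trans (Finset.card_union_le _ _) ?_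
  exact Nat.add_le_add Finset.card_image_le Finset.card_image_le

theorem fiber_sum {n : ℕ} (M N : ℕ) [NeZero N] [NeZero M] (hNM : N ∣ M) (J : Finset (Fin n))
    (v : ZMod N × ZMod N) (ω : Fin n → Fin M) (t : Fin n) (hJ : ∀ i ∈ J, i < t) (cc : ℕ)
    (hcc : (J.filter (fun i => ((i.val * N / n : ℕ) : ZMod N) = ((t.val * N / n : ℕ) : ZMod N) - v.2)).card ≤ cc) :
    ∑ a : Fin M, (J.filter (fun i => cell M N (vals (Function.update ω t a)) t =
      cell M N (vals (Function.update ω t a)) i + v)).card ≤ cc * (M / N) := by
  classical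
  have hup : ∀ i ∈ J, ∀ a, cell M N (vals (Function.update ω t a)) i = cell M N (vals ω) i := by
    intro i hi a
    simp only [cell, vals]
    rw [Function.update_of_ne (hJ i hi).ne]
  calc ∑ a : Fin M, (J.filter (fun i => cell M N (vals (Function.update ω t a)) t =
      cell M N (vals (Function.update ω t a)) i + v)).card
      = ∑ a : Fin M, ∑ i ∈ J, (if cell M N (vals (Function.update ω t a)) t =
      cell M N (vals (Function.update ω t a)) i + v then 1 else 0) := by
        apply Finset.sum_congr rfl
        intro a _
        rw [Finset.card_filter]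
    _ = ∑ i ∈ J, ∑ a : Fin M, (if cell M N (vals (Function.update ω t a)) t =
      cell M N (vals ω) i + v then 1 else 0) := by
        rw [Finset.sum_comm]
        apply Finset.sum_congr rfl
        intro i hi
        apply Finset.sum_congr rfl
        intro a _
        rw [hup i hi a]
    _ ≤ ∑ i ∈ J, (if ((i.val * N / n : ℕ) : ZMod N) = ((t.val * N / n : ℕ) : ZMod N) - v.2
        then M / N else 0) := by
        apply Finset.sum_le_sum
        intro i hi
        split_ifs with h
        · rw [← Finset.card_filter]
          refine le_trans (Finset.card_le_card ?_) (row_fiber M N hNM ((cell M N (vals ω) i + v).1))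
          intro a ha
          simp only [mem_filter, mem_univ, true_and] at ha ⊢
          rw [← ha]
          simp [cell, vals]
        · apply le_of_eq
          apply Finset.sum_eq_zero
          intro a _
          rw [if_neg]
          intro hc
          apply h
          have := congrArg Prod.snd hc
          simp only [cell, Prod.snd_add] at this
          rw [this]
          ring
    _ = (J.filter (fun i => ((i.val * N / n : ℕ) : ZMod N) = ((t.val * N / n : ℕ) : ZMod N) - v.2)).card
          * (M / N) := by
        rw [← Finset.sum_filter, Finset.sum_const, smul_eq_mul]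
    _ ≤ _ := Nat.mul_le_mul_right _ hcc

theorem tail_pair {n : ℕ} (M N : ℕ) [NeZero N] [NeZero M] (hNM : N ∣ M) (I : Finset (Fin n))
    (w : ZMod N × ZMod N) (hw : w ≠ 0) (lam : ℝ) (cc Δ P : ℕ) (hΔ : 0 < Δ)
    (hcc : ∀ c : ZMod N, (I.filter (fun i => ((i.val * N / n : ℕ) : ZMod N) = c)).card ≤ cc)
    (hh : 2 * (I.card : ℝ) * cc / N + 2 * Δ * lam ≤ Real.log 2 * P) :
    ((univ.filter (fun ω : Fin n → Fin M =>
      (∀ c, (I.filter (fun i => cell M N (vals ω) i = c)).card ≤ Δ) ∧
      P < ((I ×ˢ I).filter (fun x => cell M N (vals ω) x.2 = cell M N (vals ω) x.1 + w)).card)).card : ℝ)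
      ≤ Real.exp (-lam) * (M : ℝ) ^ n := by
  classical
  have hN : (0 : ℝ) < N := by exact_mod_cast Nat.pos_of_ne_zero (NeZero.ne N)
  have hΔr : (0 : ℝ) < Δ := by exact_mod_cast hΔ
  have hlocal : ∀ (ω ω' : Fin n → Fin M) (t : Fin n), (∀ s ≤ t, ω s = ω' s) →
      partners M N I w ω t = partners M N I w ω' t := by
    intro ω ω' t h1
    have hc : ∀ s ≤ t, (cell M N (vals ω) s) = (cell M N (vals ω') s) := by
      intro s hs
      simp only [cell, vals]; rw [h1 s hs]
    unfold partners
    congr 2
    · ext i
      simp only [mem_filter]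
      constructor
      · rintro ⟨⟨h2, h3⟩, h4⟩
        exact ⟨⟨h2, h3⟩, by rw [← hc t le_rfl, ← hc i h3.le]; exact h4⟩
      · rintro ⟨⟨h2, h3⟩, h4⟩
        exact ⟨⟨h2, h3⟩, by rw [hc t le_rfl, hc i h3.le]; exact h4⟩
    · ext i
      simp only [mem_filter]
      constructor
      · rintro ⟨⟨h2, h3⟩, h4⟩
        exact ⟨⟨h2, h3⟩, by rw [← hc t le_rfl, ← hc i h3.le]; exact h4⟩
      · rintro ⟨⟨h2, h3⟩, h4⟩
        exact ⟨⟨h2, h3⟩, by rw [hc t le_rfl, hc i h3.le]; exact h4⟩
  have key := seqtail (n := n) (A := Fin M)
    (fun ω t => if t ∈ I then min 1 ((partners M N I w ω t : ℝ) / (2 * Δ)) else 0)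
    (fun t => if t ∈ I then (cc : ℝ) / (N * Δ) else 0) (Real.log 2) lam (Real.log_nonneg (by norm_num))
    (by intro ω t; split_ifs <;> positivity)
    (by
      intro ω t
      split_ifs
      · exact min_le_left _ _
      · norm_num)
    (by
      intro t ω ω' h1
      rw [hlocal ω ω' t h1])
    (by
      intro ω t
      by_cases ht : t ∈ I
      · simp only [ht, if_true]
        have b1 := fiber_sum M N hNM (I.filter (fun i => i < t)) w ω t
          (fun i hi => (Finset.mem_filter.1 hi).2) cc
          (le_trans (Finset.card_le_card (Finset.filter_subset_filter _ (Finset.filter_subset _ _)))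
            (hcc _))
        have b2 := fiber_sum M N hNM (I.filter (fun i => i < t)) (-w) ω t
          (fun i hi => (Finset.mem_filter.1 hi).2) cc
          (le_trans (Finset.card_le_card (Finset.filter_subset_filter _ (Finset.filter_subset _ _)))
            (hcc _))
        have hsum : ∑ a : Fin M, partners M N I w (Function.update ω t a) t ≤ 2 * cc * (M / N) := by
          unfold partners
          rw [Finset.sum_add_distrib]
          have e2 : ∀ a : Fin M, ((I.filter (fun i => i < t)).filter (fun i =>
              cell M N (vals (Function.update ω t a)) i = cell M N (vals (Function.update ω t a)) t + w)).card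
              = ((I.filter (fun i => i < t)).filter (fun i =>
              cell M N (vals (Function.update ω t a)) t = cell M N (vals (Function.update ω t a)) i + -w)).card := by
            intro a
            congr 1
            ext i
            simp only [mem_filter]
            constructor
            · rintro ⟨h1, h2⟩
              exact ⟨h1, by rw [h2]; abel⟩
            · rintro ⟨h1, h2⟩
              exact ⟨h1, by rw [h2]; abel⟩
          rw [Finset.sum_congr rfl (fun a _ => e2 a)]
          calc _ ≤ cc * (M / N) + cc * (M / N) := Nat.add_le_add b1 b2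
            _ = _ := by ring
        calc ∑ a : Fin M, min 1 ((partners M N I w (Function.update ω t a) t : ℝ) / (2 * Δ))
            ≤ ∑ a : Fin M, ((partners M N I w (Function.update ω t a) t : ℝ) / (2 * Δ)) :=
              Finset.sum_le_sum (fun a _ => min_le_right _ _)
          _ = (∑ a : Fin M, (partners M N I w (Function.update ω t a) t : ℝ)) / (2 * Δ) := by
              rw [Finset.sum_div]
          _ ≤ ((2 * cc * (M / N : ℕ) : ℕ) : ℝ) / (2 * Δ) := by
              apply div_le_div_of_nonneg_right _ (by positivity)
              exact_mod_cast hsum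
          _ = (Fintype.card (Fin M) : ℝ) * ((cc : ℝ) / (N * Δ)) := by
              rw [Fintype.card_fin]
              push_cast
              rw [cast_MN M N hNM]
              field_simp
      · simp [ht])
  rw [Real.exp_log (by norm_num : (0:ℝ) < 2), Fintype.card_fin] at key
  refine le_trans ?_ key
  have hsub : univ.filter (fun ω : Fin n → Fin M =>
      (∀ c, (I.filter (fun i => cell M N (vals ω) i = c)).card ≤ Δ) ∧
      P < ((I ×ˢ I).filter (fun x => cell M N (vals ω) x.2 = cell M N (vals ω) x.1 + w)).card) ⊆
      univ.filter (fun ω : Fin n → Fin M => (2 - 1 : ℝ) *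
        ∑ t : Fin n, (if t ∈ I then (cc : ℝ) / (N * Δ) else 0) + lam <
        Real.log 2 * ∑ t, if t ∈ I then min 1 ((partners M N I w ω t : ℝ) / (2 * Δ)) else 0) := by
    intro ω hω
    simp only [mem_filter, mem_univ, true_and] at hω ⊢
    obtain ⟨hm, hP⟩ := hω
    have e1 : ∑ t : Fin n, (if t ∈ I then (cc : ℝ) / (N * Δ) else 0) = (I.card : ℝ) * cc / (N * Δ) := by
      rw [← Finset.sum_filter]
      simp
      ring
    have e2 : ∑ t : Fin n, (if t ∈ I then min 1 ((partners M N I w ω t : ℝ) / (2 * Δ)) else 0) =
        (∑ t ∈ I, (partners M N I w ω t : ℝ)) / (2 * Δ) := by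
      rw [← Finset.sum_filter, Finset.sum_div]
      have : univ.filter (fun t : Fin n => t ∈ I) = I := by ext t; simp
      rw [this]
      apply Finset.sum_congr rfl
      intro t _
      apply min_eq_right
      rw [div_le_one (by positivity)]
      have q1 : ((I.filter (fun i => i < t)).filter (fun i => cell M N (vals ω) t = cell M N (vals ω) i + w)).card ≤ Δ := by
        refine le_trans (Finset.card_le_card ?_) (hm (cell M N (vals ω) t - w))
        intro i hi
        simp only [mem_filter] at hi ⊢
        exact ⟨hi.1.1, by rw [hi.2]; abel⟩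
      have q2 : ((I.filter (fun i => i < t)).filter (fun i => cell M N (vals ω) i = cell M N (vals ω) t + w)).card ≤ Δ := by
        refine le_trans (Finset.card_le_card ?_) (hm (cell M N (vals ω) t + w))
        intro i hi
        simp only [mem_filter] at hi ⊢
        exact ⟨hi.1.1, hi.2⟩
      have q3 : partners M N I w ω t ≤ 2 * Δ := by
        unfold partners
        omega
      exact_mod_cast q3
    rw [e1, e2]
    have h3 : (P : ℝ) < ∑ t ∈ I, (partners M N I w ω t : ℝ) := by
      have := lt_of_lt_of_le hP (pairs_le M N I w hw ω)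
      exact_mod_cast this
    have h4 : (0 : ℝ) < Real.log 2 := Real.log_pos (by norm_num)
    have h5 : (2 - 1 : ℝ) * ((I.card : ℝ) * cc / (N * Δ)) + lam =
        (2 * (I.card : ℝ) * cc / N + 2 * Δ * lam) / (2 * Δ) := by
      field_simp
      ring
    rw [h5, ← mul_div_assoc]
    apply div_lt_div_of_pos_right _ (by positivity)
    exact lt_of_le_of_lt hh (mul_lt_mul_of_pos_left h3 h4)
  exact_mod_cast Finset.card_le_card hsub

end Pool.Agent.H240R3
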