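import Mathlib
import Pool.Agent.H240R3.SimD
import Pool.Agent.H240R3.SimG
set_option autoImplicit false

namespace Pool.Agent.H240R3

open Finset

/-- indices `i` with `8 ^ j ∣ i + 1`. -/
def Dj (n j : ℕ) : Finset (Fin n) := univ.filter (fun i => 8 ^ j ∣ i.val + 1)

/-- level `j`. -/
def Lev (n j : ℕ) : Finset (Fin n) := Dj n j \ Dj n (j + 1)

theorem card_Dj (n j : ℕ) : (Dj n j).card = n / 8 ^ j := by
  unfold Dj
  rw [Finset.card_filter, Fin.sum_univ_eq_sum_range (fun i => if 8 ^ j ∣ i + 1 then 1 else 0) n,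
    ← Finset.card_filter]
  exact Nat.card_multiples n (8 ^ j)

theorem Dj_succ_subset (n j : ℕ) : Dj n (j + 1) ⊆ Dj n j := by
  intro i hi
  simp only [Dj, mem_filter, mem_univ, true_and] at hi ⊢
  exact (pow_dvd_pow 8 (Nat.le_succ j)).trans hi

theorem card_Lev (n j : ℕ) : (Lev n j).card + n / 8 ^ (j + 1) = n / 8 ^ j := by
  have := Finset.card_sdiff_add_card_eq_card (Dj_succ_subset n j)
  rw [card_Dj, card_Dj] at this
  exact this

theorem Dj_zero (n : ℕ) : Dj n 0 = univ := by
  ext i; simp [Dj]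

theorem card_le_of_diam (S : Finset ℕ) (X : ℕ) (h : ∀ a ∈ S, ∀ b ∈ S, b ≤ a + X) : S.card ≤ X + 1 := by
  rcases S.eq_empty_or_nonempty with h0 | h0
  · subst h0; simp
  · have hsub : S ⊆ Finset.Icc (S.min' h0) (S.min' h0 + X) := by
      intro b hb
      rw [Finset.mem_Icc]
      exact ⟨Finset.min'_le _ _ hb, h _ (Finset.min'_mem _ _) b hb⟩
    refine le_trans (Finset.card_le_card hsub) ?_
    simp
    omega

theorem col_count {n : ℕ} (N j : ℕ) [NeZero N] (I : Finset (Fin n)) (hI : I ⊆ Dj n j) (c : ZMod N) :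
    (I.filter (fun i => ((i.val * N / n : ℕ) : ZMod N) = c)).card ≤ n / (8 ^ j * N) + 1 := by
  classical
  have hN : 0 < N := Nat.pos_of_ne_zero (NeZero.ne N)
  have hval : ∀ i ∈ I.filter (fun i => ((i.val * N / n : ℕ) : ZMod N) = c), i.val * N / n = c.val := by
    intro i hi
    simp only [mem_filter] at hi
    rw [← hi.2, ZMod.val_natCast, Nat.mod_eq_of_lt ((div_lt_N i.2).resolve_right (NeZero.ne N))]
  have hdvd : ∀ i ∈ I.filter (fun i => ((i.val * N / n : ℕ) : ZMod N) = c), 8 ^ j ∣ i.val + 1 := by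
    intro i hi
    have := hI (Finset.mem_filter.1 hi).1
    simpa [Dj] using this
  have himg : (I.filter (fun i => ((i.val * N / n : ℕ) : ZMod N) = c)).card =
      ((I.filter (fun i => ((i.val * N / n : ℕ) : ZMod N) = c)).image (fun i => (i.val + 1) / 8 ^ j)).card := by
    rw [Finset.card_image_of_injOn]
    intro a ha b hb hab
    have h1 := Nat.div_mul_cancel (hdvd a ha)
    have h2 := Nat.div_mul_cancel (hdvd b hb)
    dsimp only at hab
    rw [hab, h2] at h1
    exact Fin.ext (by omega)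
  rw [himg]
  apply card_le_of_diam
  intro u hu v hv
  obtain ⟨a, ha, rfl⟩ := Finset.mem_image.1 hu
  obtain ⟨b, hb, rfl⟩ := Finset.mem_image.1 hv
  have h1 := Nat.div_mul_cancel (hdvd a ha)
  have h2 := Nat.div_mul_cancel (hdvd b hb)
  set u := (a.val + 1) / 8 ^ j
  set v := (b.val + 1) / 8 ^ j
  by_contra hcon
  push Not at hcon
  have hn : 0 < n := lt_of_le_of_lt (Nat.zero_le _) a.2
  -- v > u + X
  have h3 : n / (8 ^ j * N) < v - u := by omega
  have h4 : n < (v - u) * (8 ^ j * N) := by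
    rwa [Nat.div_lt_iff_lt_mul (by positivity)] at h3
  have h5 : (v - u) * (8 ^ j * N) = (b.val - a.val) * N := by
    have : (v - u) * 8 ^ j = b.val - a.val := by
      rw [Nat.sub_mul, h1, h2]; omega
    rw [← mul_assoc, this]
  rw [h5] at h4
  have h6 := hval a ha
  have h7 := hval b hb
  -- both equal c.val
  have h8 : c.val * n ≤ a.val * N := by
    rw [← h6]; exact Nat.div_mul_le_self _ _
  have h9 : b.val * N < c.val * n + n := by
    rw [← h7]; exact Nat.lt_div_mul_add hn
  rw [Nat.sub_mul] at h4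
  omega

theorem coarse_coord {N N' : ℕ} (hN : N = 4 * N') (hN' : N' ≠ 0) {x D : ℕ} (hx : x < D) :
    ∃ e ∈ Finset.range 4, ((x * N / D : ℕ) : ZMod N) =
      ((4 * ((x * N' / D : ℕ) : ZMod N').val + e : ℕ) : ZMod N) := by
  have h1 : ((x * N' / D : ℕ) : ZMod N').val = x * N' / D := by
    rw [ZMod.val_natCast, Nat.mod_eq_of_lt ((div_lt_N hx).resolve_right hN')]
  rw [h1]
  have h2 : x * N' / D = (x * N / D) / 4 := by
    rw [Nat.div_div_eq_div_mul, hN]
    have : x * (4 * N') = x * N' * 4 := by ring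
    rw [this, Nat.mul_div_mul_right _ _ (by norm_num)]
  refine ⟨(x * N / D) % 4, Finset.mem_range.2 (Nat.mod_lt _ (by norm_num)), ?_⟩
  rw [h2]
  congr 1
  omega

theorem coarse_lin {n N N' M : ℕ} (hN : N = 4 * N') (hN' : N' ≠ 0) (Y : Fin n → ℕ) (hY : ∀ i, Y i < M)
    (b : Bool) (i : Fin n) :
    ∃ e ∈ Finset.range 4, lin b (cell M N Y i) = ((4 * (lin b (cell M N' Y i)).val + e : ℕ) : ZMod N) := by
  cases b
  · simp only [lin, cell]
    exact coarse_coord hN hN' i.2
  · simp only [lin, cell]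
    exact coarse_coord hN hN' (hY i)

theorem load_coarse {n N N' M : ℕ} (hN : N = 4 * N') (hN' : N' ≠ 0) (Y : Fin n → ℕ) (hY : ∀ i, Y i < M)
    (A : Finset (Fin n)) (x : ℕ) (h : ∀ l, load (cell M N Y) A l ≤ x) :
    ∀ l, load (cell M N' Y) A l ≤ 4 * x := by
  classical
  intro l
  have hsub : A.filter (fun a => lin l.1 (cell M N' Y a) = l.2) ⊆
      (Finset.range 4).biUnion (fun e => A.filter (fun a => lin l.1 (cell M N Y a) =
        ((4 * l.2.val + e : ℕ) : ZMod N))) := by
    intro a ha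
    simp only [mem_filter] at ha
    obtain ⟨e, he, heq⟩ := coarse_lin hN hN' Y hY l.1 a
    simp only [mem_biUnion, mem_filter]
    rw [ha.2] at heq
    exact ⟨e, he, ha.1, heq⟩
  calc load (cell M N' Y) A l ≤ _ := Finset.card_le_card hsub
    _ ≤ (Finset.range 4).card * x := by
        apply Finset.card_biUnion_le_card_mul
        intro e _
        exact h (l.1, ((4 * l.2.val + e : ℕ) : ZMod N))
    _ = 4 * x := by simp

theorem mult_coarse {n N N' M : ℕ} (hN : N = 4 * N') (hN' : N' ≠ 0) (Y : Fin n → ℕ) (hY : ∀ i, Y i < M)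
    (A : Finset (Fin n)) (x : ℕ) (h : ∀ c, (A.filter (fun a => cell M N Y a = c)).card ≤ x) :
    ∀ c, (A.filter (fun a => cell M N' Y a = c)).card ≤ 16 * x := by
  classical
  intro c
  have hsub : A.filter (fun a => cell M N' Y a = c) ⊆
      (Finset.range 4 ×ˢ Finset.range 4).biUnion (fun e => A.filter (fun a => cell M N Y a =
        (((4 * c.1.val + e.1 : ℕ) : ZMod N), ((4 * c.2.val + e.2 : ℕ) : ZMod N)))) := by
    intro a ha
    simp only [mem_filter] at ha
    obtain ⟨e, he, heq⟩ := coarse_lin hN hN' Y hY true a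
    obtain ⟨e', he', heq'⟩ := coarse_lin hN hN' Y hY false a
    rw [ha.2] at heq heq'
    simp only [mem_biUnion, mem_filter, mem_product]
    refine ⟨(e, e'), ⟨he, he'⟩, ha.1, ?_⟩
    simp only [lin] at heq heq'
    exact Prod.ext (by simpa using heq) (by simpa using heq')
  calc (A.filter (fun a => cell M N' Y a = c)).card ≤ _ := Finset.card_le_card hsub
    _ ≤ (Finset.range 4 ×ˢ Finset.range 4).card * x := by
        apply Finset.card_biUnion_le_card_mul
        intro e _
        exact h _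
    _ = 16 * x := by simp

theorem mult_le_load {n N M : ℕ} (Y : Fin n → ℕ) (A : Finset (Fin n)) (x : ℕ)
    (h : ∀ l, load (cell M N Y) A l ≤ x) :
    ∀ c, (A.filter (fun a => cell M N Y a = c)).card ≤ x := by
  intro c
  refine le_trans (Finset.card_le_card ?_) (h (true, c.1))
  intro a ha
  simp only [mem_filter] at ha ⊢
  exact ⟨ha.1, by rw [ha.2]; simp [lin]⟩

end Pool.Agent.H240R3
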