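import Mathlib
import Pool.Agent.H240R3.SimH
set_option autoImplicit false

namespace Pool.Agent.H240R3

open Finset

@[irreducible] def NN (m : ℕ) : ℕ := 2 ^ (2 * m + 12)
@[irreducible] def MM (k : ℕ) : ℕ := 2 ^ (7 * k + 20)

instance (m : ℕ) : NeZero (NN m) := ⟨by unfold NN; positivity⟩
instance (m : ℕ) : NeZero (MM m) := ⟨by unfold MM; positivity⟩

theorem NN_dvd {m k : ℕ} (h : m ≤ k) : NN m ∣ MM k := by
  unfold NN MM
  exact pow_dvd_pow 2 (by omega)

open Classical in
/-- the set used for the multiplicity property. -/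
noncomputable def SS (n k m : ℕ) : Finset (Fin n) := if 4 * k ≤ 5 * m then univ else Lev n (k - m)

structure Static (n k : ℕ) (ω : Fin n → Fin (MM k)) : Prop where
  rows : ∀ m ≤ k, k ≤ 3 * m → ∀ r, load (cell (MM k) (NN m) (vals ω)) (Lev n (k - m)) (true, r) ≤ 2 ^ (m - 8)
  pairs : ∀ m ≤ k, k ≤ 3 * m → ∀ w : ZMod (NN m) × ZMod (NN m), w ≠ 0 →
    (((Lev n (k - m)) ×ˢ (Lev n (k - m))).filter (fun x => cell (MM k) (NN m) (vals ω) x.2 =
      cell (MM k) (NN m) (vals ω) x.1 + w)).card ≤ 2 ^ (2 * m - 15)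
  mult : ∀ m ≤ k, k ≤ 3 * m → ∀ c, ((SS n k m).filter (fun a => cell (MM k) (NN m) (vals ω) a = c)).card ≤ 64

theorem grow (m : ℕ) (hm : 40 ≤ m) : 64 * m ≤ 2 ^ (m - 23) := by
  induction m, hm using Nat.le_induction with
  | base => norm_num
  | succ m hm ih =>
    have : m + 1 - 23 = (m - 23) + 1 := by omega
    rw [this, pow_succ]
    omega

theorem Lev_subset_SS (n k m : ℕ) : Lev n (k - m) ⊆ SS n k m := by
  classical
  unfold SS
  split_ifs
  · exact Finset.subset_univ _
  · exact Finset.Subset.refl _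

theorem Lev_subset_Dj (n j : ℕ) : Lev n j ⊆ Dj n j := Finset.sdiff_subset

theorem div_pow_lt {n k m : ℕ} (hm : m ≤ k) (hn2 : n < 8 ^ (k + 1)) : n / 8 ^ (k - m) < 8 ^ (m + 1) := by
  rw [Nat.div_lt_iff_lt_mul (by positivity), ← pow_add]
  have : m + 1 + (k - m) = k + 1 := by omega
  rw [this]
  exact hn2

theorem card_Lev_le {n k m : ℕ} (hm : m ≤ k) (hn2 : n < 8 ^ (k + 1)) : (Lev n (k - m)).card ≤ 8 ^ (m + 1) := by
  have h1 := card_Lev n (k - m)
  have h2 := div_pow_lt hm hn2
  exact le_trans (le_trans (Nat.le_add_right _ _) h1.le) h2.le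

theorem pow8 (a : ℕ) : (8 : ℕ) ^ a = 2 ^ (3 * a) := by
  rw [pow_mul]; norm_num

theorem col_Lev {n k m : ℕ} (hm : m ≤ k) (hm9 : 9 ≤ m) (hn2 : n < 8 ^ (k + 1)) (c : ZMod (NN m)) :
    ((Lev n (k - m)).filter (fun i => ((i.val * (NN m) / n : ℕ) : ZMod (NN m)) = c)).card ≤ 2 ^ (m - 9) := by
  have h1 := col_count (NN m) (k - m) (Lev n (k - m)) (Lev_subset_Dj _ _) c
  have h2 : n / (8 ^ (k - m) * NN m) < 2 ^ (m - 9) := by
    rw [Nat.div_lt_iff_lt_mul (by unfold NN; positivity)]
    have : 2 ^ (m - 9) * (8 ^ (k - m) * NN m) = 8 ^ (k + 1) := by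
      unfold NN
      rw [pow8, pow8, ← pow_add, ← pow_add]
      congr 1
      omega
    rw [this]
    exact hn2
  omega

open Classical in
noncomputable def Ba (n k m : ℕ) (r : ZMod (NN m)) : Finset (Fin n → Fin (MM k)) :=
  univ.filter (fun ω => 2 ^ (m - 8) < load (cell (MM k) (NN m) (vals ω)) (Lev n (k - m)) (true, r))

open Classical in
noncomputable def Bb (n k m : ℕ) (w : ZMod (NN m) × ZMod (NN m)) : Finset (Fin n → Fin (MM k)) :=
  univ.filter (fun ω => w ≠ 0 ∧ ((∀ c, ((Lev n (k - m)).filter (fun i => cell (MM k) (NN m) (vals ω) i = c)).card ≤ 64) ∧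
      2 ^ (2 * m - 15) < (((Lev n (k - m)) ×ˢ (Lev n (k - m))).filter (fun x => cell (MM k) (NN m) (vals ω) x.2 =
      cell (MM k) (NN m) (vals ω) x.1 + w)).card))

open Classical in
noncomputable def Be (n k m : ℕ) (c : ZMod (NN m) × ZMod (NN m)) : Finset (Fin n → Fin (MM k)) :=
  univ.filter (fun ω => 64 < ((SS n k m).filter (fun a => cell (MM k) (NN m) (vals ω) a = c)).card)

open Classical in
theorem static_count (n k : ℕ) (hk : 120 ≤ k) (hn2 : n < 8 ^ (k + 1)) :
    (((univ : Finset (Fin n → Fin (MM k))).filter (fun ω => ¬ Static n k ω)).card : ℝ) ≤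
      (k + 1) * (3 * 2 ^ (4 * k + 24)) * Real.exp (-(4 * k : ℝ)) * (MM k : ℝ) ^ n := by
  obtain ⟨x, hx⟩ : ∃ x : ℝ, x = Real.exp (-(4 * k : ℝ)) * (MM k : ℝ) ^ n := ⟨_, rfl⟩
  have hx0 : 0 ≤ x := by rw [hx]; positivity
  have hlog : (0.6931471803 : ℝ) < Real.log 2 := Real.log_two_gt_d9
  have hm40 : ∀ m, k ≤ 3 * m → 40 ≤ m := by intro m h; omega
  -- bound a
  have ba : ∀ m ≤ k, k ≤ 3 * m → ∀ r, ((Ba n k m r).card : ℝ) ≤ x := by
    intro m hmk hkm r
    rw [hx]
    refine le_trans (le_of_eq ?_) (tail_row (MM k) (NN m) (NN_dvd hmk) (Lev n (k - m)) r (4 * k) (2 ^ (m - 8)) ?_)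
    · simp only [Ba]
    have hg := grow m (hm40 m hkm)
    obtain ⟨d, rfl⟩ : ∃ d, m = 23 + d := ⟨m - 23, by have := hm40 m hkm; omega⟩
    have e0 : 23 + d - 23 = d := by omega
    rw [e0] at hg
    have e1 : 23 + d - 8 = 15 + d := by omega
    rw [e1]
    have hc : ((Lev n (k - (23 + d))).card : ℝ) ≤ 2 ^ (14 + d) * (NN (23 + d) : ℝ) := by
      have h1 := card_Lev_le hmk hn2
      have h2 : 8 ^ (23 + d + 1) = 2 ^ (14 + d) * NN (23 + d) := by
        unfold NN
        rw [pow8, ← pow_add]
        congr 1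
        omega
      rw [h2] at h1
      exact_mod_cast h1
    have hNpos : (0 : ℝ) < NN (23 + d) := by unfold NN; positivity
    have h3 : ((Lev n (k - (23 + d))).card : ℝ) / NN (23 + d) ≤ 2 ^ (14 + d) := by
      rw [div_le_iff₀ hNpos]; exact hc
    have h4 : (4 * k : ℝ) ≤ 2 ^ d := by
      have : 4 * k ≤ 2 ^ d := by omega
      exact_mod_cast this
    have hX : (0 : ℝ) < 2 ^ d := by positivity
    push_cast
    rw [pow_add] at h3
    rw [pow_add]
    have h5 : Real.log 2 * (2 ^ 15 * 2 ^ d) ≥ 0.6931471803 * (2 ^ 15 * 2 ^ d) :=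
      mul_le_mul_of_nonneg_right hlog.le (by positivity)
    nlinarith
  -- bound b
  have bb : ∀ m ≤ k, k ≤ 3 * m → ∀ w, ((Bb n k m w).card : ℝ) ≤ x := by
    intro m hmk hkm w
    by_cases hw : w = 0
    · have : Bb n k m w = ∅ := by
        simp [Bb, hw]
      rw [this]; simpa using hx0
    have hkey := tail_pair (MM k) (NN m) (NN_dvd hmk) (Lev n (k - m)) w hw (4 * k) (2 ^ (m - 9)) 64
      (2 ^ (2 * m - 15)) (by norm_num) (fun c => col_Lev hmk (by have := hm40 m hkm; omega) hn2 c) (by
        have hg := grow m (hm40 m hkm)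
        obtain ⟨d, rfl⟩ : ∃ d, m = 23 + d := ⟨m - 23, by have := hm40 m hkm; omega⟩
        have e0 : 23 + d - 23 = d := by omega
        rw [e0] at hg
        have e1 : 2 * (23 + d) - 15 = 31 + 2 * d := by omega
        have e2 : 23 + d - 9 = 14 + d := by omega
        rw [e1, e2]
        have hc : ((Lev n (k - (23 + d))).card : ℝ) ≤ 2 ^ (14 + d) * (NN (23 + d) : ℝ) := by
          have h1 := card_Lev_le hmk hn2
          have h2 : 8 ^ (23 + d + 1) = 2 ^ (14 + d) * NN (23 + d) := by
            unfold NN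
            rw [pow8, ← pow_add]
            congr 1
            omega
          rw [h2] at h1
          exact_mod_cast h1
        have hNpos : (0 : ℝ) < NN (23 + d) := by unfold NN; positivity
        have h3 : 2 * ((Lev n (k - (23 + d))).card : ℝ) * ((2 ^ (14 + d) : ℕ) : ℝ) / NN (23 + d) ≤
            2 * 2 ^ (14 + d) * 2 ^ (14 + d) := by
          rw [div_le_iff₀ hNpos]
          push_cast
          have : (0 : ℝ) ≤ 2 * 2 ^ (14 + d) := by positivity
          nlinarith [mul_le_mul_of_nonneg_left hc this]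
        have h4 : (k : ℝ) ≤ 2 ^ d := by
          have : k ≤ 2 ^ d := by omega
          exact_mod_cast this
        have hX : (1 : ℝ) ≤ 2 ^ d := one_le_pow₀ (by norm_num)
        have h5 : Real.log 2 * (2 ^ 31 * (2 ^ d * 2 ^ d)) ≥ 0.6931471803 * (2 ^ 31 * (2 ^ d * 2 ^ d)) :=
          mul_le_mul_of_nonneg_right hlog.le (by positivity)
        have h6 : (2 : ℝ) ^ (31 + 2 * d) = 2 ^ 31 * (2 ^ d * 2 ^ d) := by
          rw [pow_add, two_mul, pow_add]
        have h7 : (2 : ℝ) * 2 ^ (14 + d) * 2 ^ (14 + d) = 2 ^ 29 * (2 ^ d * 2 ^ d) := by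
          rw [pow_add]; ring
        rw [h7] at h3
        push_cast at h3 ⊢
        rw [h6]
        have h8 : (2 : ℝ) ^ d ≤ 2 ^ d * 2 ^ d := by nlinarith
        nlinarith)
    rw [hx]
    refine le_trans ?_ hkey
    have : Bb n k m w ⊆ univ.filter (fun ω : Fin n → Fin (MM k) =>
      (∀ c, ((Lev n (k - m)).filter (fun i => cell (MM k) (NN m) (vals ω) i = c)).card ≤ 64) ∧
      2 ^ (2 * m - 15) < (((Lev n (k - m)) ×ˢ (Lev n (k - m))).filter (fun x => cell (MM k) (NN m) (vals ω) x.2 =
      cell (MM k) (NN m) (vals ω) x.1 + w)).card) := by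
      intro ω hω
      simp only [Bb, mem_filter, mem_univ, true_and] at hω ⊢
      exact hω.2
    exact_mod_cast Finset.card_le_card this
  -- bound e
  have be : ∀ m ≤ k, k ≤ 3 * m → ∀ c, ((Be n k m c).card : ℝ) ≤ x := by
    intro m hmk hkm c
    have hm := hm40 m hkm
    obtain ⟨cc, hcc, hccN⟩ : ∃ cc : ℕ,
        ((SS n k m).filter (fun i => ((i.val * (NN m) / n : ℕ) : ZMod (NN m)) = c.2)).card ≤ cc ∧
        2 ^ (k / 10) * cc ≤ NN m := by
      unfold SS
      by_cases h45 : 4 * k ≤ 5 * m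
      · rw [if_pos h45]
        refine ⟨n / (8 ^ 0 * NN m) + 1, ?_, ?_⟩
        · have := col_count (NN m) 0 (univ : Finset (Fin n)) (by rw [Dj_zero]) c.2
          exact this
        · rw [pow_zero, one_mul]
          have h1 : n / NN m * NN m ≤ n := Nat.div_mul_le_self _ _
          have hNpos : 0 < NN m := by unfold NN; positivity
          have h2 : 2 * 2 ^ (k / 10) * n ≤ NN m * NN m := by
            calc 2 * 2 ^ (k / 10) * n ≤ 2 * 2 ^ (k / 10) * 8 ^ (k + 1) := Nat.mul_le_mul_left _ hn2.le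
              _ = 2 ^ (1 + k / 10 + 3 * (k + 1)) := by rw [pow8, pow_add, pow_add]; ring
              _ ≤ 2 ^ ((2 * m + 12) + (2 * m + 12)) := Nat.pow_le_pow_right (by norm_num) (by omega)
              _ = NN m * NN m := by unfold NN; rw [pow_add]
          have h3 : 2 * 2 ^ (k / 10) * (n / NN m) ≤ NN m := by
            apply Nat.le_of_mul_le_mul_right _ hNpos
            calc 2 * 2 ^ (k / 10) * (n / NN m) * NN m = 2 * 2 ^ (k / 10) * (n / NN m * NN m) := by ring
              _ ≤ 2 * 2 ^ (k / 10) * n := Nat.mul_le_mul_left _ h1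
              _ ≤ _ := h2
          have h4 : 2 * 2 ^ (k / 10) ≤ NN m := by
            unfold NN
            rw [← pow_succ']
            exact Nat.pow_le_pow_right (by norm_num) (by omega)
          nlinarith
      · rw [if_neg h45]
        refine ⟨2 ^ (m - 9), col_Lev hmk (by omega) hn2 c.2, ?_⟩
        unfold NN
        rw [← pow_add]
        exact Nat.pow_le_pow_right (by norm_num) (by omega)
    rw [hx]
    refine le_trans (le_of_eq ?_) (tail_cell (MM k) (NN m) (NN_dvd hmk) (SS n k m) c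
      ((k / 10 : ℕ) * Real.log 2) (4 * k)
      (by
        apply mul_pos
        · have : 0 < k / 10 := by omega
          exact_mod_cast this
        · linarith) cc 64 hcc ?_)
    · simp only [Be]
    have hexp : Real.exp ((k / 10 : ℕ) * Real.log 2) = 2 ^ (k / 10) := by
      rw [mul_comm, Real.exp_mul, Real.exp_log (by norm_num)]
      exact Real.rpow_natCast 2 (k / 10)
    rw [hexp]
    have hNpos : (0 : ℝ) < NN m := by unfold NN; positivity
    have h1 : (2 ^ (k / 10) : ℝ) * cc ≤ NN m := by exact_mod_cast hccN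
    have h2 : ((2 : ℝ) ^ (k / 10) - 1) * ((cc : ℝ) / NN m) ≤ 1 := by
      rw [mul_div_assoc', div_le_one hNpos]
      have : (0 : ℝ) ≤ cc := Nat.cast_nonneg _
      linarith
    have h3 : (k : ℝ) - 9 ≤ 10 * ((k / 10 : ℕ) : ℝ) := by
      have : k ≤ 10 * (k / 10) + 9 := by omega
      have h5 : (k : ℝ) ≤ 10 * ((k / 10 : ℕ) : ℝ) + 9 := by exact_mod_cast this
      linarith
    have hkr : (120 : ℝ) ≤ k := by exact_mod_cast hk
    have h4 : ((k / 10 : ℕ) : ℝ) * Real.log 2 * (64 : ℕ) ≥ ((k / 10 : ℕ) : ℝ) * 0.6931471803 * 64 := by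
      have : (0 : ℝ) ≤ ((k / 10 : ℕ) : ℝ) := Nat.cast_nonneg _
      push_cast
      nlinarith [mul_le_mul_of_nonneg_left hlog.le this]
    nlinarith
  -- the union
  have hsub : (univ : Finset (Fin n → Fin (MM k))).filter (fun ω => ¬ Static n k ω) ⊆
      ((Finset.range (k + 1)).filter (fun m => k ≤ 3 * m)).biUnion (fun m =>
        (univ.biUnion (fun r => Ba n k m r) ∪ univ.biUnion (fun w => Bb n k m w)) ∪ univ.biUnion (fun c => Be n k m c)) := by
    intro ω hω
    simp only [mem_filter, mem_univ, true_and] at hω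
    by_contra hcon
    apply hω
    simp only [mem_biUnion, mem_union, mem_filter, mem_range, mem_univ, true_and, not_exists, not_and,
      not_or] at hcon
    have hE : ∀ m ≤ k, k ≤ 3 * m → ∀ c, ((SS n k m).filter (fun a => cell (MM k) (NN m) (vals ω) a = c)).card ≤ 64 := by
      intro m hmk hkm c
      have h1 := (hcon m ⟨by omega, hkm⟩).2 c
      simp only [Be, mem_filter, mem_univ, true_and, not_lt] at h1
      exact h1
    refine ⟨?_, ?_, hE⟩
    · intro m hmk hkm r
      have h1 := (hcon m ⟨by omega, hkm⟩).1.1 r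
      simp only [Ba, mem_filter, mem_univ, true_and, not_lt] at h1
      exact h1
    · intro m hmk hkm w hw
      have h1 := (hcon m ⟨by omega, hkm⟩).1.2 w
      simp only [Bb, mem_filter, mem_univ, true_and, not_and, not_lt] at h1
      apply h1 hw
      intro c
      exact le_trans (Finset.card_le_card (Finset.filter_subset_filter _ (Lev_subset_SS n k m))) (hE m hmk hkm c)
  have hNsq : ∀ m ≤ k, ((NN m : ℝ) + NN m * NN m + NN m * NN m) ≤ 3 * 2 ^ (4 * k + 24) := by
    intro m hmk
    have h1 : (1 : ℝ) ≤ NN m := by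
      unfold NN; push_cast; exact one_le_pow₀ (by norm_num)
    have h2 : (NN m : ℝ) * NN m ≤ 2 ^ (4 * k + 24) := by
      unfold NN; push_cast
      rw [← pow_add]
      exact pow_le_pow_right₀ (by norm_num) (by omega)
    nlinarith
  calc (((univ : Finset (Fin n → Fin (MM k))).filter (fun ω => ¬ Static n k ω)).card : ℝ)
      ≤ ((((Finset.range (k + 1)).filter (fun m => k ≤ 3 * m)).biUnion (fun m =>
        (univ.biUnion (fun r => Ba n k m r) ∪ univ.biUnion (fun w => Bb n k m w)) ∪
          univ.biUnion (fun c => Be n k m c))).card : ℝ) := by exact_mod_cast Finset.card_le_card hsub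
    _ ≤ ∑ m ∈ (Finset.range (k + 1)).filter (fun m => k ≤ 3 * m), (((univ.biUnion (fun r => Ba n k m r) ∪
        univ.biUnion (fun w => Bb n k m w)) ∪ univ.biUnion (fun c => Be n k m c)).card : ℝ) := by
        exact_mod_cast Finset.card_biUnion_le
    _ ≤ ∑ m ∈ (Finset.range (k + 1)).filter (fun m => k ≤ 3 * m), 3 * 2 ^ (4 * k + 24) * x := by
        apply Finset.sum_le_sum
        intro m hm
        simp only [mem_filter, mem_range] at hm
        have hmk : m ≤ k := by omega
        have a1 : ((univ.biUnion (fun r => Ba n k m r)).card : ℝ) ≤ NN m * x := by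
          calc ((univ.biUnion (fun r => Ba n k m r)).card : ℝ) ≤ ∑ r : ZMod (NN m), ((Ba n k m r).card : ℝ) := by
                exact_mod_cast Finset.card_biUnion_le
            _ ≤ ∑ r : ZMod (NN m), x := Finset.sum_le_sum (fun r _ => ba m hmk hm.2 r)
            _ = NN m * x := by rw [Finset.sum_const, Finset.card_univ, ZMod.card, nsmul_eq_mul]
        have a2 : ((univ.biUnion (fun w => Bb n k m w)).card : ℝ) ≤ NN m * NN m * x := by
          calc ((univ.biUnion (fun w => Bb n k m w)).card : ℝ) ≤ ∑ w : ZMod (NN m) × ZMod (NN m), ((Bb n k m w).card : ℝ) := by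
                exact_mod_cast Finset.card_biUnion_le
            _ ≤ ∑ w : ZMod (NN m) × ZMod (NN m), x := Finset.sum_le_sum (fun r _ => bb m hmk hm.2 r)
            _ = NN m * NN m * x := by
                rw [Finset.sum_const, Finset.card_univ, Fintype.card_prod, ZMod.card, nsmul_eq_mul]
                push_cast; ring
        have a3 : ((univ.biUnion (fun w => Be n k m w)).card : ℝ) ≤ NN m * NN m * x := by
          calc ((univ.biUnion (fun w => Be n k m w)).card : ℝ) ≤ ∑ w : ZMod (NN m) × ZMod (NN m), ((Be n k m w).card : ℝ) := by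
                exact_mod_cast Finset.card_biUnion_le
            _ ≤ ∑ w : ZMod (NN m) × ZMod (NN m), x := Finset.sum_le_sum (fun r _ => be m hmk hm.2 r)
            _ = NN m * NN m * x := by
                rw [Finset.sum_const, Finset.card_univ, Fintype.card_prod, ZMod.card, nsmul_eq_mul]
                push_cast; ring
        have a4 : (((univ.biUnion (fun r => Ba n k m r) ∪
            univ.biUnion (fun w => Bb n k m w)) ∪ univ.biUnion (fun c => Be n k m c)).card : ℝ) ≤
            ((univ.biUnion (fun r => Ba n k m r)).card : ℝ) + ((univ.biUnion (fun w => Bb n k m w)).card : ℝ) +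
            ((univ.biUnion (fun w => Be n k m w)).card : ℝ) := by
          have h1 := Finset.card_union_le (univ.biUnion (fun r => Ba n k m r) ∪
            univ.biUnion (fun w => Bb n k m w)) (univ.biUnion (fun c => Be n k m c))
          have h2 := Finset.card_union_le (univ.biUnion (fun r => Ba n k m r)) (univ.biUnion (fun w => Bb n k m w))
          have h3 := le_trans h1 (Nat.add_le_add_right h2 _)
          exact_mod_cast h3
        have a5 := mul_le_mul_of_nonneg_right (hNsq m hmk) hx0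
        nlinarith
    _ ≤ (k + 1) * (3 * 2 ^ (4 * k + 24) * x) := by
        rw [Finset.sum_const, nsmul_eq_mul]
        apply mul_le_mul_of_nonneg_right _ (by positivity)
        have := Finset.card_filter_le (Finset.range (k + 1)) (fun m => k ≤ 3 * m)
        rw [Finset.card_range] at this
        exact_mod_cast this
    _ = _ := by rw [hx]; ring

end Pool.Agent.H240R3
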