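import Mathlib
import Pool.Agent.H240R3.SimI
set_option autoImplicit false

namespace Pool.Agent.H240R3

open Finset

@[irreducible] def DA (k m : ℕ) : ℕ := if 4 * k + 5 ≤ 5 * m then 64 else 100 * k
@[irreducible] def KC (k m : ℕ) : ℕ := if 4 * k + 5 ≤ 5 * m then 14 else 14 * k
@[irreducible] def ff (k m : ℕ) : ℕ := if 4 * k + 5 ≤ 5 * m then 2 ^ (m - 22) else 10 * k
@[irreducible] def KK (k m : ℕ) : ℕ := KC k m * (DA k m * 2 ^ (m + 40))

theorem DA_ge {k m : ℕ} (hk : 120 ≤ k) : 64 ≤ DA k m := by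
  unfold DA; split_ifs <;> omega

theorem ff_le {k m : ℕ} (hm : 40 ≤ m) (hkm : k ≤ 3 * m) : ff k m ≤ 2 ^ (m - 22) := by
  unfold ff
  split_ifs
  · exact le_rfl
  · have h := grow m hm
    have : 2 ^ (m - 23) ≤ 2 ^ (m - 22) := Nat.pow_le_pow_right (by norm_num) (by omega)
    omega

theorem theta_eq {k m : ℕ} (hk : 120 ≤ k) (hm : 40 ≤ m) :
    ((2 ^ (3 * m - 8) : ℕ) : ℝ) / (4 * (DA k m : ℕ) * (64 : ℕ) * (NN m : ℝ) ^ 2) =
      1 / ((DA k m : ℝ) * 2 ^ (m + 40)) := by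
  obtain ⟨d, rfl⟩ : ∃ d, m = 23 + d := ⟨m - 23, by omega⟩
  have hD : (0 : ℝ) < DA k (23 + d) := by
    have := DA_ge (k := k) (m := 23 + d) hk
    exact_mod_cast (by omega : 0 < DA k (23 + d))
  have e1 : 3 * (23 + d) - 8 = 61 + 3 * d := by omega
  rw [e1]
  unfold NN
  push_cast
  rw [div_eq_div_iff (by positivity) (by positivity)]
  have e2 : 2 * (23 + d) + 12 = 58 + 2 * d := by ring
  have e3 : 23 + d + 40 = 63 + d := by ring
  rw [e2, e3]
  have h1 : (2 : ℝ) ^ (61 + 3 * d) = 2 ^ 61 * (2 ^ d) ^ 3 := by rw [pow_add, ← pow_mul, mul_comm 3 d]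
  have h2 : (2 : ℝ) ^ (58 + 2 * d) = 2 ^ 58 * (2 ^ d) ^ 2 := by rw [pow_add, ← pow_mul, mul_comm 2 d]
  have h3 : (2 : ℝ) ^ (63 + d) = 2 ^ 63 * (2 ^ d) := by rw [pow_add]
  rw [h1, h2, h3]
  ring

theorem log_NN {m : ℕ} : Real.log (2 * (NN m : ℝ)) ≤ 2 * m + 13 := by
  have h1 : (2 * (NN m : ℝ)) = 2 ^ (2 * m + 13) := by
    unfold NN
    push_cast
    rw [← pow_succ']
  rw [h1, Real.log_pow]
  have h2 : Real.log 2 ≤ 1 := by
    have := Real.log_two_lt_d9
    linarith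
  have h3 : (0 : ℝ) ≤ ((2 * m + 13 : ℕ) : ℝ) := Nat.cast_nonneg _
  calc ((2 * m + 13 : ℕ) : ℝ) * Real.log 2 ≤ ((2 * m + 13 : ℕ) : ℝ) * 1 :=
        mul_le_mul_of_nonneg_left h2 h3
    _ = _ := by push_cast; ring

theorem hf_lemma {k m : ℕ} (hk : 120 ≤ k) (hm : 40 ≤ m) (hmk : m ≤ k) (hkm : k ≤ 3 * m) :
    Real.log (2 * (NN m : ℝ)) + (1 - ((2 ^ (3 * m - 8) : ℕ) : ℝ) /
      (4 * (DA k m : ℕ) * (64 : ℕ) * (NN m : ℝ) ^ 2)) ^ (KK k m) * ((2 ^ (m - 4) : ℕ) : ℝ) ≤ (ff k m : ℝ) := by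
  rw [theta_eq hk hm]
  have hD1 := DA_ge (k := k) (m := m) hk
  have hD : (1 : ℝ) ≤ DA k m := by exact_mod_cast (by omega : 1 ≤ DA k m)
  set X : ℝ := (DA k m : ℝ) * 2 ^ (m + 40) with hX
  have hX1 : 1 ≤ X := by
    have : (1 : ℝ) ≤ 2 ^ (m + 40) := one_le_pow₀ (by norm_num)
    rw [hX]; nlinarith
  have hθ1 : 1 / X ≤ 1 := by rw [div_le_one (by linarith)]; exact hX1
  have hKX : ((KK k m : ℕ) : ℝ) = (KC k m : ℝ) * X := by
    unfold KK
    rw [hX]
    push_cast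
    ring
  have hpow : (1 - 1 / X) ^ (KK k m) ≤ Real.exp (-(KC k m : ℝ)) := by
    have h1 : 1 - 1 / X ≤ Real.exp (-(1 / X)) := by
      have := Real.add_one_le_exp (-(1 / X))
      linarith
    calc (1 - 1 / X) ^ (KK k m) ≤ (Real.exp (-(1 / X))) ^ (KK k m) :=
          pow_le_pow_left₀ (by linarith) h1 _
      _ = Real.exp (-(KC k m : ℝ)) := by
          rw [← Real.exp_nat_mul, hKX]
          congr 1
          have : X ≠ 0 := by linarith
          field_simp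
  have h4 : (1 - 1 / X) ^ (KK k m) * ((2 ^ (m - 4) : ℕ) : ℝ) ≤ Real.exp (-(KC k m : ℝ)) * ((2 ^ (m - 4) : ℕ) : ℝ) :=
    mul_le_mul_of_nonneg_right hpow (Nat.cast_nonneg _)
  have hl := log_NN (m := m)
  have hg := grow m hm
  by_cases hreg : 4 * k + 5 ≤ 5 * m
  · have e1 : KC k m = 14 := by unfold KC; rw [if_pos hreg]
    have e2 : ff k m = 2 ^ (m - 22) := by unfold ff; rw [if_pos hreg]
    rw [e1] at h4
    rw [e2]
    obtain ⟨d, rfl⟩ : ∃ d, m = 23 + d := ⟨m - 23, by omega⟩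
    have a1 : 23 + d - 23 = d := by omega
    have a2 : 23 + d - 22 = d + 1 := by omega
    have a3 : 23 + d - 4 = 19 + d := by omega
    rw [a1] at hg
    rw [a2]
    rw [a3] at h4 ⊢
    have hexp : Real.exp (-((14 : ℕ) : ℝ)) * 2 ^ 19 ≤ 1 := by
      rw [Real.exp_neg]
      rw [inv_mul_le_iff₀ (Real.exp_pos _), mul_one]
      have h1 : Real.exp ((14 : ℕ) : ℝ) = (Real.exp 1) ^ 14 := by
        rw [← Real.exp_nat_mul, mul_one]
      rw [h1]
      have h2 : (2.7 : ℝ) ≤ Real.exp 1 := by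
        have := Real.exp_one_gt_d9
        linarith
      calc (2 : ℝ) ^ 19 ≤ 2.7 ^ 14 := by norm_num
        _ ≤ _ := pow_le_pow_left₀ (by norm_num) h2 14
    have h5 : Real.exp (-((14 : ℕ) : ℝ)) * ((2 ^ (19 + d) : ℕ) : ℝ) ≤ 2 ^ d := by
      push_cast
      rw [pow_add]
      have h6 : (0 : ℝ) < 2 ^ d := by positivity
      calc Real.exp (-14) * (2 ^ 19 * 2 ^ d) = (Real.exp (-14) * 2 ^ 19) * 2 ^ d := by ring
        _ ≤ 1 * 2 ^ d := mul_le_mul_of_nonneg_right (by exact_mod_cast hexp) h6.le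
        _ = 2 ^ d := one_mul _
    have h7 : (2 * ((23 + d : ℕ) : ℝ) + 13) ≤ 2 ^ d := by
      have : 2 * (23 + d) + 13 ≤ 2 ^ d := by omega
      exact_mod_cast this
    push_cast at *
    rw [pow_succ]
    linarith
  · have e1 : KC k m = 14 * k := by unfold KC; rw [if_neg hreg]
    have e2 : ff k m = 10 * k := by unfold ff; rw [if_neg hreg]
    rw [e1] at h4
    rw [e2]
    have h5 : Real.exp (-((14 * k : ℕ) : ℝ)) * ((2 ^ (m - 4) : ℕ) : ℝ) ≤ 1 := by
      rw [Real.exp_neg, inv_mul_le_iff₀ (Real.exp_pos _), mul_one]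
      have h1 : Real.exp ((14 * k : ℕ) : ℝ) = (Real.exp 1) ^ (14 * k) := by
        rw [← Real.exp_nat_mul, mul_one]
      rw [h1]
      have h2 : (2 : ℝ) ≤ Real.exp 1 := by
        have := Real.exp_one_gt_d9
        linarith
      push_cast
      calc (2 : ℝ) ^ (m - 4) ≤ 2 ^ (14 * k) := pow_le_pow_right₀ (by norm_num) (by omega)
        _ ≤ _ := pow_le_pow_left₀ (by norm_num) h2 _
    have h6 : (2 * (m : ℝ) + 13) + 1 ≤ ((10 * k : ℕ) : ℝ) := by
      have : (2 * m + 13) + 1 ≤ 10 * k := by omega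
      exact_mod_cast this
    linarith

theorem load_Lev {n k m : ℕ} (hm : m ≤ k) (hm9 : 9 ≤ m) (hkm : k ≤ 3 * m) (hn2 : n < 8 ^ (k + 1))
    (ω : Fin n → Fin (MM k)) (hS : Static n k ω) :
    ∀ l, load (cell (MM k) (NN m) (vals ω)) (Lev n (k - m)) l ≤ 2 ^ (m - 8) := by
  rintro ⟨b, r⟩
  cases b
  · have h1 := col_Lev hm hm9 hn2 r
    refine le_trans (le_of_eq ?_) (h1.trans (Nat.pow_le_pow_right (by norm_num) (by omega)))
    unfold load
    congr 1
  · exact hS.rows m hm hkm r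

theorem mult_Lev {n k m : ℕ} (hm : m ≤ k) (hkm : k ≤ 3 * m)
    (ω : Fin n → Fin (MM k)) (hS : Static n k ω) :
    ∀ c, ((Lev n (k - m)).filter (fun a => cell (MM k) (NN m) (vals ω) a = c)).card ≤ 64 := by
  intro c
  exact le_trans (Finset.card_le_card (Finset.filter_subset_filter _ (Lev_subset_SS n k m)))
    (hS.mult m hm hkm c)

theorem vals_lt {n k : ℕ} (ω : Fin n → Fin (MM k)) (i : Fin n) : vals ω i < MM k := (ω i).2

@[irreducible] def AA : ℕ := 12 * 14 * 64 * 2 ^ 40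
@[irreducible] def EE (k : ℕ) : ℕ := 12 * (14 * k * (100 * k)) * 2 ^ 40 * 2 ^ ((4 * k + 4) / 5)

theorem KK_le {k m : ℕ} (_hk : 120 ≤ k) : 12 * KK k m ≤ AA * 2 ^ m + EE k := by
  unfold KK KC DA AA EE
  by_cases hreg : 4 * k + 5 ≤ 5 * m
  · simp only [if_pos hreg]
    refine le_trans (le_of_eq ?_) (Nat.le_add_right _ _)
    rw [pow_add]; ring
  · simp only [if_neg hreg]
    refine le_trans ?_ (Nat.le_add_left _ _)
    have : 2 ^ m ≤ 2 ^ ((4 * k + 4) / 5) := Nat.pow_le_pow_right (by norm_num) (by omega)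
    calc 12 * (14 * k * (100 * k * 2 ^ (m + 40))) = 12 * (14 * k * (100 * k)) * 2 ^ 40 * 2 ^ m := by
          rw [pow_add]; ring
      _ ≤ _ := Nat.mul_le_mul_left _ this

structure Inv (n k : ℕ) (ω ω' : Fin n → Fin (MM k)) (m : ℕ) (L L' : Finset (Fin n)) (κ : ℕ) : Prop where
  hL : L ⊆ (Dj n (k - m))ᶜ
  hL' : L' ⊆ (Dj n (k - m))ᶜ
  hc : L.card = L'.card
  hc2 : L.card ≤ 2 ^ (3 * m - 4)
  ld : ∀ l, load (cell (MM k) (NN m) (vals ω)) L l ≤ 2 ^ (m - 4)
  ld' : ∀ l, load (cell (MM k) (NN m) (vals ω')) L' l ≤ 2 ^ (m - 4)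
  mu : ∀ c, (L.filter (fun a => cell (MM k) (NN m) (vals ω) a = c)).card ≤ DA k m
  mu' : ∀ c, (L'.filter (fun a => cell (MM k) (NN m) (vals ω') a = c)).card ≤ DA k m
  sim : Sim (vals ω) (vals ω') κ ((Dj n (k - m))ᶜ \ L) ((Dj n (k - m))ᶜ \ L')
  cost : κ + AA * 2 ^ (m + 1) ≤ AA * 2 ^ (k + 1) + (k - m) * EE k

theorem Inv_init (n k : ℕ) (ω ω' : Fin n → Fin (MM k)) : Inv n k ω ω' k ∅ ∅ 0 := by
  classical
  refine ⟨by simp, by simp, rfl, by simp, by simp [load], by simp [load], by simp, by simp, ?_, by simp⟩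
  rw [Nat.sub_self, Dj_zero]
  simp only [Finset.compl_univ, Finset.sdiff_empty]
  exact Sim.empty _ _ _

theorem NN_succ (m : ℕ) : NN (m + 1) = 4 * NN m := by
  unfold NN
  have : 2 * (m + 1) + 12 = 2 + (2 * m + 12) := by ring
  rw [this, pow_add]
  norm_num

/-- loads of the new leftover at the finer scale -/
theorem newload {n k m : ℕ} (hk : 120 ≤ k) (hm : 40 ≤ m + 1) (hmk : m + 1 ≤ k) (hkm : k ≤ 3 * (m + 1))
    (hn2 : n < 8 ^ (k + 1)) (ω : Fin n → Fin (MM k)) (hS : Static n k ω) (L L1 : Finset (Fin n))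
    (hL1 : L1 ⊆ L ∪ Lev n (k - (m + 1)))
    (hf : ∀ l, load (cell (MM k) (NN (m + 1)) (vals ω)) (L1 ∩ L) l ≤ ff k (m + 1)) :
    (∀ l, load (cell (MM k) (NN m) (vals ω)) L1 l ≤ 2 ^ (m - 4)) ∧
    (∀ c, (L1.filter (fun a => cell (MM k) (NN m) (vals ω) a = c)).card ≤ DA k m) := by
  classical
  have hl1 := load_Lev hmk (by omega) hkm hn2 ω hS
  have hsplit : ∀ l, load (cell (MM k) (NN (m + 1)) (vals ω)) L1 l ≤ ff k (m + 1) + 2 ^ (m + 1 - 8) := by
    intro l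
    have hsub : L1.filter (fun a => lin l.1 (cell (MM k) (NN (m + 1)) (vals ω) a) = l.2) ⊆
        (L1 ∩ L).filter (fun a => lin l.1 (cell (MM k) (NN (m + 1)) (vals ω) a) = l.2) ∪
        (Lev n (k - (m + 1))).filter (fun a => lin l.1 (cell (MM k) (NN (m + 1)) (vals ω) a) = l.2) := by
      intro a ha
      simp only [mem_filter, mem_union, mem_inter] at ha ⊢
      rcases Finset.mem_union.1 (hL1 ha.1) with h | h
      · exact Or.inl ⟨⟨ha.1, h⟩, ha.2⟩
      · exact Or.inr ⟨h, ha.2⟩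
    exact le_trans (Finset.card_le_card hsub) (le_trans (Finset.card_union_le _ _)
      (Nat.add_le_add (hf l) (hl1 l)))
  have hN : NN (m + 1) = 4 * NN m := NN_succ m
  have hN0 : NN m ≠ 0 := NeZero.ne _
  have hff := ff_le hm hkm
  constructor
  · have h := load_coarse hN hN0 (vals ω) (vals_lt ω) L1 _ hsplit
    intro l
    refine le_trans (h l) ?_
    obtain ⟨d, hd⟩ : ∃ d, m = 22 + d := ⟨m - 22, by omega⟩
    subst hd
    have e1 : 22 + d + 1 - 22 = d + 1 := by omega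
    have e2 : 22 + d + 1 - 8 = d + 15 := by omega
    have e3 : 22 + d - 4 = d + 18 := by omega
    rw [e1] at hff
    rw [e2, e3]
    have e4 : 2 ^ (d + 1) ≤ 2 ^ (d + 15) := Nat.pow_le_pow_right (by norm_num) (by omega)
    have e5 : 2 ^ (d + 18) = 8 * 2 ^ (d + 15) := by rw [pow_add, pow_add]; ring
    omega
  · intro c
    by_cases hreg : 4 * k ≤ 5 * m
    · have h1 := hS.mult m (by omega) (by omega) c
      refine le_trans (Finset.card_le_card ?_) (h1.trans (DA_ge hk))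
      apply Finset.filter_subset_filter
      unfold SS
      rw [if_pos hreg]
      exact Finset.subset_univ _
    · have e1 : ff k (m + 1) = 10 * k := by unfold ff; rw [if_neg (by omega)]
      have e2 : DA k m = 100 * k := by unfold DA; rw [if_neg (by omega)]
      rw [e2]
      rw [e1] at hf
      have h1 := load_coarse hN hN0 (vals ω) (vals_lt ω) (L1 ∩ L) _ hf
      have h2 := mult_le_load (M := MM k) (N := NN m) (vals ω) (L1 ∩ L) _ h1 c
      have h3 := mult_coarse hN hN0 (vals ω) (vals_lt ω) (Lev n (k - (m + 1))) 64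
        (mult_Lev hmk hkm ω hS) c
      have hsub : L1.filter (fun a => cell (MM k) (NN m) (vals ω) a = c) ⊆
          (L1 ∩ L).filter (fun a => cell (MM k) (NN m) (vals ω) a = c) ∪
          (Lev n (k - (m + 1))).filter (fun a => cell (MM k) (NN m) (vals ω) a = c) := by
        intro a ha
        simp only [mem_filter, mem_union, mem_inter] at ha ⊢
        rcases Finset.mem_union.1 (hL1 ha.1) with h | h
        · exact Or.inl ⟨⟨ha.1, h⟩, ha.2⟩
        · exact Or.inr ⟨h, ha.2⟩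
      have h4 := le_trans (Finset.card_le_card hsub) (Finset.card_union_le _ _)
      omega

end Pool.Agent.H240R3
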