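import Mathlib
import Pool.Agent.H240R3.SimJ
set_option autoImplicit false

namespace Pool.Agent.H240R3

open Finset

theorem Inv_step {n k m : ℕ} (hk : 120 ≤ k) (hm : 40 ≤ m + 1) (hmk : m + 1 ≤ k) (hkm : k ≤ 3 * (m + 1))
    (hn1 : 8 ^ k ≤ n) (hn2 : n < 8 ^ (k + 1)) (ω ω' : Fin n → Fin (MM k)) (hS : Static n k ω)
    (hS' : Static n k ω') (h : ∃ L L' κ, Inv n k ω ω' (m + 1) L L' κ) :
    ∃ L L' κ, Inv n k ω ω' m L L' κ := by
  classical
  obtain ⟨L, L', κ, hI⟩ := h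
  have hj : k - m = k - (m + 1) + 1 := by omega
  have hLevD : Lev n (k - (m + 1)) ⊆ Dj n (k - (m + 1)) := Lev_subset_Dj _ _
  have hdisj : ∀ S : Finset (Fin n), S ⊆ (Dj n (k - (m + 1)))ᶜ → Disjoint S (Lev n (k - (m + 1))) := by
    intro S hS
    rw [Finset.disjoint_left]
    intro x hx hx'
    exact (Finset.mem_compl.1 (hS hx)) (hLevD hx')
  have hcardLev : L.card + 2 ^ (3 * (m + 1) - 8) ≤ (Lev n (k - (m + 1))).card := by
    have h1 := card_Lev n (k - (m + 1))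
    have h2 : 8 ^ (m + 1) ≤ n / 8 ^ (k - (m + 1)) := by
      rw [Nat.le_div_iff_mul_le (by positivity), ← pow_add]
      have : m + 1 + (k - (m + 1)) = k := by omega
      rw [this]; exact hn1
    have h3 : n / 8 ^ (k - (m + 1) + 1) = n / 8 ^ (k - (m + 1)) / 8 := by
      rw [pow_succ, Nat.div_div_eq_div_mul]
    have h4 := hI.hc2
    rw [pow8] at h2
    rw [h3] at h1
    obtain ⟨d, hd⟩ : ∃ d, m + 1 = 8 + d := ⟨m + 1 - 8, by omega⟩
    rw [hd] at h1 h2 h4 ⊢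
    have e1 : 3 * (8 + d) = 3 * d + 16 + 8 := by ring
    have e2 : 3 * (8 + d) - 4 = (3 * d + 16) + 4 := by omega
    have e3 : 3 * (8 + d) - 8 = (3 * d + 16) := by omega
    rw [e1] at h2
    rw [e2] at h4
    rw [e3]
    rw [pow_add 2 (3 * d + 16) 8] at h2
    rw [pow_add 2 (3 * d + 16) 4] at h4
    generalize n / 8 ^ (k - (8 + d)) = x at *
    generalize 2 ^ (3 * d + 16) = y at *
    omega
  have hR : 4 * 64 * 2 ^ (m + 1 - 4) * 2 ^ (2 * (m + 1) - 15) ≤ 2 ^ (3 * (m + 1) - 8) := by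
    have : 4 * 64 * 2 ^ (m + 1 - 4) * 2 ^ (2 * (m + 1) - 15) = 2 ^ (8 + (m + 1 - 4) + (2 * (m + 1) - 15)) := by
      rw [pow_add, pow_add]; norm_num
    rw [this]
    exact Nat.pow_le_pow_right (by norm_num) (by omega)
  have hDA := DA_ge (k := k) (m := m + 1) hk
  have hRN : 2 ^ (3 * (m + 1) - 8) ≤ 4 * DA k (m + 1) * 64 * (NN (m + 1)) ^ 2 := by
    have h1 : 2 ^ (3 * (m + 1) - 8) ≤ (NN (m + 1)) ^ 2 := by
      unfold NN
      rw [← pow_mul]
      exact Nat.pow_le_pow_right (by norm_num) (by omega)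
    calc 2 ^ (3 * (m + 1) - 8) ≤ 1 * (NN (m + 1)) ^ 2 := by rw [one_mul]; exact h1
      _ ≤ 4 * DA k (m + 1) * 64 * (NN (m + 1)) ^ 2 := Nat.mul_le_mul_right _ (by omega)
  have hll : ∀ (W : Fin n → Fin (MM k)), Static n k W →
      ∀ l, load (cell (MM k) (NN (m + 1)) (vals W)) (Lev n (k - (m + 1))) l ≤ 2 ^ (m + 1 - 4) := by
    intro W hW l
    exact (load_Lev hmk (by omega) hkm hn2 W hW l).trans (Nat.pow_le_pow_right (by norm_num) (by omega))
  obtain ⟨L1, L1', hL1, hL1', hc, hcb, hsim, hf1, hf2⟩ := stage (MM k) (NN (m + 1)) (vals ω) (vals ω')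
    (vals_lt ω) (vals_lt ω') (DA k (m + 1)) 64 (2 ^ (m + 1 - 4)) (2 ^ (2 * (m + 1) - 15))
    (2 ^ (3 * (m + 1) - 8)) (by norm_num) hDA hR hRN (KK k (m + 1)) (ff k (m + 1))
    (hf_lemma hk hm hmk hkm) L L' (Lev n (k - (m + 1))) (hdisj L hI.hL) (hdisj L' hI.hL') hI.hc
    hI.mu hI.mu' (mult_Lev hmk hkm ω hS) (mult_Lev hmk hkm ω' hS') hI.ld hI.ld' (hll ω hS)
    (fun w hw _ => hS.pairs (m + 1) hmk hkm w hw) (fun w hw _ => hS'.pairs (m + 1) hmk hkm w hw) hcardLev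
  have hcompl : (Dj n (k - m))ᶜ = (Dj n (k - (m + 1)))ᶜ ∪ Lev n (k - (m + 1)) := by
    rw [hj]
    ext x
    have hsub := Dj_succ_subset n (k - (m + 1))
    simp only [Lev, mem_compl, mem_union, mem_sdiff]
    constructor
    · intro hx
      by_cases h : x ∈ Dj n (k - (m + 1))
      · exact Or.inr ⟨h, hx⟩
      · exact Or.inl h
    · rintro (h | h)
      · exact fun hx => h (hsub hx)
      · exact h.2
  have hnew : ∀ S S1 : Finset (Fin n), S ⊆ (Dj n (k - (m + 1)))ᶜ → S1 ⊆ S ∪ Lev n (k - (m + 1)) →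
      (Dj n (k - m))ᶜ \ S1 = ((Dj n (k - (m + 1)))ᶜ \ S) ∪ ((S ∪ Lev n (k - (m + 1))) \ S1) := by
    intro S S1 hS hS1
    rw [hcompl]
    ext x
    simp only [mem_sdiff, mem_union]
    constructor
    · rintro ⟨h1 | h1, h2⟩
      · by_cases hx : x ∈ S
        · exact Or.inr ⟨Or.inl hx, h2⟩
        · exact Or.inl ⟨h1, hx⟩
      · exact Or.inr ⟨Or.inr h1, h2⟩
    · rintro (⟨h1, h2⟩ | ⟨h1 | h1, h2⟩)
      · refine ⟨Or.inl h1, fun hx => ?_⟩
        rcases Finset.mem_union.1 (hS1 hx) with h3 | h3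
        · exact h2 h3
        · exact (Finset.mem_compl.1 h1) (hLevD h3)
      · exact ⟨Or.inl (hS h1), h2⟩
      · exact ⟨Or.inr h1, h2⟩
  obtain ⟨nl1, nm1⟩ := newload hk hm hmk hkm hn2 ω hS L L1 hL1 hf1
  obtain ⟨nl2, nm2⟩ := newload hk hm hmk hkm hn2 ω' hS' L' L1' hL1' hf2
  refine ⟨L1, L1', κ + 12 * KK k (m + 1), ?_, ?_, hc, ?_, nl1, nl2, nm1, nm2, ?_, ?_⟩
  · rw [hcompl]
    exact hL1.trans (Finset.union_subset_union hI.hL (Finset.Subset.refl _))
  · rw [hcompl]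
    exact hL1'.trans (Finset.union_subset_union hI.hL' (Finset.Subset.refl _))
  · refine hcb.trans ?_
    have hff := ff_le hm hkm
    have h1 : NN (m + 1) * ff k (m + 1) ≤ NN (m + 1) * 2 ^ (m + 1 - 22) := Nat.mul_le_mul_left _ hff
    have h2 : NN (m + 1) * 2 ^ (m + 1 - 22) = 2 ^ (3 * (m + 1) - 10) := by
      unfold NN
      rw [← pow_add]
      congr 1
      omega
    rw [h2] at h1
    obtain ⟨d, hd⟩ : ∃ d, 3 * (m + 1) - 10 = d := ⟨_, rfl⟩
    have e1 : 3 * (m + 1) - 8 = d + 2 := by omega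
    have e2 : 3 * m - 4 = d + 3 := by omega
    rw [hd] at h1
    rw [e1, e2, pow_add, pow_add]
    generalize NN (m + 1) * ff k (m + 1) = x at *
    omega
  · rw [hnew L L1 hI.hL hL1, hnew L' L1' hI.hL' hL1']
    apply hI.sim.union hsim
    · rw [Finset.disjoint_left]
      intro x hx hx'
      simp only [mem_sdiff, mem_union] at hx hx'
      rcases hx'.1 with h3 | h3
      · exact hx.2 h3
      · exact (Finset.mem_compl.1 hx.1) (hLevD h3)
    · rw [Finset.disjoint_left]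
      intro x hx hx'
      simp only [mem_sdiff, mem_union] at hx hx'
      rcases hx'.1 with h3 | h3
      · exact hx.2 h3
      · exact (Finset.mem_compl.1 hx.1) (hLevD h3)
  · have h1 := hI.cost
    have h2 := KK_le (k := k) (m := m + 1) hk
    have e1 : (k - m) * EE k = (k - (m + 1)) * EE k + EE k := by
      rw [hj]; ring
    have e2 : AA * 2 ^ (m + 1 + 1) = AA * 2 ^ (m + 1) + AA * 2 ^ (m + 1) := by
      rw [pow_succ]; ring
    rw [e2] at h1
    rw [e1]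
    generalize AA * 2 ^ (m + 1) = x at *
    generalize AA * 2 ^ (k + 1) = y at *
    generalize (k - (m + 1)) * EE k = z at *
    omega

theorem Inv_all {n k : ℕ} (hk : 120 ≤ k) (hn1 : 8 ^ k ≤ n) (hn2 : n < 8 ^ (k + 1))
    (ω ω' : Fin n → Fin (MM k)) (hS : Static n k ω) (hS' : Static n k ω') :
    ∀ t m : ℕ, m + t = k → k ≤ 3 * (m + 1) → ∃ L L' κ, Inv n k ω ω' m L L' κ := by
  intro t
  induction t with
  | zero =>
    intro m hm _
    have : m = k := by omega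
    subst this
    exact ⟨_, _, _, Inv_init n m ω ω'⟩
  | succ t ih =>
    intro m hm hkm
    exact Inv_step hk (by omega) (by omega) hkm hn1 hn2 ω ω' hS hS' (ih (m + 1) (by omega) (by omega))

theorem cube_le (q : ℕ) : (q + 1) ^ 3 ≤ 8 * 2 ^ q := by
  rcases Nat.lt_or_ge q 4 with h | h
  · interval_cases q <;> norm_num
  · induction q, h using Nat.le_induction with
    | base => norm_num
    | succ q hq ih =>
      have h1 : (q + 1 + 1) ^ 3 ≤ 2 * (q + 1) ^ 3 := by nlinarith [sq_nonneg (q : ℤ), hq, mul_le_mul hq hq (by norm_num) (by omega)]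
      calc (q + 1 + 1) ^ 3 ≤ 2 * (q + 1) ^ 3 := h1
        _ ≤ 2 * (8 * 2 ^ q) := Nat.mul_le_mul_left _ ih
        _ = 8 * 2 ^ (q + 1) := by rw [pow_succ]; ring

theorem kEE (k : ℕ) : k * EE k ≤ 2 ^ 69 * 2 ^ k := by
  unfold EE
  set q := k / 5 with hq
  have h1 : k ≤ 5 * (q + 1) := by omega
  have h2 : (4 * k + 4) / 5 ≤ 4 * q + 4 := by omega
  have h3 : 5 * q ≤ k := by omega
  calc k * (12 * (14 * k * (100 * k)) * 2 ^ 40 * 2 ^ ((4 * k + 4) / 5))
      = 16800 * 2 ^ 40 * (k ^ 3 * 2 ^ ((4 * k + 4) / 5)) := by ring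
    _ ≤ 16800 * 2 ^ 40 * ((5 * (q + 1)) ^ 3 * 2 ^ (4 * q + 4)) := by
        apply Nat.mul_le_mul_left
        exact Nat.mul_le_mul (Nat.pow_le_pow_left h1 3) (Nat.pow_le_pow_right (by norm_num) h2)
    _ = 16800 * 2 ^ 40 * (125 * (q + 1) ^ 3 * 2 ^ (4 * q + 4)) := by ring
    _ ≤ 16800 * 2 ^ 40 * (125 * (8 * 2 ^ q) * 2 ^ (4 * q + 4)) := by
        apply Nat.mul_le_mul_left
        apply Nat.mul_le_mul_right
        exact Nat.mul_le_mul_left _ (cube_le q)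
    _ = 16800 * 2 ^ 40 * 16000 * 2 ^ (5 * q) := by
        have : 2 ^ (5 * q) = 2 ^ q * 2 ^ (4 * q) := by rw [← pow_add]; congr 1; ring
        rw [this, pow_add]; ring
    _ ≤ 2 ^ 69 * 2 ^ k := by
        apply Nat.mul_le_mul
        · norm_num
        · exact Nat.pow_le_pow_right (by norm_num) h3

theorem det {n k : ℕ} (hk : 120 ≤ k) (hn1 : 8 ^ k ≤ n) (hn2 : n < 8 ^ (k + 1))
    (ω ω' : Fin n → Fin (MM k)) (hS : Static n k ω) (hS' : Static n k ω') :
    Sim (vals ω) (vals ω') (2 ^ 70 * 2 ^ k) univ univ := by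
  classical
  set m := (k - 1) / 3 with hm
  obtain ⟨L, L', κ, hI⟩ := Inv_all hk hn1 hn2 ω ω' hS hS' (k - m) m (by omega) (by omega)
  have hcd : ∀ S : Finset (Fin n), S ⊆ (Dj n (k - m))ᶜ → (S ∪ Dj n (k - m)).card = S.card + n / 8 ^ (k - m) := by
    intro S hS
    rw [Finset.card_union_of_disjoint, card_Dj]
    rw [Finset.disjoint_left]
    intro x hx hx'
    exact (Finset.mem_compl.1 (hS hx)) hx'
  have h1 := hcd L hI.hL
  have h2 := hcd L' hI.hL'
  have hs := Sim.single (vals ω) (vals ω') (A := L ∪ Dj n (k - m)) (B := L' ∪ Dj n (k - m)) (by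
    rw [h1, h2, hI.hc])
  have hu : ∀ S : Finset (Fin n), S ⊆ (Dj n (k - m))ᶜ →
      ((Dj n (k - m))ᶜ \ S) ∪ (S ∪ Dj n (k - m)) = univ ∧
      Disjoint ((Dj n (k - m))ᶜ \ S) (S ∪ Dj n (k - m)) := by
    intro S hS
    constructor
    · ext x
      simp only [mem_union, mem_sdiff, mem_compl, mem_univ, iff_true]
      tauto
    · rw [Finset.disjoint_left]
      intro x hx hx'
      simp only [mem_union, mem_sdiff, mem_compl] at hx hx'
      tauto
  have htot := hI.sim.union hs (hu L hI.hL).2 (hu L' hI.hL').2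
  rw [(hu L hI.hL).1, (hu L' hI.hL').1] at htot
  apply htot.mono
  rw [h1]
  have h3 := hI.hc2
  have h4 : n / 8 ^ (k - m) < 8 ^ (m + 1) := div_pow_lt (by omega) hn2
  rw [pow8 (m + 1)] at h4
  have h5 : 2 ^ (3 * (m + 1)) ≤ 2 ^ (k + 2) := Nat.pow_le_pow_right (by norm_num) (by omega)
  have h6 : 2 ^ (3 * m - 4) ≤ 2 ^ k := Nat.pow_le_pow_right (by norm_num) (by omega)
  have h7 := hI.cost
  have h8 : (k - m) * EE k ≤ 2 ^ 69 * 2 ^ k := (Nat.mul_le_mul_right _ (Nat.sub_le _ _)).trans (kEE k)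
  have h9 : AA * 2 ^ (k + 1) ≤ 2 ^ 60 * 2 ^ k := by
    unfold AA
    rw [pow_succ 2 k]
    have : 12 * 14 * 64 * 2 ^ 40 * (2 ^ k * 2) = (12 * 14 * 64 * 2 ^ 40 * 2) * 2 ^ k := by ring
    rw [this]
    exact Nat.mul_le_mul_right _ (by norm_num)
  have h10 : κ ≤ 2 ^ 60 * 2 ^ k + 2 ^ 69 * 2 ^ k := by
    calc κ ≤ κ + AA * 2 ^ (m + 1) := Nat.le_add_right _ _
      _ ≤ _ := h7
      _ ≤ _ := Nat.add_le_add h9 h8
  rw [pow_add 2 k 2] at h5
  generalize n / 8 ^ (k - m) = x at *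
  generalize 2 ^ k = y at *
  generalize 2 ^ (3 * (m + 1)) = z at *
  omega

end Pool.Agent.H240R3
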