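import Mathlib
import Pool.Agent.H240R3.SimK
set_option autoImplicit false

namespace Pool.Agent.H240R3

open Finset

/-- a permutation that is realised by a pseudo-random word. -/
def GoodPerm (n k : ℕ) (σ : Equiv.Perm (Fin n)) : Prop :=
  ∃ (S : Finset (Fin (MM k))) (h : S.card = n), Static n k (fun i => S.orderEmbOfFin h (σ i))

theorem good_pair {n k : ℕ} (hk : 120 ≤ k) (hn1 : 8 ^ k ≤ n) (hn2 : n < 8 ^ (k + 1))
    (σ π : Equiv.Perm (Fin n)) (h1 : GoodPerm n k σ) (h2 : GoodPerm n k π) (K : ℕ)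
    (hK : 2 ^ 70 * 2 ^ k ≤ K) :
    ∃ c : Fin n → Fin K, ∃ g : Equiv.Perm (Fin n), ∀ a a' : Fin n, c a = c a' →
      ((a < a' ↔ g a < g a') ∧ (σ a < σ a' ↔ π (g a) < π (g a'))) := by
  obtain ⟨S, hS, hs⟩ := h1
  obtain ⟨T, hT, ht⟩ := h2
  obtain ⟨c, g, hcg⟩ := (det hk hn1 hn2 _ _ hs ht).toFin hK
  refine ⟨c, g, fun a a' haa => ?_⟩
  have h := hcg a a' haa
  refine ⟨h.1, ?_⟩
  have e1 : (vals (fun i => S.orderEmbOfFin hS (σ i)) a < vals (fun i => S.orderEmbOfFin hS (σ i)) a') ↔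
      σ a < σ a' := by
    simp only [vals]
    rw [← Fin.lt_def]
    exact (S.orderEmbOfFin hS).lt_iff_lt
  have e2 : (vals (fun i => T.orderEmbOfFin hT (π i)) (g a) < vals (fun i => T.orderEmbOfFin hT (π i)) (g a')) ↔
      π (g a) < π (g a') := by
    simp only [vals]
    rw [← Fin.lt_def]
    exact (T.orderEmbOfFin hT).lt_iff_lt
  rw [e1, e2] at h
  exact h.2

open Classical in
theorem bad_perm_card (n k : ℕ) :
    ((univ : Finset (Equiv.Perm (Fin n))).filter (fun σ => ¬ GoodPerm n k σ)).card * (MM k).choose n ≤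
      ((univ : Finset (Fin n → Fin (MM k))).filter (fun ω => ¬ Static n k ω)).card := by
  have hc : (MM k).choose n = ((powersetCard n (univ : Finset (Fin (MM k)))).attach).card := by
    rw [Finset.card_attach, Finset.card_powersetCard, Finset.card_univ, Fintype.card_fin]
  rw [hc, ← Finset.card_product]
  apply Finset.card_le_card_of_injOn
    (fun x i => x.2.1.orderEmbOfFin (Finset.mem_powersetCard.1 x.2.2).2 (x.1 i))
  · rintro ⟨σ, S⟩ hx
    simp only [coe_product, Set.mem_prod, coe_filter, mem_univ, true_and, Set.mem_ofPred_eq] at hx ⊢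
    intro hst
    exact hx.1 ⟨S.1, (Finset.mem_powersetCard.1 S.2).2, hst⟩
  · rintro ⟨σ, S⟩ _ ⟨τ, T⟩ _ h
    dsimp only at h
    have hST : S = T := by
      apply Subtype.ext
      apply Finset.coe_injective
      rw [← Finset.range_orderEmbOfFin S.1 (Finset.mem_powersetCard.1 S.2).2,
        ← Finset.range_orderEmbOfFin T.1 (Finset.mem_powersetCard.1 T.2).2]
      ext y
      constructor
      · rintro ⟨i, rfl⟩
        have := congrFun h (σ.symm i)
        simp only [Equiv.apply_symm_apply] at this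
        exact ⟨_, this.symm⟩
      · rintro ⟨i, rfl⟩
        have := congrFun h (τ.symm i)
        simp only [Equiv.apply_symm_apply] at this
        exact ⟨_, this⟩
    subst hST
    have : σ = τ := by
      apply Equiv.ext
      intro i
      exact (S.1.orderEmbOfFin (Finset.mem_powersetCard.1 S.2).2).injective (congrFun h i)
    rw [this]

theorem desc_lower {n k : ℕ} (hn2 : n < 8 ^ (k + 1)) :
    ((MM k : ℝ) ^ n) / 2 ≤ (n.factorial : ℝ) * ((MM k).choose n : ℝ) := by
  have h1 : (MM k + 1 - n) ^ n ≤ n.factorial * (MM k).choose n := by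
    rw [← Nat.descFactorial_eq_factorial_mul_choose]
    exact Nat.pow_sub_le_descFactorial (MM k) n
  have hM : 2 * (n * n) ≤ MM k := by
    have h2 : n * n ≤ 8 ^ (k + 1) * 8 ^ (k + 1) := Nat.mul_le_mul hn2.le hn2.le
    calc 2 * (n * n) ≤ 2 * (8 ^ (k + 1) * 8 ^ (k + 1)) := Nat.mul_le_mul_left _ h2
      _ = 2 ^ (6 * k + 7) := by
          rw [pow8, ← pow_add, ← pow_succ']; congr 1; ring
      _ ≤ MM k := by
          unfold MM
          exact Nat.pow_le_pow_right (by norm_num) (by omega)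
  have hMpos : (0 : ℝ) < MM k := by
    have : 0 < MM k := by unfold MM; positivity
    exact_mod_cast this
  have hnM : n ≤ MM k := by nlinarith [Nat.zero_le n]
  have h3 : ((MM k : ℝ) - n) ^ n ≤ ((MM k + 1 - n : ℕ) : ℝ) ^ n := by
    apply pow_le_pow_left₀
    · have : (n : ℝ) ≤ MM k := by exact_mod_cast hnM
      linarith
    · rw [Nat.cast_sub (by omega)]
      push_cast
      linarith
  have h4 : ((MM k : ℝ) - n) ^ n = (MM k : ℝ) ^ n * (1 + (-(n : ℝ) / MM k)) ^ n := by
    rw [← mul_pow]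
    congr 1
    field_simp
    ring
  have hr : (n : ℝ) / MM k ≤ 1 := by
    rw [div_le_one hMpos]
    exact_mod_cast hnM
  have h5 : 1 + (n : ℝ) * (-(n : ℝ) / MM k) ≤ (1 + (-(n : ℝ) / MM k)) ^ n := by
    apply one_add_mul_le_pow
    rw [neg_div]
    linarith
  have h6 : (1 : ℝ) / 2 ≤ 1 + (n : ℝ) * (-(n : ℝ) / MM k) := by
    have h7 : (n : ℝ) * n / MM k ≤ 1 / 2 := by
      rw [div_le_div_iff₀ hMpos (by norm_num)]
      have : (2 : ℝ) * (n * n) ≤ MM k := by exact_mod_cast hM
      linarith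
    have h8 : (n : ℝ) * (-(n : ℝ) / MM k) = -((n : ℝ) * n / MM k) := by ring
    rw [h8]
    linarith
  calc ((MM k : ℝ) ^ n) / 2 = (MM k : ℝ) ^ n * (1 / 2) := by ring
    _ ≤ (MM k : ℝ) ^ n * (1 + (-(n : ℝ) / MM k)) ^ n :=
        mul_le_mul_of_nonneg_left (h6.trans h5) (by positivity)
    _ = ((MM k : ℝ) - n) ^ n := h4.symm
    _ ≤ ((MM k + 1 - n : ℕ) : ℝ) ^ n := h3
    _ ≤ _ := by exact_mod_cast h1

/-- error term -/
noncomputable def err (k : ℕ) : ℝ := (k + 1) * (3 * 2 ^ (4 * k + 24)) * Real.exp (-(4 * k : ℝ))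

open Classical in
theorem bad_perm_frac {n k : ℕ} (hk : 120 ≤ k) (hn2 : n < 8 ^ (k + 1)) :
    (((univ : Finset (Equiv.Perm (Fin n))).filter (fun σ => ¬ GoodPerm n k σ)).card : ℝ) ≤
      2 * err k * (n.factorial : ℝ) := by
  have h1 := bad_perm_card n k
  have h2 := static_count n k hk hn2
  have h3 := desc_lower (k := k) hn2
  set b := ((univ : Finset (Equiv.Perm (Fin n))).filter (fun σ => ¬ GoodPerm n k σ)).card
  have h4 : (b : ℝ) * ((MM k).choose n : ℝ) ≤ err k * (MM k : ℝ) ^ n := by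
    refine le_trans ?_ h2
    exact_mod_cast h1
  have herr : 0 ≤ err k := by unfold err; positivity
  have hMpos : (0 : ℝ) < (MM k : ℝ) ^ n := by
    have : 0 < MM k := by unfold MM; positivity
    have h : (0 : ℝ) < MM k := by exact_mod_cast this
    positivity
  have hf : (0 : ℝ) < n.factorial := by exact_mod_cast Nat.factorial_pos n
  have h5 : (b : ℝ) * ((MM k).choose n : ℝ) ≤ err k * (2 * ((n.factorial : ℝ) * ((MM k).choose n : ℝ))) := by
    refine h4.trans (mul_le_mul_of_nonneg_left ?_ herr)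
    linarith
  have hC : (0 : ℝ) < ((MM k).choose n : ℝ) := by
    have : 0 < (n.factorial : ℝ) * ((MM k).choose n : ℝ) := by linarith
    exact (pos_iff_pos_of_mul_pos this).1 hf
  have h6 : (b : ℝ) * ((MM k).choose n : ℝ) ≤ (2 * err k * (n.factorial : ℝ)) * ((MM k).choose n : ℝ) := by
    refine h5.trans (le_of_eq ?_)
    ring
  exact le_of_mul_le_mul_right h6 hC

theorem err_tendsto : Filter.Tendsto err Filter.atTop (nhds 0) := by
  have hexp : Real.exp (-4) * 16 ≤ 1 / 2 := by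
    have h2 : (2.7 : ℝ) ≤ Real.exp 1 := by
      have := Real.exp_one_gt_d9
      linarith
    have h1 : Real.exp 4 = (Real.exp 1) ^ 4 := by
      rw [← Real.exp_nat_mul]; norm_num
    have h3 : (32 : ℝ) ≤ Real.exp 4 := by
      rw [h1]
      calc (32 : ℝ) ≤ 2.7 ^ 4 := by norm_num
        _ ≤ _ := pow_le_pow_left₀ (by norm_num) h2 4
    rw [Real.exp_neg, inv_mul_le_iff₀ (Real.exp_pos _)]
    linarith
  have hle : ∀ k, err k ≤ (3 * 2 ^ 24) * ((k : ℝ) * (1 / 2) ^ k + (1 / 2) ^ k) := by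
    intro k
    unfold err
    have e1 : (2 : ℝ) ^ (4 * k + 24) * Real.exp (-(4 * k : ℝ)) = 2 ^ 24 * (Real.exp (-4) * 16) ^ k := by
      rw [mul_pow, ← Real.exp_nat_mul, pow_add, pow_mul]
      have : (k : ℝ) * -4 = -(4 * k) := by ring
      rw [this]
      norm_num
      ring
    have e2 : (Real.exp (-4) * 16) ^ k ≤ (1 / 2) ^ k :=
      pow_le_pow_left₀ (by positivity) hexp k
    have hk0 : (0 : ℝ) ≤ k := Nat.cast_nonneg k
    calc ((k : ℝ) + 1) * (3 * 2 ^ (4 * k + 24)) * Real.exp (-(4 * k : ℝ))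
        = (k + 1) * 3 * (2 ^ (4 * k + 24) * Real.exp (-(4 * k : ℝ))) := by ring
      _ = (k + 1) * 3 * (2 ^ 24 * (Real.exp (-4) * 16) ^ k) := by rw [e1]
      _ ≤ (k + 1) * 3 * (2 ^ 24 * (1 / 2) ^ k) := by
          apply mul_le_mul_of_nonneg_left _ (by positivity)
          exact mul_le_mul_of_nonneg_left e2 (by positivity)
      _ = _ := by ring
  have hlim : Filter.Tendsto (fun k : ℕ => (3 * 2 ^ 24 : ℝ) * ((k : ℝ) * (1 / 2) ^ k + (1 / 2) ^ k))
      Filter.atTop (nhds 0) := by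
    have h1 := tendsto_self_mul_const_pow_of_lt_one (r := (1 / 2 : ℝ)) (by norm_num) (by norm_num)
    have h2 := tendsto_pow_atTop_nhds_zero_of_lt_one (r := (1 / 2 : ℝ)) (by norm_num) (by norm_num)
    have h3 := (h1.add h2).const_mul (3 * 2 ^ 24 : ℝ)
    simpa using h3
  exact squeeze_zero (fun k => by unfold err; positivity) hle hlim

theorem log8_tendsto : Filter.Tendsto (fun n => Nat.log 8 n) Filter.atTop Filter.atTop := by
  rw [Filter.tendsto_atTop]
  intro b
  filter_upwards [Filter.eventually_ge_atTop (8 ^ b)] with n hn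
  exact Nat.le_log_of_pow_le (by norm_num) hn

end Pool.Agent.H240R3
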